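import Pool.Agent.RVI.Alg0

/-! # The measure algebra: basic rules (package A1)

(problem MP_75f27a_lc, project RVI)

`RO.mem_cl` (the set `{p | μ (p.1 \ A) = 0}` is closed downwards) says `p ∈ cl μ A` iff every
`q ≤ p`
has an `r ≤ q` with `μ (r \ A) = 0`.
* `mem_cl`: `→`: suppose `μ (p \ A) > 0`. `p \ A` is null measurable; take a measurable
  `B ⊆ p \ A` with
  `B =ᵐ p \ A` (`NullMeasurableSet.exists_measurable_subset_ae_eq`); `q := ⟨B, _⟩ ≤ p`, and for
  `r ≤ q`: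
  `r \ A = r` has positive measure. `←`: monotonicity, take `r := q`.
* `mem_cl_ae`: `ae_le_set` (`s ≤ᵐ t ↔ μ (s \ t) = 0`).
* `cl_congr`: `μ (p \ A) = μ (p \ A')` (`measure_congr`), so the two sets of conditions are equal.
* `cl_le`: `→`: if `μ (A \ A') > 0` take a measurable `B ⊆ A \ A'`, `B =ᵐ A \ A'`: a condition in
  `cl A` but
  not in `cl A'`. `←`: `mem_cl_ae` and transitivity.
* `cl_iInter` (countable index type, a `Sort`-free version is enough): `RO.mem_iInf`, `mem_cl`,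
  `p \ ⋂ A_i = ⋃ (p \ A_i)`, `measure_iUnion_null_iff`. `cl_inter`: the same with `RO.mem_inf`.
* `cl_compl`: `RO.mem_compl`: `p ∈ (cl A)ᶜ` iff no `q ≤ p` is in `cl A`. If `μ (p ∩ A) = 0` then no
  `q ≤ p` is in `cl A` (`μ q ≤ μ (q \ A) + μ (q ∩ A)`); if `μ (p ∩ A) > 0` take a measurable
  `B ⊆ p ∩ A` of positive measure: `⟨B, _⟩ ∈ cl A`.
* `cl_iUnion`, `cl_union`, `cl_himp`: by complements (`compl_iSup`, `himp_eq`) from the previous
  ones.
* `cl_univ`, `cl_empty`, `cl_chi` (cases `c` true or false), `up_eq`: `RO.mem_up` and `mem_cl`: if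
  `μ (q \ p) = 0` then every `r ≤ q` has `t := r ∩ p ≤ r, p` of positive measure; conversely if
  `μ (q \ p) > 0` then `r := q \ p` has no such `t`. `ne_bot_iff`: `⊥` has no elements. -/

set_option autoImplicit false

namespace RVI

open MeasureTheory ENNReal STP

variable {Ω : Type} [MeasurableSpace Ω] {μ : Measure Ω} [IsProbabilityMeasure μ] {A A' : Set Ω}
  {p : Ps μ}

omit [IsProbabilityMeasure μ] in
private theorem ex_sub {C : Set Ω} (hC : NullMeasurableSet C μ) (h : μ C ≠ 0) :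
    ∃ q : Ps μ, q.1 ⊆ C := by
  obtain ⟨t, htC, ht, h2⟩ := hC.exists_measurable_subset_ae_eq
  refine ⟨⟨t, ht, ?_⟩, htC⟩
  rw [measure_congr h2]
  exact pos_iff_ne_zero.2 h

omit [IsProbabilityMeasure μ] in
private theorem mono_s {C D : Set Ω} (h : C ⊆ D) (A : Set Ω) (h' : μ (D \ A) = 0) :
    μ (C \ A) = 0 :=
  measure_mono_null (fun _ hx => (⟨h hx.1, hx.2⟩ : _ ∈ D \ A)) h'

theorem mem_cl (hA : NullMeasurableSet A μ) : p ∈ cl μ A ↔ μ (p.1 \ A) = 0 := by
  unfold cl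
  rw [RO.mem_cl]
  · constructor
    · intro h
      by_contra h1
      obtain ⟨q, hq⟩ := ex_sub (p.2.1.nullMeasurableSet.diff hA) h1
      obtain ⟨r, hr, hr2⟩ := h q (fun ω hω => (hq hω).1)
      have h3 : r.1 ⊆ r.1 \ A := fun ω hω => ⟨hω, (hq (hr hω)).2⟩
      exact r.2.2.ne' (measure_mono_null h3 hr2)
    · intro h q hq
      exact ⟨q, le_rfl, mono_s hq A h⟩
  · intro p q hqp hp
    exact mono_s hqp A hp

theorem mem_cl_ae (hA : NullMeasurableSet A μ) : p ∈ cl μ A ↔ p.1 ≤ᵐ[μ] A := by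
  rw [mem_cl hA, ae_le_set]

theorem cl_congr (h : A =ᵐ[μ] A') : cl μ A = cl μ A' := by
  unfold cl
  have h1 : {p : Ps μ | μ (p.1 \ A) = 0} = {p | μ (p.1 \ A') = 0} := by
    ext p
    have h2 : (p.1 \ A : Set Ω) =ᵐ[μ] (p.1 \ A' : Set Ω) :=
      (Filter.EventuallyEq.refl _ _).diff h
    change μ (p.1 \ A) = 0 ↔ μ (p.1 \ A') = 0
    rw [measure_congr h2]
  rw [h1]

theorem cl_le (hA : NullMeasurableSet A μ) (hA' : NullMeasurableSet A' μ) :
    cl μ A ≤ cl μ A' ↔ A ≤ᵐ[μ] A' := by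
  constructor
  · intro h
    rw [ae_le_set]
    by_contra h1
    obtain ⟨q, hq⟩ := ex_sub (hA.diff hA') h1
    have h2 : q ∈ cl μ A := by
      rw [mem_cl hA]
      have h3 : q.1 \ A = ∅ := Set.sdiff_eq_empty.2 fun ω hω => (hq hω).1
      rw [h3, measure_empty]
    have h4 := (mem_cl hA').1 (h q h2)
    have h5 : q.1 ⊆ q.1 \ A' := fun ω hω => ⟨hω, (hq hω).2⟩
    exact q.2.2.ne' (measure_mono_null h5 h4)
  · intro h p hp
    rw [mem_cl_ae hA'] at *
    rw [mem_cl_ae hA] at hp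
    exact hp.trans h

theorem cl_eq (hA : NullMeasurableSet A μ) (hA' : NullMeasurableSet A' μ) :
    cl μ A = cl μ A' ↔ A =ᵐ[μ] A' := by
  constructor
  · intro h
    exact ((cl_le hA hA').1 h.le).antisymm ((cl_le hA' hA).1 h.ge)
  · exact cl_congr

theorem cl_iInter {ι : Type} [Countable ι] {A : ι → Set Ω} (hA : ∀ i, NullMeasurableSet (A i) μ) :
    cl μ (⋂ i, A i) = ⨅ i, cl μ (A i) := by
  refine RO.ext' fun p => ?_
  rw [RO.mem_iInf, mem_cl (NullMeasurableSet.iInter hA)]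
  have h1 : p.1 \ (⋂ i, A i) = ⋃ i, (p.1 \ A i) := by
    rw [Set.sdiff_iInter]
  rw [h1, measure_iUnion_null_iff]
  exact forall_congr' fun i => (mem_cl (hA i)).symm

theorem cl_inter (hA : NullMeasurableSet A μ) (hA' : NullMeasurableSet A' μ) :
    cl μ (A ∩ A') = cl μ A ⊓ cl μ A' := by
  refine RO.ext' fun p => ?_
  rw [RO.mem_inf, mem_cl (hA.inter hA'), mem_cl hA, mem_cl hA']
  rw [Set.sdiff_inter, measure_union_null_iff]

theorem cl_compl (hA : NullMeasurableSet A μ) : cl μ Aᶜ = (cl μ A)ᶜ := by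
  refine RO.ext' fun p => ?_
  rw [RO.mem_compl, mem_cl hA.compl, Set.sdiff_compl]
  constructor
  · intro h q hq h1
    rw [mem_cl hA] at h1
    have h2 : q.1 ⊆ (q.1 \ A) ∪ (p.1 ∩ A) := by
      intro ω hω
      by_cases h3 : ω ∈ A
      · exact Or.inr ⟨hq hω, h3⟩
      · exact Or.inl ⟨hω, h3⟩
    exact q.2.2.ne' (measure_mono_null h2 (measure_union_null h1 h))
  · intro h
    by_contra h1
    obtain ⟨q, hq⟩ := ex_sub (p.2.1.nullMeasurableSet.inter hA) h1
    refine h q (fun ω hω => (hq hω).1) ?_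
    rw [mem_cl hA]
    have h3 : q.1 \ A = ∅ := Set.sdiff_eq_empty.2 fun ω hω => (hq hω).2
    rw [h3, measure_empty]

theorem cl_iUnion {ι : Type} [Countable ι] {A : ι → Set Ω} (hA : ∀ i, NullMeasurableSet (A i) μ) :
    cl μ (⋃ i, A i) = ⨆ i, cl μ (A i) := by
  rw [← compl_inj_iff, ← cl_compl (NullMeasurableSet.iUnion hA), compl_iSup, Set.compl_iUnion,
    cl_iInter fun i => (hA i).compl]
  exact iInf_congr fun i => cl_compl (hA i)

theorem cl_union (hA : NullMeasurableSet A μ) (hA' : NullMeasurableSet A' μ) :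
    cl μ (A ∪ A') = cl μ A ⊔ cl μ A' := by
  rw [← compl_inj_iff, ← cl_compl (hA.union hA'), compl_sup, Set.compl_union,
    cl_inter hA.compl hA'.compl, cl_compl hA, cl_compl hA']

theorem cl_himp (hA : NullMeasurableSet A μ) (hA' : NullMeasurableSet A' μ) :
    cl μ (Aᶜ ∪ A') = cl μ A ⇨ cl μ A' := by
  rw [cl_union hA.compl hA', cl_compl hA, himp_eq, sup_comm]

theorem cl_univ : cl μ (Set.univ : Set Ω) = ⊤ := by
  refine RO.ext' fun p => ?_
  rw [mem_cl MeasurableSet.univ.nullMeasurableSet, Set.sdiff_univ, measure_empty]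
  exact ⟨fun _ => RO.mem_top, fun _ => rfl⟩

theorem cl_empty : cl μ (∅ : Set Ω) = ⊥ := by
  refine RO.ext' fun p => ?_
  rw [mem_cl MeasurableSet.empty.nullMeasurableSet, Set.sdiff_empty]
  exact ⟨fun h => absurd h p.2.2.ne', fun h => absurd h RO.not_mem_bot⟩

theorem cl_chi (c : Prop) : cl μ {_ω : Ω | c} = chi c := by
  refine RO.ext' fun p => ?_
  rw [RO.mem_chi]
  by_cases hc : c
  · have h1 : {_ω : Ω | c} = Set.univ := Set.eq_univ_of_forall fun _ => hc
    rw [h1, cl_univ]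
    exact ⟨fun _ => hc, fun _ => RO.mem_top⟩
  · have h1 : {_ω : Ω | c} = ∅ := Set.eq_empty_of_forall_notMem fun _ h => hc h
    rw [h1, cl_empty]
    exact ⟨fun h => absurd h RO.not_mem_bot, fun h => absurd h hc⟩

theorem up_eq (p : Ps μ) : RO.up p = cl μ p.1 := by
  refine RO.ext' fun q => ?_
  rw [RO.mem_up, mem_cl p.2.1.nullMeasurableSet]
  constructor
  · intro h
    by_contra h1
    have hm : MeasurableSet (q.1 \ p.1) := q.2.1.diff p.2.1
    obtain ⟨t, ht, ht2⟩ := h ⟨q.1 \ p.1, hm, pos_iff_ne_zero.2 h1⟩ (fun ω hω => hω.1)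
    have h2 : t.1 ⊆ ∅ := fun ω hω => (ht hω).2 (ht2 hω)
    exact t.2.2.ne' (measure_mono_null h2 measure_empty)
  · intro h r hr
    have h1 : μ (r.1 ∩ p.1) ≠ 0 := by
      intro h2
      have h3 : r.1 ⊆ (r.1 ∩ p.1) ∪ (q.1 \ p.1) := by
        intro ω hω
        by_cases h4 : ω ∈ p.1
        · exact Or.inl ⟨hω, h4⟩
        · exact Or.inr ⟨hr hω, h4⟩
      exact r.2.2.ne' (measure_mono_null h3 (measure_union_null h2 h))
    exact ⟨⟨r.1 ∩ p.1, r.2.1.inter p.2.1, pos_iff_ne_zero.2 h1⟩, fun ω hω => hω.1,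
      fun ω hω => hω.2⟩

theorem cl_eq_bot (hA : NullMeasurableSet A μ) : cl μ A = ⊥ ↔ μ A = 0 := by
  rw [← cl_empty, cl_eq hA MeasurableSet.empty.nullMeasurableSet]
  exact ae_eq_empty

end RVI
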