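import Pool.Agent.RVI.Fd0

/-! # The ordered field of real numbers of the model, first part (package FA)

(problem MP_75f27a_lc, project RVI)

Every element of `RN μ` in `NG G` is some `nr μ f` (`mem_RN`: `Full.rep full_nr`), and the atomic
statements
are classes of measurable sets.
* `nr_eq`: `NG.mk_eq`, `eq_nr`. `nr_lt`: `rt_val`; `Ex2` holds as
  `{f < g} ∩ {f = f'} ∩ {g = g'} ⊆ {f' < g'}`
  (`eq_nr`, `cl_inter`, `cl_le`). `nr_add`, `nr_mul`: `gr2_ap` with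
  `{f = f'} ∩ {g = g'} ⊆ {f + g = f' + g'}`.
* all other statements: write the variables as `nr μ f` etc. (`mem_RN`), rewrite with `nr_eq`,
  `nr_lt`,
  `nr_add`, `nr_mul`, and use: if `cl μ A₁, …, cl μ A_k ∈ G.s` and `A₁ ∩ … ∩ A_k ⊆ B` then
  `cl μ B ∈ G.s`
  (`cl_mem_of_ae`, `inf_mem`, `cl_inter`). For example `lt_total`: the three sets cover `Ω`, so
  their
  classes have the supremum `⊤`; an ultrafilter contains `a` or `b` if it contains `a ⊔ b`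
  (`CPI.compl_mem` and `inf_mem`). `lt_irrefl`: `{f < f} = ∅`, `cl_empty`, `G.bot`.
  `add_neg`: `-f`; `mul_inv`: for `x ≠ o`, `x = nr f`: `cl {f = 0} ∉ G.s`, so `cl {f ≠ 0} ∈ G.s`
  (`cl_compl`, `compl_mem`), and `y := nr (fun ω => (f ω)⁻¹)`. -/

set_option autoImplicit false

namespace RVI

open MeasureTheory STP STP.BSet CPI

section

variable {Ω : Type} [MeasurableSpace Ω] {μ : Measure Ω} [IsProbabilityMeasure μ]
  (G : Ult (RO (Ps μ)))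

omit [IsProbabilityMeasure μ] in
private theorem m_eq (f g : RR Ω) : NullMeasurableSet {ω | f.1 ω = g.1 ω} μ :=
  (measurableSet_eq_fun f.2 g.2).nullMeasurableSet

omit [IsProbabilityMeasure μ] in
private theorem m_lt (f g : RR Ω) : NullMeasurableSet {ω | f.1 ω < g.1 ω} μ :=
  (measurableSet_lt f.2 g.2).nullMeasurableSet

private theorem up1 {G : Ult (RO (Ps μ))} {A B : Set Ω} (hA : NullMeasurableSet A μ)
    (hB : NullMeasurableSet B μ) (h : A ⊆ B) (hG : cl μ A ∈ G.s) : cl μ B ∈ G.s :=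
  cl_mem_of_ae hA hB (Filter.Eventually.of_forall fun _ hω => h hω) hG

private theorem up2 {G : Ult (RO (Ps μ))} {A A' B : Set Ω} (hA : NullMeasurableSet A μ)
    (hA' : NullMeasurableSet A' μ) (hB : NullMeasurableSet B μ)
    (h : ∀ ω, ω ∈ A → ω ∈ A' → ω ∈ B) (hG : cl μ A ∈ G.s) (hG' : cl μ A' ∈ G.s) :
    cl μ B ∈ G.s := by
  refine up1 (hA.inter hA') hB (fun ω hω => h ω hω.1 hω.2) ?_
  rw [cl_inter hA hA']
  exact inf_mem.2 ⟨hG, hG'⟩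

private theorem up0 {G : Ult (RO (Ps μ))} {B : Set Ω} (h : ∀ ω, ω ∈ B) : cl μ B ∈ G.s := by
  rw [Set.eq_univ_of_forall h, cl_univ]
  exact G.top

private theorem cl_mono {A B : Set Ω} (hA : NullMeasurableSet A μ)
    (hB : NullMeasurableSet B μ) (h : A ⊆ B) : cl μ A ≤ cl μ B :=
  (cl_le hA hB).2 (Filter.Eventually.of_forall fun _ hω => h hω)

theorem mem_RN {x : NG G} : EG G x (NG.mk G (RN μ)) ↔ ∃ f : RR Ω, x = NG.mk G (nr μ f) := by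
  constructor
  · intro hx
    exact Full.rep full_nr G x hx
  · rintro ⟨f, rfl⟩
    exact al_mem (nr μ) G f

theorem nr_eq {f g : RR Ω} :
    NG.mk G (nr μ f) = NG.mk G (nr μ g) ↔ cl μ {ω | f.1 ω = g.1 ω} ∈ G.s := by
  rw [NG.mk_eq, eq_nr]

theorem nr_lt {f g : RR Ω} : Val (EG G) (NG.mk G (lN μ)) (NG.mk G (nr μ f)) (NG.mk G (nr μ g)) ↔
    cl μ {ω | f.1 ω < g.1 ω} ∈ G.s := by
  have h : Ex2 (nr μ) (nr μ) fun f g : RR Ω => cl μ {ω | f.1 ω < g.1 ω} := by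
    intro f f' g g'
    rw [eq_nr, eq_nr, ← cl_inter (m_lt f g) (m_eq f f'),
      ← cl_inter ((m_lt f g).inter (m_eq f f')) (m_eq g g')]
    refine cl_mono (((m_lt f g).inter (m_eq f f')).inter (m_eq g g')) (m_lt f' g') ?_
    rintro ω ⟨⟨h1, h2⟩, h3⟩
    have h1' : f.1 ω < g.1 ω := h1
    have h2' : f.1 ω = f'.1 ω := h2
    have h3' : g.1 ω = g'.1 ω := h3
    change f'.1 ω < g'.1 ω
    rw [← h2', ← h3']
    exact h1'
  exact rt_val h G f g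

theorem nr_add {f g : RR Ω} {t : NG G} :
    Ap (EG G) (NG.mk G (sN μ)) (NG.mk G (nr μ f)) (NG.mk G (nr μ g)) t ↔
      t = NG.mk G (nr μ (addR f g)) := by
  refine gr2_ap (fun f f' g g' => ?_) G f g t
  rw [eq_nr, eq_nr, eq_nr, ← cl_inter (m_eq f f') (m_eq g g')]
  refine cl_mono ((m_eq f f').inter (m_eq g g')) (m_eq _ _) ?_
  rintro ω ⟨h1, h2⟩
  have h1' : f.1 ω = f'.1 ω := h1
  have h2' : g.1 ω = g'.1 ω := h2
  change f.1 ω + g.1 ω = f'.1 ω + g'.1 ω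
  rw [h1', h2']

theorem nr_mul {f g : RR Ω} {t : NG G} :
    Ap (EG G) (NG.mk G (tN μ)) (NG.mk G (nr μ f)) (NG.mk G (nr μ g)) t ↔
      t = NG.mk G (nr μ (mulR f g)) := by
  refine gr2_ap (fun f f' g g' => ?_) G f g t
  rw [eq_nr, eq_nr, eq_nr, ← cl_inter (m_eq f f') (m_eq g g')]
  refine cl_mono ((m_eq f f').inter (m_eq g g')) (m_eq _ _) ?_
  rintro ω ⟨h1, h2⟩
  have h1' : f.1 ω = f'.1 ω := h1
  have h2' : g.1 ω = g'.1 ω := h2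
  change f.1 ω * g.1 ω = f'.1 ω * g'.1 ω
  rw [h1', h2']

theorem rn_lt_one :
    Val (EG G) (NG.mk G (lN μ)) (NG.mk G (nr μ (cR 0))) (NG.mk G (nr μ (cR 1))) :=
  (nr_lt G).2 (up0 fun _ => zero_lt_one' ℝ)

theorem rn_irrefl (x : NG G) (hx : EG G x (NG.mk G (RN μ))) :
    ¬ Val (EG G) (NG.mk G (lN μ)) x x := by
  obtain ⟨f, rfl⟩ := (mem_RN G).1 hx
  rw [nr_lt]
  intro h
  have h1 : {ω | f.1 ω < f.1 ω} = ∅ := Set.eq_empty_of_forall_notMem fun ω h2 =>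
    lt_irrefl (f.1 ω) (show f.1 ω < f.1 ω from h2)
  rw [h1, cl_empty] at h
  exact G.bot h

theorem rn_trans (x y z : NG G) (hx : EG G x (NG.mk G (RN μ))) (hy : EG G y (NG.mk G (RN μ)))
    (hz : EG G z (NG.mk G (RN μ))) (h : Val (EG G) (NG.mk G (lN μ)) x y)
    (h' : Val (EG G) (NG.mk G (lN μ)) y z) : Val (EG G) (NG.mk G (lN μ)) x z := by
  obtain ⟨f, rfl⟩ := (mem_RN G).1 hx
  obtain ⟨g, rfl⟩ := (mem_RN G).1 hy
  obtain ⟨k, rfl⟩ := (mem_RN G).1 hz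
  rw [nr_lt] at h h' ⊢
  exact up2 (m_lt f g) (m_lt g k) (m_lt f k)
    (fun ω h1 h2 => lt_trans (show f.1 ω < g.1 ω from h1) (show g.1 ω < k.1 ω from h2)) h h'

theorem rn_total (x y : NG G) (hx : EG G x (NG.mk G (RN μ))) (hy : EG G y (NG.mk G (RN μ))) :
    Val (EG G) (NG.mk G (lN μ)) x y ∨ x = y ∨ Val (EG G) (NG.mk G (lN μ)) y x := by
  obtain ⟨f, rfl⟩ := (mem_RN G).1 hx
  obtain ⟨g, rfl⟩ := (mem_RN G).1 hy
  rw [nr_lt, nr_lt, nr_eq]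
  by_cases h1 : cl μ {ω | f.1 ω < g.1 ω} ∈ G.s
  · exact Or.inl h1
  by_cases h2 : cl μ {ω | f.1 ω = g.1 ω} ∈ G.s
  · exact Or.inr (Or.inl h2)
  refine Or.inr (Or.inr ?_)
  rw [← compl_mem, ← cl_compl (m_lt f g)] at h1
  rw [← compl_mem, ← cl_compl (m_eq f g)] at h2
  refine up2 (m_lt f g).compl (m_eq f g).compl (m_lt g f) (fun ω h3 h4 => ?_) h1 h2
  have h3' : ¬ f.1 ω < g.1 ω := h3
  have h4' : ¬ f.1 ω = g.1 ω := h4
  exact lt_of_le_of_ne (not_lt.1 h3') (Ne.symm h4')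

theorem rn_add_fun (x y : NG G) (hx : EG G x (NG.mk G (RN μ))) (hy : EG G y (NG.mk G (RN μ))) :
    ∃ z, EG G z (NG.mk G (RN μ)) ∧ ∀ z', Ap (EG G) (NG.mk G (sN μ)) x y z' ↔ z' = z := by
  obtain ⟨f, rfl⟩ := (mem_RN G).1 hx
  obtain ⟨g, rfl⟩ := (mem_RN G).1 hy
  exact ⟨NG.mk G (nr μ (addR f g)), (mem_RN G).2 ⟨_, rfl⟩, fun z' => nr_add G⟩

theorem rn_mul_fun (x y : NG G) (hx : EG G x (NG.mk G (RN μ))) (hy : EG G y (NG.mk G (RN μ))) :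
    ∃ z, EG G z (NG.mk G (RN μ)) ∧ ∀ z', Ap (EG G) (NG.mk G (tN μ)) x y z' ↔ z' = z := by
  obtain ⟨f, rfl⟩ := (mem_RN G).1 hx
  obtain ⟨g, rfl⟩ := (mem_RN G).1 hy
  exact ⟨NG.mk G (nr μ (mulR f g)), (mem_RN G).2 ⟨_, rfl⟩, fun z' => nr_mul G⟩

theorem rn_add_neg (x : NG G) (hx : EG G x (NG.mk G (RN μ))) :
    ∃ y, EG G y (NG.mk G (RN μ)) ∧ Ap (EG G) (NG.mk G (sN μ)) x y (NG.mk G (nr μ (cR 0))) := by
  obtain ⟨f, rfl⟩ := (mem_RN G).1 hx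
  refine ⟨NG.mk G (nr μ ⟨fun ω => -f.1 ω, f.2.neg⟩), (mem_RN G).2 ⟨_, rfl⟩, ?_⟩
  rw [nr_add, nr_eq]
  refine up0 fun ω => ?_
  change (0 : ℝ) = f.1 ω + -f.1 ω
  rw [add_neg_cancel]

theorem rn_mul_inv (x : NG G) (hx : EG G x (NG.mk G (RN μ))) (h : x ≠ NG.mk G (nr μ (cR 0))) :
    ∃ y, EG G y (NG.mk G (RN μ)) ∧ Ap (EG G) (NG.mk G (tN μ)) x y (NG.mk G (nr μ (cR 1))) := by
  obtain ⟨f, rfl⟩ := (mem_RN G).1 hx
  refine ⟨NG.mk G (nr μ ⟨fun ω => (f.1 ω)⁻¹, f.2.inv⟩), (mem_RN G).2 ⟨_, rfl⟩, ?_⟩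
  rw [nr_mul, nr_eq]
  have h1 : ¬ cl μ {ω | f.1 ω = (cR (Ω := Ω) 0).1 ω} ∈ G.s := fun h2 => h ((nr_eq G).2 h2)
  rw [← compl_mem, ← cl_compl (m_eq f _)] at h1
  refine up1 (m_eq f _).compl (m_eq _ _) (fun ω hω => ?_) h1
  have h2 : ¬ f.1 ω = 0 := hω
  change (1 : ℝ) = f.1 ω * (f.1 ω)⁻¹
  rw [mul_inv_cancel₀ h2]

end

end RVI
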