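import Pool.Agent.RVI.FdA

/-! # The algebraic axioms of the field (package FB)

(problem MP_75f27a_lc, project RVI)

Write the variables `x`, `y`, `z ∈ RN μ` as `nr μ f`, `nr μ g`, `nr μ h` (`mem_RN`). By `nr_add`,
`nr_mul` every
hypothesis `Ap .. x y a` says `a = nr μ (addR f g)` (or `mulR`), and the conclusion is an equality
`NG.mk G (nr μ _) = NG.mk G (nr μ _)`: both random variables are equal everywhere (`Subtype.ext`,
`funext`,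
`ring`), or use `nr_eq`. For `rn_add_lt`, `rn_mul_pos`: `nr_lt` and `cl_mem_of_ae`
(`{f < g} ⊆ {f + h < g + h}`,
`{0 < f} ∩ {0 < g} ⊆ {0 < f * g}`). -/

set_option autoImplicit false

namespace RVI

open MeasureTheory STP STP.BSet CPI

section

variable {Ω : Type} [MeasurableSpace Ω] {μ : Measure Ω} [IsProbabilityMeasure μ]
  (G : Ult (RO (Ps μ)))

omit [IsProbabilityMeasure μ] in
private theorem m_lt' (f g : RR Ω) : NullMeasurableSet {ω | f.1 ω < g.1 ω} μ :=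
  (measurableSet_lt f.2 g.2).nullMeasurableSet

private theorem up1' {G : Ult (RO (Ps μ))} {A B : Set Ω} (hA : NullMeasurableSet A μ)
    (hB : NullMeasurableSet B μ) (h : A ⊆ B) (hG : cl μ A ∈ G.s) : cl μ B ∈ G.s :=
  cl_mem_of_ae hA hB (Filter.Eventually.of_forall fun _ hω => h hω) hG

private theorem up2' {G : Ult (RO (Ps μ))} {A A' B : Set Ω} (hA : NullMeasurableSet A μ)
    (hA' : NullMeasurableSet A' μ) (hB : NullMeasurableSet B μ)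
    (h : ∀ ω, ω ∈ A → ω ∈ A' → ω ∈ B) (hG : cl μ A ∈ G.s) (hG' : cl μ A' ∈ G.s) :
    cl μ B ∈ G.s := by
  refine up1' (hA.inter hA') hB (fun ω hω => h ω hω.1 hω.2) ?_
  rw [cl_inter hA hA']
  exact inf_mem.2 ⟨hG, hG'⟩

omit [IsProbabilityMeasure μ] in
private theorem eq_of_pt {f g : RR Ω} (h : ∀ ω, f.1 ω = g.1 ω) :
    NG.mk G (nr μ f) = NG.mk G (nr μ g) := by
  have h1 : f = g := Subtype.ext (funext h)
  rw [h1]

theorem rn_add_comm (x y z : NG G) (hx : EG G x (NG.mk G (RN μ))) (hy : EG G y (NG.mk G (RN μ)))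
    (h : Ap (EG G) (NG.mk G (sN μ)) x y z) : Ap (EG G) (NG.mk G (sN μ)) y x z := by
  obtain ⟨f, rfl⟩ := (mem_RN G).1 hx
  obtain ⟨g, rfl⟩ := (mem_RN G).1 hy
  rw [nr_add] at h ⊢
  rw [h]
  exact eq_of_pt G fun ω => show f.1 ω + g.1 ω = g.1 ω + f.1 ω from add_comm _ _

theorem rn_mul_comm (x y z : NG G) (hx : EG G x (NG.mk G (RN μ))) (hy : EG G y (NG.mk G (RN μ)))
    (h : Ap (EG G) (NG.mk G (tN μ)) x y z) : Ap (EG G) (NG.mk G (tN μ)) y x z := by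
  obtain ⟨f, rfl⟩ := (mem_RN G).1 hx
  obtain ⟨g, rfl⟩ := (mem_RN G).1 hy
  rw [nr_mul] at h ⊢
  rw [h]
  exact eq_of_pt G fun ω => show f.1 ω * g.1 ω = g.1 ω * f.1 ω from mul_comm _ _

theorem rn_add_assoc (x y z a b c : NG G) (hx : EG G x (NG.mk G (RN μ)))
    (hy : EG G y (NG.mk G (RN μ))) (hz : EG G z (NG.mk G (RN μ)))
    (h1 : Ap (EG G) (NG.mk G (sN μ)) x y a) (h2 : Ap (EG G) (NG.mk G (sN μ)) a z c)
    (h3 : Ap (EG G) (NG.mk G (sN μ)) y z b) : Ap (EG G) (NG.mk G (sN μ)) x b c := by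
  obtain ⟨f, rfl⟩ := (mem_RN G).1 hx
  obtain ⟨g, rfl⟩ := (mem_RN G).1 hy
  obtain ⟨k, rfl⟩ := (mem_RN G).1 hz
  rw [nr_add] at h1 h3
  rw [h1, nr_add] at h2
  rw [h3, nr_add, h2]
  exact eq_of_pt G fun ω =>
    show f.1 ω + g.1 ω + k.1 ω = f.1 ω + (g.1 ω + k.1 ω) from add_assoc _ _ _

theorem rn_mul_assoc (x y z a b c : NG G) (hx : EG G x (NG.mk G (RN μ)))
    (hy : EG G y (NG.mk G (RN μ))) (hz : EG G z (NG.mk G (RN μ)))
    (h1 : Ap (EG G) (NG.mk G (tN μ)) x y a) (h2 : Ap (EG G) (NG.mk G (tN μ)) a z c)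
    (h3 : Ap (EG G) (NG.mk G (tN μ)) y z b) : Ap (EG G) (NG.mk G (tN μ)) x b c := by
  obtain ⟨f, rfl⟩ := (mem_RN G).1 hx
  obtain ⟨g, rfl⟩ := (mem_RN G).1 hy
  obtain ⟨k, rfl⟩ := (mem_RN G).1 hz
  rw [nr_mul] at h1 h3
  rw [h1, nr_mul] at h2
  rw [h3, nr_mul, h2]
  exact eq_of_pt G fun ω =>
    show f.1 ω * g.1 ω * k.1 ω = f.1 ω * (g.1 ω * k.1 ω) from mul_assoc _ _ _

theorem rn_distrib (x y z a b c d : NG G) (hx : EG G x (NG.mk G (RN μ)))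
    (hy : EG G y (NG.mk G (RN μ))) (hz : EG G z (NG.mk G (RN μ)))
    (h1 : Ap (EG G) (NG.mk G (sN μ)) y z a) (h2 : Ap (EG G) (NG.mk G (tN μ)) x a d)
    (h3 : Ap (EG G) (NG.mk G (tN μ)) x y b) (h4 : Ap (EG G) (NG.mk G (tN μ)) x z c) :
    Ap (EG G) (NG.mk G (sN μ)) b c d := by
  obtain ⟨f, rfl⟩ := (mem_RN G).1 hx
  obtain ⟨g, rfl⟩ := (mem_RN G).1 hy
  obtain ⟨k, rfl⟩ := (mem_RN G).1 hz
  rw [nr_add] at h1
  rw [nr_mul] at h3 h4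
  rw [h1, nr_mul] at h2
  rw [h3, h4, nr_add, h2]
  exact eq_of_pt G fun ω =>
    show f.1 ω * (g.1 ω + k.1 ω) = f.1 ω * g.1 ω + f.1 ω * k.1 ω from mul_add _ _ _

theorem rn_add_zero (x : NG G) (hx : EG G x (NG.mk G (RN μ))) :
    Ap (EG G) (NG.mk G (sN μ)) x (NG.mk G (nr μ (cR 0))) x := by
  obtain ⟨f, rfl⟩ := (mem_RN G).1 hx
  rw [nr_add]
  exact eq_of_pt G fun ω => show f.1 ω = f.1 ω + 0 from (add_zero _).symm

theorem rn_mul_one (x : NG G) (hx : EG G x (NG.mk G (RN μ))) :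
    Ap (EG G) (NG.mk G (tN μ)) x (NG.mk G (nr μ (cR 1))) x := by
  obtain ⟨f, rfl⟩ := (mem_RN G).1 hx
  rw [nr_mul]
  exact eq_of_pt G fun ω => show f.1 ω = f.1 ω * 1 from (mul_one _).symm

theorem rn_add_lt (x y z a b : NG G) (hx : EG G x (NG.mk G (RN μ)))
    (hy : EG G y (NG.mk G (RN μ))) (hz : EG G z (NG.mk G (RN μ)))
    (h : Val (EG G) (NG.mk G (lN μ)) x y) (h1 : Ap (EG G) (NG.mk G (sN μ)) x z a)
    (h2 : Ap (EG G) (NG.mk G (sN μ)) y z b) : Val (EG G) (NG.mk G (lN μ)) a b := by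
  obtain ⟨f, rfl⟩ := (mem_RN G).1 hx
  obtain ⟨g, rfl⟩ := (mem_RN G).1 hy
  obtain ⟨k, rfl⟩ := (mem_RN G).1 hz
  rw [nr_add] at h1 h2
  rw [nr_lt] at h
  rw [h1, h2, nr_lt]
  refine up1' (m_lt' f g) (m_lt' _ _) (fun ω hω => ?_) h
  have h3 : f.1 ω < g.1 ω := hω
  exact show f.1 ω + k.1 ω < g.1 ω + k.1 ω from add_lt_add_left h3 _

theorem rn_mul_pos (x y z : NG G) (hx : EG G x (NG.mk G (RN μ))) (hy : EG G y (NG.mk G (RN μ)))
    (h1 : Val (EG G) (NG.mk G (lN μ)) (NG.mk G (nr μ (cR 0))) x)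
    (h2 : Val (EG G) (NG.mk G (lN μ)) (NG.mk G (nr μ (cR 0))) y)
    (h3 : Ap (EG G) (NG.mk G (tN μ)) x y z) :
    Val (EG G) (NG.mk G (lN μ)) (NG.mk G (nr μ (cR 0))) z := by
  obtain ⟨f, rfl⟩ := (mem_RN G).1 hx
  obtain ⟨g, rfl⟩ := (mem_RN G).1 hy
  rw [nr_mul] at h3
  rw [nr_lt] at h1 h2
  rw [h3, nr_lt]
  refine up2' (m_lt' _ f) (m_lt' _ g) (m_lt' _ _) (fun ω h4 h5 => ?_) h1 h2
  have h4' : 0 < f.1 ω := h4
  have h5' : 0 < g.1 ω := h5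
  exact show 0 < f.1 ω * g.1 ω from mul_pos h4' h5'

end

end RVI
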