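import Mathlib

/-! # The product space (definitions)

(problem MP_75f27a_lc, project RVI; no sorry in this file) -/

namespace RVI

open MeasureTheory ENNReal

/-- the fair coin -/
noncomputable def coin : Measure Bool :=
  (2 : ℝ≥0∞)⁻¹ • (Measure.dirac true + Measure.dirac false)

instance : IsProbabilityMeasure coin := by
  constructor
  unfold coin
  simp only [Measure.smul_apply, Measure.add_apply, measure_univ, smul_eq_mul]
  rw [one_add_one_eq_two]
  exact ENNReal.inv_mul_cancel (by norm_num) (by norm_num)

/-- the space `2 ^ (K × ℕ)` -/
abbrev Om (K : Type) : Type := K × ℕ → Bool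

/-- the product of the fair coins -/
noncomputable def mu (K : Type) : Measure (Om K) := Measure.infinitePi fun _ => coin

instance (K : Type) : IsProbabilityMeasure (mu K) := by
  unfold mu
  infer_instance

end RVI
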