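import Pool.Agent.RVI.NmC
import Pool.Agent.CPI.BOmA

/-! # Equality of names of sets, numerals (package N4)

(problem MP_75f27a_lc, project RVI)

* `st_eq_le`, `rt_eq_le`: `le_eq_iff` (`STP/BEq.lean`): for every `z`:
  `c ⊓ mem z (st nm φ) ≤ mem z (st nm ψ)`
  by distributivity (`inf_iSup_eq`) and the hypothesis. `rt` is an `st` (definitionally).
* `eq_st_dsc`: `≥` by `st_eq_le` with `c` the right side. `≤`: for every `a` and
  `b := eq (st nm φ) (st nm ψ)`: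
  `b ⊓ φ a ≤ b ⊓ mem (nm a) (st nm φ) ≤ mem (nm a) (st nm ψ) = ψ a` (`mem_congr_right`; the last
  equality is
  `mem_st`, all terms with `b ≠ a` are `⊥`).
* `mem_st_dsc`: `mem_st` and `Dsc`. `rt_dsc`: the same with `eq_opN_val`; `Ex2.of_dsc`.
* `nn_eq`, `nn_mem`: `ck_eq_iff`, `ck_mem_iff` (`STP/YOrd.lean`) and `Nat.cast_inj`, `Nat.cast_lt`.
  `nn_dsc`: `eq_ck_ck` (`STP/Ck.lean`) is `chi (m = n)`, which is `⊥` for `m ≠ n`.
* `mem_nn_iff`: `←` is `nn_mem`. `→`: `x = NG.mk G X`;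
  `mem X (ck n) = ⨆ a : Set.Iio n, eq X (ck a)` is the
  supremum of the finite family `eq X (nn m)`, `m < n` (`Ordinal.lt_omega0`, `Ordinal.nat_lt..`),
  and an ultrafilter contains one member
  of a finite supremum; or by induction on `n`: `ck_sc` (`IsSc (ck (succ a)) (ck a)`:
  `z ∈ ck (n + 1) ↔ z ∈ ck n ∨ z = ck n`) and `ck_zero`.
* `oN_ck`: `(NG_zfc G).ext`: both sides have the same elements: `z = NG.mk G Z`,
  `mem Z (ck ω) = ⨆ a : Set.Iio ω, eq Z (ck a)` (`mem_ck`) `= ⨆ n : ℕ, ⊤ ⊓ eq Z (nn n)` (`mem_st`).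
* `oN_om`: `ck_om`. `om_eq`: `CPI.om_eq` (its `oN` is `ck ω`). `qn_dsc`:
  `Encodable.encode_injective`. -/

set_option autoImplicit false

namespace RVI

open STP STP.BSet CPI

section

variable {P : Type} [PartialOrder P] {A C D : Type}

theorem st_eq_le {nm : A → BSet (RO P)} {φ ψ : A → RO P} {c : RO P} (h : ∀ a, c ⊓ φ a ≤ ψ a)
    (h' : ∀ a, c ⊓ ψ a ≤ φ a) : c ≤ BSet.eq (st nm φ) (st nm ψ) := by
  rw [le_eq_iff]
  intro z
  refine ⟨?_, ?_⟩
  · rw [mem_st, mem_st, inf_iSup_eq]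
    refine iSup_le fun a => le_iSup_of_le a ?_
    exact le_inf ((inf_le_inf_left c inf_le_left).trans (h a)) (inf_le_right.trans inf_le_right)
  · rw [mem_st, mem_st, inf_iSup_eq]
    refine iSup_le fun a => le_iSup_of_le a ?_
    exact le_inf ((inf_le_inf_left c inf_le_left).trans (h' a)) (inf_le_right.trans inf_le_right)

theorem rt_eq_le {na : A → BSet (RO P)} {nc : C → BSet (RO P)} {ρ σ : A → C → RO P} {c : RO P}
    (h : ∀ a b, c ⊓ ρ a b ≤ σ a b) (h' : ∀ a b, c ⊓ σ a b ≤ ρ a b) :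
    c ≤ BSet.eq (rt na nc ρ) (rt na nc σ) :=
  st_eq_le (nm := fun z : A × C => opN (na z.1) (nc z.2)) (φ := fun z => ρ z.1 z.2)
    (ψ := fun z => σ z.1 z.2) (fun z => h z.1 z.2) fun z => h' z.1 z.2

theorem mem_st_dsc {nm : A → BSet (RO P)} (h : Dsc nm) (φ : A → RO P) (a : A) :
    BSet.mem (nm a) (st nm φ) = φ a := by
  rw [mem_st]
  refine le_antisymm (iSup_le fun b => ?_) (le_iSup_of_le a ?_)
  · by_cases hab : a = b
    · rw [hab]
      exact inf_le_left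
    · rw [h a b hab, inf_bot_eq]
      exact bot_le
  · rw [BSet.eq_refl, inf_top_eq]

theorem eq_st_dsc {nm : A → BSet (RO P)} (h : Dsc nm) (φ ψ : A → RO P) :
    BSet.eq (st nm φ) (st nm ψ) = ⨅ a, (φ a ⇨ ψ a) ⊓ (ψ a ⇨ φ a) := by
  refine le_antisymm (le_iInf fun a => le_inf ?_ ?_) (st_eq_le (fun a => ?_) fun a => ?_)
  · rw [le_himp_iff]
    have h1 := mem_congr_right (st nm φ) (st nm ψ) (nm a)
    rwa [mem_st_dsc h, mem_st_dsc h] at h1
  · rw [le_himp_iff, eq_symm]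
    have h1 := mem_congr_right (st nm ψ) (st nm φ) (nm a)
    rwa [mem_st_dsc h, mem_st_dsc h] at h1
  · exact (inf_le_inf_right _ ((iInf_le _ a).trans inf_le_left)).trans himp_inf_le
  · exact (inf_le_inf_right _ ((iInf_le _ a).trans inf_le_right)).trans himp_inf_le

theorem Ex2.of_dsc {na : A → BSet (RO P)} {nc : C → BSet (RO P)} (ha : Dsc na) (hc : Dsc nc)
    (ρ : A → C → RO P) : Ex2 na nc ρ := by
  intro a a' c c'
  by_cases h1 : a = a'
  · by_cases h2 : c = c'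
    · subst h1
      subst h2
      exact inf_le_left.trans inf_le_left
    · rw [hc c c' h2, inf_bot_eq]
      exact bot_le
  · rw [ha a a' h1, inf_bot_eq, bot_inf_eq]
    exact bot_le

theorem nn_dsc : Dsc (nn (P := P)) := by
  intro a b hab
  unfold nn
  rw [eq_ck_ck]
  exact iSup_eq_bot.2 fun h => absurd (Nat.cast_inj.1 h) hab

theorem qn_dsc : Dsc (qn (P := P)) :=
  fun _ _ hab => nn_dsc _ _ fun h => hab (Encodable.encode_injective h)

theorem nn_eq (G : Ult (RO P)) {m n : ℕ} : NG.mk G (nn m) = NG.mk G (nn n) ↔ m = n := by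
  unfold nn
  rw [ck_eq_iff, Nat.cast_inj]

theorem nn_mem (G : Ult (RO P)) {m n : ℕ} : EG G (NG.mk G (nn m)) (NG.mk G (nn n)) ↔ m < n := by
  unfold nn
  rw [ck_mem_iff, Nat.cast_lt]

theorem mem_nn_iff (G : Ult (RO P)) {n : ℕ} {x : NG G} :
    EG G x (NG.mk G (nn n)) ↔ ∃ m < n, x = NG.mk G (nn m) := by
  induction n with
  | zero =>
    have h0 : (nn 0 : BSet (RO P)) = ck 0 := by
      unfold nn
      rw [Nat.cast_zero]
    rw [h0]
    constructor
    · intro h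
      exact absurd h (ck_zero G x)
    · rintro ⟨m, hm, -⟩
      exact absurd hm (Nat.not_lt_zero m)
  | succ n ih =>
    have h0 : (nn (n + 1) : BSet (RO P)) = ck (Order.succ (n : Ordinal.{0})) := by
      unfold nn
      rw [Nat.cast_succ, Order.succ_eq_add_one]
    have h1 : EG G x (NG.mk G (nn (n + 1))) ↔ EG G x (NG.mk G (nn n)) ∨ x = NG.mk G (nn n) := by
      rw [h0]
      exact ck_sc G (n : Ordinal.{0}) x
    rw [h1, ih]
    constructor
    · rintro (⟨m, hm, h⟩ | h)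
      · exact ⟨m, Nat.lt_succ_of_lt hm, h⟩
      · exact ⟨n, Nat.lt_succ_self n, h⟩
    · rintro ⟨m, hm, h⟩
      rcases Nat.lt_succ_iff_lt_or_eq.1 hm with h2 | h2
      · exact Or.inl ⟨m, h2, h⟩
      · exact Or.inr (h2 ▸ h)

theorem oN_ck (G : Ult (RO P)) : NG.mk G (oN (P := P)) = NG.mk G (ck Ordinal.omega0) := by
  refine NG_ext G _ _ fun z => ?_
  obtain ⟨Z, rfl⟩ := NG.exists_rep z
  rw [EG_mk, EG_mk, mem_ck]
  unfold oN al
  rw [mem_st]
  have h : (⨆ n : ℕ, ⊤ ⊓ BSet.eq Z (nn n)) =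
      ⨆ a : Set.Iio Ordinal.omega0, BSet.eq Z (ck a.1) := by
    refine le_antisymm (iSup_le fun n => ?_) (iSup_le fun a => ?_)
    · refine le_iSup_of_le ⟨(n : Ordinal.{0}), Ordinal.natCast_lt_omega0 n⟩ ?_
      exact inf_le_right
    · obtain ⟨n, hn⟩ := Ordinal.lt_omega0.1 a.2
      refine le_iSup_of_le n ?_
      rw [top_inf_eq, hn]
      exact le_rfl
  rw [h]

theorem oN_om (G : Ult (RO P)) : IsOm (EG G) (NG.mk G oN) := by
  rw [oN_ck]
  exact ck_om G

theorem om_eq (G : Ult (RO P)) {w : NG G} (h : IsOm (EG G) w) : w = NG.mk G oN :=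
  (CPI.om_eq G h).trans (oN_ck G).symm

end

end RVI
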