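import Pool.Agent.RVI.Alg2
import Pool.Agent.RVI.NmD

/-! # Names of reals given by measurable functions (definitions)

(problem MP_75f27a_lc, project RVI; no sorry in this file)

`(Ω, μ)` is a probability space, the names are over the measure algebra `RO (Ps μ)`.
* `RB Ω`, `nb μ`: measurable maps to the Cantor space, names of subsets of `ω`; `CN μ`: the power
  set of
  `ω`.
* `RR Ω`, `nr μ`: real random variables, named by their lower Dedekind cuts; `RN μ`: the real line.
* `RF Ω`, `nf μ`: measurable maps to the Baire space, names of functions from `ω` to `ω`.
* `pre m x`: the first `m` values of `x`; `lb`, `lf`: names of finite sequences (as a finite set,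
  and as a
  function); `n1`, `n2`: nodes of trees; `TT1 μ T ω`, `TT2 μ T ω`: the nodes in the tree with name
  `T` at
  the point `ω`. -/

namespace RVI

open MeasureTheory STP STP.BSet CPI

section

variable (Ω : Type) [MeasurableSpace Ω]

/-- random elements of the Cantor space -/
abbrev RB : Type := {X : Ω → ℕ → Bool // Measurable X}

/-- real random variables -/
abbrev RR : Type := {f : Ω → ℝ // Measurable f}

/-- random elements of the Baire space -/
abbrev RF : Type := {g : Ω → ℕ → ℕ // Measurable g}

end

section

variable {Ω : Type} [MeasurableSpace Ω] (μ : Measure Ω)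

/-- the name of the random subset of `ω` -/
noncomputable def nb (X : RB Ω) : BSet (RO (Ps μ)) := st nn fun n => cl μ {ω | X.1 ω n = true}

/-- the name of the random real number (the set of the rational numbers `q < f`) -/
noncomputable def nr (f : RR Ω) : BSet (RO (Ps μ)) := st qn fun q => cl μ {ω | (q : ℝ) < f.1 ω}

/-- the name of the random function from `ω` to `ω` -/
noncomputable def nf (g : RF Ω) : BSet (RO (Ps μ)) :=
  rt nn nn fun k l => cl μ {ω | g.1 ω k = l}

/-- the name of the power set of `ω` -/
noncomputable def CN : BSet (RO (Ps μ)) := al (nb μ)

/-- the name of the set of real numbers -/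
noncomputable def RN : BSet (RO (Ps μ)) := al (nr μ)

/-- the constant random element -/
def cb (x : ℕ → Bool) : RB Ω := ⟨fun _ => x, measurable_const⟩

end

/-- the first `m` values -/
def pre {α : Type} (m : ℕ) (x : ℕ → α) : List α := (List.range m).map x

section

variable {P : Type} [PartialOrder P]

/-- the name of the finite set with the characteristic function `l` -/
noncomputable def lb (l : List Bool) : BSet (RO P) := st nn fun n => chi (l[n]? = some true)

/-- the name of the finite sequence `l` -/
noncomputable def lf (l : List ℕ) : BSet (RO P) := rt nn nn fun k v => chi (l[k]? = some v)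

/-- the name of the node `(t, u)` -/
noncomputable def n1 (d : List Bool × List ℕ) : BSet (RO P) := opN (lb d.1) (lf d.2)

/-- the name of the node `(s, (t, u))` -/
noncomputable def n2 (d : List Bool × List Bool × List ℕ) : BSet (RO P) :=
  opN (lb d.1) (opN (lb d.2.1) (lf d.2.2))

end

section

variable {Ω : Type} [MeasurableSpace Ω] (μ : Measure Ω) [IsProbabilityMeasure μ]

/-- the random tree with the name `T` -/
noncomputable def TT1 (T : BSet (RO (Ps μ))) (ω : Ω) : Set (List Bool × List ℕ) :=
  {d | ω ∈ rp (BSet.mem (n1 d) T)}

/-- the random tree with the name `T` -/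
noncomputable def TT2 (T : BSet (RO (Ps μ))) (ω : Ω) : Set (List Bool × List Bool × List ℕ) :=
  {d | ω ∈ rp (BSet.mem (n2 d) T)}

end

end RVI
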