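import Pool.Agent.RVI.Um0

/-! # Measurable cardinals are strongly inaccessible (package UA)

(problem MP_75f27a_lc, project RVI)

* `inter_nat`: `comp` with `I := ℕ` and `unc`.
* `exists_const`: if no fibre is in `U` then all `{ξ | f ξ ≠ c}` are in `U` (ultrafilter) and their
  intersection over `c : T` is empty: contradiction (`comp`, `Ultrafilter.empty_notMem`).
* `pow_lt`: suppose `#K ≤ 2 ^ c`, `c = #L`: there is an injective `i : K → (L → Bool)`. For every
  `l : L` there is `ε l : Bool` with `{ξ | i ξ l = ε l} ∈ U` (ultrafilter), and by `comp`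
  (`#L < #K`)
  `{ξ | i ξ = ε} ∈ U`; this set has at most one element `a`, so it is `∅` or `{a}`: contradiction
  (`np`).
* `small`: `s : Set K` with `#s < #K` is not in `U`: otherwise (`comp` with `I := s`,
  `A a := {a}ᶜ ∈ U`) `sᶜ ∈ U`.
* `union_lt`: if `#I < #K` and all `#(A i) < #K` then `#(⋃ i, A i) < #K`: otherwise fix an injection
  `j : K → K` with range in the union (`#K ≤ #(⋃ A i)`); the sets `j ⁻¹' A i` have fewer than `#K`
  elements, so
  their complements are in `U` (`small`), and the intersection of the complements is empty (`comp`).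
* `pow_aleph0`: `≥` is clear. Well-order `K` in the type `(#K).ord` (`e : K ≃ (#K).ord.ToType`). For
  `f : ℕ → K` there is `b : K` with `e (f n) < e b` for all `n` (otherwise the initial segments
  `{a | e a ≤ e (f n)}`,
  which have fewer than `#K` elements, cover `K`; `union_lt`). So `ℕ → K` is the union over
  `b : K` of the
  sets `{f | ∀ n, e (f n) < e b}` of size `|b| ^ ℵ₀ ≤ (2 ^ max |b| ℵ₀) ^ ℵ₀ = 2 ^ max |b| ℵ₀ < #K`
  (`pow_lt`), and
  `#K * #K = #K`. -/

set_option autoImplicit false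

namespace RVI

open Cardinal

variable {K : Type} {U : Ultrafilter K}

theorem IsMU.inter_nat (hU : IsMU U) (A : ℕ → Set K) (h : ∀ n, A n ∈ U) : (⋂ n, A n) ∈ U := by
  exact hU.comp ℕ A (by rw [mk_nat]; exact hU.unc) h

theorem IsMU.small (hU : IsMU U) {s : Set K} (h : #s < #K) : s ∉ U := by
  intro hs
  have h1 := hU.comp s (fun a => {(a : K)}ᶜ) h fun a =>
    Ultrafilter.compl_mem_iff_notMem.2 (hU.np a)
  have h2 : s ∩ ⋂ a : s, {(a : K)}ᶜ = ∅ := by
    ext x
    simp only [Set.mem_inter_iff, Set.mem_iInter, Set.mem_compl_iff, Set.mem_singleton_iff,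
      Set.mem_empty_iff_false, iff_false, not_and]
    intro hx h3
    exact h3 ⟨x, hx⟩ rfl
  have h3 := Filter.inter_mem hs h1
  rw [h2] at h3
  exact Ultrafilter.empty_notMem h3

theorem IsMU.union_lt (hU : IsMU U) (I : Type) (A : I → Set K) (hI : #I < #K)
    (hA : ∀ i, #(A i) < #K) : #(⋃ i, A i : Set K) < #K := by
  by_contra hn
  rw [not_lt] at hn
  obtain ⟨j⟩ := hn
  have h1 : ∀ i, {a : K | (j a : K) ∈ A i}ᶜ ∈ U := fun i => by
    refine Ultrafilter.compl_mem_iff_notMem.2 (hU.small (lt_of_le_of_lt ?_ (hA i)))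
    refine mk_le_of_injective (f := fun a => (⟨(j a.1 : K), a.2⟩ : A i)) fun a b hab => ?_
    have h5 := congrArg Subtype.val hab
    exact Subtype.ext (j.injective (Subtype.ext h5))
  have h2 := hU.comp I (fun i => {a : K | (j a : K) ∈ A i}ᶜ) hI h1
  have h3 : (⋂ i, {a : K | (j a : K) ∈ A i}ᶜ) = ∅ := by
    ext x
    simp only [Set.mem_iInter, Set.mem_compl_iff, Set.mem_ofPred_eq, Set.mem_empty_iff_false,
      iff_false, not_forall, not_not]
    exact Set.mem_iUnion.1 (j x).2
  rw [h3] at h2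
  exact Ultrafilter.empty_notMem h2

theorem IsMU.exists_const (hU : IsMU U) {T : Type} (hT : #T < #K) (f : K → T) :
    ∃ c, {ξ | f ξ = c} ∈ U := by
  by_contra hn
  have h1 : ∀ c, {ξ | f ξ = c}ᶜ ∈ U := fun c =>
    Ultrafilter.compl_mem_iff_notMem.2 fun h => hn ⟨c, h⟩
  have h2 := hU.comp T (fun c => {ξ | f ξ = c}ᶜ) hT h1
  have h3 : (⋂ c, {ξ | f ξ = c}ᶜ) = ∅ := by
    ext x
    simp only [Set.mem_iInter, Set.mem_compl_iff, Set.mem_ofPred_eq, Set.mem_empty_iff_false,
      iff_false, not_forall, not_not]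
    exact ⟨f x, rfl⟩
  rw [h3] at h2
  exact Ultrafilter.empty_notMem h2

theorem IsMU.pow_lt (hU : IsMU U) {c : Cardinal.{0}} (h : c < #K) : 2 ^ c < #K := by
  by_contra hn
  rw [not_lt] at hn
  have hc : #(c.out → Bool) = 2 ^ c := by simp
  rw [← hc] at hn
  obtain ⟨i⟩ := hn
  have h1 : ∀ l : c.out, ∃ b : Bool, {ξ | i ξ l = b} ∈ U := fun l => by
    by_cases hl : {ξ | i ξ l = true} ∈ U
    · exact ⟨true, hl⟩
    · refine ⟨false, ?_⟩
      have h2 := Ultrafilter.compl_mem_iff_notMem.2 hl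
      have h3 : {ξ | i ξ l = true}ᶜ = {ξ | i ξ l = false} := by
        ext x
        simp
      rwa [h3] at h2
  choose b hb using h1
  have h2 := hU.comp c.out (fun l => {ξ | i ξ l = b l}) (by rw [mk_out]; exact h) hb
  obtain ⟨a, ha⟩ := Ultrafilter.nonempty_of_mem h2
  refine hU.np a (Filter.mem_of_superset h2 fun x hx => ?_)
  rw [Set.mem_singleton_iff]
  apply i.injective
  funext l
  rw [Set.mem_iInter] at ha hx
  exact (hx l).trans (ha l).symm

theorem IsMU.pow_aleph0 (hU : IsMU U) : #K ^ ℵ₀ = #K := by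
  have h0 : ℵ₀ ≤ #K := hU.unc.le
  refine le_antisymm ?_ (self_le_power _ (one_le_aleph0))
  have hT : #(#K).ord.ToType = #K := mk_ord_toType _
  obtain ⟨e⟩ := Cardinal.eq.1 hT
  have hio : ∀ b : (#K).ord.ToType, #(Set.Iio b) < #K := fun b => mk_Iio_toType_ord_lt b
  have hic : ∀ b : (#K).ord.ToType, #(Set.Iic b) < #K := fun b => by
    rw [← Set.Iio_insert]
    refine mk_insert_le.trans_lt ?_
    exact add_lt_of_lt h0 (hio b) (one_lt_aleph0.trans_le h0)
  have hbd : ∀ f : ℕ → (#K).ord.ToType, ∃ b, ∀ n, f n < b := fun f => by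
    by_contra hn
    simp only [not_exists, not_forall, not_lt] at hn
    have h1 := hU.union_lt ℕ (fun n => e.symm ⁻¹' Set.Iic (f n)) (by rw [mk_nat]; exact hU.unc)
      fun n => by
        refine lt_of_le_of_lt ?_ (hic (f n))
        exact mk_preimage_of_injective _ _ e.symm.injective
    have h2 : (⋃ n, e.symm ⁻¹' Set.Iic (f n)) = Set.univ := by
      ext x
      simp only [Set.mem_iUnion, Set.mem_preimage, Set.mem_Iic, Set.mem_univ, iff_true]
      exact hn (e.symm x)
    rw [h2, mk_univ] at h1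
    exact lt_irrefl _ h1
  have hpow : ∀ b : (#K).ord.ToType, #{f : ℕ → (#K).ord.ToType | ∀ n, f n < b} ≤ #K := fun b => by
    have h1 : #{f : ℕ → (#K).ord.ToType | ∀ n, f n < b} ≤ #(ℕ → Set.Iio b) := by
      refine mk_le_of_injective (f := fun f n => (⟨f.1 n, f.2 n⟩ : Set.Iio b)) fun f g hfg => ?_
      exact Subtype.ext (funext fun n => congrArg Subtype.val (congrFun hfg n))
    have h2 : #(ℕ → Set.Iio b) = #(Set.Iio b) ^ ℵ₀ := by simp
    have h3 : max #(Set.Iio b) ℵ₀ < #K := max_lt (hio b) hU.unc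
    have h4 : #(Set.Iio b) ^ ℵ₀ ≤ 2 ^ max #(Set.Iio b) ℵ₀ := by
      calc #(Set.Iio b) ^ ℵ₀ ≤ (2 ^ max #(Set.Iio b) ℵ₀) ^ ℵ₀ :=
            power_le_power_right ((cantor _).le.trans
              (power_le_power_left two_ne_zero (le_max_left _ _)))
        _ = 2 ^ max #(Set.Iio b) ℵ₀ := by
            rw [← power_mul, mul_eq_left (le_max_right _ _) (le_max_right _ _) aleph0_ne_zero]
    exact h1.trans (h2.le.trans (h4.trans (hU.pow_lt h3).le))
  have hun : (⋃ b : (#K).ord.ToType, {f : ℕ → (#K).ord.ToType | ∀ n, f n < b}) = Set.univ := by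
    ext f
    simp only [Set.mem_iUnion, Set.mem_ofPred_eq, Set.mem_univ, iff_true]
    exact hbd f
  calc #K ^ ℵ₀ = #(ℕ → (#K).ord.ToType) := by simp
    _ = #(⋃ b : (#K).ord.ToType, {f : ℕ → (#K).ord.ToType | ∀ n, f n < b} :
          Set (ℕ → (#K).ord.ToType)) := by rw [hun, mk_univ]
    _ ≤ #(#K).ord.ToType * ⨆ b : (#K).ord.ToType,
          #{f : ℕ → (#K).ord.ToType | ∀ n, f n < b} := mk_iUnion_le _
    _ ≤ #K * #K := mul_le_mul' hT.le (ciSup_le' hpow)
    _ = #K := mul_eq_self h0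

end RVI
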