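import Pool.Agent.RVI.Om0
import Pool.Agent.RVI.UmA
import Pool.Agent.RVI.Rn0

/-! # Random reals in the product space (package OA)

(problem MP_75f27a_lc, project RVI)

* `meas_eval`: `μ {ω | ω i = b} = 1 / 2` and independence: for a finite set `s` of indices and
  `x : K × ℕ → Bool`: `mu K {ω | ∀ i ∈ s, ω i = x i} = (1 / 2) ^ #s`: `Measure.infinitePi_pi` for
  the boxes `Set.pi s _` (`coin {b} = 1 / 2`).
* `rr_ne`: for `n : ℕ` the set `{ω | rr a ω = rr b ω}` is contained in the union over the `2 ^ n`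
  functions
  `x : Fin n → Bool` of the sets `{ω | ∀ k < n, ω (a, k) = x k ∧ ω (b, k) = x k}` of measure
  `(1 / 2) ^ (2 * n)`, so its measure is `≤ (1 / 2) ^ n` for all `n`.
* `card_RB`: `RB (Om K)` injects into `ℕ → {A : Set (Om K) // MeasurableSet A}` by
  `n ↦ {ω | X ω n = true}`. The product sigma-algebra on `Om K = K × ℕ → Bool` is generated by the
  sets
  `{ω | ω i = true}`, `i : K × ℕ` (`MeasurableSpace.pi`, `MeasurableSpace.generateFrom`; the
  sigma-algebra of `Bool` is generated by `{true}`); so by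
  `MeasurableSpace.cardinal_measurableSet_le` there are
  at most `max #(K × ℕ) 2 ^ ℵ₀ = #K ^ ℵ₀ = #K` measurable sets (`hU.pow_aleph0`), and at most
  `#K ^ ℵ₀ = #K` sequences of them.
* `exists_e`: a surjection `e : K → RB (Om K)` (`Cardinal.le_def`, `Function.invFun`/
  `Function.Injective.hasLeftInverse`; `RB (Om K)` is not empty). -/

set_option autoImplicit false

namespace RVI

open MeasureTheory Cardinal

variable {K : Type}

/-- the random real with the index `a` -/
def rr (a : K) : RB (Om K) :=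
  ⟨fun ω n => ω (a, n), measurable_pi_iff.2 fun n => measurable_pi_apply (a, n)⟩

private theorem coin_single (b : Bool) : coin {b} = 1 / 2 := by
  unfold coin
  rw [Measure.smul_apply, Measure.add_apply, Measure.dirac_apply, Measure.dirac_apply]
  cases b <;> simp

theorem meas_eval (s : Finset (K × ℕ)) (x : K × ℕ → Bool) :
    mu K {ω | ∀ i ∈ s, ω i = x i} = (1 / 2) ^ s.card := by
  have h1 : {ω : Om K | ∀ i ∈ s, ω i = x i} = Set.pi (s : Set (K × ℕ)) fun i => {x i} := by
    ext ω
    exact Iff.rfl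
  unfold mu
  rw [h1, Measure.infinitePi_pi _ (fun i _ => measurableSet_singleton (x i))]
  rw [Finset.prod_congr rfl fun i _ => coin_single (x i), Finset.prod_const]

private theorem rr_bd {a b : K} (h : a ≠ b) (n : ℕ) :
    mu K {ω | (rr a).1 ω = (rr b).1 ω} ≤ (1 / 2) ^ n := by
  classical
  let s : Finset (K × ℕ) := ({a, b} : Finset K) ×ˢ Finset.range n
  let y : (Fin n → Bool) → K × ℕ → Bool := fun x i => if hi : i.2 < n then x ⟨i.2, hi⟩ else true
  have hs : s.card = n + n := by
    rw [Finset.card_product, Finset.card_pair h, Finset.card_range, two_mul]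
  have h1 : {ω | (rr a).1 ω = (rr b).1 ω} ⊆
      ⋃ x : Fin n → Bool, {ω : Om K | ∀ i ∈ s, ω i = y x i} := by
    intro ω hω
    rw [Set.mem_iUnion]
    refine ⟨fun k => ω (a, k), ?_⟩
    intro i hi
    rw [Finset.mem_product, Finset.mem_insert, Finset.mem_singleton, Finset.mem_range] at hi
    obtain ⟨h2, h3⟩ := hi
    change ω i = if hi : i.2 < n then ω (a, i.2) else true
    rw [dif_pos h3]
    rcases h2 with h2 | h2
    · rw [← h2]
    · have h4 : ω (a, i.2) = ω (b, i.2) := congrFun hω i.2
      rw [h4, ← h2]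
  refine (measure_mono h1).trans ((measure_iUnion_fintype_le _ _).trans ?_)
  have h2 : ∀ x ∈ (Finset.univ : Finset (Fin n → Bool)),
      mu K {ω : Om K | ∀ i ∈ s, ω i = y x i} = (1 / 2) ^ n * (1 / 2) ^ n := by
    intro x _
    rw [meas_eval, hs, pow_add]
  rw [Finset.sum_congr rfl h2, Finset.sum_const, Finset.card_univ, Fintype.card_fun,
    Fintype.card_bool, Fintype.card_fin, nsmul_eq_mul, ← mul_assoc]
  have h3 : (((2 ^ n : ℕ) : ENNReal)) * (1 / 2) ^ n = 1 := by
    rw [Nat.cast_pow, Nat.cast_ofNat, ← mul_pow, one_div,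
      ENNReal.mul_inv_cancel (by norm_num) (by norm_num), one_pow]
  rw [h3, one_mul]

theorem rr_ne {a b : K} (h : a ≠ b) : mu K {ω | (rr a).1 ω = (rr b).1 ω} = 0 := by
  rw [← nonpos_iff_eq_zero]
  refine ge_of_tendsto' (ENNReal.tendsto_pow_atTop_nhds_zero_of_lt_one (r := 1 / 2) ?_)
    (fun n => rr_bd h n)
  rw [one_div]
  exact ENNReal.one_half_lt_one

private theorem pi_le : (MeasurableSpace.pi : MeasurableSpace (Om K)) ≤
    MeasurableSpace.generateFrom (Set.range fun i : K × ℕ => {ω : Om K | ω i = true}) := by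
  refine iSup_le fun i => ?_
  rw [← measurable_iff_comap_le]
  refine @measurable_to_bool _ (MeasurableSpace.generateFrom _) _ ?_
  exact MeasurableSpace.measurableSet_generateFrom ⟨i, rfl⟩

private theorem card_ms {U : Ultrafilter K} (hU : IsMU U) :
    #{A : Set (Om K) // MeasurableSet A} ≤ #K := by
  have h0 : ℵ₀ ≤ #K := hU.unc.le
  have h1 : #{A : Set (Om K) // MeasurableSet A} ≤
      #{t | @MeasurableSet (Om K)
        (MeasurableSpace.generateFrom (Set.range fun i : K × ℕ => {ω : Om K | ω i = true})) t} :=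
    Cardinal.mk_le_mk_of_subset (s := {A : Set (Om K) | MeasurableSet A}) fun A hA => pi_le A hA
  refine h1.trans ((MeasurableSpace.cardinal_measurableSet_le _).trans ?_)
  have h2 : #(Set.range fun i : K × ℕ => {ω : Om K | ω i = true}) ≤ #K := by
    refine Cardinal.mk_range_le.trans ?_
    rw [Cardinal.mk_prod, Cardinal.lift_id, Cardinal.lift_id, Cardinal.mk_nat,
      Cardinal.mul_aleph0_eq h0]
  have h3 : max #(Set.range fun i : K × ℕ => {ω : Om K | ω i = true}) 2 ≤ #K :=
    max_le h2 ((Cardinal.ofNat_lt_aleph0 (n := 2)).le.trans h0)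
  exact (Cardinal.power_le_power_right h3).trans hU.pow_aleph0.le

theorem card_RB {U : Ultrafilter K} (hU : IsMU U) : #(RB (Om K)) ≤ #K := by
  let F : RB (Om K) → ℕ → {A : Set (Om K) // MeasurableSet A} := fun X n =>
    ⟨{ω | X.1 ω n = true}, ((measurable_pi_apply n).comp X.2) (measurableSet_singleton true)⟩
  have hF : Function.Injective F := by
    intro X Y h
    apply Subtype.ext
    funext ω n
    have h1 : {ω | X.1 ω n = true} = {ω | Y.1 ω n = true} :=
      congrArg Subtype.val (congrFun h n)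
    have h2 : X.1 ω n = true ↔ Y.1 ω n = true := Set.ext_iff.1 h1 ω
    exact Bool.eq_iff_iff.2 h2
  refine (Cardinal.mk_le_of_injective hF).trans ?_
  have h1 : #(ℕ → {A : Set (Om K) // MeasurableSet A}) =
      #{A : Set (Om K) // MeasurableSet A} ^ ℵ₀ := by
    rw [← Cardinal.mk_nat, Cardinal.power_def]
  rw [h1]
  exact (Cardinal.power_le_power_right (card_ms hU)).trans hU.pow_aleph0.le

theorem exists_e {U : Ultrafilter K} (hU : IsMU U) :
    ∃ e : K → RB (Om K), ∀ X : RB (Om K), ∃ a, ∀ᵐ ω ∂(mu K), X.1 ω = (e a).1 ω := by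
  obtain ⟨f⟩ := card_RB hU
  have : Nonempty (RB (Om K)) := ⟨⟨fun _ _ => true, measurable_const⟩⟩
  refine ⟨Function.invFun f, fun X => ⟨f X, Filter.Eventually.of_forall fun ω => ?_⟩⟩
  rw [Function.leftInverse_invFun f.injective X]

end RVI
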