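import Pool.Agent.RVI.Fd0

/-! # The least upper bound of a random set of random variables (package FC)

(problem MP_75f27a_lc, project RVI)

`ρ f` is the truth value of `f ∈ A`, `h` is an upper bound of `A` below `c`; let `d := ⨆ f, ρ f`.
For every `q : ℚ` let `t q` be a countable set of random variables with
`⨆ f : t q, ρ f ⊓ cl {q < f} = ⨆ f, ρ f ⊓ cl {q < f}` (`iSup_countable`), and `t'` a countable set
with
`⨆ f : t', ρ f = d`. Let `T := t' ∪ ⋃ q, t q`. If `T` is empty then `d = ⊥`, take `g := 0`.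
Otherwise let
`f n`, `n : ℕ`, enumerate `T` and let `A n := rp (ρ (f n))`. For `ω ∈ ⋃ A n` let `N ω` be the
least `n` with
`ω ∈ A n`, and let `g ω := ⨆ n, (if ω ∈ A n then f n ω else f (N ω) ω)` (real supremum; Mathlib:
`Measurable.iSup`; `0` outside `⋃ A n`; the functions `ω ↦ f (N ω) ω` are measurable: preimages
are countable
unions). For almost all `ω ∈ rp c ∩ ⋃ A n`: `f n ω ≤ h ω` for all `n` with `ω ∈ A n`, so the
supremum is that of
a nonempty bounded set, namely of `{f n ω | ω ∈ A n}`.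
* upper bound: if `c ⊓ d ⊓ ρ f ≤ cl {f ≤ g}` fails then for some `q : ℚ` there is a condition
  `p ≤ c ⊓ d ⊓ ρ f ⊓ cl {g < q} ⊓ cl {q < f}`. As
  `p ∈ ρ f ⊓ cl {q < f} ≤ ⨆ n, ρ (f n) ⊓ cl {q < f n}` there are `n` and `r ≤ p`,
  `r ∈ cl (A n) ⊓ cl {q < f n}`; almost everywhere on `r`: `q < f n ω ≤ g ω < q`, a contradiction.
* least: if `b ≤ c ⊓ d` and `b ⊓ ρ f ≤ cl {f ≤ k}` for all `f` then for almost all `ω ∈ rp b`:
  `f n ω ≤ k ω` for
  all `n` with `ω ∈ A n`, and there is such an `n`, so `g ω ≤ k ω` (`ciSup_le`). -/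

set_option autoImplicit false

namespace RVI

open MeasureTheory STP

section

variable {Ω : Type} [MeasurableSpace Ω] {μ : Measure Ω} [IsProbabilityMeasure μ]

private theorem ae_of_cl_le {X Y : Set Ω} (hX : MeasurableSet X) (hY : MeasurableSet Y)
    (h : cl μ X ≤ cl μ Y) : ∀ᵐ ω ∂μ, ω ∈ X → ω ∈ Y :=
  (cl_le hX.nullMeasurableSet hY.nullMeasurableSet).1 h

private theorem cl_le_of_ae {X Y : Set Ω} (hX : MeasurableSet X) (hY : MeasurableSet Y)
    (h : ∀ᵐ ω ∂μ, ω ∈ X → ω ∈ Y) : cl μ X ≤ cl μ Y :=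
  (cl_le hX.nullMeasurableSet hY.nullMeasurableSet).2 h

theorem exists_lub (ρ : RR Ω → RO (Ps μ)) (h : RR Ω) (c : RO (Ps μ))
    (hc : ∀ f : RR Ω, c ⊓ ρ f ≤ cl μ {ω | f.1 ω ≤ h.1 ω}) :
    ∃ g : RR Ω, (∀ f : RR Ω, c ⊓ (⨆ f, ρ f) ⊓ ρ f ≤ cl μ {ω | f.1 ω ≤ g.1 ω}) ∧
      ∀ (k : RR Ω) (b : RO (Ps μ)), b ≤ c ⊓ ⨆ f, ρ f →
        (∀ f : RR Ω, b ⊓ ρ f ≤ cl μ {ω | f.1 ω ≤ k.1 ω}) → b ≤ cl μ {ω | g.1 ω ≤ k.1 ω} := by
  classical
  choose t ht ht' using fun q : ℚ =>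
    iSup_countable (μ := μ) fun f : RR Ω => ρ f ⊓ cl μ {ω | (q : ℝ) < f.1 ω}
  obtain ⟨t0, ht0, ht0'⟩ := iSup_countable (μ := μ) ρ
  have hT : (insert h (t0 ∪ ⋃ q, t q)).Countable :=
    (ht0.union (Set.countable_iUnion ht)).insert h
  obtain ⟨f, hf⟩ := hT.exists_eq_range ⟨h, Set.mem_insert _ _⟩
  have hmem : ∀ x, x ∈ insert h (t0 ∪ ⋃ q, t q) → ∃ n, f n = x := by
    intro x hx
    rw [hf] at hx
    exact hx
  set A : ℕ → Set Ω := fun n => rp (ρ (f n)) with hAdef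
  have hA : ∀ n, MeasurableSet (A n) := fun n => rp_meas _
  have hclA : ∀ n, cl μ (A n) = ρ (f n) := fun n => cl_rp _
  have hD : cl μ (⋃ n, A n) = ⨆ f, ρ f := by
    rw [cl_iUnion fun n => (hA n).nullMeasurableSet]
    apply le_antisymm
    · exact iSup_le fun n => by
        rw [hclA]
        exact le_iSup ρ (f n)
    · rw [← ht0']
      refine iSup_le fun i => ?_
      obtain ⟨n, hn⟩ := hmem i.1 (Set.mem_insert_of_mem _ (Or.inl i.2))
      rw [← hn, ← hclA]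
      exact le_iSup (fun n => cl μ (A n)) n
  have hlt : ∀ (q : ℚ) (f : RR Ω), MeasurableSet {ω | (q : ℝ) < f.1 ω} := fun q f =>
    measurableSet_lt measurable_const f.2
  have hq : ∀ (q : ℚ) (g : RR Ω), ρ g ⊓ cl μ {ω | (q : ℝ) < g.1 ω} ≤
      cl μ (⋃ n, A n ∩ {ω | (q : ℝ) < (f n).1 ω}) := by
    intro q g
    refine (le_iSup (fun f : RR Ω => ρ f ⊓ cl μ {ω | (q : ℝ) < f.1 ω}) g).trans ?_
    rw [← ht' q, cl_iUnion fun n => ((hA n).inter (hlt q (f n))).nullMeasurableSet]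
    refine iSup_le fun i => ?_
    obtain ⟨n, hn⟩ := hmem i.1 (Set.mem_insert_of_mem _ (Or.inr (Set.mem_iUnion.2 ⟨q, i.2⟩)))
    refine le_trans ?_ (le_iSup (fun n => cl μ (A n ∩ {ω | (q : ℝ) < (f n).1 ω})) n)
    rw [cl_inter (hA n).nullMeasurableSet (hlt q (f n)).nullMeasurableSet, hclA, hn]
  -- the bound on the pieces
  have hle : ∀ u v : RR Ω, MeasurableSet {ω | u.1 ω ≤ v.1 ω} := fun u v =>
    measurableSet_le u.2 v.2
  have hbd : ∀ (e : RO (Ps μ)) (k : RR Ω), (∀ f : RR Ω, e ⊓ ρ f ≤ cl μ {ω | f.1 ω ≤ k.1 ω}) →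
      ∀ᵐ ω ∂μ, ∀ n, ω ∈ rp e → ω ∈ A n → (f n).1 ω ≤ k.1 ω := by
    intro e k hk
    rw [ae_all_iff]
    intro n
    have h1 : cl μ (rp e ∩ A n) ≤ cl μ {ω | (f n).1 ω ≤ k.1 ω} := by
      rw [cl_inter (rp_meas e).nullMeasurableSet (hA n).nullMeasurableSet, cl_rp, hclA]
      exact hk (f n)
    filter_upwards [ae_of_cl_le ((rp_meas e).inter (hA n)) (hle (f n) k) h1] with ω hω h1 h2
    exact hω ⟨h1, h2⟩
  -- the supremum
  set G : Ω → EReal := fun ω => ⨆ n, if ω ∈ A n then (((f n).1 ω : ℝ) : EReal) else ⊥ with hG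
  have hGm : Measurable G := Measurable.iSup fun n =>
    Measurable.ite (hA n) (measurable_coe_real_ereal.comp (f n).2) measurable_const
  have hGle : ∀ (ω : Ω) (x : ℝ), (∀ n, ω ∈ A n → (f n).1 ω ≤ x) → G ω ≤ (x : EReal) := by
    intro ω x hx
    refine iSup_le fun n => ?_
    by_cases hn : ω ∈ A n
    · rw [if_pos hn]
      exact EReal.coe_le_coe_iff.2 (hx n hn)
    · rw [if_neg hn]
      exact bot_le
  have hleG : ∀ (ω : Ω) (n : ℕ), ω ∈ A n → (((f n).1 ω : ℝ) : EReal) ≤ G ω := by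
    intro ω n hn
    have := le_iSup (fun n => if ω ∈ A n then (((f n).1 ω : ℝ) : EReal) else ⊥) n
    rw [if_pos hn] at this
    exact this
  let g : RR Ω := ⟨fun ω => (G ω).toReal, measurable_ereal_toReal.comp hGm⟩
  have hgG : ∀ (ω : Ω) (x : ℝ), (∀ n, ω ∈ A n → (f n).1 ω ≤ x) → (∃ n, ω ∈ A n) →
      ((g.1 ω : ℝ) : EReal) = G ω := by
    rintro ω x hx ⟨n, hn⟩
    refine EReal.coe_toReal ?_ ?_
    · intro hh
      have := hGle ω x hx
      rw [hh] at this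
      exact absurd this (not_le.2 (EReal.coe_lt_top x))
    · intro hh
      have := hleG ω n hn
      rw [hh] at this
      exact absurd this (not_le.2 (EReal.bot_lt_coe _))
  refine ⟨g, fun u => ?_, fun k b hb hk => ?_⟩
  · -- upper bound
    have e1 : c ⊓ (⨆ f, ρ f) ⊓ ρ u = cl μ ((rp c ∩ ⋃ n, A n) ∩ rp (ρ u)) := by
      rw [cl_inter ((rp_meas c).inter (MeasurableSet.iUnion hA)).nullMeasurableSet
        (rp_meas _).nullMeasurableSet, cl_inter (rp_meas c).nullMeasurableSet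
        (MeasurableSet.iUnion hA).nullMeasurableSet, cl_rp, cl_rp, hD]
    rw [e1]
    refine cl_le_of_ae (((rp_meas c).inter (MeasurableSet.iUnion hA)).inter (rp_meas _))
      (hle u g) ?_
    have h2 : ∀ᵐ ω ∂μ, ∀ q : ℚ, ω ∈ rp (ρ u) → (q : ℝ) < u.1 ω →
        ∃ n, ω ∈ A n ∧ (q : ℝ) < (f n).1 ω := by
      rw [ae_all_iff]
      intro q
      have h3 : cl μ (rp (ρ u) ∩ {ω | (q : ℝ) < u.1 ω}) ≤
          cl μ (⋃ n, A n ∩ {ω | (q : ℝ) < (f n).1 ω}) := by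
        rw [cl_inter (rp_meas _).nullMeasurableSet (hlt q u).nullMeasurableSet, cl_rp]
        exact hq q u
      filter_upwards [ae_of_cl_le ((rp_meas _).inter (hlt q u))
        (MeasurableSet.iUnion fun n => (hA n).inter (hlt q (f n))) h3] with ω hω h4 h5
      obtain ⟨n, hn⟩ := Set.mem_iUnion.1 (hω ⟨h4, h5⟩)
      exact ⟨n, hn.1, hn.2⟩
    filter_upwards [hbd c h hc, h2] with ω hω1 hω2 hω
    have hb1 : ∀ n, ω ∈ A n → (f n).1 ω ≤ h.1 ω := fun n hn => hω1 n hω.1.1 hn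
    have hb2 := hgG ω _ hb1 (Set.mem_iUnion.1 hω.1.2)
    change u.1 ω ≤ g.1 ω
    by_contra hcon
    obtain ⟨q, hq1, hq2⟩ := exists_rat_btwn (not_le.1 hcon)
    obtain ⟨n, hn1, hn2⟩ := hω2 q hω.2 hq2
    have h6 := hleG ω n hn1
    rw [← hb2] at h6
    have h7 : (f n).1 ω ≤ g.1 ω := EReal.coe_le_coe_iff.1 h6
    linarith
  · -- least
    have hbC : b ≤ cl μ (rp c ∩ ⋃ n, A n) := by
      rw [cl_inter (rp_meas c).nullMeasurableSet
        (MeasurableSet.iUnion hA).nullMeasurableSet, cl_rp, hD]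
      exact hb
    rw [← cl_rp b] at hbC ⊢
    refine cl_le_of_ae (rp_meas b) (hle g k) ?_
    filter_upwards [hbd b k hk, ae_of_cl_le (rp_meas b)
      ((rp_meas c).inter (MeasurableSet.iUnion hA)) hbC] with ω hω1 hω2 hω
    have hb1 : ∀ n, ω ∈ A n → (f n).1 ω ≤ k.1 ω := fun n hn => hω1 n hω hn
    have hb2 := hgG ω _ hb1 (Set.mem_iUnion.1 (hω2 hω).2)
    have h6 := hGle ω _ hb1
    rw [← hb2] at h6
    exact EReal.coe_le_coe_iff.1 h6

end

end RVI
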