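import Pool.Agent.RVI.FdB
import Pool.Agent.RVI.FdC

/-! # The real line of the model is a complete ordered field (package FD)

(problem MP_75f27a_lc, project RVI)

* `rn_complete`: `A = NG.mk G X`; by `sub_rep (nr μ)` we may replace `X` by `st (nr μ) ρ` with
  `ρ f := mem (nr μ f) X` (`ex1_mem`, `st_mem`: `nr μ f ∈ A ↔ ρ f ∈ G.s`). The upper bound is
  `nr μ h`
  (`mem_RN`). The statement `∀ a, a ∈ A → ¬ Val l (nr μ h) a` has the truth value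
  `c := ⨅ f, (ρ f ⇨ (cl {h < f})ᶜ)` (`st_ball` for the family `nr μ`; the truth value for
  `a = nr μ f` is
  `(cl {h < f})ᶜ`: `nr_lt`, `compl_mem`), so `c ∈ G.s`, and `c ⊓ ρ f ≤ cl {f ≤ h}` (`cl_compl`). The
  statement `∃ a, a ∈ A` has the truth value `d := ⨆ f, ρ f ⊓ ⊤` (`st_bex` with `S := True`), so
  `d ∈ G.s`.
  Take `g` from `exists_lub`. Upper bound: for `a ∈ A` (`a ∈ RN μ`, `a = nr μ f`, `ρ f ∈ G.s`) the
  class of
  `{f ≤ g}` is in `G.s`, so the class of `{g < f}` is not (`cl_compl`, `compl_mem`). Least: let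
  `nr μ k` be an
  upper bound of `A` in `NG G`; as above `e := ⨅ f, (ρ f ⇨ (cl {k < f})ᶜ) ∈ G.s`; take
  `b := c ⊓ d ⊓ e` in `exists_lub`.
* `isRF`: all fields. -/

set_option autoImplicit false

namespace RVI

open MeasureTheory STP STP.BSet CPI

section

variable {Ω : Type} [MeasurableSpace Ω] {μ : Measure Ω} [IsProbabilityMeasure μ]
  (G : Ult (RO (Ps μ)))

private theorem cl_le_eq (f g : RR Ω) :
    cl μ {ω | f.1 ω ≤ g.1 ω} = (cl μ {ω | g.1 ω < f.1 ω})ᶜ := by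
  rw [← cl_compl (measurableSet_lt g.2 f.2).nullMeasurableSet]
  congr 1
  ext ω
  simp

private theorem ub_iff (ρ : RR Ω → RO (Ps μ)) (k : RR Ω) :
    (∀ a, EG G a (NG.mk G (st (nr μ) ρ)) → ¬ Val (EG G) (NG.mk G (lN μ)) (NG.mk G (nr μ k)) a) ↔
      (⨅ f, (ρ f ⇨ (cl μ {ω | k.1 ω < f.1 ω})ᶜ)) ∈ G.s :=
  st_ball (nr μ) ρ (fun G x => ¬ Val (EG G) (NG.mk G (lN μ)) (NG.mk G (nr μ k)) x)
    (fun f => (cl μ {ω | k.1 ω < f.1 ω})ᶜ) (fun a G => by rw [nr_lt, compl_mem]) G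

omit [IsProbabilityMeasure μ] in
private theorem ub_le' (ρ : RR Ω → RO (Ps μ)) (k f : RR Ω) :
    (⨅ f, (ρ f ⇨ (cl μ {ω | k.1 ω < f.1 ω})ᶜ)) ⊓ ρ f ≤ (cl μ {ω | k.1 ω < f.1 ω})ᶜ :=
  le_himp_iff.1 (iInf_le (fun f => (ρ f ⇨ (cl μ {ω | k.1 ω < f.1 ω})ᶜ)) f)

private theorem ub_le (ρ : RR Ω → RO (Ps μ)) (k f : RR Ω) :
    (⨅ f, (ρ f ⇨ (cl μ {ω | k.1 ω < f.1 ω})ᶜ)) ⊓ ρ f ≤ cl μ {ω | f.1 ω ≤ k.1 ω} := by
  rw [cl_le_eq]
  exact ub_le' ρ k f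

theorem rn_complete (A : NG G) (hA : Sub (EG G) A (NG.mk G (RN μ))) (hne : ∃ a, EG G a A)
    (hb : ∃ b, EG G b (NG.mk G (RN μ)) ∧ ∀ a, EG G a A → ¬ Val (EG G) (NG.mk G (lN μ)) b a) :
    ∃ c, EG G c (NG.mk G (RN μ)) ∧ (∀ a, EG G a A → ¬ Val (EG G) (NG.mk G (lN μ)) c a) ∧
      ∀ b, EG G b (NG.mk G (RN μ)) → (∀ a, EG G a A → ¬ Val (EG G) (NG.mk G (lN μ)) b a) →
        ¬ Val (EG G) (NG.mk G (lN μ)) b c := by
  obtain ⟨X, rfl⟩ := NG.exists_rep A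
  obtain ⟨b, hbR, hbA⟩ := hb
  obtain ⟨h, rfl⟩ := (mem_RN G).1 hbR
  rw [sub_rep (nr μ) X G hA] at hne hbA ⊢
  set ρ : RR Ω → RO (Ps μ) := fun f => BSet.mem (nr μ f) X with hρ
  rw [ub_iff G ρ h] at hbA
  have hd : (⨆ f, ρ f) ∈ G.s := by
    obtain ⟨a, ha⟩ := hne
    have h1 := (st_bex (nr μ) ρ (fun _ _ => True) (fun _ => ⊤)
      (fun _ G => ⟨fun _ => G.top, fun _ => trivial⟩) G).1 ⟨a, ha, trivial⟩
    simpa using h1
  obtain ⟨g, hg1, hg2⟩ := exists_lub ρ h _ (fun f => ub_le ρ h f)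
  refine ⟨NG.mk G (nr μ g), (mem_RN G).2 ⟨g, rfl⟩, ?_, ?_⟩
  · rw [ub_iff G ρ g]
    refine G.up (G.inf hbA hd) (le_iInf fun f => ?_)
    rw [le_himp_iff, ← cl_le_eq]
    exact hg1 f
  · intro b hb1 hb2
    obtain ⟨k, rfl⟩ := (mem_RN G).1 hb1
    rw [ub_iff G ρ k] at hb2
    have h1 := hg2 k _ (inf_le_left (b := ⨅ f, (ρ f ⇨ (cl μ {ω | k.1 ω < f.1 ω})ᶜ)))
      (fun f => le_trans (inf_le_inf_right _ inf_le_right) (ub_le ρ k f))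
    have h2 := G.up (G.inf (G.inf hbA hd) hb2) h1
    rw [cl_le_eq, compl_mem] at h2
    rw [nr_lt]
    exact h2

theorem isRF : IsRF (EG G) (NG.mk G (RN μ)) (NG.mk G (lN μ)) (NG.mk G (sN μ)) (NG.mk G (tN μ))
    (NG.mk G (nr μ (cR 0))) (NG.mk G (nr μ (cR 1))) where
  zero_mem := (mem_RN G).2 ⟨_, rfl⟩
  one_mem := (mem_RN G).2 ⟨_, rfl⟩
  zero_lt_one := rn_lt_one G
  lt_irrefl := rn_irrefl G
  lt_trans := rn_trans G
  lt_total := rn_total G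
  add_fun := rn_add_fun G
  mul_fun := rn_mul_fun G
  add_comm := rn_add_comm G
  mul_comm := rn_mul_comm G
  add_assoc := rn_add_assoc G
  mul_assoc := rn_mul_assoc G
  distrib := rn_distrib G
  add_zero := rn_add_zero G
  mul_one := rn_mul_one G
  add_neg := rn_add_neg G
  mul_inv := rn_mul_inv G
  add_lt := rn_add_lt G
  mul_pos := rn_mul_pos G
  complete := rn_complete G

end

end RVI
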