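import Pool.Agent.RVI.RnA

/-! # The real line of the model (definitions)

(problem MP_75f27a_lc, project RVI; no sorry in this file) -/

namespace RVI

open MeasureTheory STP STP.BSet CPI

section

variable {Ω : Type} [MeasurableSpace Ω]

/-- sum -/
noncomputable def addR (f g : RR Ω) : RR Ω := ⟨fun ω => f.1 ω + g.1 ω, f.2.add g.2⟩

/-- product -/
noncomputable def mulR (f g : RR Ω) : RR Ω := ⟨fun ω => f.1 ω * g.1 ω, f.2.mul g.2⟩

/-- constant -/
noncomputable def cR (c : ℝ) : RR Ω := ⟨fun _ => c, measurable_const⟩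

variable (μ : Measure Ω)

/-- the order -/
noncomputable def lN : BSet (RO (Ps μ)) := rt (nr μ) (nr μ) fun f g => cl μ {ω | f.1 ω < g.1 ω}

/-- the addition -/
noncomputable def sN : BSet (RO (Ps μ)) := gr2 (nr μ) (nr μ) (nr μ) addR

/-- the multiplication -/
noncomputable def tN : BSet (RO (Ps μ)) := gr2 (nr μ) (nr μ) (nr μ) mulR

end

end RVI
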