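import Pool.Agent.RVI.Tv

/-! # The measure algebra of a probability space as a poset (definitions)

(problem MP_75f27a_lc, project RVI; no sorry in this file)

The conditions are the measurable sets of positive measure (`Ps μ`); smaller sets are stronger.
`cl μ A` is the element of the complete Boolean algebra `RO (Ps μ)` given by the (null measurable)
set `A`. -/

namespace RVI

open MeasureTheory ENNReal STP

variable {Ω : Type} [MeasurableSpace Ω]

/-- the conditions: measurable sets of positive measure -/
def Ps (μ : Measure Ω) : Type := {A : Set Ω // MeasurableSet A ∧ 0 < μ A}

instance (μ : Measure Ω) : PartialOrder (Ps μ) := Subtype.partialOrder _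

variable {μ : Measure Ω}

theorem Ps.le_def {p q : Ps μ} : p ≤ q ↔ p.1 ⊆ q.1 := Iff.rfl

variable (μ)

/-- the element of the measure algebra given by a set -/
noncomputable def cl (A : Set Ω) : RO (Ps μ) := RO.cl {p | μ (p.1 \ A) = 0}

end RVI
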