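import Pool.Agent.RVI.Alg1

/-! # The measure algebra: every element is the class of a set, countable suprema (package A2)

(problem MP_75f27a_lc, project RVI; compare `Pool/Agent/Rnd/RB.lean`, `RC.lean`)

* `ccc`: for `n : ℕ` the set of the `p ∈ s` with `μ p > 1 / (n + 1)` is finite (the measures of
  finitely
  many pairwise almost disjoint sets add up to at most 1); or use
  `Measure.countable_meas_pos_of_disjoint_iUnion₀` for the null measurable, almost disjoint family
  `fun p : s => p.1.1` (`AEDisjoint`: `μ (p ∩ q) = 0`, as otherwise `p ∩ q` would be a common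
  extension).
* `iSup_countable`: let `s` be (Zorn, `zorn_subset`) a maximal set of conditions `p` such that
  `p ∈ f i` for
  some `i` and two different elements of `s` have no common extension. It is countable (`ccc`).
  Choose
  `i p` for `p ∈ s` with `p ∈ f (i p)`; let `t := range i`. If `q ∈ ⨆ i, f i`, `r ≤ q` then there
  are
  `r' ≤ r` and `j` with `r' ∈ f j` (`RO.mem_iSup`); by maximality `r'` is compatible with some
  `p ∈ s`:
  `t' ≤ r', p`, `t' ∈ f (i p)`. So `q ∈ ⨆ i : t, f i`.
* `exists_cl`: apply this to `f : {p // p ∈ b} → RO (Ps μ)`, `p ↦ RO.up p.1`: `b = ⨆ p, RO.up p`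
  is a
  countable supremum, `A :=` the union of the countably many sets (`up_eq`, `cl_iUnion`).
* `exists_mix`: by `iSup_countable` choose a countable `t` with `⨆ i : t, f i = ⨆ i, f i`; if `t` is
  empty take `A n = ∅`, otherwise enumerate `t` by `i : ℕ → ι` (`Set.Countable.exists_eq_range`),
  let `B n` be measurable with
  `cl (B n) = f (i n)` and `A n := disjointed B n` (`MeasurableSet.disjointed`,
  `disjoint_disjointed`, `iUnion_disjointed`, `disjointed_subset`). -/

set_option autoImplicit false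

namespace RVI

open MeasureTheory ENNReal STP

variable {Ω : Type} [MeasurableSpace Ω] {μ : Measure Ω} [IsProbabilityMeasure μ]

/-- antichains are countable -/
theorem ccc {s : Set (Ps μ)} (h : ∀ p ∈ s, ∀ q ∈ s, p ≠ q → ¬ ∃ r, r ≤ p ∧ r ≤ q) :
    s.Countable := by
  have h1 := Measure.countable_meas_pos_of_disjoint_iUnion₀ (μ := μ) (As := fun p : s => p.1.1)
    (fun p => p.1.2.1.nullMeasurableSet) (by
      intro p q hpq
      show μ (p.1.1 ∩ q.1.1) = 0
      by_contra h0
      refine h p.1 p.2 q.1 q.2 (fun h2 => hpq (Subtype.ext h2))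
        ⟨⟨p.1.1 ∩ q.1.1, p.1.2.1.inter q.1.2.1, pos_iff_ne_zero.2 h0⟩, ?_, ?_⟩
      · exact Set.inter_subset_left
      · exact Set.inter_subset_right)
  have h2 : {i : s | 0 < μ i.1.1} = Set.univ := Set.eq_univ_of_forall fun p => p.1.2.2
  rw [h2, Set.countable_univ_iff] at h1
  exact Set.countable_coe_iff.1 h1

theorem iSup_countable {ι : Type} (f : ι → RO (Ps μ)) :
    ∃ t : Set ι, t.Countable ∧ ⨆ i : t, f i = ⨆ i, f i := by
  classical
  obtain ⟨s, hs⟩ := zorn_subset {s : Set (Ps μ) | (∀ p ∈ s, ∃ i, p ∈ f i) ∧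
    ∀ p ∈ s, ∀ q ∈ s, p ≠ q → ¬ ∃ r, r ≤ p ∧ r ≤ q} (by
      intro c hc hch
      refine ⟨⋃₀ c, ⟨?_, ?_⟩, fun s hs => Set.subset_sUnion_of_mem hs⟩
      · rintro p ⟨s, hs, hp⟩
        exact (hc hs).1 p hp
      · rintro p ⟨s, hs, hp⟩ q ⟨s', hs', hq⟩ hpq
        rcases hch.total hs hs' with h | h
        · exact (hc hs').2 p (h hp) q hq hpq
        · exact (hc hs).2 p hp q (h hq) hpq)
  have hc : s.Countable := ccc hs.prop.2
  have : Countable s := hc.to_subtype
  have h1 : ∀ p : s, ∃ i, p.1 ∈ f i := fun p => hs.prop.1 p.1 p.2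
  choose i hi using h1
  refine ⟨Set.range i, Set.countable_range i, le_antisymm ?_ ?_⟩
  · exact iSup_le fun j => le_iSup f j
  · refine iSup_le fun j => RO.le_def.2 fun q hq => RO.mem_iSup.2 fun r hr => ?_
    have hrj : r ∈ f j := RO.down _ hr hq
    have h2 : ∃ p ∈ s, ∃ t, t ≤ r ∧ t ≤ p := by
      by_contra hcon
      push Not at hcon
      have h3 : insert r s ∈ {s : Set (Ps μ) | (∀ p ∈ s, ∃ i, p ∈ f i) ∧
          ∀ p ∈ s, ∀ q ∈ s, p ≠ q → ¬ ∃ r, r ≤ p ∧ r ≤ q} := by
        refine ⟨?_, ?_⟩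
        · intro p hp
          rcases Set.mem_insert_iff.1 hp with rfl | hp
          · exact ⟨j, hrj⟩
          · exact hs.prop.1 p hp
        · intro p hp p' hp' hpp
          rcases Set.mem_insert_iff.1 hp with rfl | hps
          · rcases Set.mem_insert_iff.1 hp' with rfl | hps'
            · exact absurd rfl hpp
            · rintro ⟨t, ht, ht'⟩
              exact hcon p' hps' t ht ht'
          · rcases Set.mem_insert_iff.1 hp' with rfl | hps'
            · rintro ⟨t, ht, ht'⟩
              exact hcon p hps t ht' ht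
            · exact hs.prop.2 p hps p' hps' hpp
      have h4 : r ∈ s := hs.le_of_ge h3 (Set.subset_insert r s) (Set.mem_insert r s)
      exact hcon r h4 r le_rfl le_rfl
    obtain ⟨p, hp, t, htr, htp⟩ := h2
    exact ⟨t, htr, ⟨i ⟨p, hp⟩, ⟨p, hp⟩, rfl⟩, RO.down _ htp (hi ⟨p, hp⟩)⟩

theorem exists_cl (b : RO (Ps μ)) : ∃ A, MeasurableSet A ∧ cl μ A = b := by
  obtain ⟨t, ht, h⟩ := iSup_countable (μ := μ) fun p : {p : Ps μ // p ∈ b} => RO.up p.1
  have : Countable t := ht.to_subtype
  have hb : ⨆ p : {p : Ps μ // p ∈ b}, RO.up p.1 = b := by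
    refine le_antisymm (iSup_le fun p => RO.up_le.2 p.2) (RO.le_def.2 fun p hp => ?_)
    exact RO.le_def.1 (le_iSup (fun p : {p : Ps μ // p ∈ b} => RO.up p.1) ⟨p, hp⟩) p
      (RO.self_mem_up p)
  refine ⟨⋃ i : t, i.1.1.1, MeasurableSet.iUnion fun i => i.1.1.2.1, ?_⟩
  refine (cl_iUnion fun i : t => i.1.1.2.1.nullMeasurableSet).trans ?_
  exact (iSup_congr fun i => (up_eq _).symm).trans (h.trans hb)

/-- a supremum is the union of countably many disjoint pieces of its members -/
theorem exists_mix {ι : Type} [Nonempty ι] (f : ι → RO (Ps μ)) :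
    ∃ (A : ℕ → Set Ω) (i : ℕ → ι), (∀ n, MeasurableSet (A n)) ∧
      Pairwise (Function.onFun Disjoint A) ∧ (∀ n, cl μ (A n) ≤ f (i n)) ∧
      cl μ (⋃ n, A n) = ⨆ i, f i := by
  obtain ⟨t, ht, h⟩ := iSup_countable f
  rcases t.eq_empty_or_nonempty with rfl | hne
  · refine ⟨fun _ => ∅, fun _ => Classical.arbitrary ι, fun _ => MeasurableSet.empty,
      fun _ _ _ => disjoint_bot_left, fun n => ?_, ?_⟩
    · rw [cl_empty]
      exact bot_le
    · rw [Set.iUnion_empty, cl_empty, ← h, iSup_of_empty]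
  · obtain ⟨i, rfl⟩ := ht.exists_eq_range hne
    choose B hB hBf using fun n => exists_cl (f (i n))
    have hA : ∀ n, MeasurableSet (disjointed B n) := MeasurableSet.disjointed hB
    refine ⟨disjointed B, i, hA, disjoint_disjointed B, fun n => ?_, ?_⟩
    · rw [← hBf n, cl_le (hA n).nullMeasurableSet (hB n).nullMeasurableSet]
      exact Filter.Eventually.of_forall (disjointed_subset B n)
    · rw [iUnion_disjointed, cl_iUnion fun n => (hB n).nullMeasurableSet, ← h]
      refine le_antisymm (iSup_le fun n => ?_) (iSup_le ?_)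
      · rw [hBf n]
        exact le_iSup (fun j : Set.range i => f j) ⟨i n, n, rfl⟩
      · rintro ⟨_, n, rfl⟩
        rw [← hBf n]
        exact le_iSup (fun n => cl μ (B n)) n

/-- a measurable representative -/
noncomputable def rp (b : RO (Ps μ)) : Set Ω := (exists_cl b).choose

theorem rp_meas (b : RO (Ps μ)) : MeasurableSet (rp b) := (exists_cl b).choose_spec.1

@[simp] theorem cl_rp (b : RO (Ps μ)) : cl μ (rp b) = b := (exists_cl b).choose_spec.2

end RVI
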