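import Pool.Agent.RVI.Sg0
import Pool.Agent.RVM.Defs

/-! # Closure properties of the functions generated by random rectangles (package SA)

(problem MP_75f27a_lc, project RVI)

* `gs_section`: the map `ω ↦ (x, y, ω)` is measurable for `GS X Y Ω` (`measurable_generateFrom`: the
  preimage of a generator is `A x ∩ B y`).
* `GM.rect`: choose measurable `A x`, `B y` with `cl (A x) = P x`, `cl (B y) = Q y` (`exists_cl`;
  `rp`), the
  set is a generator, `cl_inter`. `GM.left`, `GM.right`, `GM.const`: special cases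
  (`⊓ ⊤`).
* `GM.compl`: `Eᶜ`, `cl_compl` (`gs_section` gives the measurability of the section). `GM.iSup`:
  choose
  `E i`, take `⋃ i, E i`, `cl_iUnion`. `GM.iInf`, `GM.sup`, `GM.inf`: from these (for `sup`, `inf`
  use
  `ι := Bool`, or directly `cl_union`, `cl_inter`).
* `gs_comap`: the map `(x, y, ω) ↦ (f x, g y, ω)` is measurable for `GS`
  (`measurable_generateFrom`).
* `GM.of_rectMeas`: the map `(x, y, ω) ↦ (x, y)` is measurable from `GS X Y Ω` to the rectangle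
  sigma-algebra: the preimage of `A ×ˢ B` is the generator with
  `A x = {ω | x ∈ A}`, `B y = {ω | y ∈ B}`. The section of the preimage of `R` is
  `{ω | (x, y) ∈ R}`;
  `cl_chi`. -/

set_option autoImplicit false

namespace RVI

open MeasureTheory STP Pool.RVM

section

variable {X Y X' Y' : Type} {Ω : Type} [MeasurableSpace Ω]

theorem gs_section {E : Set (X × Y × Ω)} (hE : MeasurableSet[GS X Y Ω] E) (x : X) (y : Y) :
    MeasurableSet {ω | (x, y, ω) ∈ E} := by
  have hf : @Measurable Ω (X × Y × Ω) _ (GS X Y Ω) fun ω => (x, y, ω) := by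
    refine measurable_generateFrom ?_
    rintro R ⟨A, B, hA, hB, rfl⟩
    exact (hA x).inter (hB y)
  exact hf hE

theorem gs_comap {E : Set (X × Y × Ω)} (hE : MeasurableSet[GS X Y Ω] E) (f : X' → X)
    (g : Y' → Y) : MeasurableSet[GS X' Y' Ω] {z | (f z.1, g z.2.1, z.2.2) ∈ E} := by
  have hf : @Measurable (X' × Y' × Ω) (X × Y × Ω) (GS X' Y' Ω) (GS X Y Ω)
      fun z => (f z.1, g z.2.1, z.2.2) := by
    refine @measurable_generateFrom _ _ (GS X' Y' Ω) _ _ ?_
    rintro R ⟨A, B, hA, hB, rfl⟩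
    exact MeasurableSpace.measurableSet_generateFrom
      ⟨fun x => A (f x), fun y => B (g y), fun x => hA (f x), fun y => hB (g y), rfl⟩
  exact hf hE

variable {μ : Measure Ω} [IsProbabilityMeasure μ] {Φ Ψ : X → Y → RO (Ps μ)}

theorem GM.rect (P : X → RO (Ps μ)) (Q : Y → RO (Ps μ)) : GM μ fun x y => P x ⊓ Q y := by
  refine ⟨{z | z.2.2 ∈ rp (P z.1) ∧ z.2.2 ∈ rp (Q z.2.1)},
    MeasurableSpace.measurableSet_generateFrom ⟨fun x => rp (P x), fun y => rp (Q y),
      fun x => rp_meas (P x), fun y => rp_meas (Q y), rfl⟩, fun x y => ?_⟩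
  have h := cl_inter (μ := μ) (rp_meas (P x)).nullMeasurableSet (rp_meas (Q y)).nullMeasurableSet
  rw [cl_rp, cl_rp] at h
  exact h.symm

theorem GM.left (P : X → RO (Ps μ)) : GM μ fun (x : X) (_ : Y) => P x := by
  have h := GM.rect (Y := Y) P (fun _ => (⊤ : RO (Ps μ)))
  simpa only [inf_top_eq] using h

theorem GM.right (Q : Y → RO (Ps μ)) : GM μ fun (_ : X) (y : Y) => Q y := by
  have h := GM.rect (X := X) (fun _ => (⊤ : RO (Ps μ))) Q
  simpa only [top_inf_eq] using h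

theorem GM.const (b : RO (Ps μ)) : GM μ fun (_ : X) (_ : Y) => b := GM.left fun _ => b

theorem GM.compl (h : GM μ Φ) : GM μ fun x y => (Φ x y)ᶜ := by
  obtain ⟨E, hE, h⟩ := h
  refine ⟨Eᶜ, hE.compl, fun x y => ?_⟩
  beta_reduce
  rw [h, ← cl_compl (gs_section hE x y).nullMeasurableSet]
  rfl

theorem GM.iSup {ι : Type} [Countable ι] {Φ : ι → X → Y → RO (Ps μ)} (h : ∀ i, GM μ (Φ i)) :
    GM μ fun x y => ⨆ i, Φ i x y := by
  choose E hE h using h
  refine ⟨⋃ i, E i, MeasurableSet.iUnion hE, fun x y => ?_⟩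
  have h1 : {ω | (x, y, ω) ∈ ⋃ i, E i} = ⋃ i, {ω | (x, y, ω) ∈ E i} := by
    ext ω
    simp
  rw [h1, cl_iUnion fun i => (gs_section (hE i) x y).nullMeasurableSet]
  exact iSup_congr fun i => h i x y

theorem GM.iInf {ι : Type} [Countable ι] {Φ : ι → X → Y → RO (Ps μ)} (h : ∀ i, GM μ (Φ i)) :
    GM μ fun x y => ⨅ i, Φ i x y := by
  choose E hE h using h
  refine ⟨⋂ i, E i, MeasurableSet.iInter hE, fun x y => ?_⟩
  have h1 : {ω | (x, y, ω) ∈ ⋂ i, E i} = ⋂ i, {ω | (x, y, ω) ∈ E i} := by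
    ext ω
    simp
  rw [h1, cl_iInter fun i => (gs_section (hE i) x y).nullMeasurableSet]
  exact iInf_congr fun i => h i x y

theorem GM.inf (h : GM μ Φ) (h' : GM μ Ψ) : GM μ fun x y => Φ x y ⊓ Ψ x y := by
  obtain ⟨E, hE, h⟩ := h
  obtain ⟨E', hE', h'⟩ := h'
  refine ⟨E ∩ E', hE.inter hE', fun x y => ?_⟩
  beta_reduce
  rw [h, h', ← cl_inter (gs_section hE x y).nullMeasurableSet
    (gs_section hE' x y).nullMeasurableSet]
  rfl

theorem GM.sup (h : GM μ Φ) (h' : GM μ Ψ) : GM μ fun x y => Φ x y ⊔ Ψ x y := by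
  obtain ⟨E, hE, h⟩ := h
  obtain ⟨E', hE', h'⟩ := h'
  refine ⟨E ∪ E', hE.union hE', fun x y => ?_⟩
  beta_reduce
  rw [h, h', ← cl_union (gs_section hE x y).nullMeasurableSet
    (gs_section hE' x y).nullMeasurableSet]
  rfl

theorem GM.himp (h : GM μ Φ) (h' : GM μ Ψ) : GM μ fun x y => Φ x y ⇨ Ψ x y := by
  obtain ⟨E, hE, h⟩ := h
  obtain ⟨E', hE', h'⟩ := h'
  refine ⟨Eᶜ ∪ E', hE.compl.union hE', fun x y => ?_⟩
  beta_reduce
  rw [h, h', ← cl_himp (gs_section hE x y).nullMeasurableSet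
    (gs_section hE' x y).nullMeasurableSet]
  rfl

theorem GM.comap (h : GM μ Φ) (f : X' → X) (g : Y' → Y) :
    GM μ fun x y => Φ (f x) (g y) := by
  obtain ⟨E, hE, h⟩ := h
  exact ⟨{z | (f z.1, g z.2.1, z.2.2) ∈ E}, gs_comap hE f g, fun x y => h (f x) (g y)⟩

theorem GM.of_rectMeas {R : Set (X × Y)} (hR : RectMeas R) :
    GM μ fun x y => (chi ((x, y) ∈ R) : RO (Ps μ)) := by
  have hf : @Measurable (X × Y × Ω) (X × Y) (GS X Y Ω)
      (MeasurableSpace.generateFrom {R : Set (X × Y) | ∃ A B, R = A ×ˢ B})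
      fun z => (z.1, z.2.1) := by
    refine @measurable_generateFrom _ _ (GS X Y Ω) _ _ ?_
    rintro R ⟨A, B, rfl⟩
    exact MeasurableSpace.measurableSet_generateFrom
      ⟨fun x => {_ω | x ∈ A}, fun y => {_ω | y ∈ B}, fun x => MeasurableSet.const _,
        fun y => MeasurableSet.const _, rfl⟩
  refine ⟨_, hf hR, fun x y => ?_⟩
  exact (cl_chi ((x, y) ∈ R)).symm

end

end RVI
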