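import Pool.Agent.RVI.Co0
import Pool.Agent.RVI.SgA
import Pool.Agent.RVI.OmA

/-! # The diagonal of `K` and the valid pairs (package CE)

(problem MP_75f27a_lc, project RVI)

* `gm_diag`: for `a b : K`: `chi (a = b)` is the class of `{ω | rr a ω = rr b ω}` (for `a = b` it
  is `univ`, for
  `a ≠ b` it is null: `rr_ne`, `cl_eq_bot`), which is
  `⨅ n, (cl {ω | ω (a, n) = true} ⇨ cl {ω | ω (b, n) = true}) ⊓ (cl {ω | ω (b, n) = true} ⇨ ..)`
  (`cl_iInter`, `cl_himp`, `cl_inter`). So `GM.iInf`, `GM.inf`, `GM.himp`, `GM.left`, `GM.right`.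
* `gm_congr`, `gm_and`, `gm_all`, `gm_ex`, `gm_imp`: rules for `chi` of propositions:
  `chi (p ∧ q) = chi p ⊓ chi q`, `chi (∀ n, p n) = ⨅ n, chi (p n)`,
  `chi (∃ n, p n) = ⨆ n, chi (p n)`,
  `chi (p → q) = chi p ⇨ chi q` in `RO (Ps μ)` (`RO.ext'`, `RO.mem_chi`, `RO.mem_iInf`, ..; or
  cases).
* `gm_vld`: `Vld (e ξ) (e' η) (t ξ) (t' η)` is equivalent to
  `(∀ k l, e ξ k = e' η l → e ξ k ∈ t ξ ∧ e' η l ∈ t' η) ∧ t ξ ⊆ Set.range (e ξ) ∧
  (∀ k, e ξ k ∈ t ξ → ∃ l, e ξ k = e' η l) ∧ t' η ⊆ Set.range (e' η) ∧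
  (∀ l, e' η l ∈ t' η → ∃ k, e ξ k = e' η l)`. The propositions `e ξ k = e' η
  l` are `GM` by `gm_diag` and
  `GM.comap`; the propositions which depend only on `ξ` or only on `η` by `GM.left`, `GM.right`. -/

set_option autoImplicit false

namespace RVI

open MeasureTheory STP

variable {K : Type}

private theorem ce_t {p : Prop} (h : p) : (chi p : RO (Ps (mu K))) = ⊤ := iSup_pos h

private theorem ce_f {p : Prop} (h : ¬ p) : (chi p : RO (Ps (mu K))) = ⊥ := iSup_neg h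

private theorem ce_congr {X Y : Type} {R S : X → Y → Prop}
    (h : GM (mu K) fun x y => (chi (R x y) : RO (Ps (mu K)))) (hRS : ∀ x y, S x y ↔ R x y) :
    GM (mu K) fun x y => (chi (S x y) : RO (Ps (mu K))) := by
  have h1 : S = R := funext fun x => funext fun y => propext (hRS x y)
  rw [h1]
  exact h

private theorem ce_and {X Y : Type} {R S : X → Y → Prop}
    (h : GM (mu K) fun x y => (chi (R x y) : RO (Ps (mu K))))
    (h' : GM (mu K) fun x y => (chi (S x y) : RO (Ps (mu K)))) :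
    GM (mu K) fun x y => (chi (R x y ∧ S x y) : RO (Ps (mu K))) := by
  have h1 := h.inf h'
  have h2 : (fun x y => (chi (R x y ∧ S x y) : RO (Ps (mu K)))) =
      fun x y => (chi (R x y) : RO (Ps (mu K))) ⊓ chi (S x y) := by
    funext x y
    by_cases hR : R x y
    · by_cases hS : S x y
      · rw [ce_t hR, ce_t hS, ce_t ⟨hR, hS⟩, inf_top_eq]
      · rw [ce_f hS, ce_f fun h => hS h.2, inf_bot_eq]
    · rw [ce_f hR, ce_f fun h => hR h.1, bot_inf_eq]
  rw [h2]
  exact h1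

private theorem ce_imp {X Y : Type} {R S : X → Y → Prop}
    (h : GM (mu K) fun x y => (chi (R x y) : RO (Ps (mu K))))
    (h' : GM (mu K) fun x y => (chi (S x y) : RO (Ps (mu K)))) :
    GM (mu K) fun x y => (chi (R x y → S x y) : RO (Ps (mu K))) := by
  have h1 := h.himp h'
  have h2 : (fun x y => (chi (R x y → S x y) : RO (Ps (mu K)))) =
      fun x y => (chi (R x y) : RO (Ps (mu K))) ⇨ chi (S x y) := by
    funext x y
    by_cases hR : R x y
    · by_cases hS : S x y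
      · rw [ce_t hS, ce_t fun _ => hS, himp_top]
      · rw [ce_t hR, ce_f hS, ce_f fun h => hS (h hR), top_himp]
    · rw [ce_f hR, ce_t fun h => absurd h hR, bot_himp]
  rw [h2]
  exact h1

private theorem ce_all {X Y : Type} {R : ℕ → X → Y → Prop}
    (h : ∀ n, GM (mu K) fun x y => (chi (R n x y) : RO (Ps (mu K)))) :
    GM (mu K) fun x y => (chi (∀ n, R n x y) : RO (Ps (mu K))) := by
  have h1 := GM.iInf h
  have h2 : (fun x y => (chi (∀ n, R n x y) : RO (Ps (mu K)))) =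
      fun x y => ⨅ n, (chi (R n x y) : RO (Ps (mu K))) := by
    funext x y
    by_cases hR : ∀ n, R n x y
    · rw [ce_t hR]
      exact (iInf_eq_top.2 fun n => ce_t (hR n)).symm
    · rw [ce_f hR]
      obtain ⟨n, hn⟩ := not_forall.1 hR
      exact (eq_bot_iff.2 ((iInf_le _ n).trans (ce_f hn).le)).symm
  rw [h2]
  exact h1

private theorem ce_ex {X Y : Type} {R : ℕ → X → Y → Prop}
    (h : ∀ n, GM (mu K) fun x y => (chi (R n x y) : RO (Ps (mu K)))) :
    GM (mu K) fun x y => (chi (∃ n, R n x y) : RO (Ps (mu K))) := by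
  have h1 := GM.iSup h
  have h2 : (fun x y => (chi (∃ n, R n x y) : RO (Ps (mu K)))) =
      fun x y => ⨆ n, (chi (R n x y) : RO (Ps (mu K))) := by
    funext x y
    by_cases hR : ∃ n, R n x y
    · rw [ce_t hR]
      obtain ⟨n, hn⟩ := hR
      exact (eq_top_iff.2 ((ce_t hn).ge.trans (le_iSup (fun n =>
        (chi (R n x y) : RO (Ps (mu K)))) n))).symm
    · rw [ce_f hR]
      exact (iSup_eq_bot.2 fun n => ce_f fun h => hR ⟨n, h⟩).symm
  rw [h2]
  exact h1

private theorem ev_meas (a : K) (n : ℕ) (b : Bool) : MeasurableSet {ω : Om K | ω (a, n) = b} := by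
  have h : Measurable fun ω : Om K => ω (a, n) := measurable_pi_apply (a, n)
  exact h (measurableSet_singleton b)

private theorem dg_meas : MeasurableSet[GS K K (Om K)]
    {z : K × K × Om K | (rr z.1).1 z.2.2 = (rr z.2.1).1 z.2.2} := by
  have h1 : {z : K × K × Om K | (rr z.1).1 z.2.2 = (rr z.2.1).1 z.2.2} =
      ⋂ n : ℕ, ({z : K × K × Om K | z.2.2 (z.1, n) = true ∧ z.2.2 (z.2.1, n) = true} ∪
        {z : K × K × Om K | z.2.2 (z.1, n) = false ∧ z.2.2 (z.2.1, n) = false}) := by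
    ext z
    rw [Set.mem_iInter]
    constructor
    · intro h n
      have h2 : z.2.2 (z.1, n) = z.2.2 (z.2.1, n) := congrFun h n
      change (z.2.2 (z.1, n) = true ∧ z.2.2 (z.2.1, n) = true) ∨
        (z.2.2 (z.1, n) = false ∧ z.2.2 (z.2.1, n) = false)
      rw [← h2]
      cases z.2.2 (z.1, n)
      · exact Or.inr ⟨rfl, rfl⟩
      · exact Or.inl ⟨rfl, rfl⟩
    · intro h
      funext n
      change z.2.2 (z.1, n) = z.2.2 (z.2.1, n)
      rcases h n with h | h <;> rw [h.1, h.2]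
  rw [h1]
  refine @MeasurableSet.iInter _ _ (GS K K (Om K)) _ _ fun n => ?_
  refine @MeasurableSet.union _ (GS K K (Om K)) _ _ ?_ ?_
  · exact MeasurableSpace.measurableSet_generateFrom
      ⟨fun a => {ω | ω (a, n) = true}, fun a => {ω | ω (a, n) = true},
        fun a => ev_meas a n true, fun a => ev_meas a n true, rfl⟩
  · exact MeasurableSpace.measurableSet_generateFrom
      ⟨fun a => {ω | ω (a, n) = false}, fun a => {ω | ω (a, n) = false},
        fun a => ev_meas a n false, fun a => ev_meas a n false, rfl⟩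

theorem gm_diag : GM (mu K) fun a b : K => (chi (a = b) : RO (Ps (mu K))) := by
  refine ⟨_, dg_meas, fun a b => ?_⟩
  change (chi (a = b) : RO (Ps (mu K))) = cl (mu K) {ω | (rr a).1 ω = (rr b).1 ω}
  by_cases h : a = b
  · subst h
    rw [ce_t rfl]
    have h1 : {ω : Om K | (rr a).1 ω = (rr a).1 ω} = Set.univ := by
      ext ω
      simp
    rw [h1, cl_univ]
  · rw [ce_f h]
    have h1 : NullMeasurableSet {ω : Om K | (rr a).1 ω = (rr b).1 ω} (mu K) :=
      NullMeasurableSet.of_null (rr_ne h)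
    exact ((cl_eq_bot h1).2 (rr_ne h)).symm

theorem gm_vld (e e' : K → ℕ → K) (t t' : K → Set K) :
    GM (mu K) fun ξ η : K => (chi (Vld (e ξ) (e' η) (t ξ) (t' η)) : RO (Ps (mu K))) := by
  have hd : ∀ k l, GM (mu K) fun ξ η : K => (chi (e ξ k = e' η l) : RO (Ps (mu K))) :=
    fun k l => gm_diag.comap (fun ξ => e ξ k) (fun η => e' η l)
  have hl : ∀ R : K → Prop, GM (mu K) fun ξ _ : K => (chi (R ξ) : RO (Ps (mu K))) :=
    fun R => GM.left fun ξ => chi (R ξ)
  have hr : ∀ R : K → Prop, GM (mu K) fun _ η : K => (chi (R η) : RO (Ps (mu K))) :=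
    fun R => GM.right fun η => chi (R η)
  refine ce_congr (R := fun ξ η => (t ξ ⊆ Set.range (e ξ) ∧
      (∀ k, e ξ k ∈ t ξ → ∃ l, e ξ k = e' η l) ∧ ∀ k l, e ξ k = e' η l → e ξ k ∈ t ξ) ∧
      t' η ⊆ Set.range (e' η) ∧ (∀ l, e' η l ∈ t' η → ∃ k, e ξ k = e' η l) ∧
      ∀ k l, e ξ k = e' η l → e' η l ∈ t' η) ?_ ?_
  · refine ce_and (ce_and (hl fun ξ => t ξ ⊆ Set.range (e ξ)) (ce_and ?_ ?_))
      (ce_and (hr fun η => t' η ⊆ Set.range (e' η)) (ce_and ?_ ?_))
    · exact ce_all fun k => ce_imp (hl fun ξ => e ξ k ∈ t ξ) (ce_ex fun l => hd k l)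
    · exact ce_all fun k => ce_all fun l => ce_imp (hd k l) (hl fun ξ => e ξ k ∈ t ξ)
    · exact ce_all fun l => ce_imp (hr fun η => e' η l ∈ t' η) (ce_ex fun k => hd k l)
    · exact ce_all fun k => ce_all fun l => ce_imp (hd k l) (hr fun η => e' η l ∈ t' η)
  · intro ξ η
    constructor
    · rintro ⟨h1, h2⟩
      refine ⟨⟨fun a ha => ?_, fun k hk => ?_, fun k l hkl => ?_⟩, fun a ha => ?_, fun l hl => ?_,
        fun k l hkl => ?_⟩
      · rw [h1] at ha
        exact ha.1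
      · rw [h1] at hk
        obtain ⟨l, hl⟩ := hk.2
        exact ⟨l, hl.symm⟩
      · rw [h1]
        exact ⟨⟨k, rfl⟩, ⟨l, hkl.symm⟩⟩
      · rw [h2] at ha
        exact ha.2
      · rw [h2] at hl
        obtain ⟨k, hk⟩ := hl.1
        exact ⟨k, hk⟩
      · rw [h2]
        exact ⟨⟨k, hkl⟩, ⟨l, rfl⟩⟩
    · rintro ⟨⟨h1, h2, h3⟩, h4, h5, h6⟩
      refine ⟨Set.Subset.antisymm (fun a ha => ?_) ?_, Set.Subset.antisymm (fun a ha => ?_) ?_⟩
      · obtain ⟨k, rfl⟩ := h1 ha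
        obtain ⟨l, hl⟩ := h2 k ha
        exact ⟨⟨k, rfl⟩, ⟨l, hl.symm⟩⟩
      · rintro a ⟨⟨k, rfl⟩, ⟨l, hl⟩⟩
        exact h3 k l hl.symm
      · obtain ⟨l, rfl⟩ := h4 ha
        obtain ⟨k, hk⟩ := h5 l ha
        exact ⟨⟨k, hk⟩, ⟨l, rfl⟩⟩
      · rintro a ⟨⟨k, hk⟩, ⟨l, rfl⟩⟩
        exact h6 k l hk

end RVI
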