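import Pool.Agent.RVI.Rn0

/-! # The Souslin operation and measurable branches (package SO)

(problem MP_75f27a_lc, project RVI)

For a list `s` let `A s := {ω | ∃ g, pre s.length g = s ∧ ∀ m, ω ∈ M (pre m g)}`. Facts:
`A s ⊆ M s` (`m := s.length`), `A s = ⋃ n, A (s ++ [n])` (`n := g s.length`;
`pre (m + 1) g = pre m g ++ [g m]`: `List.range_succ`), and `A []` is the set of the theorem.
Let `H s := toMeasurable μ (A s)` (measurable, `A s ⊆ H s`, `μ (H s) = μ (A s)`). The sets
`H s \ ⋃ n, H (s ++ [n])` and `H s \ M s` are null: the measurable set `H s ∩ ⋃ n, H (s ++ [n])` (or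
`H s ∩ M s`) contains `A s`, so it has the measure of `H s`; `measure_diff` or
`measure_inter_add_sdiff`. Let `N` be the union of all these null sets (countably many lists).
Branch: let `b 0 ω := []`, `b (m + 1) ω := b m ω ++ [k]` where `k` is the least number with
`ω ∈ H (b m ω ++ [k])` (`0` if there is none), and let `γ ω m` be this `k`. By induction
`pre m (γ ω) = b m ω`, and the sets `{ω | b m ω = s}`, `{ω | γ ω m = k}` are measurable (unions over
lists `s` of the sets `{b m = s} ∩ {ω | k is the least number with ω ∈ H (s ++ [k])}`). If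
`ω ∈ H [] \ N` then by induction `ω ∈ H (b m ω)`, so `ω ∈ M (b m ω) = M (pre m (γ ω))` for all `m`.
So `H [] \ N ⊆ A [] ⊆ H []`: `A []` is null measurable (`NullMeasurableSet` from
`A [] =ᵐ[μ] H []`), and almost every `ω ∈ A []` is in `H [] \ N`. -/

set_option autoImplicit false

namespace RVI

open MeasureTheory

section

variable {Ω : Type}

/-- the set of the points with a branch through `s` -/
private def so_A (M : List ℕ → Set Ω) (s : List ℕ) : Set Ω :=
  {ω | ∃ g : ℕ → ℕ, pre s.length g = s ∧ ∀ m, ω ∈ M (pre m g)}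

private theorem so_pre_succ (m : ℕ) (g : ℕ → ℕ) : pre (m + 1) g = pre m g ++ [g m] := by
  simp [pre, List.range_succ]

private theorem so_sub (M : List ℕ → Set Ω) (s : List ℕ) : so_A M s ⊆ M s := by
  rintro ω ⟨g, h1, h2⟩
  have h3 := h2 s.length
  rwa [h1] at h3

private theorem so_step (M : List ℕ → Set Ω) (s : List ℕ) :
    so_A M s ⊆ ⋃ n, so_A M (s ++ [n]) := by
  rintro ω ⟨g, h1, h2⟩
  refine Set.mem_iUnion.2 ⟨g s.length, g, ?_, h2⟩
  have h3 : (s ++ [g s.length]).length = s.length + 1 := by simp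
  rw [h3, so_pre_succ, h1]

private theorem so_null [MeasurableSpace Ω] (μ : Measure Ω) [IsProbabilityMeasure μ]
    {A K : Set Ω} (hK : MeasurableSet K) (h : A ⊆ K) : μ (toMeasurable μ A \ K) = 0 := by
  have h1 := measure_inter_add_sdiff (μ := μ) (toMeasurable μ A) hK
  have h2 : μ (toMeasurable μ A) ≤ μ (toMeasurable μ A ∩ K) := by
    rw [measure_toMeasurable]
    exact measure_mono (Set.subset_inter (subset_toMeasurable μ A) h)
  have h3 : μ (toMeasurable μ A ∩ K) + μ (toMeasurable μ A \ K) ≤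
      μ (toMeasurable μ A ∩ K) + 0 := by
    rw [h1, add_zero]
    exact h2
  exact le_antisymm ((ENNReal.add_le_add_iff_left (measure_ne_top μ _)).1 h3) bot_le

open Classical in
/-- the least number of a successor in `H` -/
private noncomputable def so_k (H : List ℕ → Set Ω) (s : List ℕ) (ω : Ω) : ℕ :=
  if h : ∃ n, ω ∈ H (s ++ [n]) then Nat.find h else 0

private theorem so_k_spec {H : List ℕ → Set Ω} {s : List ℕ} {ω : Ω}
    (h : ∃ n, ω ∈ H (s ++ [n])) : ω ∈ H (s ++ [so_k H s ω]) := by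
  classical
  unfold so_k
  rw [dif_pos h]
  exact Nat.find_spec h

private theorem so_k_meas [MeasurableSpace Ω] {H : List ℕ → Set Ω}
    (hH : ∀ s, MeasurableSet (H s)) (s : List ℕ) (n : ℕ) :
    MeasurableSet {ω | so_k H s ω = n} := by
  classical
  have hp : ∀ ω, ∃ n, ω ∈ H (s ++ [n]) ∨ ∀ j, ω ∉ H (s ++ [j]) := by
    intro ω
    by_cases h : ∃ n, ω ∈ H (s ++ [n])
    · obtain ⟨n, hn⟩ := h
      exact ⟨n, Or.inl hn⟩
    · exact ⟨0, Or.inr fun j hj => h ⟨j, hj⟩⟩
  have h1 : Measurable fun ω => Nat.find (hp ω) := by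
    refine measurable_find hp fun k => ?_
    have h2 : {ω | ω ∈ H (s ++ [k]) ∨ ∀ j, ω ∉ H (s ++ [j])} =
        H (s ++ [k]) ∪ ⋂ j, (H (s ++ [j]))ᶜ := by
      ext ω
      simp only [Set.mem_ofPred_eq, Set.mem_union, Set.mem_iInter, Set.mem_compl_iff]
    rw [h2]
    exact (hH _).union (MeasurableSet.iInter fun j => (hH _).compl)
  have h2 : so_k H s = fun ω => Nat.find (hp ω) := by
    funext ω
    unfold so_k
    by_cases h : ∃ n, ω ∈ H (s ++ [n])
    · rw [dif_pos h]
      refine Nat.find_congr' fun {n} => ⟨fun hn => Or.inl hn, fun hn => ?_⟩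
      rcases hn with hn | hn
      · exact hn
      · obtain ⟨j, hj⟩ := h
        exact absurd hj (hn j)
    · rw [dif_neg h]
      exact ((Nat.find_eq_zero (hp ω)).2 (Or.inr fun j hj => h ⟨j, hj⟩)).symm
  rw [h2]
  exact h1 (measurableSet_singleton n)

/-- the branch -/
private noncomputable def so_b (H : List ℕ → Set Ω) (ω : Ω) : ℕ → List ℕ
  | 0 => []
  | m + 1 => so_b H ω m ++ [so_k H (so_b H ω m) ω]

private theorem so_b_meas [MeasurableSpace Ω] {H : List ℕ → Set Ω}
    (hH : ∀ s, MeasurableSet (H s)) (m : ℕ) : ∀ s, MeasurableSet {ω | so_b H ω m = s} := by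
  induction m with
  | zero =>
    intro s
    by_cases h : ([] : List ℕ) = s
    · have h1 : {ω : Ω | so_b H ω 0 = s} = Set.univ := Set.eq_univ_of_forall fun ω => h
      rw [h1]
      exact MeasurableSet.univ
    · have h1 : {ω : Ω | so_b H ω 0 = s} = ∅ := Set.eq_empty_of_forall_notMem fun ω h2 => h h2
      rw [h1]
      exact MeasurableSet.empty
  | succ m ih =>
    intro s
    have h1 : {ω | so_b H ω (m + 1) = s} = ⋃ (t : List ℕ) (n : ℕ) (_ : t ++ [n] = s),
        {ω | so_b H ω m = t} ∩ {ω | so_k H t ω = n} := by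
      ext ω
      simp only [Set.mem_ofPred_eq, Set.mem_iUnion, Set.mem_inter_iff]
      constructor
      · intro h
        exact ⟨so_b H ω m, so_k H (so_b H ω m) ω, h, rfl, rfl⟩
      · rintro ⟨t, n, h, h2, h3⟩
        rw [so_b, h2, h3, h]
    rw [h1]
    exact MeasurableSet.iUnion fun t => MeasurableSet.iUnion fun n => MeasurableSet.iUnion fun _ =>
      (ih t).inter (so_k_meas hH t n)

private theorem so_g_meas [MeasurableSpace Ω] {H : List ℕ → Set Ω}
    (hH : ∀ s, MeasurableSet (H s)) : Measurable fun ω m => so_k H (so_b H ω m) ω := by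
  refine measurable_pi_iff.2 fun m => measurable_to_countable' fun n => ?_
  have h1 : (fun ω => so_k H (so_b H ω m) ω) ⁻¹' {n} = ⋃ t : List ℕ,
      {ω | so_b H ω m = t} ∩ {ω | so_k H t ω = n} := by
    ext ω
    simp only [Set.mem_preimage, Set.mem_singleton_iff, Set.mem_iUnion, Set.mem_inter_iff,
      Set.mem_ofPred_eq]
    constructor
    · intro h
      exact ⟨so_b H ω m, rfl, h⟩
    · rintro ⟨t, h2, h3⟩
      rw [h2, h3]
  rw [h1]
  exact MeasurableSet.iUnion fun t => (so_b_meas hH m t).inter (so_k_meas hH t n)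

private theorem so_pre (H : List ℕ → Set Ω) (ω : Ω) (m : ℕ) :
    pre m (fun m => so_k H (so_b H ω m) ω) = so_b H ω m := by
  induction m with
  | zero => rfl
  | succ m ih => rw [so_pre_succ, ih, so_b]

end

theorem souslin {Ω : Type} [MeasurableSpace Ω] (μ : Measure Ω) [IsProbabilityMeasure μ]
    (M : List ℕ → Set Ω) (hM : ∀ s, MeasurableSet (M s)) :
    NullMeasurableSet {ω | ∃ g : ℕ → ℕ, ∀ m, ω ∈ M (pre m g)} μ ∧
      ∃ γ : Ω → ℕ → ℕ, Measurable γ ∧
        ∀ᵐ ω ∂μ, (∃ g : ℕ → ℕ, ∀ m, ω ∈ M (pre m g)) → ∀ m, ω ∈ M (pre m (γ ω)) := by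
  classical
  let H : List ℕ → Set Ω := fun s => toMeasurable μ (so_A M s)
  have hH : ∀ s, MeasurableSet (H s) := fun s => measurableSet_toMeasurable μ _
  let N : Set Ω := ⋃ s : List ℕ, (H s \ ⋃ n, H (s ++ [n])) ∪ (H s \ M s)
  have hN : μ N = 0 := by
    refine measure_iUnion_null fun s => measure_union_null ?_ ?_
    · refine so_null μ (MeasurableSet.iUnion fun n => hH _) ((so_step M s).trans ?_)
      exact Set.iUnion_mono fun n => subset_toMeasurable μ _
    · exact so_null μ (hM s) (so_sub M s)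
  let γ : Ω → ℕ → ℕ := fun ω m => so_k H (so_b H ω m) ω
  have key : ∀ ω, ω ∈ H [] → ω ∉ N → ∀ m, ω ∈ M (pre m (γ ω)) := by
    intro ω h0 hωN
    have h1 : ∀ s, ω ∈ H s → (∃ n, ω ∈ H (s ++ [n])) ∧ ω ∈ M s := by
      intro s hs
      have h2 : ω ∉ (H s \ ⋃ n, H (s ++ [n])) ∪ (H s \ M s) := fun h =>
        hωN (Set.mem_iUnion.2 ⟨s, h⟩)
      rw [Set.mem_union, not_or] at h2
      constructor
      · by_contra h3
        exact h2.1 ⟨hs, fun h4 => h3 (Set.mem_iUnion.1 h4)⟩
      · by_contra h3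
        exact h2.2 ⟨hs, h3⟩
    have h2 : ∀ m, ω ∈ H (so_b H ω m) := by
      intro m
      induction m with
      | zero => exact h0
      | succ m ih => exact so_k_spec (h1 _ ih).1
    intro m
    have h3 := (h1 _ (h2 m)).2
    rwa [← so_pre H ω m] at h3
  have hsub : {ω | ∃ g : ℕ → ℕ, ∀ m, ω ∈ M (pre m g)} ⊆ H [] := by
    rintro ω ⟨g, hg⟩
    exact subset_toMeasurable μ _ ⟨g, rfl, hg⟩
  refine ⟨?_, γ, so_g_meas hH, ?_⟩
  · refine (hH []).nullMeasurableSet.congr (ae_eq_set.2 ⟨?_, ?_⟩)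
    · refine measure_mono_null ?_ hN
      rintro ω ⟨h1, h2⟩
      by_contra h3
      exact h2 ⟨γ ω, key ω h1 h3⟩
    · rw [Set.sdiff_eq_empty.2 hsub]
      exact measure_empty
  · filter_upwards [measure_eq_zero_iff_ae_notMem.1 hN] with ω hω h
    exact key ω (hsub h) hω

end RVI
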