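import Pool.Agent.RVI.Co0
import Pool.Agent.RVI.Sou

/-! # Codes of sets up to null sets (package CC)

(problem MP_75f27a_lc, project RVI)

* `exists_bas`: `Q2 × Q2` is a second countable (compact metrizable) space and the products of the
  sets of
  a countable basis of `Q2` (`TopologicalSpace.countableBasis Q2`, nonempty; enumerate the pairs
  of its
  elements by `ℕ`) form a basis (`TopologicalSpace.IsTopologicalBasis.prod`); all of them are
  measurable (`IsOpen.measurableSet`, `Q2` has the product sigma-algebra, which is the Borel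
  sigma-algebra: `Pi.borelSpace`). Let `V'` be measurable with `V' =ᵐ[ν] V`. For `n : ℕ` there is
  an open
  `O n ⊇ V'` with `ν (O n) ≤ ν V' + 1 / (n + 1)` (outer regularity: `Set.exists_isOpen_le_add`), so
  `ν (⋂ n, O n \ V') = 0`. Let `c n m` be the proposition `bl m ×ˢ br m ⊆ O n`. Then
  `O n = {z | ∃ m, c n m ∧ z.1 ∈ bl m ∧ z.2 ∈ br m}`.
* `null_WW`: `souslin` for the probability measure `ν` on `Q2 × Q2` and
  `M s := {p | F.1 p.1 (Sum.inl (pre s.length (fun n => F.1 p.1 (Sum.inr n)), pre s.length (G.1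
  p.2), s)) =
  true}`, which is measurable: it is the countable union over `(a, b)` of the sets
  `{p | pre _ (fun n => F.1 p.1 (Sum.inr n)) = a} ∩ {p | pre _ (G.1 p.2) = b} ∩
  {p | F.1 p.1 (Sum.inl (a, b, s)) = true}`. The length of `pre m g` is `m`. -/

set_option autoImplicit false

namespace RVI

open MeasureTheory

private theorem cc_pre_succ {β : Type} (m : ℕ) (g : ℕ → β) :
    pre (m + 1) g = pre m g ++ [g m] := by
  simp [pre, List.range_succ]

private theorem cc_pre_len {β : Type} (m : ℕ) (g : ℕ → β) : (pre m g).length = m := by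
  simp [pre]

private theorem cc_pre_meas {X : Type} [MeasurableSpace X] {u : X → ℕ → Bool}
    (hu : ∀ n, Measurable fun p => u p n) (m : ℕ) :
    ∀ s : List Bool, MeasurableSet {p | pre m (u p) = s} := by
  induction m with
  | zero =>
    intro s
    by_cases h : ([] : List Bool) = s
    · have h1 : {p : X | pre 0 (u p) = s} = Set.univ := Set.eq_univ_of_forall fun p => h
      rw [h1]
      exact MeasurableSet.univ
    · have h1 : {p : X | pre 0 (u p) = s} = ∅ := Set.eq_empty_of_forall_notMem fun p h2 => h h2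
      rw [h1]
      exact MeasurableSet.empty
  | succ m ih =>
    intro s
    have h1 : {p | pre (m + 1) (u p) = s} = ⋃ (t : List Bool) (n : Bool) (_ : t ++ [n] = s),
        {p | pre m (u p) = t} ∩ {p | u p m = n} := by
      ext p
      simp only [Set.mem_ofPred_eq, Set.mem_iUnion, Set.mem_inter_iff]
      constructor
      · intro h
        rw [cc_pre_succ] at h
        exact ⟨pre m (u p), u p m, h, rfl, rfl⟩
      · rintro ⟨t, n, h, h2, h3⟩
        rw [cc_pre_succ, h2, h3, h]
    rw [h1]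
    exact MeasurableSet.iUnion fun t => MeasurableSet.iUnion fun n => MeasurableSet.iUnion fun _ =>
      (ih t).inter (hu m (measurableSet_singleton n))

private theorem cc_metr : TopologicalSpace.PseudoMetrizableSpace (Q2 × Q2) := by
  have : TopologicalSpace.MetrizableSpace (Q2 × Q2) :=
    TopologicalSpace.metrizableSpace_of_t3_secondCountable (Q2 × Q2)
  infer_instance

theorem exists_bas : ∃ bl br : ℕ → Set Q2, (∀ m, MeasurableSet (bl m)) ∧
    (∀ m, MeasurableSet (br m)) ∧ ∀ (ν : Measure (Q2 × Q2)) [IsProbabilityMeasure ν]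
      (V : Set (Q2 × Q2)), NullMeasurableSet V ν → ∃ c : ℕ → ℕ → Prop,
        V =ᵐ[ν] {z : Q2 × Q2 | ∀ n, ∃ m, c n m ∧ z.1 ∈ bl m ∧ z.2 ∈ br m} := by
  have hc : (insert ∅ (TopologicalSpace.countableBasis Q2)).Countable :=
    (TopologicalSpace.countable_countableBasis Q2).insert ∅
  obtain ⟨e, he⟩ := hc.exists_eq_range (Set.insert_nonempty _ _)
  have heo : ∀ n, IsOpen (e n) := by
    intro n
    have h1 : e n ∈ insert ∅ (TopologicalSpace.countableBasis Q2) := by
      rw [he]
      exact Set.mem_range_self n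
    rcases h1 with h1 | h1
    · rw [h1]
      exact isOpen_empty
    · exact TopologicalSpace.isOpen_of_mem_countableBasis h1
  have heb : ∀ O : Set (Q2 × Q2), IsOpen O → ∀ z ∈ O, ∃ m : ℕ,
      e (Nat.unpair m).1 ×ˢ e (Nat.unpair m).2 ⊆ O ∧ z.1 ∈ e (Nat.unpair m).1 ∧
        z.2 ∈ e (Nat.unpair m).2 := by
    intro O hO z hz
    obtain ⟨W, hW, hzW, hWO⟩ := ((TopologicalSpace.isBasis_countableBasis Q2).prod
      (TopologicalSpace.isBasis_countableBasis Q2)).exists_subset_of_mem_open hz hO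
    obtain ⟨A, hA, B, hB, rfl⟩ := hW
    have hA' : A ∈ Set.range e := he ▸ Set.mem_insert_of_mem _ hA
    have hB' : B ∈ Set.range e := he ▸ Set.mem_insert_of_mem _ hB
    obtain ⟨a, rfl⟩ := hA'
    obtain ⟨b, rfl⟩ := hB'
    refine ⟨Nat.pair a b, ?_⟩
    rw [Nat.unpair_pair]
    exact ⟨hWO, hzW.1, hzW.2⟩
  refine ⟨fun m => e (Nat.unpair m).1, fun m => e (Nat.unpair m).2,
    fun m => (heo _).measurableSet, fun m => (heo _).measurableSet, ?_⟩
  intro ν hν V hV
  have hm := cc_metr
  have hopen : ∀ n : ℕ, ∃ O : Set (Q2 × Q2), toMeasurable ν V ⊆ O ∧ IsOpen O ∧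
      ν (O \ toMeasurable ν V) ≤ ((n : ENNReal) + 1)⁻¹ := by
    intro n
    have hε : ((n : ENNReal) + 1)⁻¹ ≠ 0 := by
      rw [ENNReal.inv_ne_zero]
      exact ENNReal.add_ne_top.2 ⟨ENNReal.natCast_ne_top n, ENNReal.one_ne_top⟩
    obtain ⟨O, h1, h2, h3⟩ := (toMeasurable ν V).exists_isOpen_le_add ν hε
    exact ⟨O, h1, h2, (measure_sdiff_le_iff_le_add
      (measurableSet_toMeasurable ν V).nullMeasurableSet h1 (measure_ne_top ν _)).2 h3⟩
  choose O hO1 hO2 hO3 using hopen
  refine ⟨fun n m => e (Nat.unpair m).1 ×ˢ e (Nat.unpair m).2 ⊆ O n, ?_⟩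
  have hset : {z : Q2 × Q2 | ∀ n, ∃ m, e (Nat.unpair m).1 ×ˢ e (Nat.unpair m).2 ⊆ O n ∧
      z.1 ∈ e (Nat.unpair m).1 ∧ z.2 ∈ e (Nat.unpair m).2} = ⋂ n, O n := by
    ext z
    rw [Set.mem_iInter]
    constructor
    · intro h n
      obtain ⟨m, h1, h2, h3⟩ := h n
      exact h1 ⟨h2, h3⟩
    · intro h n
      exact heb (O n) (hO2 n) z (h n)
  rw [hset]
  refine (NullMeasurableSet.toMeasurable_ae_eq hV).symm.trans (ae_eq_set.2 ⟨?_, ?_⟩)
  · have h1 : toMeasurable ν V \ ⋂ n, O n = ∅ :=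
      Set.sdiff_eq_empty.2 (Set.subset_iInter hO1)
    rw [h1]
    exact measure_empty
  · by_contra hne
    obtain ⟨n, hn⟩ := ENNReal.exists_inv_nat_lt hne
    have h1 : ν ((⋂ n, O n) \ toMeasurable ν V) ≤ ((n : ENNReal) + 1)⁻¹ :=
      (measure_mono (Set.sdiff_subset_sdiff_left (Set.iInter_subset O n))).trans (hO3 n)
    have h2 : ((n : ENNReal) + 1)⁻¹ ≤ (n : ENNReal)⁻¹ := ENNReal.inv_le_inv.2 le_self_add
    exact absurd (h1.trans h2) (not_le.2 hn)

/-- the left sides of the basic rectangles -/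
noncomputable def bl : ℕ → Set Q2 := exists_bas.choose

/-- the right sides of the basic rectangles -/
noncomputable def br : ℕ → Set Q2 := exists_bas.choose_spec.choose

theorem bl_meas (m : ℕ) : MeasurableSet (bl m) := exists_bas.choose_spec.choose_spec.1 m

theorem br_meas (m : ℕ) : MeasurableSet (br m) := exists_bas.choose_spec.choose_spec.2.1 m

theorem exists_cc (ν : Measure (Q2 × Q2)) [IsProbabilityMeasure ν] (V : Set (Q2 × Q2))
    (hV : NullMeasurableSet V ν) : ∃ c : ℕ → ℕ → Prop,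
      V =ᵐ[ν] {z : Q2 × Q2 | ∀ n, ∃ m, c n m ∧ z.1 ∈ bl m ∧ z.2 ∈ br m} :=
  exists_bas.choose_spec.choose_spec.2.2 ν V hV

theorem null_WW (ν : Measure (Q2 × Q2)) [IsProbabilityMeasure ν] (F : MF (ND ⊕ ℕ)) (G : MF ℕ) :
    NullMeasurableSet {z : Q2 × Q2 | WW (F.1 z.1) (G.1 z.2)} ν := by
  have hF : ∀ i, Measurable fun p : Q2 × Q2 => F.1 p.1 i := fun i =>
    ((measurable_pi_iff.1 F.2) i).comp measurable_fst
  have hG : ∀ i, Measurable fun p : Q2 × Q2 => G.1 p.2 i := fun i =>
    ((measurable_pi_iff.1 G.2) i).comp measurable_snd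
  have hM : ∀ s : List ℕ, MeasurableSet {p : Q2 × Q2 | F.1 p.1 (Sum.inl
      (pre s.length (fun n => F.1 p.1 (Sum.inr n)), pre s.length (G.1 p.2), s)) = true} := by
    intro s
    have h1 : {p : Q2 × Q2 | F.1 p.1 (Sum.inl
        (pre s.length (fun n => F.1 p.1 (Sum.inr n)), pre s.length (G.1 p.2), s)) = true} =
        ⋃ (a : List Bool) (b : List Bool),
          ({p : Q2 × Q2 | pre s.length (fun n => F.1 p.1 (Sum.inr n)) = a} ∩
            {p : Q2 × Q2 | pre s.length (G.1 p.2) = b}) ∩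
            {p : Q2 × Q2 | F.1 p.1 (Sum.inl (a, b, s)) = true} := by
      ext p
      simp only [Set.mem_ofPred_eq, Set.mem_iUnion, Set.mem_inter_iff]
      constructor
      · intro h
        exact ⟨_, _, ⟨rfl, rfl⟩, h⟩
      · rintro ⟨a, b, ⟨h2, h3⟩, h⟩
        rw [h2, h3]
        exact h
    rw [h1]
    exact MeasurableSet.iUnion fun a => MeasurableSet.iUnion fun b =>
      ((cc_pre_meas (fun n => hF _) _ a).inter (cc_pre_meas hG _ b)).inter
        (hF _ (measurableSet_singleton true))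
  have h := (souslin ν _ hM).1
  have e : {z : Q2 × Q2 | WW (F.1 z.1) (G.1 z.2)} = {ω : Q2 × Q2 | ∃ g : ℕ → ℕ, ∀ m,
      ω ∈ {p : Q2 × Q2 | F.1 p.1 (Sum.inl (pre (pre m g).length (fun n => F.1 p.1 (Sum.inr n)),
        pre (pre m g).length (G.1 p.2), pre m g)) = true}} := by
    ext z
    simp only [Set.mem_ofPred_eq, WW, cc_pre_len]
  rw [e]
  exact h

end RVI
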