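import Pool.Agent.RVI.CoB
import Pool.Agent.RVI.CoC

/-! # Codes which depend only on the data, Kurepa data (package CF)

(problem MP_75f27a_lc, project RVI)

* `mem_enT`: for a countable set such an enumeration exists (`Set.Countable.exists_eq_range` for a
  nonempty set, `fun _ => none` for the empty set), so `enT t` is one (`Exists.choose_spec`).
* `pat_of_vld`: `t = t'` is the intersection of the two ranges. If `e k = e' l` then this element
  is in
  `t`, so it is `enT t n` for some `n` (`mem_enT`). Conversely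
  `some (e k) = enT t n = enT t' n = some (e' l)`.
* `exists_code`: for `d = (F, ρ)` and `d' = (G, ρ')`: if there are injective sequences `e₁`, `e₂`
  with
  `Pat e₁ e₂ ρ ρ'` choose such a pair and let `c d d'` be the code of `exists_cc` for
  `V := {z | WW (F z.1) (G z.2)}` (`null_WW`) and `ν := (mu K).map (fun ω => (cp e₁ ω, cp e₂ ω))`
  (a probability measure: `meas_cp`); otherwise anything. If `e`, `e'` is another such pair then
  `e k = e' l ↔ e₁ k = e₂ l` (both are `∃ n, (k, n) ∈ ρ ∧ (l, n) ∈ ρ'`), so the law of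
  `(cp e, cp e')` is `ν` (`map_cp`), and the almost everywhere equality for `ν` gives the one for
  `mu K`
  (`ae_of_ae_map`/`ae_eq_comp`).
* `exists_kur`: for `ξ : K` let `S₀ ξ` be a countable support of `F ξ` (`supp_map`) and let `C` be
  a fixed
  countable infinite subset of `K` (`hK`; `Infinite`). By `CofKurepa` there is `S ξ ∈ 𝒦` with
  `S₀ ξ ∪ C ⊆ S ξ`; it is countable and infinite, so there is an injective `e ξ : ℕ → K` with range
  `S ξ` (`Set.Countable`, `Denumerable`/`nonempty_equiv_of_countable`). `factor` gives `F' ξ`. The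
  traces
  `{B | ∃ S' ∈ 𝒦, B = S ξ ∩ S'}` form a countable nonempty set; enumerate it by `t ξ : ℕ → Set K`.
  For
  two such systems `(e, t)`, `(e', t')` (for the same `𝒦`) and `ξ`, `η` there are `i`, `j` with
  `t ξ i = S ξ ∩ S' η` and `t' η j = S' η ∩ S ξ`. -/

set_option autoImplicit false

namespace RVI

open MeasureTheory Cardinal

variable {K : Type}

theorem mem_enT {t : Set K} (ht : t.Countable) {a : K} : a ∈ t ↔ ∃ n, enT t n = some a := by
  have h : ∃ f : ℕ → Option K, ∀ a, a ∈ t ↔ ∃ n, f n = some a := by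
    rcases t.eq_empty_or_nonempty with rfl | hne
    · refine ⟨fun _ => none, fun a => ?_⟩
      constructor
      · intro h
        exact absurd h (Set.notMem_empty a)
      · rintro ⟨n, hn⟩
        exact absurd hn (by simp)
    · obtain ⟨f, hf⟩ := ht.exists_eq_range hne
      refine ⟨fun n => some (f n), fun a => ?_⟩
      rw [hf]
      constructor
      · rintro ⟨n, rfl⟩
        exact ⟨n, rfl⟩
      · rintro ⟨n, hn⟩
        exact ⟨n, Option.some.inj hn⟩
  unfold enT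
  rw [dif_pos h]
  exact h.choose_spec a

theorem pat_of_vld {e e' : ℕ → K} {t t' : Set K} (h : Vld e e' t t') :
    Pat e e' (Rho e t) (Rho e' t') := by
  obtain ⟨h1, h2⟩ := h
  have ht : t.Countable := by
    rw [h1]
    exact (Set.countable_range e).mono Set.inter_subset_left
  have h3 : t' = t := h2.trans h1.symm
  subst h3
  intro k l
  constructor
  · intro h4
    have h5 : e k ∈ t' := by
      rw [h1]
      exact ⟨⟨k, rfl⟩, ⟨l, h4.symm⟩⟩
    obtain ⟨n, hn⟩ := (mem_enT ht).1 h5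
    refine ⟨n, hn, ?_⟩
    change enT t' n = some (e' l)
    rw [← h4]
    exact hn
  · rintro ⟨n, h4, h5⟩
    have h4 : enT t' n = some (e k) := h4
    have h5 : enT t' n = some (e' l) := h5
    exact Option.some.inj (h4.symm.trans h5)

theorem exists_code (hK : ℵ₀ < #K) :
    ∃ c : MF (ND ⊕ ℕ) × Set (ℕ × ℕ) → MF ℕ × Set (ℕ × ℕ) → ℕ → ℕ → Prop,
      ∀ (F : MF (ND ⊕ ℕ)) (G : MF ℕ) (ρ ρ' : Set (ℕ × ℕ)) (e e' : ℕ → K),
        Function.Injective e → Function.Injective e' → Pat e e' ρ ρ' →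
          ∀ᵐ ω ∂(mu K), (WW (F.1 (cp e ω)) (G.1 (cp e' ω)) ↔
            ∀ n, ∃ m, c (F, ρ) (G, ρ') n m ∧ cp e ω ∈ bl m ∧ cp e' ω ∈ br m) := by
  have key : ∀ (d : MF (ND ⊕ ℕ) × Set (ℕ × ℕ)) (d' : MF ℕ × Set (ℕ × ℕ)),
      ∃ c : ℕ → ℕ → Prop, ∀ (e e' : ℕ → K), Function.Injective e → Function.Injective e' →
        Pat e e' d.2 d'.2 → ∀ᵐ ω ∂(mu K), (WW (d.1.1 (cp e ω)) (d'.1.1 (cp e' ω)) ↔
            ∀ n, ∃ m, c n m ∧ cp e ω ∈ bl m ∧ cp e' ω ∈ br m) := by
    intro d d'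
    by_cases h : ∃ e₁ e₂ : ℕ → K, Function.Injective e₁ ∧ Function.Injective e₂ ∧
        Pat e₁ e₂ d.2 d'.2
    · obtain ⟨e₁, e₂, h1, h2, h3⟩ := h
      have hm : Measurable fun ω : Om K => (cp e₁ ω, cp e₂ ω) := (meas_cp e₁).prodMk (meas_cp e₂)
      have hν : IsProbabilityMeasure ((mu K).map fun ω => (cp e₁ ω, cp e₂ ω)) :=
        Measure.isProbabilityMeasure_map hm.aemeasurable
      obtain ⟨c, hc⟩ := exists_cc _ _ (null_WW ((mu K).map fun ω => (cp e₁ ω, cp e₂ ω)) d.1 d'.1)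
      refine ⟨c, fun e e' he he' hp => ?_⟩
      rw [map_cp hK h1 h2 he he' fun k l => (h3 k l).trans (hp k l).symm] at hc
      exact ae_of_ae_map ((meas_cp e).prodMk (meas_cp e')).aemeasurable hc.mem_iff
    · refine ⟨fun _ _ => True, fun e e' he he' hp => ?_⟩
      exact absurd ⟨e, e', he, he', hp⟩ h
  choose c hc using key
  exact ⟨c, fun F G ρ ρ' e e' he he' hp => hc (F, ρ) (G, ρ') e e' he he' hp⟩

private theorem kur1 (hK : ℵ₀ < #K) {𝒦 : Set (Set K)} (h1 : ∀ S ∈ 𝒦, S.Countable)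
    (h2 : ∀ A : Set K, A.Countable → ∃ S ∈ 𝒦, A ⊆ S) {I : Type} [Countable I]
    {F : Om K → I → Bool} (hF : Measurable F) : ∃ (e : ℕ → K) (F' : MF I),
      Function.Injective e ∧ (∀ ω, F ω = F'.1 (cp e ω)) ∧ Set.range e ∈ 𝒦 := by
  have hinf : Infinite K := Cardinal.infinite_iff.2 hK.le
  obtain ⟨S₀, hc, hs⟩ := supp_map hF
  obtain ⟨S, hS, hsub⟩ := h2 (S₀ ∪ Set.range (Infinite.natEmbedding K))
    (hc.union (Set.countable_range _))
  have hSi : S.Infinite := (Set.infinite_range_of_injective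
    (Infinite.natEmbedding K).injective).mono (Set.subset_union_right.trans hsub)
  have : Infinite S := hSi.to_subtype
  have : Countable S := (h1 S hS).to_subtype
  obtain ⟨φ⟩ := nonempty_equiv_of_countable (α := ℕ) (β := S)
  have hr : Set.range (fun k => (φ k : K)) = S := by
    ext a
    constructor
    · rintro ⟨k, rfl⟩
      exact (φ k).2
    · intro ha
      obtain ⟨k, hk⟩ := φ.surjective ⟨a, ha⟩
      exact ⟨k, congrArg Subtype.val hk⟩
  obtain ⟨F', hF'⟩ := factor hF hs (fun k => (φ k : K)) (by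
    rw [hr]
    exact Set.subset_union_left.trans hsub)
  refine ⟨fun k => (φ k : K), F', ?_, hF', ?_⟩
  · intro k l hkl
    exact φ.injective (Subtype.ext hkl)
  · rw [hr]
    exact hS

private theorem traces {𝒦 : Set (Set K)}
    (h3 : ∀ A : Set K, A.Countable → {B | ∃ S ∈ 𝒦, B = A ∩ S}.Countable) (e : ℕ → K)
    (hne : 𝒦.Nonempty) :
    ∃ t : ℕ → Set K, ∀ S ∈ 𝒦, ∃ i, t i = Set.range e ∩ S := by
  obtain ⟨S₀, hS₀⟩ := hne
  obtain ⟨t, ht⟩ := (h3 (Set.range e) (Set.countable_range e)).exists_eq_range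
    ⟨_, S₀, hS₀, rfl⟩
  refine ⟨t, fun S hS => ?_⟩
  have h4 : Set.range e ∩ S ∈ {B | ∃ S ∈ 𝒦, B = Set.range e ∩ S} := ⟨S, hS, rfl⟩
  rw [ht] at h4
  exact h4

theorem exists_kur (hK : ℵ₀ < #K) (hKur : CofKurepa K) {I I' : Type} [Countable I]
    [Countable I'] (F : K → Om K → I → Bool) (hF : ∀ ξ, Measurable (F ξ))
    (G : K → Om K → I' → Bool) (hG : ∀ η, Measurable (G η)) :
    ∃ (e e' : K → ℕ → K) (t t' : K → ℕ → Set K) (F' : K → MF I) (G' : K → MF I'),
      (∀ ξ, Function.Injective (e ξ)) ∧ (∀ η, Function.Injective (e' η)) ∧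
      (∀ ξ ω, F ξ ω = (F' ξ).1 (cp (e ξ) ω)) ∧ (∀ η ω, G η ω = (G' η).1 (cp (e' η) ω)) ∧
      ∀ ξ η, ∃ i j, Vld (e ξ) (e' η) (t ξ i) (t' η j) := by
  obtain ⟨𝒦, h1, h2, h3⟩ := hKur
  choose e F' he hF' hS using fun ξ => kur1 hK h1 h2 (hF ξ)
  choose e' G' he' hG' hS' using fun η => kur1 hK h1 h2 (hG η)
  choose t ht using fun ξ => traces h3 (e ξ) ⟨_, hS ξ⟩
  choose t' ht' using fun η => traces h3 (e' η) ⟨_, hS' η⟩
  refine ⟨e, e', t, t', F', G', he, he', hF', hG', fun ξ η => ?_⟩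
  obtain ⟨i, hi⟩ := ht ξ _ (hS' η)
  obtain ⟨j, hj⟩ := ht' η _ (hS ξ)
  exact ⟨i, j, hi, hj.trans (Set.inter_comm _ _)⟩

end RVI
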