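import Pool.Agent.RVI.CoD
import Pool.Agent.RVI.CoE
import Pool.Agent.RVI.CoF

/-! # The combinatorial core (package CG)

(problem MP_75f27a_lc, project RVI)

Let `F ξ := zz T (X ξ)` (`meas_zz`), `G η := (Y η).1`, and take `e`, `e'`, `t`, `t'`, `F'`, `G'`
from
`exists_kur`, `c` from `exists_code`. `WW (F ξ ω) (G η ω)` is the condition
`∃ g, ∀ m, (pre m (X ξ ω), pre m (Y η ω), pre m g) ∈ T ω` (definition of `zz`, `Sum.elim`,
`decide_eq_true_iff`). Let `D := MF (ND ⊕ ℕ) × Set (ℕ × ℕ)`, `D' := MF ℕ × Set (ℕ × ℕ)`; by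
`card_data` and `hCH` they have at most `aleph 1` elements. For `i`, `j` let
`d i ξ := (F' ξ, Rho (e ξ) (t ξ i))`, `d' j η := (G' η, Rho (e' η) (t' η j))`, and
`Ψ i j ξ η := ⨅ n, ⨆ m, chi (c (d i ξ) (d' j η) n m) ⊓ (cl {ω | cp (e ξ) ω ∈ bl m} ⊓ cl {ω | cp
(e' η) ω ∈ br m})`.
`GM (Ψ i j)`: `GM.iInf`, `GM.iSup`, `GM.inf`, `GM.rect`; the first factor is `GM.comap` (along
`d i`,
`d' j`) of `GM.of_rectMeas` for the subset `{p | c p.1 p.2 n m}` of `D × D'` (`kunen_rao`).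
Claim: the class in the theorem is
`⨆ i, ⨆ j, chi (Vld (e ξ) (e' η) (t ξ i) (t' η j)) ⊓ Ψ i j ξ η`, which is
`GM` by `gm_vld`, `GM.inf`, `GM.iSup`. If `Vld (e ξ) (e' η) (t ξ i) (t' η j)` holds then
`Pat (e ξ) (e' η) (Rho ..)
(Rho ..)` (`pat_of_vld`), so by `exists_code` and the rules for `cl` (`cl_iInter`, `cl_iUnion`,
`cl_inter`,
`cl_chi`, `cl_congr`; the sets are measurable by `meas_cp`, `bl_meas`, `br_meas`) `Ψ i j ξ η` is
the class of
`{ω | WW (F ξ ω) (G η ω)}`; otherwise the term is `⊥`. And for all `ξ`, `η` some pair `(i, j)` is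
valid
(`exists_kur`). -/

set_option autoImplicit false

namespace RVI

open MeasureTheory STP Cardinal

variable {K : Type}

private theorem co_cl (e e' : ℕ → K) (c : ℕ → ℕ → Prop) :
    (⨅ n : ℕ, ⨆ m : ℕ, (chi (c n m) ⊓ (cl (mu K) {ω | cp e ω ∈ bl m} ⊓
      cl (mu K) {ω | cp e' ω ∈ br m}) : RO (Ps (mu K)))) =
    cl (mu K) {ω | ∀ n, ∃ m, c n m ∧ cp e ω ∈ bl m ∧ cp e' ω ∈ br m} := by
  have h1 : ∀ m, MeasurableSet {ω : Om K | cp e ω ∈ bl m} := fun m => meas_cp e (bl_meas m)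
  have h2 : ∀ m, MeasurableSet {ω : Om K | cp e' ω ∈ br m} := fun m => meas_cp e' (br_meas m)
  have h3 : ∀ n m, MeasurableSet
      ({_ω : Om K | c n m} ∩ ({ω | cp e ω ∈ bl m} ∩ {ω | cp e' ω ∈ br m})) := fun n m =>
    (MeasurableSet.const _).inter ((h1 m).inter (h2 m))
  have h4 : {ω : Om K | ∀ n, ∃ m, c n m ∧ cp e ω ∈ bl m ∧ cp e' ω ∈ br m} =
      ⋂ n, ⋃ m, ({_ω : Om K | c n m} ∩ ({ω | cp e ω ∈ bl m} ∩ {ω | cp e' ω ∈ br m})) := by
    ext ω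
    rw [Set.mem_iInter]
    refine forall_congr' fun n => ?_
    rw [Set.mem_iUnion]
    exact Iff.rfl
  rw [h4, cl_iInter fun n => (MeasurableSet.iUnion fun m => h3 n m).nullMeasurableSet]
  refine iInf_congr fun n => ?_
  rw [cl_iUnion fun m => (h3 n m).nullMeasurableSet]
  refine iSup_congr fun m => ?_
  rw [cl_inter (MeasurableSet.const _).nullMeasurableSet
    ((h1 m).inter (h2 m)).nullMeasurableSet,
    cl_inter (h1 m).nullMeasurableSet (h2 m).nullMeasurableSet, cl_chi]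

/-- Under the continuum hypothesis and if there is a cofinal Kurepa family on `K`: the truth value
of `there is a branch of the random tree T through X ξ, Y η`, as a function of `ξ`, `η`, is
generated by random rectangles. -/
theorem core (hCH : continuum = aleph 1) (hK : ℵ₀ < #K) (hKur : CofKurepa K)
    (T : Om K → Set (List Bool × List Bool × List ℕ)) (hT : ∀ d, MeasurableSet {ω | d ∈ T ω})
    (X Y : K → RB (Om K)) :
    GM (mu K) fun ξ η => cl (mu K) {ω | ∃ g : ℕ → ℕ, ∀ m,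
      (pre m ((X ξ).1 ω), pre m ((Y η).1 ω), pre m g) ∈ T ω} := by
  classical
  obtain ⟨e, e', t, t', F', G', he, he', hF, hG, hv⟩ := exists_kur hK hKur (I := ND ⊕ ℕ)
    (I' := ℕ) (fun ξ => zz T (X ξ)) (fun ξ => meas_zz hT (X ξ)) (fun η => (Y η).1)
    (fun η => (Y η).2)
  obtain ⟨c, hc⟩ := exists_code hK
  have hCH' : (continuum : Cardinal.{0}) = aleph 1 := by
    apply Cardinal.lift_injective
    rw [Cardinal.lift_continuum, Cardinal.lift_aleph, Ordinal.lift_one, hCH]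
  have hD : #(MF (ND ⊕ ℕ) × Set (ℕ × ℕ)) ≤ aleph 1 := hCH' ▸ card_data (ND ⊕ ℕ)
  have hD' : #(MF ℕ × Set (ℕ × ℕ)) ≤ aleph 1 := hCH' ▸ card_data ℕ
  let d : ℕ → K → MF (ND ⊕ ℕ) × Set (ℕ × ℕ) := fun i ξ => (F' ξ, Rho (e ξ) (t ξ i))
  let d' : ℕ → K → MF ℕ × Set (ℕ × ℕ) := fun j η => (G' η, Rho (e' η) (t' η j))
  let Ψ : ℕ → ℕ → K → K → RO (Ps (mu K)) := fun i j ξ η =>
    ⨅ n : ℕ, ⨆ m : ℕ, (chi (c (d i ξ) (d' j η) n m) ⊓ (cl (mu K) {ω | cp (e ξ) ω ∈ bl m} ⊓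
      cl (mu K) {ω | cp (e' η) ω ∈ br m}))
  have hΨ : ∀ i j, GM (mu K) (Ψ i j) := fun i j => GM.iInf fun n => GM.iSup fun m =>
    GM.inf (GM.comap (GM.of_rectMeas (μ := mu K)
      (R := {p : (MF (ND ⊕ ℕ) × Set (ℕ × ℕ)) × (MF ℕ × Set (ℕ × ℕ)) | c p.1 p.2 n m})
      (kunen_rao hD hD' _)) (d i) (d' j)) (GM.rect _ _)
  have hWW : ∀ ξ η ω, WW ((F' ξ).1 (cp (e ξ) ω)) ((G' η).1 (cp (e' η) ω)) ↔ ∃ g : ℕ → ℕ, ∀ m,
      (pre m ((X ξ).1 ω), pre m ((Y η).1 ω), pre m g) ∈ T ω := by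
    intro ξ η ω
    rw [← hF ξ ω, ← hG η ω]
    unfold WW zz
    refine exists_congr fun g => forall_congr' fun m => ?_
    simp only [Sum.elim_inl, Sum.elim_inr, decide_eq_true_iff]
  have hval : ∀ ξ η i j, Vld (e ξ) (e' η) (t ξ i) (t' η j) → Ψ i j ξ η =
      cl (mu K) {ω | ∃ g : ℕ → ℕ, ∀ m,
        (pre m ((X ξ).1 ω), pre m ((Y η).1 ω), pre m g) ∈ T ω} := by
    intro ξ η i j h
    have h1 := hc (F' ξ) (G' η) _ _ (e ξ) (e' η) (he ξ) (he' η) (pat_of_vld h)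
    refine (co_cl (e ξ) (e' η) (c (d i ξ) (d' j η))).trans (cl_congr ?_)
    filter_upwards [h1] with ω hω
    exact propext (hω.symm.trans (hWW ξ η ω))
  have hfun : (fun ξ η => cl (mu K) {ω | ∃ g : ℕ → ℕ, ∀ m,
      (pre m ((X ξ).1 ω), pre m ((Y η).1 ω), pre m g) ∈ T ω}) =
      fun ξ η => ⨆ i : ℕ, ⨆ j : ℕ,
        ((chi (Vld (e ξ) (e' η) (t ξ i) (t' η j)) : RO (Ps (mu K))) ⊓ Ψ i j ξ η) := by
    funext ξ η
    refine le_antisymm ?_ (iSup_le fun i => iSup_le fun j => ?_)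
    · obtain ⟨i, j, h⟩ := hv ξ η
      refine le_iSup_of_le i (le_iSup_of_le j (le_inf ?_ (hval ξ η i j h).ge))
      exact le_iSup_of_le h le_top
    · by_cases h : Vld (e ξ) (e' η) (t ξ i) (t' η j)
      · exact inf_le_right.trans (hval ξ η i j h).le
      · refine inf_le_left.trans ?_
        unfold chi
        exact iSup_le fun h' => absurd h' h
  rw [hfun]
  exact GM.iSup fun i => GM.iSup fun j =>
    GM.inf (gm_vld e e' (fun ξ => t ξ i) fun η => t' η j) (hΨ i j)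

end RVI
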