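import Mathlib

/-! # Measurable cardinals (definition)

(problem MP_75f27a_lc, project RVI; no sorry in this file) -/

namespace RVI

open Cardinal

/-- `K` is a measurable cardinal: `K` is uncountable and `U` is a nonprincipal ultrafilter on `K`
which is closed under intersections of fewer than `#K` sets. -/
structure IsMU {K : Type} (U : Ultrafilter K) : Prop where
  unc : ℵ₀ < #K
  np : ∀ a : K, {a} ∉ U
  comp : ∀ (I : Type) (A : I → Set K), #I < #K → (∀ i, A i ∈ U) → (⋂ i, A i) ∈ U

/-- There is a cofinal Kurepa family on `K`: a cofinal family of countable subsets of `K` which has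
only countably many traces on every countable set. -/
def CofKurepa (K : Type) : Prop :=
  ∃ 𝒦 : Set (Set K), (∀ S ∈ 𝒦, S.Countable) ∧ (∀ A : Set K, A.Countable → ∃ S ∈ 𝒦, A ⊆ S) ∧
    ∀ A : Set K, A.Countable → {B | ∃ S ∈ 𝒦, B = A ∩ S}.Countable

end RVI
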