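import Pool.Agent.RVI.Sg0
import Pool.Agent.RVI.Om0
import Pool.Agent.RVI.Um0

/-! # The combinatorial core (definitions)

(problem MP_75f27a_lc, project RVI; no sorry in this file)

* `cp e ω`: the values of `ω` at the coordinates `(e k, n)`.
* `WW z y`: `z` codes a tree `T` and a real `x`; there is a branch of `T` through `x`, `y`.
* `zz T X ω`: the code of the tree `T ω` and the real `X ω`.
* `enT t`: an enumeration of the countable set `t`; `Rho e t`: the positions of the elements `e k`
  in it.
* `MF I`: the measurable maps from `Q2 = 2 ^ (ℕ × ℕ)` to `2 ^ I`. -/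

namespace RVI

open MeasureTheory

/-- the space `2 ^ (ℕ × ℕ)` -/
abbrev Q2 : Type := ℕ × ℕ → Bool

/-- nodes -/
abbrev ND : Type := List Bool × List Bool × List ℕ

/-- measurable maps -/
abbrev MF (I : Type) : Type := {F : Q2 → I → Bool // Measurable F}

/-- there is a branch of the tree coded by `z` through the real coded by `z` and through `y` -/
def WW (z : ND ⊕ ℕ → Bool) (y : ℕ → Bool) : Prop :=
  ∃ g : ℕ → ℕ, ∀ m, z (Sum.inl (pre m (fun n => z (Sum.inr n)), pre m y, pre m g)) = true

section

variable {K : Type}

/-- the values at the coordinates of the sequence `e` -/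
def cp (e : ℕ → K) (ω : Om K) : Q2 := fun p => ω (e p.1, p.2)

open scoped Classical in
/-- the code of a tree and a real -/
noncomputable def zz (T : Om K → Set ND) (X : RB (Om K)) (ω : Om K) : ND ⊕ ℕ → Bool :=
  Sum.elim (fun d => decide (d ∈ T ω)) (X.1 ω)

open scoped Classical in
/-- an enumeration of a countable set -/
noncomputable def enT (t : Set K) : ℕ → Option K :=
  if h : ∃ f : ℕ → Option K, ∀ a, a ∈ t ↔ ∃ n, f n = some a then h.choose else fun _ => none

/-- the positions of the elements of the sequence `e` in the enumeration of `t` -/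
def Rho (e : ℕ → K) (t : Set K) : Set (ℕ × ℕ) := {p | enT t p.2 = some (e p.1)}

/-- the pattern of the sequences `e`, `e'` is given by the sets `ρ`, `ρ'` -/
def Pat (e e' : ℕ → K) (ρ ρ' : Set (ℕ × ℕ)) : Prop :=
  ∀ k l, e k = e' l ↔ ∃ n, (k, n) ∈ ρ ∧ (l, n) ∈ ρ'

/-- `t`, `t'` are both the intersection of the ranges of `e` and `e'` -/
def Vld (e e' : ℕ → K) (t t' : Set K) : Prop :=
  t = Set.range e ∩ Set.range e' ∧ t' = Set.range e ∩ Set.range e'

end

end RVI
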