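import Pool.Agent.RVI.Co0

/-! # Supports of measurable maps (package CA)

(problem MP_75f27a_lc, project RVI)

* `meas_cp`: coordinates. `meas_zz`: coordinates (`measurable_pi_iff`, the sets `{ω | d ∈ T ω}` are
  measurable; a map to `Bool` is measurable iff the preimage of `{true}` is).
* `supp_set`: the sets `A` with a countable support form a sigma-algebra which contains the
  generators
  `{ω | ω i ∈ s}`: the product sigma-algebra is `⨆ i, comap (eval i)` (`MeasurableSpace.pi`); use
  `MeasurableSpace.induction_on_inter`/`generateFrom_induction` for a generating family, or show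
  that
  `{A | ..}` is a `MeasurableSpace` `m'` and `MeasurableSpace.pi ≤ m'` (`iSup_le`,
  `comap_le_iff`). For
  unions take the union of the supports.
* `supp_map`: the union over `i : I` (countable) of supports of the sets `{ω | F ω i = true}`.
* `factor`: choose `i : K → ℕ` with `e (i k) = k` for `k ∈ Set.range e`. For `v : Q2` let
  `w v (k, n) := if k ∈ Set.range e then v (i k, n) else false` (measurable in `v`),
  `F' v := F (w v)`.
  `w (cp e ω)` and `ω` agree on the coordinates `(k, n)` with `k ∈ Set.range e`. -/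

set_option autoImplicit false

namespace RVI

open MeasureTheory

variable {K : Type}

theorem meas_cp (e : ℕ → K) : Measurable (cp e) :=
  measurable_pi_iff.2 fun p => measurable_pi_apply (e p.1, p.2)

theorem meas_zz {T : Om K → Set ND} (hT : ∀ d, MeasurableSet {ω | d ∈ T ω}) (X : RB (Om K)) :
    Measurable (zz T X) := by
  classical
  refine measurable_pi_iff.2 fun d => ?_
  rcases d with d | n
  · refine measurable_to_bool ?_
    have : (fun ω => zz T X ω (Sum.inl d)) ⁻¹' {true} = {ω | d ∈ T ω} := by
      ext ω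
      simp only [zz, Sum.elim_inl, Set.mem_preimage, Set.mem_singleton_iff, decide_eq_true_eq]
      exact Iff.rfl
    rw [this]
    exact hT d
  · exact (measurable_pi_apply n).comp X.2

theorem supp_set {A : Set (Om K)} (hA : MeasurableSet A) : ∃ S : Set K, S.Countable ∧
    ∀ ω ω' : Om K, (∀ k ∈ S, ∀ n, ω (k, n) = ω' (k, n)) → (ω ∈ A ↔ ω' ∈ A) := by
  let m' : MeasurableSpace (Om K) :=
    { MeasurableSet' := fun A => ∃ S : Set K, S.Countable ∧
        ∀ ω ω' : Om K, (∀ k ∈ S, ∀ n, ω (k, n) = ω' (k, n)) → (ω ∈ A ↔ ω' ∈ A)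
      measurableSet_empty := ⟨∅, Set.countable_empty, fun ω ω' _ => Iff.rfl⟩
      measurableSet_compl := fun A ⟨S, hS, h⟩ => ⟨S, hS, fun ω ω' hω => not_congr (h ω ω' hω)⟩
      measurableSet_iUnion := fun A hA => by
        choose S hS h using hA
        refine ⟨⋃ i, S i, Set.countable_iUnion hS, fun ω ω' hω => ?_⟩
        rw [Set.mem_iUnion, Set.mem_iUnion]
        exact exists_congr fun i => h i ω ω' fun k hk n => hω k (Set.mem_iUnion.2 ⟨i, hk⟩) n }
  have hle : (MeasurableSpace.pi : MeasurableSpace (Om K)) ≤ m' := by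
    refine iSup_le fun i => ?_
    rintro B ⟨s, -, rfl⟩
    refine ⟨{i.1}, Set.countable_singleton _, fun ω ω' hω => ?_⟩
    have h1 : ω i = ω' i := hω i.1 (Set.mem_singleton _) i.2
    change ω i ∈ s ↔ ω' i ∈ s
    rw [h1]
  exact hle A hA

theorem supp_map {I : Type} [Countable I] {F : Om K → I → Bool} (hF : Measurable F) :
    ∃ S : Set K, S.Countable ∧
      ∀ ω ω' : Om K, (∀ k ∈ S, ∀ n, ω (k, n) = ω' (k, n)) → F ω = F ω' := by
  have h1 : ∀ i : I, MeasurableSet {ω | F ω i = true} := fun i =>
    ((measurable_pi_apply i).comp hF) (measurableSet_singleton true)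
  choose S hS h using fun i => supp_set (h1 i)
  refine ⟨⋃ i, S i, Set.countable_iUnion hS, fun ω ω' hω => funext fun i => ?_⟩
  rw [Bool.eq_iff_iff]
  exact h i ω ω' fun k hk n => hω k (Set.mem_iUnion.2 ⟨i, hk⟩) n

theorem factor {I : Type} [Countable I] {F : Om K → I → Bool} (hF : Measurable F) {S : Set K}
    (hS : ∀ ω ω' : Om K, (∀ k ∈ S, ∀ n, ω (k, n) = ω' (k, n)) → F ω = F ω') (e : ℕ → K)
    (he : S ⊆ Set.range e) : ∃ F' : MF I, ∀ ω, F ω = F'.1 (cp e ω) := by
  classical
  obtain ⟨w, hw⟩ : ∃ w : Q2 → Om K, ∀ v p, w v p =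
      if h : p.1 ∈ Set.range e then v (h.choose, p.2) else false := ⟨_, fun _ _ => rfl⟩
  have hwm : Measurable w := by
    refine measurable_pi_iff.2 fun p => ?_
    simp only [hw]
    by_cases h : p.1 ∈ Set.range e
    · simp only [dif_pos h]
      exact measurable_pi_apply _
    · simp only [dif_neg h]
      exact measurable_const
  refine ⟨⟨fun v => F (w v), hF.comp hwm⟩, fun ω => hS ω (w (cp e ω)) fun k hk n => ?_⟩
  have h := he hk
  rw [hw, dif_pos h]
  change ω (k, n) = ω (e h.choose, n)
  rw [h.choose_spec]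

end RVI
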