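import Pool.Agent.RVI.CoA

/-! # The pattern of two sequences determines the joint law (package CB)

(problem MP_75f27a_lc, project RVI)

* `exists_perm`: let `A := Set.range e₁ ∪ Set.range e₂` and `A' := Set.range e₁' ∪ Set.range e₂'`.
  The map
  `e₁ k ↦ e₁' k`, `e₂ l ↦ e₂' l` is well defined and injective on `A` with the range `A'` (the
  sequences are
  injective and `hp`). As `A`, `A'` are countable and `K` is uncountable, the complements have the
  cardinality `#K` (`Cardinal.mk_compl_of_infinite`, or `mk_compl_eq_mk_compl_infinite`), so the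
  map extends
  to a bijection of `K` (`Cardinal.extend_function`, or `Equiv.Set.sumCompl`).
* `mu_perm`: the map `ω ↦ fun p => ω (h p.1, p.2)` preserves `mu K`: two probability measures
  which agree on
  the boxes `Set.pi s t`, `s` finite, are equal (`Measure.eq_infinitePi`); the preimage of a box
  is a
  box, `Measure.infinitePi_pi` and reindexing of a finite product (or Mathlib:
  `Measure.infinitePi_map_piCongrLeft`, `measurePreserving_piCongrLeft`).
* `map_cp`: let `h` be the permutation, `θ ω := fun p => ω (h p.1, p.2)`. Then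
  `cp e₁ (θ ω) = cp e₁' ω` and `cp e₂ (θ ω) = cp e₂' ω`, so the law of `(cp e₁', cp e₂')` is the
  image
  under `(cp e₁, cp e₂)` of the image of `mu K` under `θ`, which is `mu K` (`Measure.map_map`). -/

set_option autoImplicit false

namespace RVI

open MeasureTheory Cardinal

variable {K : Type}

theorem exists_perm (hK : ℵ₀ < #K) {e₁ e₂ e₁' e₂' : ℕ → K} (h₁ : Function.Injective e₁)
    (h₂ : Function.Injective e₂) (h₁' : Function.Injective e₁') (h₂' : Function.Injective e₂')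
    (hp : ∀ k l, e₁ k = e₂ l ↔ e₁' k = e₂' l) :
    ∃ h : K ≃ K, (∀ k, h (e₁ k) = e₁' k) ∧ ∀ k, h (e₂ k) = e₂' k := by
  classical
  set A : Set K := Set.range e₁ ∪ Set.range e₂ with hA
  have key : ∀ a : A, ∃ b : K, (∀ k, e₁ k = a.1 → e₁' k = b) ∧ ∀ k, e₂ k = a.1 → e₂' k = b := by
    rintro ⟨a, ha⟩
    rcases ha with ⟨k, rfl⟩ | ⟨l, rfl⟩
    · refine ⟨e₁' k, fun k' hk' => ?_, fun l hl => ?_⟩
      · rw [h₁ hk']
      · exact ((hp k l).1 hl.symm).symm
    · refine ⟨e₂' l, fun k hk => ?_, fun l' hl' => ?_⟩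
      · exact (hp k l).1 hk
      · rw [h₂ hl']
  choose f hf₁ hf₂ using key
  have hinj : Function.Injective f := by
    rintro ⟨a, ha⟩ ⟨b, hb⟩ hab
    rcases ha with ⟨k, rfl⟩ | ⟨k, rfl⟩ <;> rcases hb with ⟨l, rfl⟩ | ⟨l, rfl⟩
    · have hk := hf₁ ⟨e₁ k, Or.inl ⟨k, rfl⟩⟩ k rfl
      have hl := hf₁ ⟨e₁ l, Or.inl ⟨l, rfl⟩⟩ l rfl
      have := h₁' (hk.trans (hab.trans hl.symm))
      subst this; rfl
    · have hk := hf₁ ⟨e₁ k, Or.inl ⟨k, rfl⟩⟩ k rfl
      have hl := hf₂ ⟨e₂ l, Or.inr ⟨l, rfl⟩⟩ l rfl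
      exact Subtype.ext ((hp k l).2 (hk.trans (hab.trans hl.symm)))
    · have hk := hf₂ ⟨e₂ k, Or.inr ⟨k, rfl⟩⟩ k rfl
      have hl := hf₁ ⟨e₁ l, Or.inl ⟨l, rfl⟩⟩ l rfl
      exact Subtype.ext ((hp l k).2 (hl.trans (hab.symm.trans hk.symm))).symm
    · have hk := hf₂ ⟨e₂ k, Or.inr ⟨k, rfl⟩⟩ k rfl
      have hl := hf₂ ⟨e₂ l, Or.inr ⟨l, rfl⟩⟩ l rfl
      have := h₂' (hk.trans (hab.trans hl.symm))
      subst this; rfl
  have hc : #A < #K := by
    refine lt_of_le_of_lt ?_ hK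
    rw [Cardinal.le_aleph0_iff_set_countable]
    exact (Set.countable_range e₁).union (Set.countable_range e₂)
  obtain ⟨g, hg⟩ := Cardinal.extend_function_of_lt ⟨f, hinj⟩ hc ⟨Equiv.refl K⟩
  refine ⟨g, fun k => ?_, fun k => ?_⟩
  · rw [hf₁ ⟨e₁ k, Or.inl ⟨k, rfl⟩⟩ k rfl]
    exact hg ⟨e₁ k, Or.inl ⟨k, rfl⟩⟩
  · rw [hf₂ ⟨e₂ k, Or.inr ⟨k, rfl⟩⟩ k rfl]
    exact hg ⟨e₂ k, Or.inr ⟨k, rfl⟩⟩

theorem mu_perm (h : K ≃ K) :
    (mu K).map (fun (ω : Om K) (p : K × ℕ) => ω (h p.1, p.2)) = mu K := by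
  have h0 := Measure.infinitePi_map_piCongrLeft (fun _ : K × ℕ => coin)
    (Equiv.prodCongr h (Equiv.refl ℕ)).symm
  have h1 : (fun (ω : Om K) (p : K × ℕ) => ω (h p.1, p.2)) =
      MeasurableEquiv.piCongrLeft (fun _ : K × ℕ => Bool)
        (Equiv.prodCongr h (Equiv.refl ℕ)).symm := by
    funext ω p
    rw [MeasurableEquiv.coe_piCongrLeft]
    have h2 := Equiv.piCongrLeft_apply_apply (fun _ : K × ℕ => Bool)
      (Equiv.prodCongr h (Equiv.refl ℕ)).symm ω (h p.1, p.2)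
    rw [← h2]
    simp
  unfold mu
  rw [h1]
  exact h0

theorem map_cp (hK : ℵ₀ < #K) {e₁ e₂ e₁' e₂' : ℕ → K} (h₁ : Function.Injective e₁)
    (h₂ : Function.Injective e₂) (h₁' : Function.Injective e₁') (h₂' : Function.Injective e₂')
    (hp : ∀ k l, e₁ k = e₂ l ↔ e₁' k = e₂' l) :
    (mu K).map (fun ω => (cp e₁ ω, cp e₂ ω)) = (mu K).map fun ω => (cp e₁' ω, cp e₂' ω) := by
  obtain ⟨h, hh₁, hh₂⟩ := exists_perm hK h₁ h₂ h₁' h₂' hp
  have e : (fun ω : Om K => (cp e₁' ω, cp e₂' ω)) = (fun ω : Om K => (cp e₁ ω, cp e₂ ω)) ∘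
      fun (ω : Om K) (p : K × ℕ) => ω (h p.1, p.2) := by
    funext ω
    refine Prod.ext (funext fun p => ?_) (funext fun p => ?_)
    · exact congrArg (fun a => ω (a, p.2)) (hh₁ p.1).symm
    · exact congrArg (fun a => ω (a, p.2)) (hh₂ p.1).symm
  rw [e, ← Measure.map_map, mu_perm h]
  · exact (meas_cp e₁).prodMk (meas_cp e₂)
  · exact measurable_pi_lambda _ fun p => measurable_pi_apply _

end RVI
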