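import Pool.Agent.RVI.Co0
import Pool.Agent.RVM.Final

/-! # Kunen-Rao and the number of data (package CD)

(problem MP_75f27a_lc, project RVI)

* `kunen_rao`: give `D`, `D'` the sigma-algebras of all subsets; `RectMeas R` is then
  `MeasurableSet R`
  (`Pool.RVM.rectMeas_iff`). Choose injections `a : D → W`, `b : D' → W` into a well-ordered type
  `W` of
  order type `ω₁` (`(aleph 1).ord.ToType`): every initial segment `{v | v ≤ w}` is countable. Let
  `R₁ := {(x, y) ∈ R | b y ≤ a x}`, `R₂ := {(x, y) ∈ R | a x < b y}`. For `x : D` the set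
  `{y | b y ≤ a x ∧ (x, y) ∈ R}` is countable; let `f n x : Option D'`, `n : ℕ`, enumerate it. Then
  `R₁ = ⋃ n, {p | f n p.1 = some p.2}`, which is measurable by
  `Pool.RVM.measurableSet_eq_of_discrete` (file `RVM/Hilbert.lean`) with `i := f n`, `j := some`
  and an
  injection `e : D' → ℝ` (`#D' ≤ aleph 1 ≤ continuum`). `R₂` similarly with `i := some`,
  `j := f' n : D' → Option D`.
* `card_MF`: `MF I` injects into `I → {A : Set Q2 // MeasurableSet A}` by
  `i ↦ {v | F v i = true}`; `Q2` is countably generated, so there are at most `continuum`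
  measurable sets
  (`MeasurableSpace.cardinal_measurableSet_le_continuum` with
  `MeasurableSpace.generateFrom_countableGeneratingSet`), and `continuum ^ #I ≤ continuum ^ ℵ₀ =
  continuum`. `card_data`: `#(Set (ℕ × ℕ)) = continuum` (`Cardinal.mk_set`), product. -/

set_option autoImplicit false

namespace RVI

open MeasureTheory Cardinal Pool.RVM

private theorem enum {D : Type} {S : Set D} (hS : S.Countable) :
    ∃ f : ℕ → Option D, ∀ y, y ∈ S ↔ ∃ n, f n = some y := by
  rcases S.eq_empty_or_nonempty with rfl | hne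
  · exact ⟨fun _ => none, fun y => by simp⟩
  · obtain ⟨g, rfl⟩ := hS.exists_eq_range hne
    exact ⟨fun n => some (g n), fun y => by simp⟩

private theorem small {c : Cardinal} (h : c ≤ aleph 1) : c ≤ #ℝ := by
  rw [Cardinal.mk_real]
  exact h.trans aleph_one_le_continuum

private theorem ctbl (w : (aleph 1).ord.ToType) : (Set.Iic w).Countable := by
  have h : (Set.Iio w).Countable := by
    have h1 : #(Set.Iio w) < aleph 1 := by simpa using mk_Iio_lt w
    have h2 : #(Set.Iio w) < Order.succ ℵ₀ := h1.trans_eq succ_aleph0.symm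
    exact Cardinal.le_aleph0_iff_set_countable.1 (Order.lt_succ_iff.1 h2)
  exact (h.insert w).mono fun v hv => (lt_or_eq_of_le hv).elim Or.inr Or.inl

theorem kunen_rao {D D' : Type} (hD : #D ≤ aleph 1) (hD' : #D' ≤ aleph 1)
    (R : Set (D × D')) : RectMeas R := by
  let m1 : MeasurableSpace D := ⊤
  let m2 : MeasurableSpace D' := ⊤
  have d1 : DiscreteMeasurableSpace D := ⟨fun _ => trivial⟩
  have d2 : DiscreteMeasurableSpace D' := ⟨fun _ => trivial⟩
  rw [rectMeas_iff]
  have h1 : Nonempty (D ↪ (aleph 1).ord.ToType) := by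
    rw [← Cardinal.le_def, mk_ord_toType]
    exact hD
  have h2 : Nonempty (D' ↪ (aleph 1).ord.ToType) := by
    rw [← Cardinal.le_def, mk_ord_toType]
    exact hD'
  obtain ⟨a⟩ := h1
  obtain ⟨b⟩ := h2
  obtain ⟨e⟩ := Cardinal.le_def _ _ |>.1 (small hD')
  have c1 : ∀ x : D, ∃ f : ℕ → Option D', ∀ y, y ∈ {y | b y ≤ a x ∧ (x, y) ∈ R} ↔
      ∃ n, f n = some y := fun x =>
    enum (((ctbl (a x)).preimage b.injective).mono fun y hy => hy.1)
  have c2 : ∀ y : D', ∃ f : ℕ → Option D, ∀ x, x ∈ {x | a x ≤ b y ∧ (x, y) ∈ R} ↔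
      ∃ n, f n = some x := fun y =>
    enum (((ctbl (b y)).preimage a.injective).mono fun x hx => hx.1)
  choose f hf using c1
  choose g hg using c2
  have hR : R = (⋃ n, {p : D × D' | f p.1 n = some p.2}) ∪
      ⋃ n, {p : D × D' | some p.1 = g p.2 n} := by
    ext ⟨x, y⟩
    simp only [Set.mem_union, Set.mem_iUnion, Set.mem_ofPred_eq]
    rw [← hf]
    have h3 : (∃ n, some x = g y n) ↔ ∃ n, g y n = some x :=
      exists_congr fun n => ⟨Eq.symm, Eq.symm⟩
    rw [h3, ← hg]
    constructor
    · intro h
      rcases le_total (b y) (a x) with h' | h'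
      · exact Or.inl ⟨h', h⟩
      · exact Or.inr ⟨h', h⟩
    · rintro (h | h)
      · exact h.2
      · exact h.2
  rw [hR]
  exact (MeasurableSet.iUnion fun n => measurableSet_eq_of_discrete e e.injective
    (fun x => f x n) some).union (MeasurableSet.iUnion fun n =>
      measurableSet_eq_of_discrete e e.injective some (fun y => g y n))

private theorem card_ms (α : Type) [m : MeasurableSpace α] [MeasurableSpace.CountablyGenerated α] :
    #{A : Set α // MeasurableSet A} ≤ continuum := by
  have h := MeasurableSpace.cardinal_measurableSet_le_continuum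
    (s := MeasurableSpace.countableGeneratingSet α)
    ((MeasurableSpace.countable_countableGeneratingSet (α := α)).le_aleph0.trans
      aleph0_le_continuum)
  rw [MeasurableSpace.generateFrom_countableGeneratingSet] at h
  exact h

theorem card_MF (I : Type) [Countable I] : #(MF I) ≤ continuum := by
  have hF : ∀ (F : MF I) (i : I), MeasurableSet {v | F.1 v i = true} := fun F i =>
    ((measurable_pi_apply i).comp F.2) (measurableSet_singleton true)
  have h1 : #(MF I) ≤ #(I → {A : Set Q2 // MeasurableSet A}) := by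
    refine Cardinal.mk_le_of_injective (f := fun F i => ⟨{v | F.1 v i = true}, hF F i⟩) ?_
    intro F G h
    refine Subtype.ext (funext fun v => funext fun i => ?_)
    have h2 := congrArg Subtype.val (congrFun h i)
    have h3 : F.1 v i = true ↔ G.1 v i = true := Set.ext_iff.1 h2 v
    exact Bool.eq_iff_iff.2 h3
  refine h1.trans ?_
  rw [← Cardinal.power_def]
  calc #{A : Set Q2 // MeasurableSet A} ^ #I ≤ continuum ^ #I :=
        Cardinal.power_le_power_right (card_ms Q2)
    _ ≤ continuum ^ ℵ₀ := Cardinal.power_le_power_left continuum_ne_zero Cardinal.mk_le_aleph0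
    _ = continuum := continuum_power_aleph0

theorem card_data (I : Type) [Countable I] : #(MF I × Set (ℕ × ℕ)) ≤ continuum := by
  have h : #(Set (ℕ × ℕ)) = continuum := by
    rw [Cardinal.mk_set, Cardinal.mk_eq_aleph0, two_power_aleph0]
  rw [← Cardinal.mul_def, h]
  calc #(MF I) * continuum ≤ continuum * continuum := mul_le_mul_left (card_MF I) _
    _ = continuum := continuum_mul_self

end RVI
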