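import Pool.Agent.RVI.Kp0

/-! # The ordinal `#K` and its power set (package KA)

(problem MP_75f27a_lc, project RVI)

* `kc_inj`: `ke K` is injective and `Ordinal.ToType.toOrd` is (the inverse of) an order isomorphism.
  `kc_lt`: `(toOrd _).2`. `kc_surj`: `Ordinal.ToType.mk ⟨o, h⟩` and `(ke K).symm`.
* `card_Bl`: `Bl a` injects (`kc`) into `Set.Iio (kc a)`, whose cardinality is `(kc a).card`
  (`Ordinal.mk_Iio_ordinal` with lifts; or inject into `(kc a).ToType`, `Cardinal.mk_toType`/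
  `Ordinal.mk_toType`), and `(kc a).card < #K` by `Cardinal.lt_ord`.
* `kk_eq`: `ck_eq_iff`, `kc_inj`. `kk_dsc`: `eq_ck_ck`. `kk_mem`: `ck_mem_iff`.
* `KN_ck`: `(NG_zfc G).ext`: `z = NG.mk G Z`: `mem Z (ck o) = ⨆ a : Set.Iio o, eq Z (ck a)`
  (`mem_ck`) and
  `mem Z (KN K) = ⨆ a, ⊤ ⊓ eq Z (ck (kc a))`: the same supremum by `kc_lt`, `kc_surj`.
* `kk_al`: the same for `kc a` (every ordinal below `kc a` is some `kc b`).
* `mem_sk`: `st_mem` with `Ex1.of_dsc kk_dsc`. `pw_QN`: `→`: `x ∈ QN` implies `Sub x KN`: `st_all`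
  over `al sk`
  for the statement `Sub .. x KN`; for `sk ψ`: `st_all` over `st kk ψ` for `z ∈ KN` (`al_mem`).
  `←`: `sub_rep`,
  `al_mem`. `full_sk`: for `X` take `ψ a := mem (kk a) X`; `mem X (QN K) ≤ eq X (sk ψ)` by
  `Ult.mem_of_all`: in `NG G`: `X ⊆ KN` (`pw_QN`), `sub_rep`. -/

set_option autoImplicit false

namespace RVI

open MeasureTheory STP STP.BSet CPI Cardinal

section

variable {K : Type}

theorem kc_inj {a b : K} : kc a = kc b ↔ a = b := by
  unfold kc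
  constructor
  · intro h
    exact (ke K).injective ((Ordinal.ToType.mk (o := (#K).ord)).symm.injective (Subtype.ext h))
  · intro h
    rw [h]

theorem kc_lt (a : K) : kc a < (#K).ord :=
  (Ordinal.ToType.toOrd (ke K a)).2

theorem kc_surj {o : Ordinal.{0}} (h : o < (#K).ord) : ∃ a : K, kc a = o := by
  refine ⟨(ke K).symm (Ordinal.ToType.mk ⟨o, h⟩), ?_⟩
  unfold kc
  rw [Equiv.apply_symm_apply]
  have h2 : Ordinal.ToType.toOrd ((Ordinal.ToType.mk (o := (#K).ord)) ⟨o, h⟩) = ⟨o, h⟩ :=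
    (Ordinal.ToType.mk (o := (#K).ord)).symm_apply_apply ⟨o, h⟩
  exact congrArg Subtype.val h2

theorem card_Bl (a : K) : #(Bl a) < #K := by
  have h1 : (kc a).card < #K := Cardinal.lt_ord.1 (kc_lt a)
  refine lt_of_le_of_lt ?_ h1
  rw [← Cardinal.mk_toType (kc a)]
  refine Cardinal.mk_le_of_injective (f := fun b : Bl a => Ordinal.ToType.mk ⟨kc b.1, b.2⟩) ?_
  intro b c hbc
  have h2 := (Ordinal.ToType.mk (o := kc a)).injective hbc
  have h3 : kc b.1 = kc c.1 := congrArg (fun t : Set.Iio (kc a) => t.1) h2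
  exact Subtype.ext (kc_inj.1 h3)

variable {P : Type} [PartialOrder P]

theorem kk_dsc : Dsc (kk (P := P) (K := K)) := by
  intro a b hab
  unfold kk
  rw [eq_ck_ck]
  exact iSup_eq_bot.2 fun h => absurd (kc_inj.1 h) hab

theorem kk_eq (G : Ult (RO P)) {a b : K} : NG.mk G (kk a) = NG.mk G (kk b) ↔ a = b := by
  unfold kk
  rw [ck_eq_iff, kc_inj]

theorem kk_mem (G : Ult (RO P)) {a b : K} :
    EG G (NG.mk G (kk a)) (NG.mk G (kk b)) ↔ kc a < kc b := by
  unfold kk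
  rw [ck_mem_iff]

theorem KN_ck (G : Ult (RO P)) : NG.mk G (KN (P := P) K) = NG.mk G (ck (#K).ord) := by
  refine NG_ext G _ _ fun z => ?_
  obtain ⟨Z, rfl⟩ := NG.exists_rep z
  rw [EG_mk, EG_mk, mem_ck]
  unfold KN al
  rw [mem_st]
  have h : (⨆ a : K, ⊤ ⊓ BSet.eq Z (kk a)) =
      ⨆ a : Set.Iio (#K).ord, BSet.eq Z (ck a.1) := by
    refine le_antisymm (iSup_le fun a => ?_) (iSup_le fun a => ?_)
    · refine le_iSup_of_le ⟨kc a, kc_lt a⟩ ?_
      exact inf_le_right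
    · obtain ⟨b, hb⟩ := kc_surj (K := K) a.2
      refine le_iSup_of_le b ?_
      unfold kk
      rw [top_inf_eq, hb]
  rw [h]

theorem kk_al (G : Ult (RO P)) (a : K) :
    NG.mk G (kk a) = NG.mk G (al (P := P) fun b : Bl a => kk b.1) := by
  refine NG_ext G _ _ fun z => ?_
  obtain ⟨Z, rfl⟩ := NG.exists_rep z
  have h0 : (kk a : BSet (RO P)) = ck (kc a) := rfl
  rw [EG_mk, EG_mk, h0, mem_ck]
  unfold al
  rw [mem_st]
  have h : (⨆ b : Bl a, ⊤ ⊓ BSet.eq Z (kk b.1)) =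
      ⨆ b : Set.Iio (kc a), BSet.eq Z (ck b.1) := by
    refine le_antisymm (iSup_le fun b => ?_) (iSup_le fun b => ?_)
    · refine le_iSup_of_le ⟨kc b.1, b.2⟩ ?_
      exact inf_le_right
    · obtain ⟨c, hc⟩ := kc_surj (K := K) (lt_trans b.2 (kc_lt a))
      refine le_iSup_of_le ⟨c, ?_⟩ ?_
      · rw [hc]
        exact b.2
      · unfold kk
        rw [top_inf_eq, hc]
  rw [h]

theorem mem_sk (G : Ult (RO P)) {ψ : K → RO P} {a : K} :
    EG G (NG.mk G (kk a)) (NG.mk G (sk ψ)) ↔ ψ a ∈ G.s :=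
  st_mem (Ex1.of_dsc kk_dsc ψ) G a

theorem pw_QN (G : Ult (RO P)) : IsPw (EG G) (NG.mk G (QN (P := P) K)) (NG.mk G (KN K)) := by
  intro x
  constructor
  · intro hx
    refine st_all sk (fun _ => ⊤) (fun G x => Sub (EG G) x (NG.mk G (KN K)))
      (fun ψ G _ => ?_) G x hx
    intro z hz
    exact st_all kk ψ (fun G z => EG G z (NG.mk G (KN K))) (fun a G _ => al_mem kk G a) G z hz
  · intro hx
    obtain ⟨X, rfl⟩ := NG.exists_rep x
    rw [sub_rep kk X G hx]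
    exact al_mem sk G fun a => BSet.mem (kk a) X

theorem full_sk : Full (sk (P := P) (K := K)) := by
  intro X
  refine ⟨fun a => BSet.mem (kk a) X, Ult.mem_of_all fun G hG => ?_⟩
  have h1 : EG G (NG.mk G X) (NG.mk G (QN K)) := EG_mk.2 hG
  exact NG.mk_eq.1 (sub_rep kk X G ((pw_QN G _).1 h1))

end

end RVI
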