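import Pool.Agent.RVI.SgA
import Pool.Agent.RVI.KpA

/-! # Relations on the continuum from relations on `K` (definitions)

(problem MP_75f27a_lc, project RVI; no sorry in this file)

`e : K → RB Ω` enumerates the random reals (up to null sets). `tau e X a`: the truth value of `a`
being the
first element of `K` with `X = e a`. For `Φ : K → K → RO (Ps μ)`, `dv e Φ X Y` is the truth value of
`(σ X, σ Y) ∈ Φ`, where `σ` is the function which assigns to a real its first index, and `DN e Φ`
is the
name of the set of these pairs. -/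

namespace RVI

open MeasureTheory STP STP.BSet CPI

variable {K : Type} {Ω : Type} [MeasurableSpace Ω] {μ : Measure Ω}

variable (μ) in
/-- the truth value of: `a` is the first index of `X` -/
noncomputable def tau (e : K → RB Ω) (X : RB Ω) (a : K) : RO (Ps μ) :=
  cl μ {ω | X.1 ω = (e a).1 ω} ⊓ (⨆ b : Bl a, cl μ {ω | X.1 ω = (e b.1).1 ω})ᶜ

/-- the truth values of the relation between reals -/
noncomputable def dv (e : K → RB Ω) (Φ : K → K → RO (Ps μ)) (X Y : RB Ω) : RO (Ps μ) :=
  ⨆ z : K × K, tau μ e X z.1 ⊓ tau μ e Y z.2 ⊓ Φ z.1 z.2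

/-- the name of the relation between reals -/
noncomputable def DN (e : K → RB Ω) (Φ : K → K → RO (Ps μ)) : BSet (RO (Ps μ)) :=
  rt (nb μ) (nb μ) (dv e Φ)

end RVI
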