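import Pool.Agent.RVI.Da0

/-! # The index function and the algebra of `dv` (package DA)

(problem MP_75f27a_lc, project RVI)

* `tau_le`: `inf_le_left`. `tau_disj`: one of `a`, `b` has the smaller ordinal, say `kc b < kc a`
  (`kc_inj`): then `tau X a ≤ (cl {X = e b})ᶜ` and `tau X b ≤ cl {X = e b}`.
* `tau_sup`: let `a` be an index with `X = e a` a.e. (`he`), so `cl {X = e a} = ⊤`. Claim: for
  every `b`:
  `cl {X = e b} ≤ ⨆ c, tau X c`, by well-founded induction on `kc b`: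
  `cl {X = e b} = (cl {..} ⊓ s) ⊔ (cl {..} ⊓ sᶜ)` with `s := ⨆ c : Bl b, cl {X = e c}`; the second
  part is
  `tau X b`, the first is `≤ s ≤ ⨆ c, tau X c` by induction.
* `tau_ext`: `tau X a ⊓ cl {X = X'} ≤ tau X' a`: `cl {X = e a} ⊓ cl {X = X'} ≤ cl {X' = e a}`, and
  `cl {X = X'} ⊓ cl {X' = e b} ≤ cl {X = e b}`, so
  `(⨆ b, cl {X = e b})ᶜ ⊓ cl {X = X'} ≤ (⨆ b, cl {X' = e b})ᶜ` (Heyting algebra:
  `le_compl_iff_disjoint_right` and
  distributivity). All sets `{ω | X ω = Y ω}` are measurable.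
* `dv_ext`: from `tau_ext` and distributivity (`iSup_inf_eq`).
* `dv_compl`: two elements with supremum `⊤` and infimum `⊥` are complements
  (`eq_compl_iff_isCompl`,
  `IsCompl`): `dv Φ ⊔ dv Φᶜ = ⨆ z, tau X z.1 ⊓ tau Y z.2 = ⊤` (`iSup_prod`, `tau_sup`), and
  `dv Φ ⊓ dv Φᶜ = ⊥` as for `z ≠ z'` `tau X z.1 ⊓ tau X z'.1 = ⊥` or
  `tau Y z.2 ⊓ tau Y z'.2 = ⊥`.
* `dv_iSup`: `inf_iSup_eq`, `iSup_comm`. `dv_rect`: `iSup_prod`, distributivity
  (`iSup_inf_iSup`). `dv_bra`: if `B : Ω → (ℕ → Bool) → (ℕ → Bool) → Prop` and for all `a`, `b`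
  `Φ a b` is the
  class of the null measurable set `{ω | B ω (e a ω) (e b ω)}`: `tau X a ⊓ tau Y b ⊓ Φ a b =
  tau X a ⊓ tau Y b ⊓ cl {ω | B ω (X ω) (Y ω)}` as on `{X = e a} ∩ {Y = e b}` the two sets agree
  (`tau_le`, `cl_inter`, `cl_congr`/`cl_le`); then `tau_sup`. -/

set_option autoImplicit false

namespace RVI

open MeasureTheory STP STP.BSet CPI

variable {K : Type} {Ω : Type} [MeasurableSpace Ω] {μ : Measure Ω} [IsProbabilityMeasure μ]
  {e : K → RB Ω}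

private theorem ms_eq (X Y : RB Ω) : MeasurableSet {ω | X.1 ω = Y.1 ω} := by
  have h1 : {ω | X.1 ω = Y.1 ω} = ⋂ n : ℕ, (fun ω => (X.1 ω n, Y.1 ω n)) ⁻¹'
      {z : Bool × Bool | z.1 = z.2} := by
    ext ω
    rw [Set.mem_iInter]
    exact funext_iff
  rw [h1]
  refine MeasurableSet.iInter fun n => ?_
  have h2 : Measurable fun ω => (X.1 ω n, Y.1 ω n) :=
    ((measurable_pi_apply n).comp X.2).prodMk ((measurable_pi_apply n).comp Y.2)
  exact h2 (Set.toFinite _).measurableSet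

variable (μ) in
/-- the truth value of the equality -/
private noncomputable def ev (X Y : RB Ω) : RO (Ps μ) := cl μ {ω | X.1 ω = Y.1 ω}

omit [IsProbabilityMeasure μ] in
private theorem ev_comm (X Y : RB Ω) : ev μ X Y = ev μ Y X := by
  unfold ev
  congr 1
  ext ω
  exact eq_comm

private theorem ev_trans (X Y Z : RB Ω) : ev μ X Y ⊓ ev μ Y Z ≤ ev μ X Z := by
  unfold ev
  rw [← cl_inter (ms_eq X Y).nullMeasurableSet (ms_eq Y Z).nullMeasurableSet,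
    cl_le ((ms_eq X Y).inter (ms_eq Y Z)).nullMeasurableSet (ms_eq X Z).nullMeasurableSet]
  exact Filter.Eventually.of_forall fun ω h => Eq.trans h.1 h.2

omit [IsProbabilityMeasure μ] in
private theorem tau_def (X : RB Ω) (a : K) :
    tau μ e X a = ev μ X (e a) ⊓ (⨆ b : Bl a, ev μ X (e b.1))ᶜ := rfl

theorem tau_le (X : RB Ω) (a : K) : tau μ e X a ≤ cl μ {ω | X.1 ω = (e a).1 ω} := by
  exact inf_le_left

private theorem tau_disj_aux (X : RB Ω) {a b : K} (h : kc b < kc a) :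
    tau μ e X a ⊓ tau μ e X b = ⊥ := by
  have h1 : tau μ e X a ≤ (ev μ X (e b))ᶜ := by
    rw [tau_def]
    exact inf_le_right.trans (compl_le_compl (le_iSup (fun c : Bl a => ev μ X (e c.1)) ⟨b, h⟩))
  have h2 : tau μ e X b ≤ ev μ X (e b) := tau_le X b
  rw [← le_bot_iff]
  refine (inf_le_inf h1 h2).trans ?_
  rw [compl_inf_self]

theorem tau_disj (X : RB Ω) {a b : K} (h : a ≠ b) : tau μ e X a ⊓ tau μ e X b = ⊥ := by
  have h1 : kc a ≠ kc b := fun h2 => h (kc_inj.1 h2)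
  rcases lt_or_gt_of_ne h1 with h2 | h2
  · rw [inf_comm]
    exact tau_disj_aux X h2
  · exact tau_disj_aux X h2

private theorem tau_sup_aux (X : RB Ω) (b : K) : ev μ X (e b) ≤ ⨆ c, tau μ e X c := by
  induction b using (InvImage.wf (kc : K → Ordinal.{0}) Ordinal.lt_wf).induction with
  | _ b ih =>
    have h1 : ev μ X (e b) = ev μ X (e b) ⊓ (⨆ c : Bl b, ev μ X (e c.1)) ⊔
        ev μ X (e b) ⊓ (⨆ c : Bl b, ev μ X (e c.1))ᶜ := sup_inf_inf_compl.symm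
    rw [h1]
    refine sup_le ?_ ?_
    · exact inf_le_right.trans (iSup_le fun c => ih c.1 c.2)
    · exact le_iSup (fun c => tau μ e X c) b

theorem tau_sup (he : ∀ X : RB Ω, ∃ a, ∀ᵐ ω ∂μ, X.1 ω = (e a).1 ω) (X : RB Ω) :
    ⨆ a, tau μ e X a = ⊤ := by
  obtain ⟨a, ha⟩ := he X
  have h1 : ev μ X (e a) = ⊤ := by
    unfold ev
    rw [← cl_univ (μ := μ)]
    apply cl_congr
    filter_upwards [ha] with ω h2
    exact propext ⟨fun _ => trivial, fun _ => h2⟩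
  rw [← top_le_iff, ← h1]
  exact tau_sup_aux X a

theorem tau_ext (X X' : RB Ω) (a : K) :
    tau μ e X a ⊓ BSet.eq (nb μ X) (nb μ X') ≤ tau μ e X' a := by
  rw [eq_nb]
  change tau μ e X a ⊓ ev μ X X' ≤ tau μ e X' a
  rw [tau_def, tau_def]
  refine le_inf ?_ ?_
  · have h1 := ev_trans (μ := μ) X' X (e a)
    rw [ev_comm X' X] at h1
    refine le_trans ?_ h1
    rw [inf_comm (ev μ X X')]
    exact inf_le_inf inf_le_left le_rfl
  · rw [le_compl_iff_disjoint_right, disjoint_iff_inf_le, inf_iSup_eq]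
    refine iSup_le fun b => ?_
    have h1 : ev μ X X' ⊓ ev μ X' (e b.1) ≤ ⨆ c : Bl a, ev μ X (e c.1) :=
      (ev_trans X X' (e b.1)).trans (le_iSup (fun c : Bl a => ev μ X (e c.1)) b)
    have h2 : ev μ X (e a) ⊓ (⨆ c : Bl a, ev μ X (e c.1))ᶜ ⊓ ev μ X X' ⊓ ev μ X' (e b.1) ≤
        (⨆ c : Bl a, ev μ X (e c.1))ᶜ ⊓ (ev μ X X' ⊓ ev μ X' (e b.1)) := by
      rw [inf_assoc]
      exact inf_le_inf inf_le_right le_rfl
    refine h2.trans ((inf_le_inf le_rfl h1).trans ?_)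
    rw [compl_inf_self]

theorem dv_ext (Φ : K → K → RO (Ps μ)) : Ex2 (nb μ) (nb μ) (dv e Φ) := by
  intro X X' Y Y'
  unfold dv
  rw [iSup_inf_eq, iSup_inf_eq]
  refine iSup_le fun z => le_iSup_of_le z ?_
  refine le_inf (le_inf ?_ ?_) ?_
  · refine le_trans ?_ (tau_ext X X' z.1)
    exact le_inf (inf_le_left.trans (inf_le_left.trans (inf_le_left.trans inf_le_left)))
      (inf_le_left.trans inf_le_right)
  · refine le_trans ?_ (tau_ext Y Y' z.2)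
    exact le_inf (inf_le_left.trans (inf_le_left.trans (inf_le_left.trans inf_le_right)))
      inf_le_right
  · exact inf_le_left.trans (inf_le_left.trans inf_le_right)

private theorem tt_sup (he : ∀ X : RB Ω, ∃ a, ∀ᵐ ω ∂μ, X.1 ω = (e a).1 ω) (X Y : RB Ω) :
    ⨆ z : K × K, tau μ e X z.1 ⊓ tau μ e Y z.2 = ⊤ := by
  rw [← iSup_inf_iSup, tau_sup he, tau_sup he, inf_top_eq]

theorem dv_compl (he : ∀ X : RB Ω, ∃ a, ∀ᵐ ω ∂μ, X.1 ω = (e a).1 ω) (Φ : K → K → RO (Ps μ))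
    (X Y : RB Ω) : dv e (fun a b => (Φ a b)ᶜ) X Y = (dv e Φ X Y)ᶜ := by
  rw [eq_compl_iff_isCompl]
  refine IsCompl.of_eq ?_ ?_
  · rw [← le_bot_iff]
    unfold dv
    rw [iSup_inf_iSup]
    refine iSup_le fun z => ?_
    by_cases h : z.1 = z.2
    · rw [← h]
      refine (inf_le_inf inf_le_right inf_le_right).trans ?_
      rw [compl_inf_self]
    · have h1 : z.1.1 ≠ z.2.1 ∨ z.1.2 ≠ z.2.2 := by
        by_contra h2
        rw [not_or, not_not, not_not] at h2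
        exact h (Prod.ext h2.1 h2.2)
      rcases h1 with h1 | h1
      · rw [← tau_disj (μ := μ) (e := e) X h1]
        exact inf_le_inf (inf_le_left.trans inf_le_left) (inf_le_left.trans inf_le_left)
      · rw [← tau_disj (μ := μ) (e := e) Y h1]
        exact inf_le_inf (inf_le_left.trans inf_le_right) (inf_le_left.trans inf_le_right)
  · unfold dv
    rw [← iSup_sup_eq]
    have h1 : ∀ z : K × K, tau μ e X z.1 ⊓ tau μ e Y z.2 ⊓ (Φ z.1 z.2)ᶜ ⊔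
        tau μ e X z.1 ⊓ tau μ e Y z.2 ⊓ Φ z.1 z.2 = tau μ e X z.1 ⊓ tau μ e Y z.2 := by
      intro z
      rw [sup_comm]
      exact sup_inf_inf_compl
    rw [iSup_congr h1]
    exact tt_sup he X Y

theorem dv_iSup (Φ : ℕ → K → K → RO (Ps μ)) (X Y : RB Ω) :
    dv e (fun a b => ⨆ n, Φ n a b) X Y = ⨆ n, dv e (Φ n) X Y := by
  unfold dv
  rw [iSup_comm]
  refine iSup_congr fun z => ?_
  exact inf_iSup_eq _ _

theorem dv_rect (P Q : K → RO (Ps μ)) (X Y : RB Ω) :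
    dv e (fun a b => P a ⊓ Q b) X Y =
      (⨆ a, tau μ e X a ⊓ P a) ⊓ ⨆ b, tau μ e Y b ⊓ Q b := by
  unfold dv
  rw [iSup_inf_iSup]
  refine iSup_congr fun z => ?_
  exact inf_inf_inf_comm _ _ _ _

theorem dv_bra (he : ∀ X : RB Ω, ∃ a, ∀ᵐ ω ∂μ, X.1 ω = (e a).1 ω)
    (B : Ω → (ℕ → Bool) → (ℕ → Bool) → Prop)
    (hB : ∀ X Y : RB Ω, NullMeasurableSet {ω | B ω (X.1 ω) (Y.1 ω)} μ) (X Y : RB Ω) :
    dv e (fun a b => cl μ {ω | B ω ((e a).1 ω) ((e b).1 ω)}) X Y =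
      cl μ {ω | B ω (X.1 ω) (Y.1 ω)} := by
  have key : ∀ z : K × K, tau μ e X z.1 ⊓ tau μ e Y z.2 ⊓
      cl μ {ω | B ω ((e z.1).1 ω) ((e z.2).1 ω)} =
      tau μ e X z.1 ⊓ tau μ e Y z.2 ⊓ cl μ {ω | B ω (X.1 ω) (Y.1 ω)} := by
    intro z
    have h1 : tau μ e X z.1 ⊓ tau μ e Y z.2 ≤ ev μ X (e z.1) ⊓ ev μ Y (e z.2) :=
      inf_le_inf (tau_le X z.1) (tau_le Y z.2)
    have h2 : ev μ X (e z.1) ⊓ ev μ Y (e z.2) ⊓ cl μ {ω | B ω ((e z.1).1 ω) ((e z.2).1 ω)} =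
        ev μ X (e z.1) ⊓ ev μ Y (e z.2) ⊓ cl μ {ω | B ω (X.1 ω) (Y.1 ω)} := by
      have h3 : MeasurableSet ({ω | X.1 ω = (e z.1).1 ω} ∩ {ω | Y.1 ω = (e z.2).1 ω}) :=
        (ms_eq X (e z.1)).inter (ms_eq Y (e z.2))
      have h4 : ev μ X (e z.1) ⊓ ev μ Y (e z.2) =
          cl μ ({ω | X.1 ω = (e z.1).1 ω} ∩ {ω | Y.1 ω = (e z.2).1 ω}) :=
        (cl_inter (ms_eq X (e z.1)).nullMeasurableSet (ms_eq Y (e z.2)).nullMeasurableSet).symm
      rw [h4, ← cl_inter h3.nullMeasurableSet (hB (e z.1) (e z.2)),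
        ← cl_inter h3.nullMeasurableSet (hB X Y)]
      congr 1
      ext ω
      constructor
      · rintro ⟨⟨e1, e2⟩, h5⟩
        refine ⟨⟨e1, e2⟩, ?_⟩
        change X.1 ω = (e z.1).1 ω at e1
        change Y.1 ω = (e z.2).1 ω at e2
        change B ω (X.1 ω) (Y.1 ω)
        rw [e1, e2]
        exact h5
      · rintro ⟨⟨e1, e2⟩, h5⟩
        refine ⟨⟨e1, e2⟩, ?_⟩
        change X.1 ω = (e z.1).1 ω at e1
        change Y.1 ω = (e z.2).1 ω at e2
        change B ω (X.1 ω) (Y.1 ω) at h5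
        rw [e1, e2] at h5
        exact h5
    have h5 := inf_eq_left.2 h1
    rw [← h5, inf_assoc, h2, ← inf_assoc]
  unfold dv
  rw [iSup_congr key, ← iSup_inf_eq, tt_sup he, top_inf_eq]

end RVI
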