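import Pool.Agent.RVI.Fa0

/-! # The family of relations: mixing, rectangles, complements (package FaA)

(problem MP_75f27a_lc, project RVI)

* `dn_val`: `rt_val δ.2.1`. `dn_rel`: `rt_pair`.
* `rel_eq`: a relation `D` with `IsRel` whose values at all `nb X`, `nb Y` are given by `δ` is
  `dn δ`:
  `val_ext (NG_zfc G)`: if `Val D x y` then `x, y ∈ CN` by `IsRel` and `IsOP.inj`, so `x = nb X`,
  `y = nb Y`
  (`Full.rep full_nb`); the same for `dn δ` by `rt_val_mem`.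
* `full_dn`: `full_of_mix` (`Dl μ` is nonempty: `δ := ⊥`, with `GM.const`). For disjoint
  measurable `S n` and
  `δ n : Dl μ` let `δ X Y := ⨆ n, cl (S n) ⊓ (δ n) X Y`. `Ex2`: distributivity (`iSup_inf_eq`) and
  `Ex2` of
  the `δ n`. `GM`: `GM.iSup`, `GM.inf`, `GM.const`. `cl (S n) ≤ eq (dn (δ n)) (dn δ)`: `rt_eq_le`:
  `cl (S n) ⊓ (δ n) X Y ≤ δ X Y` is clear, and
  `cl (S n) ⊓ δ X Y = ⨆ k, cl (S n) ⊓ cl (S k) ⊓ (δ k) X Y`, where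
  the terms with `k ≠ n` are `⊥` (`cl_inter`, `cl_empty`).
* `sg_rect`: `A = NG.mk G a`, by `sub_rep` `A = st (nb μ) α` with `α X := mem (nb μ X) a`, `B`
  similarly with `β`
  (`ex1_mem`). Let `δ X Y := α X ⊓ β Y`: `Ex2` from `Ex1` of `α` and `β`; `GM.rect` with
  `x ↦ α (cb x)`. `D = dn δ` by `rel_eq` (`st_mem`, `inf_mem`), and `dn δ ∈ FN` by `al_mem`.
* `sg_compl`: `D = dn δ` (`Full.rep full_dn`), `D' = dn δ'` with `δ' X Y := (δ X Y)ᶜ` by `rel_eq`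
  (`compl_mem`, `dn_val`, `al_mem`). `Ex2` for `δ'`: `(δ X Y)ᶜ ⊓ e ⊓ e' ≤ (δ X' Y')ᶜ` as
  `δ X' Y' ⊓ e ⊓ e' ≤ δ X Y` (`eq_symm`). `GM.compl`. -/

set_option autoImplicit false

namespace RVI

open MeasureTheory STP STP.BSet CPI

variable {Ω : Type} [MeasurableSpace Ω] {μ : Measure Ω} [IsProbabilityMeasure μ]

theorem dn_val (G : Ult (RO (Ps μ))) (δ : Dl μ) (X Y : RB Ω) :
    Val (EG G) (NG.mk G (dn δ)) (NG.mk G (nb μ X)) (NG.mk G (nb μ Y)) ↔ δ.1 X Y ∈ G.s :=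
  rt_val δ.2.1 G X Y

theorem dn_rel (G : Ult (RO (Ps μ))) (δ : Dl μ) :
    IsRel (EG G) (NG.mk G (CN μ)) (NG.mk G (dn δ)) := fun p hp =>
  rt_pair (nb μ) (nb μ) δ.1 G p hp

theorem rel_eq (G : Ult (RO (Ps μ))) {D : NG G} (hD : IsRel (EG G) (NG.mk G (CN μ)) D)
    {δ : RB Ω → RB Ω → RO (Ps μ)} (hδ : Ex2 (nb μ) (nb μ) δ)
    (h : ∀ X Y : RB Ω, Val (EG G) D (NG.mk G (nb μ X)) (NG.mk G (nb μ Y)) ↔ δ X Y ∈ G.s) :
    D = NG.mk G (rt (nb μ) (nb μ) δ) := by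
  refine val_ext (NG_zfc G) (fun p hp => ?_) (fun p hp => ?_) fun x y => ⟨fun h1 => ?_,
    fun h1 => ?_⟩
  · obtain ⟨x, y, -, -, h1⟩ := hD p hp
    exact ⟨x, y, h1⟩
  · obtain ⟨x, y, -, -, h1⟩ := rt_pair (nb μ) (nb μ) δ G p hp
    exact ⟨x, y, h1⟩
  · have h2 := h1
    obtain ⟨p, hp, hop⟩ := h2
    obtain ⟨x', y', hx, hy, hop'⟩ := hD p hp
    obtain ⟨e1, e2⟩ := IsOP.inj (NG_zfc G) hop hop'
    rw [← e1] at hx
    rw [← e2] at hy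
    obtain ⟨X, rfl⟩ := Full.rep full_nb G x hx
    obtain ⟨Y, rfl⟩ := Full.rep full_nb G y hy
    exact (rt_val hδ G X Y).2 ((h X Y).1 h1)
  · obtain ⟨hx, hy⟩ := rt_val_mem h1
    obtain ⟨X, rfl⟩ := Full.rep full_nb G x hx
    obtain ⟨Y, rfl⟩ := Full.rep full_nb G y hy
    exact (h X Y).2 ((rt_val hδ G X Y).1 h1)

theorem full_dn : Full (dn (μ := μ)) := by
  have hne : Nonempty (Dl μ) := by
    refine ⟨⟨fun _ _ => ⊥, fun X X' Y Y' => ?_, GM.const ⊥⟩⟩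
    exact inf_le_left.trans inf_le_left
  refine full_of_mix _ fun S a hS hd => ?_
  have hEx : Ex2 (nb μ) (nb μ) fun X Y => ⨆ n, cl μ (S n) ⊓ (a n).1 X Y := by
    intro X X' Y Y'
    simp only
    rw [iSup_inf_eq, iSup_inf_eq]
    refine iSup_le fun n => le_iSup_of_le n (le_inf ?_ ?_)
    · exact inf_le_left.trans (inf_le_left.trans inf_le_left)
    · exact (inf_le_inf (inf_le_inf inf_le_right le_rfl) le_rfl).trans ((a n).2.1 X X' Y Y')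
  have hGM : GM μ fun x y : ℕ → Bool => ⨆ n, cl μ (S n) ⊓ (a n).1 (cb x) (cb y) :=
    GM.iSup fun n => (GM.const (cl μ (S n))).inf (a n).2.2
  refine ⟨⟨fun X Y => ⨆ n, cl μ (S n) ⊓ (a n).1 X Y, hEx, hGM⟩, fun n => ?_⟩
  refine rt_eq_le (fun X Y => le_iSup_of_le n le_rfl) fun X Y => ?_
  simp only
  rw [inf_iSup_eq]
  refine iSup_le fun k => ?_
  by_cases hk : k = n
  · subst hk
    exact inf_le_right.trans inf_le_right
  · have h1 : S n ∩ S k = ∅ := Set.disjoint_iff_inter_eq_empty.1 (hd fun e => hk e.symm)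
    rw [← inf_assoc, ← cl_inter (hS n).nullMeasurableSet (hS k).nullMeasurableSet, h1, cl_empty,
      bot_inf_eq]
    exact bot_le

theorem sg_rect (G : Ult (RO (Ps μ))) (A B D : NG G) (hA : Sub (EG G) A (NG.mk G (CN μ)))
    (hB : Sub (EG G) B (NG.mk G (CN μ))) (hD : IsRel (EG G) (NG.mk G (CN μ)) D)
    (h : ∀ x y, Val (EG G) D x y ↔ EG G x A ∧ EG G y B) : EG G D (NG.mk G (FN μ)) := by
  obtain ⟨a, rfl⟩ := NG.exists_rep A
  obtain ⟨b, rfl⟩ := NG.exists_rep B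
  have hEx : Ex2 (nb μ) (nb μ) fun X Y => BSet.mem (nb μ X) a ⊓ BSet.mem (nb μ Y) b := by
    intro X X' Y Y'
    refine le_inf (le_trans ?_ (ex1_mem (nb μ) a X X')) (le_trans ?_ (ex1_mem (nb μ) b Y Y'))
    · exact inf_le_left.trans (inf_le_inf inf_le_left le_rfl)
    · exact inf_le_inf (inf_le_left.trans inf_le_right) le_rfl
  have hGM : GM μ fun x y : ℕ → Bool =>
      BSet.mem (nb μ (cb x)) a ⊓ BSet.mem (nb μ (cb y)) b :=
    GM.rect (fun x : ℕ → Bool => BSet.mem (nb μ (cb x)) a)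
      fun y : ℕ → Bool => BSet.mem (nb μ (cb y)) b
  rw [rel_eq G hD hEx fun X Y => (h _ _).trans (by rw [inf_mem, EG_mk, EG_mk])]
  exact al_mem (dn (μ := μ)) G ⟨_, hEx, hGM⟩

theorem sg_compl (G : Ult (RO (Ps μ))) (D D' : NG G) (hD : EG G D (NG.mk G (FN μ)))
    (hR : IsRel (EG G) (NG.mk G (CN μ)) D) (hR' : IsRel (EG G) (NG.mk G (CN μ)) D')
    (h : ∀ x y, EG G x (NG.mk G (CN μ)) → EG G y (NG.mk G (CN μ)) →
      (Val (EG G) D' x y ↔ ¬ Val (EG G) D x y)) : EG G D' (NG.mk G (FN μ)) := by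
  obtain ⟨δ, rfl⟩ := Full.rep full_dn G D hD
  have hEx : Ex2 (nb μ) (nb μ) fun X Y => (δ.1 X Y)ᶜ := by
    intro X X' Y Y'
    refine Ult.mem_of_all fun G hG => ?_
    obtain ⟨h12, h3⟩ := inf_mem.1 hG
    obtain ⟨h1, h2⟩ := inf_mem.1 h12
    rw [compl_mem] at h1 ⊢
    intro h4
    refine h1 (G.up ?_ (δ.2.1 X' X Y' Y))
    rw [BSet.eq_symm (nb μ X') (nb μ X), BSet.eq_symm (nb μ Y') (nb μ Y)]
    exact inf_mem.2 ⟨inf_mem.2 ⟨h4, h2⟩, h3⟩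
  have hGM : GM μ fun x y : ℕ → Bool => (δ.1 (cb x) (cb y))ᶜ := GM.compl δ.2.2
  rw [rel_eq G hR' hEx fun X Y =>
    (h _ _ (al_mem (nb μ) G X) (al_mem (nb μ) G Y)).trans (by rw [dn_val, compl_mem])]
  exact al_mem (dn (μ := μ)) G ⟨_, hEx, hGM⟩

end RVI
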