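import Pool.Agent.RVI.DaA
import Pool.Agent.RVI.FaA

/-! # The relations `DN e Φ` are in the sigma-algebra of the model (package DB)

(problem MP_75f27a_lc, project RVI)

`dn_rel'`: `rt_pair`. `dn_val'`: `rt_val (dv_ext Φ)`.
`dn_sg`: let `E` be a set in `GS K K Ω` with `Φ a b = cl E_ab`. Claim, by
`MeasurableSpace.generateFrom_induction` over the set `E` (the statement is about all `G'`, as the
names
are the same for all quotients): for all `Φ` with `Φ a b = cl {ω | (a, b, ω) ∈ E}` and all `G'` with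
`IsSg (EG G') oN CN f`: `DN e Φ ∈ f` in `NG G'`.
* generator: `Φ a b = cl (A a) ⊓ cl (B b)`. Let `A'` be the set
  `st (nb μ) (fun X => ⨆ a, tau X a ⊓ cl (A a))` and
  `B'` similarly (`Ex1`: `tau_ext` and distributivity). They are subsets of `CN` (elements:
  `st_all`, `al_mem`).
  By the first clause of `IsSg` it is enough that `Val (DN e Φ) x y ↔ x ∈ A' ∧ y ∈ B'`: for
  `x = nb X`, `y = nb Y` (`Full.rep full_nb`; both sides imply `x, y ∈ CN`) this is `dv_rect`,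
  `st_mem`,
  `inf_mem`.
* empty set: `Φ = ⊥`: it is a generator (`A a = ∅`).
* complement: `Φ a b = (cl E_ab)ᶜ` (`gs_section`, `cl_compl`): second clause of `IsSg` with
  `D := DN e (fun a b => cl E_ab)`; `dv_compl`, `compl_mem`.
* union: `Φ a b = ⨆ n, cl (E n)_ab` (`cl_iUnion`). Let `Φn a b := cl (E n)_ab` and
  `S := NG.mk G' (gr nn (fun n => DN e (Φn n)) id)`: a function with the domain `oN` (`gr_fun`, by
  `nn_dsc`), with the
  values `Val S (nn n) y ↔ y = DN e (Φn n)` (`gr_val`). The hypotheses `IsTo S f` and `IsRel D'`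
  for all
  values `D'`: the statement
  `IsSg (EG G) oN CN f → ∀ y, Val (EG G) S n y → EG G y f ∧ IsRel (EG G) CN y` for all `n ∈ oN`, all
  quotients: `st_all` over `nn` (at `nn n` the induction hypothesis and `dn_rel'`). Third clause:
  `Val (DN e Φ) x y ↔ ∃ n D', Val S n D' ∧ Val D' x y`: for `x = nb X`, `y = nb Y` the right side is
  `∃ n ∈ oN, ∃ D', ..`, which has by `st_bex` over `nn` the truth value `⨆ n, ⊤ ⊓ dv e (Φn n) X Y`
  (at `nn n`: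
  `gr_val`, `dn_val'`), and this is `dv e Φ X Y` (`dv_iSup`). -/

set_option autoImplicit false

namespace RVI

open MeasureTheory STP STP.BSet CPI

variable {K : Type} {Ω : Type} [MeasurableSpace Ω] {μ : Measure Ω} [IsProbabilityMeasure μ]
  {e : K → RB Ω}

theorem dn_rel' (G : Ult (RO (Ps μ))) (Φ : K → K → RO (Ps μ)) :
    IsRel (EG G) (NG.mk G (CN μ)) (NG.mk G (DN e Φ)) :=
  fun p hp => rt_pair (nb μ) (nb μ) (dv e Φ) G p hp

theorem dn_val' (G : Ult (RO (Ps μ))) (Φ : K → K → RO (Ps μ)) (X Y : RB Ω) :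
    Val (EG G) (NG.mk G (DN e Φ)) (NG.mk G (nb μ X)) (NG.mk G (nb μ Y)) ↔
      dv e Φ X Y ∈ G.s := rt_val (dv_ext Φ) G X Y

private theorem dn_mem {G : Ult (RO (Ps μ))} {Φ : K → K → RO (Ps μ)} {x y : NG G}
    (h : Val (EG G) (NG.mk G (DN e Φ)) x y) :
    (∃ X, x = NG.mk G (nb μ X)) ∧ ∃ Y, y = NG.mk G (nb μ Y) := by
  obtain ⟨hx, hy⟩ := rt_val_mem h
  exact ⟨full_nb.rep G x hx, full_nb.rep G y hy⟩

private theorem sb_mem (G : Ult (RO (Ps μ))) (α : RB Ω → RO (Ps μ)) :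
    Sub (EG G) (NG.mk G (st (nb μ) α)) (NG.mk G (CN μ)) := fun z hz =>
  st_all (nb μ) α (fun G z => EG G z (NG.mk G (CN μ))) (fun a G _ => al_mem (nb μ) G a) G z hz

private theorem ex1_tau (P : K → RO (Ps μ)) :
    Ex1 (nb μ) fun X => ⨆ a, tau μ e X a ⊓ P a := by
  intro X X'
  rw [iSup_inf_eq]
  refine iSup_le fun a => le_iSup_of_le a (le_inf ?_ (inf_le_left.trans inf_le_right))
  exact (le_inf (inf_le_left.trans inf_le_left) inf_le_right).trans (tau_ext X X' a)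

private theorem dn_sg_rect (f : BSet (RO (Ps μ))) {Φ : K → K → RO (Ps μ)} (P Q : K → RO (Ps μ))
    (hΦ : ∀ a b, Φ a b = P a ⊓ Q b) (G : Ult (RO (Ps μ)))
    (hG : IsSg (EG G) (NG.mk G oN) (NG.mk G (CN μ)) (NG.mk G f)) :
    EG G (NG.mk G (DN e Φ)) (NG.mk G f) := by
  have h0 : Φ = fun a b => P a ⊓ Q b := funext fun a => funext fun b => hΦ a b
  refine hG.1 (NG.mk G (st (nb μ) fun X => ⨆ a, tau μ e X a ⊓ P a))
    (NG.mk G (st (nb μ) fun X => ⨆ a, tau μ e X a ⊓ Q a)) _ (sb_mem G _) (sb_mem G _)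
    (dn_rel' G Φ) fun x y => ⟨fun h => ?_, fun h => ?_⟩
  · obtain ⟨⟨X, rfl⟩, Y, rfl⟩ := dn_mem h
    rw [dn_val', h0, dv_rect, inf_mem] at h
    exact ⟨(st_mem (ex1_tau P) G X).2 h.1, (st_mem (ex1_tau Q) G Y).2 h.2⟩
  · obtain ⟨X, rfl⟩ := full_nb.rep G x (sb_mem G _ x h.1)
    obtain ⟨Y, rfl⟩ := full_nb.rep G y (sb_mem G _ y h.2)
    rw [dn_val', h0, dv_rect, inf_mem]
    exact ⟨(st_mem (ex1_tau P) G X).1 h.1, (st_mem (ex1_tau Q) G Y).1 h.2⟩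

/-- the name of the sequence of relations -/
private noncomputable def sq (e : K → RB Ω) (Ψ : ℕ → K → K → RO (Ps μ)) : BSet (RO (Ps μ)) :=
  gr nn (fun n => DN e (Ψ n)) fun n : ℕ => n

private theorem sq_ext (e : K → RB Ω) (Ψ : ℕ → K → K → RO (Ps μ)) (n n' : ℕ) :
    BSet.eq (nn (P := Ps μ) n) (nn n') ≤ BSet.eq (DN e (Ψ n)) (DN e (Ψ n')) := by
  by_cases h : n = n'
  · subst h
    rw [BSet.eq_refl, BSet.eq_refl]
  · rw [nn_dsc _ _ h]
    exact bot_le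

private theorem sq_val (e : K → RB Ω) (Ψ : ℕ → K → K → RO (Ps μ)) (G : Ult (RO (Ps μ))) (n : ℕ)
    (y : NG G) : Val (EG G) (NG.mk G (sq e Ψ)) (NG.mk G (nn n)) y ↔ y = NG.mk G (DN e (Ψ n)) :=
  gr_val (nc := fun n => DN e (Ψ n)) (f := fun n : ℕ => n) (sq_ext e Ψ) G n y

private theorem sq_fun (e : K → RB Ω) (Ψ : ℕ → K → K → RO (Ps μ)) (G : Ult (RO (Ps μ))) :
    IsFun (EG G) (NG.mk G (sq e Ψ)) (NG.mk G oN) :=
  gr_fun (nc := fun n => DN e (Ψ n)) (f := fun n : ℕ => n) (sq_ext e Ψ) G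

private theorem sq_dom {e : K → RB Ω} {Ψ : ℕ → K → K → RO (Ps μ)} {G : Ult (RO (Ps μ))}
    {x y : NG G} (h : Val (EG G) (NG.mk G (sq e Ψ)) x y) : EG G x (NG.mk G oN) := by
  obtain ⟨p, hp, h1⟩ := h
  obtain ⟨x', y', hx', h2⟩ := (sq_fun e Ψ G).1 p hp
  rw [(IsOP.inj (NG_zfc G) h1 h2).1]
  exact hx'

theorem dn_sg (he : ∀ X : RB Ω, ∃ a, ∀ᵐ ω ∂μ, X.1 ω = (e a).1 ω) (f : BSet (RO (Ps μ)))
    {Φ : K → K → RO (Ps μ)} (hΦ : GM μ Φ) (G : Ult (RO (Ps μ)))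
    (hG : IsSg (EG G) (NG.mk G oN) (NG.mk G (CN μ)) (NG.mk G f)) :
    EG G (NG.mk G (DN e Φ)) (NG.mk G f) := by
  obtain ⟨E0, hE0, hΦ⟩ := hΦ
  refine MeasurableSpace.generateFrom_induction (GR K K Ω)
    (fun E _ => ∀ Φ : K → K → RO (Ps μ), (∀ a b, Φ a b = cl μ {ω | (a, b, ω) ∈ E}) →
      ∀ G : Ult (RO (Ps μ)), IsSg (EG G) (NG.mk G oN) (NG.mk G (CN μ)) (NG.mk G f) →
        EG G (NG.mk G (DN e Φ)) (NG.mk G f)) ?_ ?_ ?_ ?_ E0 hE0 Φ hΦ G hG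
  · rintro _ ⟨A, B, hA, hB, rfl⟩ _ Φ hΦ G hG
    refine dn_sg_rect f (fun a => cl μ (A a)) (fun b => cl μ (B b)) (fun a b => ?_) G hG
    rw [hΦ, ← cl_inter (hA a).nullMeasurableSet (hB b).nullMeasurableSet]
    rfl
  · intro Φ hΦ G hG
    refine dn_sg_rect f (fun a => ⊥) (fun b => ⊥) (fun a b => ?_) G hG
    rw [hΦ, inf_idem, ← cl_empty]
    rfl
  · intro E hE ih Φ hΦ G hG
    have h0 : Φ = fun a b => (cl μ {ω | (a, b, ω) ∈ E})ᶜ := by
      funext a b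
      rw [hΦ, ← cl_compl (gs_section hE a b).nullMeasurableSet]
      rfl
    refine hG.2.1 (NG.mk G (DN e fun a b => cl μ {ω | (a, b, ω) ∈ E})) _
      (ih _ (fun _ _ => rfl) G hG) (dn_rel' G _) (dn_rel' G _) fun x y hx hy => ?_
    obtain ⟨X, rfl⟩ := full_nb.rep G x hx
    obtain ⟨Y, rfl⟩ := full_nb.rep G y hy
    rw [dn_val', dn_val', h0, dv_compl he, compl_mem]
  · intro E hE ih Φ hΦ G hG
    obtain ⟨Ψ, hΨ⟩ : ∃ Ψ : ℕ → K → K → RO (Ps μ), Ψ =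
      fun n a b => cl μ {ω | (a, b, ω) ∈ E n} := ⟨_, rfl⟩
    have h0 : Φ = fun a b => ⨆ n, Ψ n a b := by
      funext a b
      rw [hΦ, hΨ, ← cl_iUnion fun n => (gs_section (hE n) a b).nullMeasurableSet]
      congr 1
      ext ω
      simp
    have ih' : ∀ n, ∀ G : Ult (RO (Ps μ)),
        IsSg (EG G) (NG.mk G oN) (NG.mk G (CN μ)) (NG.mk G f) →
        EG G (NG.mk G (DN e (Ψ n))) (NG.mk G f) := fun n G hG =>
      ih n (Ψ n) (fun a b => by rw [hΨ]) G hG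
    have h1 : ∀ x y, Val (EG G) (NG.mk G (sq e Ψ)) x y →
        EG G y (NG.mk G f) ∧ IsRel (EG G) (NG.mk G (CN μ)) y := by
      intro x y hxy
      exact st_all nn (fun _ => ⊤) (fun G x =>
        IsSg (EG G) (NG.mk G oN) (NG.mk G (CN μ)) (NG.mk G f) →
          ∀ y, Val (EG G) (NG.mk G (sq e Ψ)) x y →
            EG G y (NG.mk G f) ∧ IsRel (EG G) (NG.mk G (CN μ)) y)
        (fun n G _ hG y hy => by
          rw [sq_val] at hy
          rw [hy]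
          exact ⟨ih' n G hG, dn_rel' G _⟩) G x (sq_dom hxy) hG y hxy
    have h2 : ∀ X Y : RB Ω, (∃ z, EG G z (NG.mk G oN) ∧ ∃ D', Val (EG G) (NG.mk G (sq e Ψ)) z D' ∧
        Val (EG G) D' (NG.mk G (nb μ X)) (NG.mk G (nb μ Y))) ↔ dv e Φ X Y ∈ G.s := by
      intro X Y
      have h3 := st_bex nn (fun _ => ⊤) (fun G z => ∃ D', Val (EG G) (NG.mk G (sq e Ψ)) z D' ∧
        Val (EG G) D' (NG.mk G (nb μ X)) (NG.mk G (nb μ Y))) (fun n => dv e (Ψ n) X Y)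
        (fun n G => by
          simp only [sq_val, exists_eq_left]
          exact dn_val' G (Ψ n) X Y) G
      rw [h0, dv_iSup]
      simp only [top_inf_eq] at h3
      exact h3
    refine hG.2.2 (NG.mk G (sq e Ψ)) _ (sq_fun e Ψ G) (fun x y h => (h1 x y h).1)
      (fun n D' h => (h1 n D' h).2) (dn_rel' G _) fun x y => ⟨fun h => ?_, ?_⟩
    · obtain ⟨⟨X, rfl⟩, Y, rfl⟩ := dn_mem h
      obtain ⟨z, -, D', h3, h4⟩ := (h2 X Y).2 ((dn_val' G Φ X Y).1 h)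
      exact ⟨z, D', h3, h4⟩
    · rintro ⟨n, D', h3, h4⟩
      obtain ⟨p, hp, h5⟩ := h4
      obtain ⟨x', y', hx', hy', h6⟩ := (h1 n D' h3).2 p hp
      obtain ⟨rfl, rfl⟩ := IsOP.inj (NG_zfc G) h5 h6
      obtain ⟨X, rfl⟩ := full_nb.rep G _ hx'
      obtain ⟨Y, rfl⟩ := full_nb.rep G _ hy'
      exact (dn_val' G Φ X Y).2 ((h2 X Y).1 ⟨n, sq_dom h3, D', h3, ⟨p, hp, h5⟩⟩)

end RVI
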