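import Pool.Agent.RVI.TrA

/-! # Nodes of random trees (package TC)

(problem MP_75f27a_lc, project RVI)

* `meas_pre`: `{ω | pre m (X ω) = l}` is measurable: a finite intersection of sets
  `{ω | X ω n = a}` (`pre m x = l ↔ l.length = m ∧ ∀ n < m, l[n]? = some (x n)`), or:
  `ω ↦ pre m (X ω)` is
  measurable for the sigma-algebra of all sets of lists (countable type).
* `meas_node2`: `{ω | (pre m (X ω), pre m (Y ω), pre m (g ω)) ∈ TT2 μ T ω}` is the countable union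
  over
  `d` of the sets
  `{ω | pre .. = d.1} ∩ {ω | pre .. = d.2.1} ∩ {ω | pre .. = d.2.2} ∩ rp (mem (n2 d) T)`.
* `node2`: by `int_iff`, `rs_iff`, `isOP_iff` the left side is
  `mem N T ∈ G.s` with `N := opN (cutb m X) (opN (cutb m Y) (cutf m g))` (`EG_mk`). Claim:
  `mem N T = cl {ω | (pre m (X ω), pre m (Y ω), pre m (g ω)) ∈ TT2 μ T ω}`. For every
  `d = (s, t, u)`
  with `s`, `t`, `u` of length `m` let `D d` be the measurable set of the `ω` with
  `(pre m (X ω), pre m (Y ω), pre m (g ω)) = d`. By `cutb_lb`, `cutf_lf`, `eq_opN_val`: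
  `cl (D d) ≤ eq N (n2 d)`, so `cl (D d) ⊓ mem N T = cl (D d) ⊓ mem (n2 d) T` (`mem_congr_left`)
  `= cl (D d ∩ rp (mem (n2 d) T))`, which is `cl (D d) ⊓` (right side) as on `D d` the condition
  of the
  right side is `ω ∈ rp (mem (n2 d) T)`. The `D d` cover `Ω`, so `⨆ d, cl (D d) = ⊤`, and two
  elements
  whose meets with all `cl (D d)` agree are equal (`inf_iSup_eq`, `inf_top_eq`).
* `node1`: the same without the first coordinate. -/

set_option autoImplicit false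

namespace RVI

open MeasureTheory STP STP.BSet CPI

section

variable {Ω : Type} [MeasurableSpace Ω] {μ : Measure Ω} [IsProbabilityMeasure μ]

private theorem pre_length {α : Type} (m : ℕ) (x : ℕ → α) : (pre m x).length = m := by
  unfold pre
  rw [List.length_map, List.length_range]

private theorem pre_getElem? {α : Type} {m n : ℕ} (x : ℕ → α) (hn : n < m) :
    (pre m x)[n]? = some (x n) := by
  unfold pre
  rw [List.getElem?_map, List.getElem?_range hn]
  rfl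

private theorem pre_eq {α : Type} {m : ℕ} {x : ℕ → α} {l : List α} (hl : l.length = m) :
    pre m x = l ↔ ∀ n, n < m → l[n]? = some (x n) := by
  constructor
  · rintro rfl n hn
    exact pre_getElem? x hn
  · intro h
    refine List.ext_getElem? fun n => ?_
    rcases Nat.lt_or_ge n m with hn | hn
    · rw [h n hn, pre_getElem? x hn]
    · rw [List.getElem?_eq_none (by rw [pre_length]; exact hn),
        List.getElem?_eq_none (by rw [hl]; exact hn)]

omit [MeasurableSpace Ω] in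
private theorem pre_empty {α : Type} {X : Ω → ℕ → α} {m : ℕ} {l : List α} (hl : l.length ≠ m) :
    {ω | pre m (X ω) = l} = ∅ := by
  refine Set.eq_empty_of_forall_notMem fun ω hω => hl ?_
  have h : pre m (X ω) = l := hω
  rw [← h, pre_length]

theorem meas_pre {α : Type} [Countable α] [MeasurableSpace α] [MeasurableSingletonClass α]
    {X : Ω → ℕ → α} (hX : Measurable X) (m : ℕ) (l : List α) :
    MeasurableSet {ω | pre m (X ω) = l} := by
  by_cases hl : l.length = m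
  · have h1 : {ω | pre m (X ω) = l} = ⋂ n : ℕ, {ω | n < m → l[n]? = some (X ω n)} := by
      ext ω
      rw [Set.mem_iInter]
      exact pre_eq hl
    rw [h1]
    refine MeasurableSet.iInter fun n => ?_
    by_cases hn : n < m
    · have h2 : {ω | n < m → l[n]? = some (X ω n)} =
          (fun ω => X ω n) ⁻¹' {a | l[n]? = some a} := by
        ext ω
        exact ⟨fun h => h hn, fun h _ => h⟩
      rw [h2]
      exact (measurable_pi_iff.1 hX n) (Set.to_countable _).measurableSet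
    · have h2 : {ω | n < m → l[n]? = some (X ω n)} = Set.univ :=
        Set.eq_univ_of_forall fun ω h => absurd h hn
      rw [h2]
      exact MeasurableSet.univ
  · rw [pre_empty hl]
    exact MeasurableSet.empty

private theorem mem_TT2 (T : BSet (RO (Ps μ))) (ω : Ω) (d : List Bool × List Bool × List ℕ) :
    d ∈ TT2 μ T ω ↔ ω ∈ rp (BSet.mem (n2 d) T) := by
  unfold TT2
  rw [Set.mem_ofPred_eq]

private theorem mem_TT1 (T : BSet (RO (Ps μ))) (ω : Ω) (d : List Bool × List ℕ) :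
    d ∈ TT1 μ T ω ↔ ω ∈ rp (BSet.mem (n1 d) T) := by
  unfold TT1
  rw [Set.mem_ofPred_eq]

theorem meas_node2 (T : BSet (RO (Ps μ))) (X Y : RB Ω) (g : RF Ω) (m : ℕ) :
    MeasurableSet {ω | (pre m (X.1 ω), pre m (Y.1 ω), pre m (g.1 ω)) ∈ TT2 μ T ω} := by
  have h1 : {ω | (pre m (X.1 ω), pre m (Y.1 ω), pre m (g.1 ω)) ∈ TT2 μ T ω} =
      ⋃ d : List Bool × List Bool × List ℕ, ({ω | pre m (X.1 ω) = d.1} ∩
        ({ω | pre m (Y.1 ω) = d.2.1} ∩ {ω | pre m (g.1 ω) = d.2.2})) ∩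
          rp (BSet.mem (n2 d) T) := by
    ext ω
    rw [Set.mem_ofPred_eq, Set.mem_iUnion, mem_TT2]
    simp only [Set.mem_inter_iff, Set.mem_ofPred_eq]
    constructor
    · intro h
      exact ⟨(pre m (X.1 ω), pre m (Y.1 ω), pre m (g.1 ω)), ⟨rfl, rfl, rfl⟩, h⟩
    · rintro ⟨⟨d1, d2, d3⟩, ⟨h1, h2, h3⟩, h⟩
      change pre m (X.1 ω) = d1 at h1
      change pre m (Y.1 ω) = d2 at h2
      change pre m (g.1 ω) = d3 at h3
      subst h1
      subst h2
      subst h3
      exact h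
  rw [h1]
  exact MeasurableSet.iUnion fun d => ((meas_pre X.2 m d.1).inter
    ((meas_pre Y.2 m d.2.1).inter (meas_pre g.2 m d.2.2))).inter (rp_meas _)

theorem meas_node1 (T : BSet (RO (Ps μ))) (Y : RB Ω) (g : RF Ω) (m : ℕ) :
    MeasurableSet {ω | (pre m (Y.1 ω), pre m (g.1 ω)) ∈ TT1 μ T ω} := by
  have h1 : {ω | (pre m (Y.1 ω), pre m (g.1 ω)) ∈ TT1 μ T ω} =
      ⋃ d : List Bool × List ℕ, ({ω | pre m (Y.1 ω) = d.1} ∩ {ω | pre m (g.1 ω) = d.2}) ∩
          rp (BSet.mem (n1 d) T) := by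
    ext ω
    rw [Set.mem_ofPred_eq, Set.mem_iUnion, mem_TT1]
    simp only [Set.mem_inter_iff, Set.mem_ofPred_eq]
    constructor
    · intro h
      exact ⟨(pre m (Y.1 ω), pre m (g.1 ω)), ⟨rfl, rfl⟩, h⟩
    · rintro ⟨⟨d2, d3⟩, ⟨h2, h3⟩, h⟩
      change pre m (Y.1 ω) = d2 at h2
      change pre m (g.1 ω) = d3 at h3
      subst h2
      subst h3
      exact h
  rw [h1]
  exact MeasurableSet.iUnion fun d =>
    ((meas_pre Y.2 m d.1).inter (meas_pre g.2 m d.2)).inter (rp_meas _)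

private theorem node_aux {ι : Type} [Countable ι] (N T : BSet (RO (Ps μ)))
    (nd : ι → BSet (RO (Ps μ))) (D : ι → Set Ω) (hD : ∀ d, MeasurableSet (D d))
    (hc : ∀ ω, ∃ d, ω ∈ D d) (he : ∀ d, cl μ (D d) ≤ BSet.eq N (nd d)) (S : Set Ω)
    (hS : MeasurableSet S) (h : ∀ d, ∀ ω ∈ D d, (ω ∈ S ↔ ω ∈ rp (BSet.mem (nd d) T))) :
    BSet.mem N T = cl μ S := by
  have h1 : ∀ d, cl μ (D d) ⊓ BSet.mem N T = cl μ (D d) ⊓ cl μ S := by
    intro d
    have h2 : cl μ (D d) ⊓ BSet.mem N T = cl μ (D d) ⊓ BSet.mem (nd d) T := by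
      refine le_antisymm (le_inf inf_le_left ?_) (le_inf inf_le_left ?_)
      · exact (inf_le_inf_right _ (he d)).trans (mem_congr_left _ _ _)
      · refine (inf_le_inf_right _ (he d)).trans ?_
        rw [BSet.eq_symm]
        exact mem_congr_left _ _ _
    have h3 : cl μ (D d) ⊓ BSet.mem (nd d) T = cl μ (D d ∩ rp (BSet.mem (nd d) T)) := by
      rw [cl_inter (hD d).nullMeasurableSet (rp_meas _).nullMeasurableSet, cl_rp]
    have h4 : D d ∩ rp (BSet.mem (nd d) T) = D d ∩ S := by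
      ext ω
      exact ⟨fun h5 => ⟨h5.1, (h d ω h5.1).2 h5.2⟩, fun h5 => ⟨h5.1, (h d ω h5.1).1 h5.2⟩⟩
    rw [h2, h3, h4, cl_inter (hD d).nullMeasurableSet hS.nullMeasurableSet]
  have h2 : ⨆ d, cl μ (D d) = ⊤ := by
    rw [← cl_iUnion fun d => (hD d).nullMeasurableSet, ← cl_univ (μ := μ)]
    congr 1
    exact Set.eq_univ_of_forall fun ω => Set.mem_iUnion.2 (hc ω)
  rw [← top_inf_eq (BSet.mem N T), ← top_inf_eq (cl μ S), ← h2, iSup_inf_eq, iSup_inf_eq]
  exact iSup_congr h1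

private theorem cutb_lb' (m : ℕ) (X : RB Ω) (l : List Bool) :
    cl μ {ω | pre m (X.1 ω) = l} ≤ BSet.eq (cutb μ m X) (lb l) := by
  by_cases hl : l.length = m
  · exact cutb_lb X hl
  · rw [pre_empty hl, cl_empty]
    exact bot_le

private theorem cutf_lf' (m : ℕ) (g : RF Ω) (l : List ℕ) :
    cl μ {ω | pre m (g.1 ω) = l} ≤ BSet.eq (cutf μ m g) (lf l) := by
  by_cases hl : l.length = m
  · exact cutf_lf g hl
  · rw [pre_empty hl, cl_empty]
    exact bot_le

theorem node2 (G : Ult (RO (Ps μ))) (T : BSet (RO (Ps μ))) (X Y : RB Ω) (g : RF Ω) (m : ℕ) :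
    (∃ x' y' g' q p, IsInt (EG G) x' (NG.mk G (nb μ X)) (NG.mk G (nn m)) ∧
      IsInt (EG G) y' (NG.mk G (nb μ Y)) (NG.mk G (nn m)) ∧
      IsRs (EG G) g' (NG.mk G (nf μ g)) (NG.mk G (nn m)) ∧ IsOP (EG G) q y' g' ∧
      IsOP (EG G) p x' q ∧ EG G p (NG.mk G T)) ↔
    cl μ {ω | (pre m (X.1 ω), pre m (Y.1 ω), pre m (g.1 ω)) ∈ TT2 μ T ω} ∈ G.s := by
  have h1 : BSet.mem (opN (cutb μ m X) (opN (cutb μ m Y) (cutf μ m g))) T =
      cl μ {ω | (pre m (X.1 ω), pre m (Y.1 ω), pre m (g.1 ω)) ∈ TT2 μ T ω} := by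
    refine node_aux _ T n2 (fun d => {ω | pre m (X.1 ω) = d.1} ∩
      ({ω | pre m (Y.1 ω) = d.2.1} ∩ {ω | pre m (g.1 ω) = d.2.2}))
      (fun d => (meas_pre X.2 m d.1).inter ((meas_pre Y.2 m d.2.1).inter
        (meas_pre g.2 m d.2.2)))
      (fun ω => ⟨(pre m (X.1 ω), pre m (Y.1 ω), pre m (g.1 ω)), rfl, rfl, rfl⟩) (fun d => ?_)
      _ (meas_node2 T X Y g m) ?_
    · rw [cl_inter (meas_pre X.2 m d.1).nullMeasurableSet
        ((meas_pre Y.2 m d.2.1).inter (meas_pre g.2 m d.2.2)).nullMeasurableSet,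
        cl_inter (meas_pre Y.2 m d.2.1).nullMeasurableSet
        (meas_pre g.2 m d.2.2).nullMeasurableSet]
      unfold n2
      rw [eq_opN_val, eq_opN_val]
      exact inf_le_inf (cutb_lb' m X d.1) (inf_le_inf (cutb_lb' m Y d.2.1) (cutf_lf' m g d.2.2))
    · rintro ⟨d1, d2, d3⟩ ω ⟨h1, h2, h3⟩
      change pre m (X.1 ω) = d1 at h1
      change pre m (Y.1 ω) = d2 at h2
      change pre m (g.1 ω) = d3 at h3
      subst h1
      subst h2
      subst h3
      rw [Set.mem_ofPred_eq, mem_TT2]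
  rw [← h1, ← EG_mk]
  constructor
  · rintro ⟨x', y', g', q, p, hx, hy, hg, hq, hp, h⟩
    rw [int_iff] at hx hy
    rw [rs_iff] at hg
    subst hx
    subst hy
    subst hg
    rw [isOP_iff] at hq
    subst hq
    rw [isOP_iff] at hp
    subst hp
    exact h
  · intro h
    exact ⟨_, _, _, _, _, (int_iff G X m _).2 rfl, (int_iff G Y m _).2 rfl,
      (rs_iff G g m _).2 rfl, isOP_iff.2 rfl, isOP_iff.2 rfl, h⟩

theorem node1 (G : Ult (RO (Ps μ))) (T : BSet (RO (Ps μ))) (Y : RB Ω) (g : RF Ω) (m : ℕ) :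
    (∃ y' g' p, IsInt (EG G) y' (NG.mk G (nb μ Y)) (NG.mk G (nn m)) ∧
      IsRs (EG G) g' (NG.mk G (nf μ g)) (NG.mk G (nn m)) ∧ IsOP (EG G) p y' g' ∧
      EG G p (NG.mk G T)) ↔
    cl μ {ω | (pre m (Y.1 ω), pre m (g.1 ω)) ∈ TT1 μ T ω} ∈ G.s := by
  have h1 : BSet.mem (opN (cutb μ m Y) (cutf μ m g)) T =
      cl μ {ω | (pre m (Y.1 ω), pre m (g.1 ω)) ∈ TT1 μ T ω} := by
    refine node_aux _ T n1 (fun d => {ω | pre m (Y.1 ω) = d.1} ∩ {ω | pre m (g.1 ω) = d.2})
      (fun d => (meas_pre Y.2 m d.1).inter (meas_pre g.2 m d.2))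
      (fun ω => ⟨(pre m (Y.1 ω), pre m (g.1 ω)), rfl, rfl⟩) (fun d => ?_)
      _ (meas_node1 T Y g m) ?_
    · rw [cl_inter (meas_pre Y.2 m d.1).nullMeasurableSet
        (meas_pre g.2 m d.2).nullMeasurableSet]
      unfold n1
      rw [eq_opN_val]
      exact inf_le_inf (cutb_lb' m Y d.1) (cutf_lf' m g d.2)
    · rintro ⟨d2, d3⟩ ω ⟨h2, h3⟩
      change pre m (Y.1 ω) = d2 at h2
      change pre m (g.1 ω) = d3 at h3
      subst h2
      subst h3
      rw [Set.mem_ofPred_eq, mem_TT1]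
  rw [← h1, ← EG_mk]
  constructor
  · rintro ⟨y', g', p, hy, hg, hp, h⟩
    rw [int_iff] at hy
    rw [rs_iff] at hg
    subst hy
    subst hg
    rw [isOP_iff] at hp
    subst hp
    exact h
  · intro h
    exact ⟨_, _, _, (int_iff G Y m _).2 rfl, (rs_iff G g m _).2 rfl, isOP_iff.2 rfl, h⟩

end

end RVI
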