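import Pool.Agent.RVI.TrB
import Pool.Agent.RVI.TrC
import Pool.Agent.RVI.Sou

/-! # The truth value of the existence of a branch (package TD)

(problem MP_75f27a_lc, project RVI)

* `null_br2`: `souslin` for
  `M s := {ω | (pre s.length (X ω), pre s.length (Y ω), s) ∈ TT2 μ T ω}` (measurable: countable
  union
  over `(a, b)` of `{pre _ (X ω) = a} ∩ {pre _ (Y ω) = b} ∩ rp (mem (n2 (a, b, s)) T)`); the
  length of
  `pre m g` is `m`.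
* `br2_val`: `←`: let `γ` be the measurable map of `souslin`, `g := NG.mk G (nf μ γ)` (`ba_nf`). The
  statement `∀ m ∈ oN, ∃ x' y' g' q p, ..` has by `st_ball` over `nn` and `node2` the truth value
  `⨅ m, (⊤ ⇨ cl {ω | (pre m (X ω), pre m (Y ω), pre m (γ ω)) ∈ TT2 μ T ω})`, which is the class of
  the
  intersection of these sets (`cl_iInter`, `top_himp`), and almost every point of the set of the
  theorem is in the intersection (`cl_mem_of_ae`). `→`: let `g` be as in `Br2`; `g = nf μ γ`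
  (`exists_nf`). The same truth value shows that the class of
  `{ω | ∀ m, (pre m (X ω), pre m (Y ω), pre m (γ ω)) ∈ TT2 μ T ω}` is in `G.s`; this set is
  contained in the
  set of the theorem (`cl_mem_of_ae`).
* `null_br1`, `br1_val`: the same with `node1`. -/

set_option autoImplicit false

namespace RVI

open MeasureTheory STP STP.BSet CPI

section

variable {Ω : Type} [MeasurableSpace Ω] {μ : Measure Ω} [IsProbabilityMeasure μ]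

private theorem length_pre {α : Type} (m : ℕ) (x : ℕ → α) : (pre m x).length = m := by
  simp [pre]

private theorem pre_getD (s : List ℕ) : pre s.length (fun n => s.getD n 0) = s := by
  apply List.ext_getElem
  · exact length_pre _ _
  · intro n h1 h2
    simp only [pre, List.getElem_map, List.getElem_range]
    exact List.getD_eq_getElem _ _ h2

private theorem sous2 (T : BSet (RO (Ps μ))) (X Y : RB Ω) :
    NullMeasurableSet {ω | ∃ g : ℕ → ℕ, ∀ m,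
      (pre m (X.1 ω), pre m (Y.1 ω), pre m g) ∈ TT2 μ T ω} μ ∧
    ∃ γ : RF Ω, ∀ᵐ ω ∂μ, (∃ g : ℕ → ℕ, ∀ m,
      (pre m (X.1 ω), pre m (Y.1 ω), pre m g) ∈ TT2 μ T ω) →
      ∀ m, (pre m (X.1 ω), pre m (Y.1 ω), pre m (γ.1 ω)) ∈ TT2 μ T ω := by
  have hM : ∀ s : List ℕ, MeasurableSet
      {ω | (pre s.length (X.1 ω), pre s.length (Y.1 ω), s) ∈ TT2 μ T ω} := by
    intro s
    have h := meas_node2 T X Y ⟨fun _ n => s.getD n 0, measurable_const⟩ s.length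
    simp only [pre_getD] at h
    exact h
  obtain ⟨h1, γ, hγ, h2⟩ := souslin μ
    (fun s => {ω | (pre s.length (X.1 ω), pre s.length (Y.1 ω), s) ∈ TT2 μ T ω}) hM
  simp only [Set.mem_ofPred_eq, length_pre] at h1 h2
  exact ⟨h1, ⟨γ, hγ⟩, h2⟩

private theorem sous1 (T : BSet (RO (Ps μ))) (Y : RB Ω) :
    NullMeasurableSet {ω | ∃ g : ℕ → ℕ, ∀ m, (pre m (Y.1 ω), pre m g) ∈ TT1 μ T ω} μ ∧
    ∃ γ : RF Ω, ∀ᵐ ω ∂μ, (∃ g : ℕ → ℕ, ∀ m, (pre m (Y.1 ω), pre m g) ∈ TT1 μ T ω) →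
      ∀ m, (pre m (Y.1 ω), pre m (γ.1 ω)) ∈ TT1 μ T ω := by
  have hM : ∀ s : List ℕ, MeasurableSet
      {ω | (pre s.length (Y.1 ω), s) ∈ TT1 μ T ω} := by
    intro s
    have h := meas_node1 T Y ⟨fun _ n => s.getD n 0, measurable_const⟩ s.length
    simp only [pre_getD] at h
    exact h
  obtain ⟨h1, γ, hγ, h2⟩ := souslin μ
    (fun s => {ω | (pre s.length (Y.1 ω), s) ∈ TT1 μ T ω}) hM
  simp only [Set.mem_ofPred_eq, length_pre] at h1 h2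
  exact ⟨h1, ⟨γ, hγ⟩, h2⟩

private theorem tree2 (G : Ult (RO (Ps μ))) (T : BSet (RO (Ps μ))) (X Y : RB Ω) (γ : RF Ω) :
    (∀ m, EG G m (NG.mk G oN) → ∃ x' y' g' q p, IsInt (EG G) x' (NG.mk G (nb μ X)) m ∧
      IsInt (EG G) y' (NG.mk G (nb μ Y)) m ∧ IsRs (EG G) g' (NG.mk G (nf μ γ)) m ∧
      IsOP (EG G) q y' g' ∧ IsOP (EG G) p x' q ∧ EG G p (NG.mk G T)) ↔
    cl μ {ω | ∀ m, (pre m (X.1 ω), pre m (Y.1 ω), pre m (γ.1 ω)) ∈ TT2 μ T ω} ∈ G.s := by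
  have h := st_ball nn (fun _ => ⊤) (fun G m => ∃ x' y' g' q p,
      IsInt (EG G) x' (NG.mk G (nb μ X)) m ∧
      IsInt (EG G) y' (NG.mk G (nb μ Y)) m ∧ IsRs (EG G) g' (NG.mk G (nf μ γ)) m ∧
      IsOP (EG G) q y' g' ∧ IsOP (EG G) p x' q ∧ EG G p (NG.mk G T))
    (fun m => cl μ {ω | (pre m (X.1 ω), pre m (Y.1 ω), pre m (γ.1 ω)) ∈ TT2 μ T ω})
    (fun m G => node2 G T X Y γ m) G
  simp only [top_himp] at h
  rw [← cl_iInter fun m => (meas_node2 T X Y γ m).nullMeasurableSet] at h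
  rw [show {ω | ∀ m, (pre m (X.1 ω), pre m (Y.1 ω), pre m (γ.1 ω)) ∈ TT2 μ T ω} =
    ⋂ m, {ω | (pre m (X.1 ω), pre m (Y.1 ω), pre m (γ.1 ω)) ∈ TT2 μ T ω} by
      ext ω; simp]
  exact h

private theorem tree1 (G : Ult (RO (Ps μ))) (T : BSet (RO (Ps μ))) (Y : RB Ω) (γ : RF Ω) :
    (∀ m, EG G m (NG.mk G oN) → ∃ y' g' p, IsInt (EG G) y' (NG.mk G (nb μ Y)) m ∧
      IsRs (EG G) g' (NG.mk G (nf μ γ)) m ∧
      IsOP (EG G) p y' g' ∧ EG G p (NG.mk G T)) ↔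
    cl μ {ω | ∀ m, (pre m (Y.1 ω), pre m (γ.1 ω)) ∈ TT1 μ T ω} ∈ G.s := by
  have h := st_ball nn (fun _ => ⊤) (fun G m => ∃ y' g' p,
      IsInt (EG G) y' (NG.mk G (nb μ Y)) m ∧ IsRs (EG G) g' (NG.mk G (nf μ γ)) m ∧
      IsOP (EG G) p y' g' ∧ EG G p (NG.mk G T))
    (fun m => cl μ {ω | (pre m (Y.1 ω), pre m (γ.1 ω)) ∈ TT1 μ T ω})
    (fun m G => node1 G T Y γ m) G
  simp only [top_himp] at h
  rw [← cl_iInter fun m => (meas_node1 T Y γ m).nullMeasurableSet] at h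
  rw [show {ω | ∀ m, (pre m (Y.1 ω), pre m (γ.1 ω)) ∈ TT1 μ T ω} =
    ⋂ m, {ω | (pre m (Y.1 ω), pre m (γ.1 ω)) ∈ TT1 μ T ω} by
      ext ω; simp]
  exact h

private theorem null_tree2 (T : BSet (RO (Ps μ))) (X Y : RB Ω) (γ : RF Ω) : NullMeasurableSet
    {ω | ∀ m, (pre m (X.1 ω), pre m (Y.1 ω), pre m (γ.1 ω)) ∈ TT2 μ T ω} μ := by
  rw [show {ω | ∀ m, (pre m (X.1 ω), pre m (Y.1 ω), pre m (γ.1 ω)) ∈ TT2 μ T ω} =
    ⋂ m, {ω | (pre m (X.1 ω), pre m (Y.1 ω), pre m (γ.1 ω)) ∈ TT2 μ T ω} by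
      ext ω; simp]
  exact NullMeasurableSet.iInter fun m => (meas_node2 T X Y γ m).nullMeasurableSet

private theorem null_tree1 (T : BSet (RO (Ps μ))) (Y : RB Ω) (γ : RF Ω) : NullMeasurableSet
    {ω | ∀ m, (pre m (Y.1 ω), pre m (γ.1 ω)) ∈ TT1 μ T ω} μ := by
  rw [show {ω | ∀ m, (pre m (Y.1 ω), pre m (γ.1 ω)) ∈ TT1 μ T ω} =
    ⋂ m, {ω | (pre m (Y.1 ω), pre m (γ.1 ω)) ∈ TT1 μ T ω} by
      ext ω; simp]
  exact NullMeasurableSet.iInter fun m => (meas_node1 T Y γ m).nullMeasurableSet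

theorem null_br2 (T : BSet (RO (Ps μ))) (X Y : RB Ω) : NullMeasurableSet {ω | ∃ g : ℕ → ℕ, ∀ m,
    (pre m (X.1 ω), pre m (Y.1 ω), pre m g) ∈ TT2 μ T ω} μ := by
  exact (sous2 T X Y).1

theorem null_br1 (T : BSet (RO (Ps μ))) (Y : RB Ω) : NullMeasurableSet {ω | ∃ g : ℕ → ℕ, ∀ m,
    (pre m (Y.1 ω), pre m g) ∈ TT1 μ T ω} μ := by
  exact (sous1 T Y).1

theorem br2_val (G : Ult (RO (Ps μ))) (T : BSet (RO (Ps μ))) (X Y : RB Ω) :
    Br2 (EG G) (NG.mk G oN) (NG.mk G T) (NG.mk G (nb μ X)) (NG.mk G (nb μ Y)) ↔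
      cl μ {ω | ∃ g : ℕ → ℕ, ∀ m, (pre m (X.1 ω), pre m (Y.1 ω), pre m g) ∈ TT2 μ T ω} ∈
        G.s := by
  constructor
  · rintro ⟨g, hg, h⟩
    obtain ⟨γ, rfl⟩ := exists_nf G hg
    exact cl_mem_of_ae (null_tree2 T X Y γ) (null_br2 T X Y)
      (Filter.Eventually.of_forall fun ω hω => ⟨γ.1 ω, hω⟩) ((tree2 G T X Y γ).1 h)
  · intro h
    obtain ⟨γ, hγ⟩ := (sous2 T X Y).2
    exact ⟨_, ba_nf G γ, (tree2 G T X Y γ).2
      (cl_mem_of_ae (null_br2 T X Y) (null_tree2 T X Y γ) hγ h)⟩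

theorem br1_val (G : Ult (RO (Ps μ))) (T : BSet (RO (Ps μ))) (Y : RB Ω) :
    Br1 (EG G) (NG.mk G oN) (NG.mk G T) (NG.mk G (nb μ Y)) ↔
      cl μ {ω | ∃ g : ℕ → ℕ, ∀ m, (pre m (Y.1 ω), pre m g) ∈ TT1 μ T ω} ∈ G.s := by
  constructor
  · rintro ⟨g, hg, h⟩
    obtain ⟨γ, rfl⟩ := exists_nf G hg
    exact cl_mem_of_ae (null_tree1 T Y γ) (null_br1 T Y)
      (Filter.Eventually.of_forall fun ω hω => ⟨γ.1 ω, hω⟩) ((tree1 G T Y γ).1 h)
  · intro h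
    obtain ⟨γ, hγ⟩ := (sous1 T Y).2
    exact ⟨_, ba_nf G γ, (tree1 G T Y γ).2
      (cl_mem_of_ae (null_br1 T Y) (null_tree1 T Y γ) hγ h)⟩

end

end RVI
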