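import Pool.Agent.RVI.DaB
import Pool.Agent.RVI.TrD

/-! # The positive half (package DC)

(problem MP_75f27a_lc, project RVI)

Let `w`, `C`, `U`, `F` be as in `UASigma (EG G)`. `w = oN` (`om_eq`), `C = CN` (`(NG_zfc G).ext`,
`pw_CN`: both are
power sets of `w`). `U` is analytic: `IsRel C U` and there is a tree `NG.mk G t`. `F = NG.mk G f`.
Let
`Φ a b := cl {ω | ∃ g, ∀ m, (pre m (e a ω), pre m (e b ω), pre m g) ∈ TT2 μ t ω}`; `GM μ Φ` by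
`hc`. By
`dn_sg`: `DN e Φ ∈ F`. It remains that `U = DN e Φ`: `rel_eq` (with `dv_ext`): for `X`, `Y`:
`Val U (nb X) (nb Y) ↔ Br2 .. ↔ cl {ω | ∃ g, ∀ m, (pre m (X ω), pre m (Y ω), pre m g) ∈ TT2 μ t ω}
∈ G.s`
(`br2_val`, `al_mem`), and this class is `dv e Φ X Y` (`dv_bra` with
`B ω x y := ∃ g, ∀ m, (pre m x, pre m y, pre m g) ∈ TT2 μ t ω`, `null_br2`). -/

set_option autoImplicit false

namespace RVI

open MeasureTheory STP STP.BSet CPI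

variable {K : Type} {Ω : Type} [MeasurableSpace Ω] {μ : Measure Ω} [IsProbabilityMeasure μ]

theorem uasigma (e : K → RB Ω) (he : ∀ X : RB Ω, ∃ a, ∀ᵐ ω ∂μ, X.1 ω = (e a).1 ω)
    (hc : ∀ T : Ω → Set (List Bool × List Bool × List ℕ), (∀ d, MeasurableSet {ω | d ∈ T ω}) →
      GM μ fun ξ η => cl μ {ω | ∃ g : ℕ → ℕ, ∀ m,
        (pre m ((e ξ).1 ω), pre m ((e η).1 ω), pre m g) ∈ T ω}) (G : Ult (RO (Ps μ))) :
    UASigma (EG G) := by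
  intro w C U F hw hC hU hF
  obtain rfl : w = NG.mk G oN := om_eq G hw
  obtain rfl : C = NG.mk G (CN μ) := by
    refine (NG_zfc G).ext _ _ fun x => ?_
    rw [hC x, pw_CN G x]
  obtain ⟨⟨hrel, T, hT⟩, -⟩ := hU
  obtain ⟨t, rfl⟩ := NG.exists_rep T
  obtain ⟨f, rfl⟩ := NG.exists_rep F
  obtain ⟨Φ, hΦ⟩ : ∃ Φ : K → K → RO (Ps μ), Φ = fun a b => cl μ {ω | ∃ g : ℕ → ℕ, ∀ m,
      (pre m ((e a).1 ω), pre m ((e b).1 ω), pre m g) ∈ TT2 μ t ω} := ⟨_, rfl⟩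
  have hGM : GM μ Φ := by
    rw [hΦ]
    exact hc (fun ω => TT2 μ t ω) fun d => rp_meas _
  have h1 := dn_sg he f hGM G hF
  have h2 : U = NG.mk G (DN e Φ) := by
    refine rel_eq G hrel (dv_ext Φ) fun X Y => ?_
    rw [hT _ _ (al_mem (nb μ) G X) (al_mem (nb μ) G Y), br2_val, hΦ,
      dv_bra he (fun ω x y => ∃ g : ℕ → ℕ, ∀ m, (pre m x, pre m y, pre m g) ∈ TT2 μ t ω)
        (null_br2 t) X Y]
  rw [h2]
  exact h1

end RVI
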