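import Pool.Agent.RVI.Rn0

/-! # Random reals as names, first part (package N5)

(problem MP_75f27a_lc, project RVI)

* `Ult` facts: `cl_mem_of_ae`: `G.up` and `cl_le`.
* `full_of_mix`: let `X` be a name and `c := mem X (al nm) = ⨆ a, ⊤ ⊓ eq X (nm a)`. `exists_mix`
  (file `Alg2`) for
  `f a := eq X (nm a)` gives disjoint measurable `A n` and `a n` with `cl (A n) ≤ eq X (nm (a n))`
  and
  `cl (⋃ A n) = c`. The hypothesis gives `b` with `cl (A n) ≤ eq (nm (a n)) (nm b)`, so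
  `cl (A n) ≤ eq X (nm b)` (`eq_trans`), and `c = ⨆ n, cl (A n)` (`cl_iUnion`).
* `eq_nb`: `eq_st_dsc nn_dsc`, every term `(cl A ⇨ cl B) ⊓ (cl B ⇨ cl A)` is the class of
  `{ω | X ω n = true ↔ Y ω n = true}` (`cl_himp`, `cl_inter`), then `cl_iInter`, and
  `{ω | X ω = Y ω} = ⋂ n, _` (`funext`, `Bool.eq_iff_iff`). Measurability: `measurable_pi_iff`.
* `eq_nr`: the same with `qn_dsc` and the rational numbers:
  `f ω = g ω ↔ ∀ q : ℚ, (q < f ω ↔ q < g ω)`
  (`exists_rat_btwn`).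
* `full_nb`: `full_of_mix`: for disjoint `A n` and `a n : RB Ω` let `b ω := a n ω` for `ω ∈ A n` and
  `fun _ => false` outside (`measurable_iUnion`-style: `MeasurableSpace`, `Measurable.piecewise`,
  or check that
  `{ω | b ω k = true} = ⋃ n, A n ∩ {ω | a n ω k = true}` is measurable). `A n ⊆ {ω | a n ω = b ω}`.
* `full_nr`: the same, `b := ∑`-free: `{ω | b ω ∈ s}` is a countable union; or `Measurable` of
  `fun ω => if h : ∃ n, ω ∈ A n then a (Nat.find h) ω else 0` via `measurable_of_restrict..`/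
  `exists_measurable_piecewise` (Mathlib: `exists_measurable_piecewise`).
* `exists_nb`: every name `st nn ρ` is equal to some `nb μ X`: `X ω n := decide (ω ∈ rp (ρ n))`,
  then
  `cl μ {ω | X ω n = true} = ρ n` (`cl_rp`); equality of functions.
* `pw_CN`: `→`: `x ∈ CN` is some `nb μ X` (`Full.rep`) and `st nn φ ⊆ al nn`: elements: `st_all`
  for `S G z := z ∈ al nn`
  (`al_mem`). `←`: `sub_rep nn` gives `x = NG.mk G (st nn _)`, `exists_nb`, `al_mem`. -/

set_option autoImplicit false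

namespace RVI

open MeasureTheory STP STP.BSet CPI

section

variable {Ω : Type} [MeasurableSpace Ω] {μ : Measure Ω} [IsProbabilityMeasure μ]

theorem cl_mem_of_ae {A B : Set Ω} (hA : NullMeasurableSet A μ) (hB : NullMeasurableSet B μ)
    (h : ∀ᵐ ω ∂μ, ω ∈ A → ω ∈ B) {G : Ult (RO (Ps μ))} (hG : cl μ A ∈ G.s) : cl μ B ∈ G.s := by
  exact G.up hG ((cl_le hA hB).2 h)

/-- a family of names which is closed under mixing is full -/
theorem full_of_mix {A : Type} [Nonempty A] (nm : A → BSet (RO (Ps μ)))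
    (h : ∀ (S : ℕ → Set Ω) (a : ℕ → A), (∀ n, MeasurableSet (S n)) →
      Pairwise (Function.onFun Disjoint S) → ∃ b, ∀ n, cl μ (S n) ≤ BSet.eq (nm (a n)) (nm b)) :
    Full nm := by
  intro X
  obtain ⟨S, a, hS, hd, hle, hc⟩ := exists_mix fun a => BSet.eq X (nm a)
  obtain ⟨b, hb⟩ := h S a hS hd
  refine ⟨b, ?_⟩
  have h1 : BSet.mem X (al nm) = cl μ (⋃ n, S n) := by
    rw [hc]
    unfold al
    rw [mem_st]
    simp only [top_inf_eq]
  rw [h1, cl_iUnion fun n => (hS n).nullMeasurableSet]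
  refine iSup_le fun n => ?_
  exact (le_inf (hle n) (hb n)).trans (eq_trans _ _ _)

private theorem eq_aux {ι : Type} [Countable ι] (A B : ι → Set Ω) (S : Set Ω)
    (hA : ∀ i, MeasurableSet (A i)) (hB : ∀ i, MeasurableSet (B i))
    (h : ∀ ω, ω ∈ S ↔ ∀ i, (ω ∈ A i ↔ ω ∈ B i)) :
    ⨅ i, (cl μ (A i) ⇨ cl μ (B i)) ⊓ (cl μ (B i) ⇨ cl μ (A i)) = cl μ S := by
  have h0 : S = ⋂ i, (((A i)ᶜ ∪ B i) ∩ ((B i)ᶜ ∪ A i)) := by
    ext ω
    rw [h ω, Set.mem_iInter]
    refine forall_congr' fun i => ?_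
    simp only [Set.mem_inter_iff, Set.mem_union, Set.mem_compl_iff]
    tauto
  rw [h0, cl_iInter fun i => ((((hA i).compl.union (hB i)).inter
    ((hB i).compl.union (hA i)))).nullMeasurableSet]
  refine iInf_congr fun i => ?_
  rw [cl_inter ((hA i).compl.union (hB i)).nullMeasurableSet
    ((hB i).compl.union (hA i)).nullMeasurableSet,
    cl_himp (hA i).nullMeasurableSet (hB i).nullMeasurableSet,
    cl_himp (hB i).nullMeasurableSet (hA i).nullMeasurableSet]

theorem eq_nb (X Y : RB Ω) : BSet.eq (nb μ X) (nb μ Y) = cl μ {ω | X.1 ω = Y.1 ω} := by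
  unfold nb
  rw [eq_st_dsc nn_dsc]
  have hX : ∀ n, MeasurableSet {ω | X.1 ω n = true} := fun n =>
    (measurable_pi_iff.1 X.2 n) (MeasurableSet.of_discrete (s := {true}))
  have hY : ∀ n, MeasurableSet {ω | Y.1 ω n = true} := fun n =>
    (measurable_pi_iff.1 Y.2 n) (MeasurableSet.of_discrete (s := {true}))
  refine eq_aux _ _ _ hX hY fun ω => ?_
  exact funext_iff.trans (forall_congr' fun n => Bool.eq_iff_iff)

theorem eq_nr (f g : RR Ω) : BSet.eq (nr μ f) (nr μ g) = cl μ {ω | f.1 ω = g.1 ω} := by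
  unfold nr
  rw [eq_st_dsc qn_dsc]
  have hX : ∀ q : ℚ, MeasurableSet {ω | (q : ℝ) < f.1 ω} := fun q =>
    measurableSet_lt measurable_const f.2
  have hY : ∀ q : ℚ, MeasurableSet {ω | (q : ℝ) < g.1 ω} := fun q =>
    measurableSet_lt measurable_const g.2
  refine eq_aux _ _ _ hX hY fun ω => ?_
  constructor
  · intro h q
    have h' : f.1 ω = g.1 ω := h
    change (q : ℝ) < f.1 ω ↔ (q : ℝ) < g.1 ω
    rw [h']
  · intro h
    rcases lt_trichotomy (f.1 ω) (g.1 ω) with h1 | h1 | h1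
    · obtain ⟨q, hq, hq'⟩ := exists_rat_btwn h1
      exact absurd ((h q).2 hq') (not_lt.2 hq.le)
    · exact h1
    · obtain ⟨q, hq, hq'⟩ := exists_rat_btwn h1
      exact absurd ((h q).1 hq') (not_lt.2 hq.le)

theorem full_nb : Full (nb μ) := by
  have : Nonempty (RB Ω) := ⟨cb fun _ => true⟩
  refine full_of_mix _ fun S a hS hd => ?_
  obtain ⟨f, hf, hf'⟩ := exists_measurable_piecewise S hS (fun n => (a n).1) (fun n => (a n).2)
    (by
      intro i j hij ω hω
      exact absurd hω.2 (Set.disjoint_left.1 (hd hij) hω.1))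
  refine ⟨⟨f, hf⟩, fun n => ?_⟩
  rw [eq_nb]
  have h1 : MeasurableSet {ω | (a n).1 ω = f ω} := by
    have h2 : {ω | (a n).1 ω = f ω} = ⋂ k, {ω | (a n).1 ω k = f ω k} := by
      ext ω
      rw [Set.mem_iInter]
      exact funext_iff
    rw [h2]
    exact MeasurableSet.iInter fun k =>
      measurableSet_eq_fun (measurable_pi_iff.1 (a n).2 k) (measurable_pi_iff.1 hf k)
  refine (cl_le (hS n).nullMeasurableSet h1.nullMeasurableSet).2 (ae_of_all _ ?_)
  intro ω hω
  exact (hf' n hω).symm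

theorem full_nr : Full (nr μ) := by
  have : Nonempty (RR Ω) := ⟨⟨fun _ => 0, measurable_const⟩⟩
  refine full_of_mix _ fun S a hS hd => ?_
  obtain ⟨f, hf, hf'⟩ := exists_measurable_piecewise S hS (fun n => (a n).1) (fun n => (a n).2)
    (by
      intro i j hij ω hω
      exact absurd hω.2 (Set.disjoint_left.1 (hd hij) hω.1))
  refine ⟨⟨f, hf⟩, fun n => ?_⟩
  rw [eq_nr]
  have h1 : MeasurableSet {ω | (a n).1 ω = f ω} := measurableSet_eq_fun (a n).2 hf
  refine (cl_le (hS n).nullMeasurableSet h1.nullMeasurableSet).2 (ae_of_all _ ?_)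
  intro ω hω
  exact (hf' n hω).symm

theorem exists_nb (ρ : ℕ → RO (Ps μ)) : ∃ X : RB Ω, st nn ρ = nb μ X := by
  classical
  refine ⟨⟨fun ω n => decide (ω ∈ rp (ρ n)), ?_⟩, ?_⟩
  · rw [measurable_pi_iff]
    intro n
    refine measurable_to_bool ?_
    have h1 : (fun ω => decide (ω ∈ rp (ρ n))) ⁻¹' {true} = rp (ρ n) := by
      ext ω
      simp
    rw [h1]
    exact rp_meas _
  · unfold nb
    have h1 : ρ = fun n => cl μ {ω | decide (ω ∈ rp (ρ n)) = true} := by
      funext n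
      have h2 : {ω | decide (ω ∈ rp (ρ n)) = true} = rp (ρ n) := by
        ext ω
        simp
      rw [h2, cl_rp]
    exact congrArg (st nn) h1

theorem pw_CN (G : Ult (RO (Ps μ))) : IsPw (EG G) (NG.mk G (CN μ)) (NG.mk G oN) := by
  intro x
  constructor
  · intro hx
    obtain ⟨X, rfl⟩ := full_nb.rep G x hx
    intro z hz
    exact st_all nn _ (fun G z => EG G z (NG.mk G oN)) (fun a G _ => al_mem nn G a) G z hz
  · intro hx
    obtain ⟨X, rfl⟩ := NG.exists_rep x
    rw [sub_rep nn X G hx]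
    obtain ⟨Y, hY⟩ := exists_nb (μ := μ) fun a => BSet.mem (nn a) X
    rw [hY]
    exact al_mem (nb μ) G Y

end

end RVI
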