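import Pool.Agent.RVI.SgA
import Pool.Agent.RVI.RnA

/-! # The sigma-algebra used for the negative half (definitions)

(problem MP_75f27a_lc, project RVI; no sorry in this file)

`Dl μ`: the extensional families `δ` of truth values of relations between random reals such that the
restriction of `δ` to the ground model reals is generated by random rectangles; `dn δ`: the name
of the
relation (a subset of `CN × CN`); `FN μ`: the name of the set of all these relations. -/

namespace RVI

open MeasureTheory STP STP.BSet CPI

variable {Ω : Type} [MeasurableSpace Ω] (μ : Measure Ω)

/-- typed relations whose ground model part is generated by random rectangles -/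
abbrev Dl : Type :=
  {δ : RB Ω → RB Ω → RO (Ps μ) //
    Ex2 (nb μ) (nb μ) δ ∧ GM μ fun x y : ℕ → Bool => δ (cb x) (cb y)}

variable {μ}

/-- the name of the relation -/
noncomputable def dn (δ : Dl μ) : BSet (RO (Ps μ)) := rt (nb μ) (nb μ) δ.1

variable (μ)

/-- the name of the family of relations -/
noncomputable def FN : BSet (RO (Ps μ)) := al (dn (μ := μ))

end RVI
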