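import Pool.Agent.RVI.FaA

/-! # The family of relations: countable unions (package FaB)

(problem MP_75f27a_lc, project RVI)

* `sg_union`: `S = NG.mk G s`. Let `c` be the truth value (`CPI.tv`) of `IsFun s oN ∧ IsTo s FN`;
  `c ∈ G.s`.
  Let `n : ℕ`. By `TV.full` (file `CPI/BTv.lean`) for the statement
  `fun G D' => Val (EG G) s (nn n) D' ∧ EG G D' FN` there is a name `Z n` such that in every
  `NG G'` in which
  such a `D'` exists `Z n` has this property; by `full_dn` there is `δ n : Dl μ` with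
  `mem (Z n) FN ≤ eq (Z n) (dn (δ n))`. So in every `NG G'` with `c ∈ G'.s`:
  `Val s (nn n) (dn (δ n))`
  (`al_mem`: `nn n ∈ oN`). Let `δ X Y := ⨆ n, (δ n) X Y` (`Ex2`: distributivity; `GM.iSup`).
  `D = dn δ` by `rel_eq`: for `X`, `Y` the statement
  `Q G' k := ∃ D', Val (EG G') s k D' ∧ Val (EG G') D' (nb X) (nb Y)` has at `k = nn n` a truth
  value
  `b n` (`tv`), and `c ⊓ b n = c ⊓ (δ n) X Y` (`Ult.mem_of_all` in both directions: in `NG G'` with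
  `c ∈ G'.s` the only `D'` with `Val s (nn n) D'` is `dn (δ n)`; `dn_val`). The statement
  `∃ k ∈ oN, Q k` has the truth value `⨆ n, ⊤ ⊓ b n` (`st_bex`), and `c ∈ G.s`, so in `NG G` it
  holds iff
  `c ⊓ ⨆ n, b n ∈ G.s` iff `c ⊓ ⨆ n, (δ n) X Y ∈ G.s` (`inf_iSup_eq`) iff `δ X Y ∈ G.s`. And
  `∃ k D', Val S k D' ∧ ..` implies `k ∈ oN` (first clause of `IsFun`, `IsOP.inj`).
* `sg_FN`: assembly of the three clauses. -/

set_option autoImplicit false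

namespace RVI

open MeasureTheory STP STP.BSet CPI

variable {Ω : Type} [MeasurableSpace Ω] {μ : Measure Ω} [IsProbabilityMeasure μ]

theorem sg_union (G : Ult (RO (Ps μ))) (S D : NG G) (hS : IsFun (EG G) S (NG.mk G oN))
    (hS' : IsTo (EG G) S (NG.mk G (FN μ)))
    (hR : ∀ n D', Val (EG G) S n D' → IsRel (EG G) (NG.mk G (CN μ)) D')
    (hD : IsRel (EG G) (NG.mk G (CN μ)) D)
    (h : ∀ x y, Val (EG G) D x y ↔ ∃ n D', Val (EG G) S n D' ∧ Val (EG G) D' x y) :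
    EG G D (NG.mk G (FN μ)) := by
  obtain ⟨s, rfl⟩ := NG.exists_rep S
  have hc : (IsFun (EG G) (NG.mk G s) (NG.mk G oN) ∧ IsTo (EG G) (NG.mk G s) (NG.mk G (FN μ))) ↔
      (tv fun G : Ult (RO (Ps μ)) => IsFun (EG G) (NG.mk G s) (NG.mk G oN) ∧
        IsTo (EG G) (NG.mk G s) (NG.mk G (FN μ))) ∈ G.s :=
    tv_iff (S := fun G : Ult (RO (Ps μ)) => IsFun (EG G) (NG.mk G s) (NG.mk G oN) ∧
      IsTo (EG G) (NG.mk G s) (NG.mk G (FN μ)))
  have hcG := hc.1 ⟨hS, hS'⟩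
  clear hc
  obtain ⟨c, hcdef⟩ : ∃ c : RO (Ps μ), c = tv fun G : Ult (RO (Ps μ)) =>
      IsFun (EG G) (NG.mk G s) (NG.mk G oN) ∧ IsTo (EG G) (NG.mk G s) (NG.mk G (FN μ)) := ⟨_, rfl⟩
  rw [← hcdef] at hcG
  have hc : ∀ G' : Ult (RO (Ps μ)), c ∈ G'.s → IsFun (EG G') (NG.mk G' s) (NG.mk G' oN) ∧
      IsTo (EG G') (NG.mk G' s) (NG.mk G' (FN μ)) := by
    intro G' h'
    rw [hcdef] at h'
    exact (tv_iff (S := fun G : Ult (RO (Ps μ)) => IsFun (EG G) (NG.mk G s) (NG.mk G oN) ∧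
      IsTo (EG G) (NG.mk G s) (NG.mk G (FN μ)))).2 h'
  choose Z hZ using fun n : ℕ => TV.full (P := Ps μ)
    fun G D' => Val (EG G) (NG.mk G s) (NG.mk G (nn n)) D' ∧ EG G D' (NG.mk G (FN μ))
  choose d hd using fun n : ℕ => full_dn (μ := μ) (Z n)
  have hval : ∀ (n : ℕ) (G' : Ult (RO (Ps μ))), c ∈ G'.s →
      Val (EG G') (NG.mk G' s) (NG.mk G' (nn n)) (NG.mk G' (dn (d n))) := by
    intro n G' h'
    obtain ⟨h1, h2⟩ := hc G' h'
    obtain ⟨D', hD'⟩ := h1.2.1 _ (al_mem nn G' n)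
    obtain ⟨h3, h4⟩ := (hZ n G').1 ⟨D', hD', h2 _ _ hD'⟩
    rw [EG_mk] at h4
    have h5 : NG.mk G' (Z n) = NG.mk G' (dn (d n)) := NG.mk_eq.2 (G'.up h4 (hd n))
    rwa [h5] at h3
  have huniq : ∀ (n : ℕ) (G' : Ult (RO (Ps μ))), c ∈ G'.s → ∀ D',
      Val (EG G') (NG.mk G' s) (NG.mk G' (nn n)) D' → D' = NG.mk G' (dn (d n)) := by
    intro n G' h' D' hD'
    exact (hc G' h').1.2.2 _ _ _ hD' (hval n G' h')
  have hEx : Ex2 (nb μ) (nb μ) fun X Y => ⨆ n, (d n).1 X Y := by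
    intro X X' Y Y'
    simp only
    rw [iSup_inf_eq, iSup_inf_eq]
    exact iSup_le fun n => le_iSup_of_le n ((d n).2.1 X X' Y Y')
  have hGM : GM μ fun x y : ℕ → Bool => ⨆ n, (d n).1 (cb x) (cb y) :=
    GM.iSup fun n => (d n).2.2
  have key : ∀ X Y : RB Ω, Val (EG G) D (NG.mk G (nb μ X)) (NG.mk G (nb μ Y)) ↔
      (⨆ n, (d n).1 X Y) ∈ G.s := by
    intro X Y
    rw [h]
    have hb := st_bex (P := Ps μ) nn (fun _ => ⊤)
      (fun G' k => ∃ D', Val (EG G') (NG.mk G' s) k D' ∧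
      Val (EG G') D' (NG.mk G' (nb μ X)) (NG.mk G' (nb μ Y)))
      (fun n => tv fun G' : Ult (RO (Ps μ)) => ∃ D',
        Val (EG G') (NG.mk G' s) (NG.mk G' (nn n)) D' ∧
        Val (EG G') D' (NG.mk G' (nb μ X)) (NG.mk G' (nb μ Y))) (fun n G' => tv_iff
        (S := fun G' : Ult (RO (Ps μ)) => ∃ D', Val (EG G') (NG.mk G' s) (NG.mk G' (nn n)) D' ∧
          Val (EG G') D' (NG.mk G' (nb μ X)) (NG.mk G' (nb μ Y)))) G
    have e1 : (∃ n D', Val (EG G) (NG.mk G s) n D' ∧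
        Val (EG G) D' (NG.mk G (nb μ X)) (NG.mk G (nb μ Y))) ↔
        ∃ x, EG G x (NG.mk G (st nn fun _ => ⊤)) ∧ ∃ D', Val (EG G) (NG.mk G s) x D' ∧
          Val (EG G) D' (NG.mk G (nb μ X)) (NG.mk G (nb μ Y)) := by
      constructor
      · rintro ⟨n, D', h1, h2⟩
        refine ⟨n, ?_, D', h1, h2⟩
        obtain ⟨p, hp, hop⟩ := h1
        obtain ⟨x, y, hx, hop'⟩ := hS.1 p hp
        rw [(IsOP.inj (NG_zfc G) hop hop').1]
        exact hx
      · rintro ⟨n, -, D', h1⟩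
        exact ⟨n, D', h1⟩
    rw [e1, hb]
    have e2 : ∀ n, c ⊓ (tv fun G' : Ult (RO (Ps μ)) => ∃ D',
        Val (EG G') (NG.mk G' s) (NG.mk G' (nn n)) D' ∧
        Val (EG G') D' (NG.mk G' (nb μ X)) (NG.mk G' (nb μ Y))) = c ⊓ (d n).1 X Y := by
      intro n
      refine le_antisymm (Ult.mem_of_all fun G' hG' => ?_) (Ult.mem_of_all fun G' hG' => ?_)
      · obtain ⟨h1, h2⟩ := inf_mem.1 hG'
        rw [← tv_iff] at h2
        obtain ⟨D', h3, h4⟩ := h2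
        rw [huniq n G' h1 D' h3, dn_val] at h4
        exact inf_mem.2 ⟨h1, h4⟩
      · obtain ⟨h1, h2⟩ := inf_mem.1 hG'
        refine inf_mem.2 ⟨h1, ?_⟩
        rw [← tv_iff]
        exact ⟨_, hval n G' h1, (dn_val G' (d n) X Y).2 h2⟩
    constructor
    · intro h1
      have h2 := inf_mem.2 ⟨hcG, h1⟩
      rw [inf_iSup_eq] at h2
      refine G.up h2 (iSup_mono fun n => ?_)
      rw [top_inf_eq, e2 n]
      exact inf_le_right
    · intro h1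
      have h2 := inf_mem.2 ⟨hcG, h1⟩
      rw [inf_iSup_eq] at h2
      refine G.up h2 (iSup_mono fun n => ?_)
      rw [top_inf_eq, ← e2 n]
      exact inf_le_right
  rw [rel_eq G hD hEx key]
  exact al_mem (dn (μ := μ)) G ⟨_, hEx, hGM⟩

theorem sg_FN (G : Ult (RO (Ps μ))) :
    IsSg (EG G) (NG.mk G oN) (NG.mk G (CN μ)) (NG.mk G (FN μ)) :=
  ⟨sg_rect G, sg_compl G, sg_union G⟩

end RVI
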