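import Pool.Agent.RVI.GrB

/-! # The universal analytic set of the model (package GC)

(problem MP_75f27a_lc, project RVI)

* `un_val`: `rt_sep` with `S G x y := Br2 (EG G) (NG.mk G oN) (NG.mk G TU) x y`.
* `un_ground`: `un_val`, `al_mem`, `tu_val`: the set `{_ω | W0 x y}`, `cl_chi`, `CPI.chi_mem`.
* `ua_UN`: `IsRel`: `rt_pair`. Analytic: the tree is `NG.mk G TU`, `un_val`. Universal: let `A` be
  analytic in
  `NG G` with the tree `NG.mk G t`. Let
  `X0 ω n := decide (∃ d, Encodable.encode d = n ∧ d ∈ TT1 μ t ω)`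
  (measurable: `{ω | X0 ω n = true}` is the countable union over `d` with `encode d = n` of
  `rp (mem (n1 d) t)`), and `x := NG.mk G (nb μ X0)`. Every `y ∈ CN` is some `nb μ Y`
  (`Full.rep full_nb`).
  `y ∈ A ↔ Br1 .. ↔ cl {ω | ∃ g, ∀ m, (pre m (Y ω), pre m g) ∈ TT1 μ t ω} ∈ G.s` (`br1_val`), and
  `Val UN x y ↔ cl {ω | W0 (X0 ω) (Y ω)} ∈ G.s` (`un_val`, `tu_val`, `al_mem`). The two sets are
  equal:
  `X0 ω (encode d) = true ↔ d ∈ TT1 μ t ω` (`Encodable.encode_injective`). -/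

set_option autoImplicit false

namespace RVI

open MeasureTheory STP STP.BSet CPI

section

variable {Ω : Type} [MeasurableSpace Ω] (μ : Measure Ω)

/-- the name of the universal analytic set -/
noncomputable def UN : BSet (RO (Ps μ)) :=
  rt (nb μ) (nb μ) fun X Y => tv fun G =>
    Br2 (EG G) (NG.mk G oN) (NG.mk G TU) (NG.mk G (nb μ X)) (NG.mk G (nb μ Y))

variable {μ} [IsProbabilityMeasure μ] (G : Ult (RO (Ps μ)))

theorem un_val (x y : NG G) : Val (EG G) (NG.mk G (UN μ)) x y ↔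
    EG G x (NG.mk G (CN μ)) ∧ EG G y (NG.mk G (CN μ)) ∧
      Br2 (EG G) (NG.mk G oN) (NG.mk G TU) x y := by
  exact rt_sep (nb μ) (nb μ) (fun G x y => Br2 (EG G) (NG.mk G oN) (NG.mk G TU) x y) G x y

theorem un_ground (x y : ℕ → Bool) :
    Val (EG G) (NG.mk G (UN μ)) (NG.mk G (nb μ (cb x))) (NG.mk G (nb μ (cb y))) ↔ W0 x y := by
  rw [un_val, tu_val]
  have h1 : cl μ {ω : Ω | W0 ((cb x : RB Ω).1 ω) ((cb y : RB Ω).1 ω)} = chi (W0 x y) :=
    cl_chi (W0 x y)
  rw [h1, chi_mem]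
  exact ⟨fun h => h.2.2, fun h => ⟨al_mem _ G _, al_mem _ G _, h⟩⟩

theorem ua_UN : IsUA (EG G) (NG.mk G oN) (NG.mk G (CN μ)) (NG.mk G (UN μ)) := by
  classical
  refine ⟨⟨fun p hp => rt_pair _ _ _ G p hp, NG.mk G TU, fun x y hx hy => ?_⟩, ?_⟩
  · rw [un_val]
    exact ⟨fun h => h.2.2, fun h => ⟨hx, hy, h⟩⟩
  · rintro A ⟨-, T, hT⟩
    obtain ⟨t, rfl⟩ := NG.exists_rep T
    have hX : Measurable fun (ω : Ω) (n : ℕ) =>
        decide (∃ d : List Bool × List ℕ, Encodable.encode d = n ∧ d ∈ TT1 μ t ω) := by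
      rw [measurable_pi_iff]
      intro n
      refine measurable_to_bool ?_
      have h1 : (fun ω : Ω => decide (∃ d : List Bool × List ℕ, Encodable.encode d = n ∧
          d ∈ TT1 μ t ω)) ⁻¹' {true} = ⋃ d : List Bool × List ℕ,
          {ω | Encodable.encode d = n} ∩ rp (BSet.mem (n1 d) t) := by
        ext ω
        simp [TT1]
      rw [h1]
      exact MeasurableSet.iUnion fun d => (MeasurableSet.const _).inter (rp_meas _)
    refine ⟨NG.mk G (nb μ ⟨_, hX⟩), al_mem _ G _, fun y hy => ?_⟩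
    obtain ⟨Y, rfl⟩ := full_nb.rep G y hy
    rw [hT _ hy, br1_val, un_val, tu_val]
    have h2 : {ω | ∃ g : ℕ → ℕ, ∀ m, (pre m (Y.1 ω), pre m g) ∈ TT1 μ t ω} =
        {ω | W0 ((⟨_, hX⟩ : RB Ω).1 ω) (Y.1 ω)} := by
      ext ω
      refine exists_congr fun g => forall_congr' fun m => ?_
      change _ ↔ decide (∃ d : List Bool × List ℕ,
        Encodable.encode d = Encodable.encode (pre m (Y.1 ω), pre m g) ∧ d ∈ TT1 μ t ω) = true
      rw [decide_eq_true_eq]
      constructor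
      · intro h
        exact ⟨_, rfl, h⟩
      · rintro ⟨d, hd1, hd2⟩
        rwa [Encodable.encode_injective hd1] at hd2
    rw [h2]
    exact ⟨fun h => ⟨al_mem _ G _, al_mem _ G _, h⟩, fun h => h.2.2⟩

end

end RVI
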