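import Pool.Agent.RVI.SgA
import Pool.Agent.RVM.Final

/-! # Ground model relations which are generated by random rectangles (package SB)

(problem MP_75f27a_lc, project RVI)

* `measurable_inter`: copy the proof of `Pool.RVM.measurable_measure_inter` (file
  `RVM/Hilbert.lean`),
  which uses only that the sets are measurable (`Pool.RVM.measurable_inner_family` for
  `Lp ℝ 2 μ`).
* `measurable_sec`: for every `E` in `GS X Y Ω` the function `(x, y) ↦ μ {ω | (x, y, ω) ∈ E}` is
  measurable.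
  `MeasurableSpace.induction_on_inter` for the generating pi-system `GR X Y Ω` (the intersection
  of two
  generators is a generator): empty set: `0`. Generators: `measurable_inter`. Complements:
  `μ Aᶜ = 1 - μ A` (`prob_compl_eq_one_sub`; the sections are measurable by `gs_section`),
  `Measurable.const_sub`. Disjoint unions: `measure_iUnion`, `Measurable.ennreal_tsum`.
* `rectMeas_of_GM`: give `X` and `Y` the sigma-algebras of all subsets (`⊤`), then `RectMeas W` is
  `MeasurableSet W` (`Pool.RVM.rectMeas_iff`). Let `E` be as in `GM`. If `(x, y) ∈ W` then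
  `cl E_xy = p ≠ ⊥`, so `μ E_xy ≠ 0`, otherwise `cl E_xy = ⊥` and `μ E_xy = 0` (`cl_eq_bot`). So
  `W` is the preimage of
  `{0}ᶜ` under the function of `measurable_sec`. -/

set_option autoImplicit false

namespace RVI

open MeasureTheory STP Pool.RVM

section

variable {X Y : Type} {Ω : Type} [MeasurableSpace Ω] {μ : Measure Ω} [IsProbabilityMeasure μ]

theorem measurable_inter [MeasurableSpace X] [DiscreteMeasurableSpace X] [MeasurableSpace Y]
    [DiscreteMeasurableSpace Y] (e : Y → ℝ) (he : Function.Injective e) (A : X → Set Ω)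
    (B : Y → Set Ω) (hA : ∀ x, MeasurableSet (A x)) (hB : ∀ y, MeasurableSet (B y)) :
    Measurable fun p : X × Y => μ (A p.1 ∩ B p.2) := by
  let v : X → Lp ℝ 2 μ := fun x => indicatorConstLp 2 (hA x) (measure_ne_top μ _) (1 : ℝ)
  let w : Y → Lp ℝ 2 μ := fun y => indicatorConstLp 2 (hB y) (measure_ne_top μ _) (1 : ℝ)
  have h := measurable_inner_family e he v w
  have h2 : (fun p : X × Y => μ (A p.1 ∩ B p.2)) =
      fun p : X × Y => ENNReal.ofReal (inner ℝ (v p.1) (w p.2)) := by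
    funext p
    have := L2.real_inner_indicatorConstLp_one_indicatorConstLp_one (μ := μ) (hA p.1) (hB p.2)
      (measure_ne_top μ _) (measure_ne_top μ _)
    change _ = ENNReal.ofReal (inner ℝ (indicatorConstLp 2 (hA p.1) (measure_ne_top μ _) (1 : ℝ))
      (indicatorConstLp 2 (hB p.2) (measure_ne_top μ _) (1 : ℝ)))
    rw [this, ofReal_measureReal]
  rw [h2]
  exact h.ennreal_ofReal

theorem measurable_sec [MeasurableSpace X] [DiscreteMeasurableSpace X] [MeasurableSpace Y]
    [DiscreteMeasurableSpace Y] (e : Y → ℝ) (he : Function.Injective e) {E : Set (X × Y × Ω)}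
    (hE : MeasurableSet[GS X Y Ω] E) :
    Measurable fun p : X × Y => μ {ω | (p.1, p.2, ω) ∈ E} := by
  refine MeasurableSpace.induction_on_inter
    (C := fun E _ => Measurable fun p : X × Y => μ {ω | (p.1, p.2, ω) ∈ E}) rfl ?_ ?_ ?_ ?_ ?_ E hE
  · rintro _ ⟨A, B, hA, hB, rfl⟩ _ ⟨A', B', hA', hB', rfl⟩ -
    refine ⟨fun x => A x ∩ A' x, fun y => B y ∩ B' y, fun x => (hA x).inter (hA' x),
      fun y => (hB y).inter (hB' y), ?_⟩
    ext z
    constructor
    · rintro ⟨⟨h1, h2⟩, h3, h4⟩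
      exact ⟨⟨h1, h3⟩, h2, h4⟩
    · rintro ⟨⟨h1, h3⟩, h2, h4⟩
      exact ⟨⟨h1, h2⟩, h3, h4⟩
  · have h : (fun p : X × Y => μ {ω | (p.1, p.2, ω) ∈ (∅ : Set (X × Y × Ω))}) = fun _ => 0 := by
      funext p
      exact measure_empty
    rw [h]
    exact measurable_const
  · rintro _ ⟨A, B, hA, hB, rfl⟩
    exact measurable_inter e he A B hA hB
  · intro t ht h
    have h2 : (fun p : X × Y => μ {ω | (p.1, p.2, ω) ∈ tᶜ}) =
        fun p => 1 - μ {ω | (p.1, p.2, ω) ∈ t} := by
      funext p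
      exact prob_compl_eq_one_sub (gs_section ht p.1 p.2)
    rw [h2]
    exact h.const_sub 1
  · intro f hd hf h
    have h2 : (fun p : X × Y => μ {ω | (p.1, p.2, ω) ∈ ⋃ i, f i}) =
        fun p => ∑' i, μ {ω | (p.1, p.2, ω) ∈ f i} := by
      funext p
      have h3 : {ω | (p.1, p.2, ω) ∈ ⋃ i, f i} = ⋃ i, {ω | (p.1, p.2, ω) ∈ f i} := by
        ext ω
        simp only [Set.mem_iUnion, Set.mem_ofPred_eq]
      rw [h3]
      refine measure_iUnion (fun i j hij => ?_) fun i => gs_section (hf i) p.1 p.2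
      exact Set.disjoint_left.2 fun ω h4 h5 => Set.disjoint_left.1 (hd hij) h4 h5
    rw [h2]
    exact Measurable.ennreal_tsum h

theorem rectMeas_of_GM (e : Y → ℝ) (he : Function.Injective e) {p : RO (Ps μ)} (hp : p ≠ ⊥)
    (W : Set (X × Y)) (h : GM μ fun x y => p ⊓ chi ((x, y) ∈ W)) : RectMeas W := by
  letI mX : MeasurableSpace X := ⊤
  letI mY : MeasurableSpace Y := ⊤
  haveI dX : DiscreteMeasurableSpace X := ⟨fun _ => trivial⟩
  haveI dY : DiscreteMeasurableSpace Y := ⟨fun _ => trivial⟩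
  rw [rectMeas_iff]
  obtain ⟨E, hE, hEq⟩ := h
  have h1 := measurable_sec (μ := μ) e he hE
  have h2 : W = (fun p : X × Y => μ {ω | (p.1, p.2, ω) ∈ E}) ⁻¹' {0}ᶜ := by
    ext z
    obtain ⟨x, y⟩ := z
    have h3 : cl μ {ω | (x, y, ω) ∈ E} = ⊥ ↔ μ {ω | (x, y, ω) ∈ E} = 0 :=
      cl_eq_bot (gs_section hE x y).nullMeasurableSet
    rw [← hEq x y] at h3
    change (x, y) ∈ W ↔ ¬ μ {ω | (x, y, ω) ∈ E} = 0
    rw [← h3]
    change (x, y) ∈ W ↔ ¬ p ⊓ chi ((x, y) ∈ W) = ⊥
    by_cases h4 : (x, y) ∈ W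
    · have h5 : (chi ((x, y) ∈ W) : RO (Ps μ)) = ⊤ := iSup_pos h4
      rw [h5, inf_top_eq]
      exact ⟨fun _ => hp, fun _ => h4⟩
    · have h5 : (chi ((x, y) ∈ W) : RO (Ps μ)) = ⊥ := iSup_neg h4
      rw [h5, inf_bot_eq]
      exact ⟨fun h6 => absurd h6 h4, fun h6 => absurd rfl h6⟩
  rw [h2]
  exact h1 (measurableSet_singleton 0).compl

end

end RVI
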