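import Pool.Agent.RVI.FaB
import Pool.Agent.RVI.SgB
import Pool.Agent.RVI.GrC

/-! # The negative half (package FaC)

(problem MP_75f27a_lc, project RVI)

Suppose `UASigma (EG G)`. By `oN_om`, `pw_CN`, `ua_UN`, `sg_FN`: `UN ∈ FN` in `NG G`, so
`UN = dn δ` in `NG G` for some `δ` (`Full.rep full_dn`). Let `p := eq (UN μ) (dn δ) ∈ G.s`, so
`p ≠ ⊥`
(`G.bot`). For ground reals `x`, `y`: `p ⊓ δ (cb x) (cb y) = p ⊓ chi (W0 x y)` (`le_antisymm`,
`Ult.mem_of_all`): in every `NG G'` with `p ∈ G'.s`: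
`δ (cb x) (cb y) ∈ G'.s ↔ Val (dn δ) .. ↔ Val UN .. ↔ W0 x y` (`dn_val`, `NG.mk_eq`, `un_ground`,
`CPI.chi_mem`). So `(x, y) ↦ p ⊓ chi (W0 x y)` is `GM` (`GM.inf`, `GM.const`), and
`rectMeas_of_GM` (with an
injection `e : (ℕ → Bool) → ℝ`; both types have the cardinality of the continuum) contradicts the
hypothesis. -/

set_option autoImplicit false

namespace RVI

open MeasureTheory STP STP.BSet CPI Pool.RVM

variable {Ω : Type} [MeasurableSpace Ω] {μ : Measure Ω} [IsProbabilityMeasure μ]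

theorem not_uasigma (hW : ¬ RectMeas {p : (ℕ → Bool) × (ℕ → Bool) | W0 p.1 p.2})
    (G : Ult (RO (Ps μ))) : ¬ UASigma (EG G) := by
  intro h
  have h1 := h _ _ _ _ (oN_om G) (pw_CN G) (ua_UN G) (sg_FN G)
  obtain ⟨δ, hδ⟩ := Full.rep full_dn G _ h1
  rw [NG.mk_eq] at hδ
  obtain ⟨p, hpd⟩ : ∃ p, p = BSet.eq (UN μ) (dn δ) := ⟨_, rfl⟩
  rw [← hpd] at hδ
  have hp : p ≠ ⊥ := by
    rintro rfl
    exact G.bot hδ
  have key : ∀ x y : ℕ → Bool, p ⊓ δ.1 (cb x) (cb y) = p ⊓ chi (W0 x y) := by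
    intro x y
    have e : ∀ G' : Ult (RO (Ps μ)), p ∈ G'.s →
        (δ.1 (cb x) (cb y) ∈ G'.s ↔ (chi (W0 x y) : RO (Ps μ)) ∈ G'.s) := by
      intro G' hG'
      rw [hpd, ← NG.mk_eq] at hG'
      rw [← dn_val G' δ, ← hG', un_ground, CPI.chi_mem]
    refine le_antisymm (Ult.mem_of_all fun G' hG' => ?_) (Ult.mem_of_all fun G' hG' => ?_)
    · rw [inf_mem] at hG' ⊢
      exact ⟨hG'.1, (e G' hG'.1).1 hG'.2⟩
    · rw [inf_mem] at hG' ⊢
      exact ⟨hG'.1, (e G' hG'.1).2 hG'.2⟩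
  have h2 : GM μ fun x y : ℕ → Bool => p ⊓ δ.1 (cb x) (cb y) := (GM.const p).inf δ.2.2
  simp only [key] at h2
  exact hW (rectMeas_of_GM (Cardinal.cantorFunction (1 / 3))
    (Cardinal.cantorFunction_injective (by norm_num) (by norm_num)) hp _ h2)

end RVI
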