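import Pool.Agent.RVI.Rn0
import Pool.Agent.RVM.Final

/-! # The universal tree and the ground model universal set (definitions)

(problem MP_75f27a_lc, project RVI; no sorry in this file)

`T0` is the universal tree: `(s, (t, u))` is in it if for all `k ≤ t.length` the number of the node
`(t.take k, u.take k)` is in the set with the characteristic function `s`, if it is smaller than
the length of `s`. `W0 x y`: the number of `(pre m y, pre m g)` is in `x` for all `m`, for some
`g`. -/

namespace RVI

/-- the universal tree -/
def T0 : Set (List Bool × List Bool × List ℕ) :=
  {d | ∀ k ≤ d.2.1.length, Encodable.encode (d.2.1.take k, d.2.2.take k) < d.1.length →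
    d.1[Encodable.encode (d.2.1.take k, d.2.2.take k)]? = some true}

/-- the universal analytic relation -/
def W0 (x y : ℕ → Bool) : Prop :=
  ∃ g : ℕ → ℕ, ∀ m, x (Encodable.encode (pre m y, pre m g)) = true

end RVI
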