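import Pool.Agent.RVI.Gr0

/-! # The ground model universal set (package GA)

(problem MP_75f27a_lc, project RVI)

* `pre_length`, `pre_getElem`, `pre_take`: lists.
* `t0_iff`: `→`: for `k` let `n` be the number of `(pre k y, pre k g)` and `m > n, k`; in `T0` for
  `m`:
  `(pre m y).take k = pre k y`, `n < m = (pre m x).length`, and `(pre m x)[n]? = some (x n)`. `←`:
  the same
  computation.
* `analytic_tree`: an analytic subset `A` of the Cantor space: if it is empty take `S := ∅`;
  otherwise
  (`AnalyticSet` is by definition: empty or the range of a continuous map from `ℕ → ℕ`)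
  `A = range f`; let
  `S := {(t, u) | ∃ z : ℕ → ℕ, pre u.length z = u ∧ pre t.length (f z) = t}`. If `y = f g` then all
  `(pre m y, pre m g)` are in `S`. Conversely let `z m` be witnesses: `pre m (z m) = pre m g`,
  `pre m (f (z m)) = pre m y`. Then `z m → g` and `f (z m) → y` (pointwise convergence,
  `tendsto_pi_nhds`, eventually constant coordinates), so `f g = y` (`tendsto_nhds_unique`).
* `rectMeas_universal`: let `φ : I ≃ᵐ (ℕ → Bool)` be a Borel isomorphism
  (`PolishSpace.measurableEquivNatBoolOfNotCountable`). For `x : I` the section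
  `V_x = {y | (x, y) ∈ V}` is analytic (the preimage of an analytic set under a continuous map of
  Polish
  spaces: `AnalyticSet.preimage`), so `φ '' V_x` is analytic: `V_x = range h` for a continuous `h`
  or empty, and
  `range (φ ∘ h)` is analytic (`MeasurableSet.analyticSet_image` for `univ` and the measurable map
  `φ ∘ h`). Let `S x` be as in `analytic_tree` for `φ '' V_x` and let
  `c x : ℕ → Bool`, `c x n := decide (∃ d ∈ S x, Encodable.encode d = n)`. Then
  `(x, y) ∈ V ↔ φ y ∈ φ '' V_x ↔ ∃ g, ∀ m, (pre m (φ y), pre m g) ∈ S x ↔ W0 (c x) (φ y)`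
  (`Encodable.encode_injective`). So `V` is the preimage of `{p | W0 p.1 p.2}` under `c × φ`:
  `Pool.RVM.rectMeas_preimage`. -/

set_option autoImplicit false

namespace RVI

open MeasureTheory Pool.RVM

theorem pre_length {α : Type} (m : ℕ) (x : ℕ → α) : (pre m x).length = m := by
  simp [pre]

theorem pre_getElem {α : Type} {m n : ℕ} (x : ℕ → α) (h : n < m) :
    (pre m x)[n]? = some (x n) := by
  rw [pre, List.getElem?_map, List.getElem?_range h]
  rfl

theorem pre_take {α : Type} {k m : ℕ} (x : ℕ → α) (h : k ≤ m) :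
    (pre m x).take k = pre k x := by
  rw [pre, pre, ← List.map_take, List.take_range, min_eq_left h]

theorem pre_eq_iff {α : Type} {m : ℕ} {x y : ℕ → α} :
    pre m x = pre m y ↔ ∀ n < m, x n = y n := by
  rw [pre, pre, List.map_inj_left]
  exact ⟨fun h n hn => h n (List.mem_range.2 hn), fun h n hn => h n (List.mem_range.1 hn)⟩

theorem t0_iff (x y : ℕ → Bool) (g : ℕ → ℕ) :
    (∀ m, (pre m x, pre m y, pre m g) ∈ T0) ↔
      ∀ m, x (Encodable.encode (pre m y, pre m g)) = true := by
  constructor
  · intro h m
    have hM := h (max (Encodable.encode (pre m y, pre m g) + 1) m)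
    have h1 : m ≤ max (Encodable.encode (pre m y, pre m g) + 1) m := le_max_right _ _
    have h2 : Encodable.encode (pre m y, pre m g) <
        max (Encodable.encode (pre m y, pre m g) + 1) m :=
      lt_of_lt_of_le (Nat.lt_succ_self _) (le_max_left _ _)
    have h3 := hM m
    simp only [pre_length, pre_take _ h1] at h3
    have h4 := h3 h1 h2
    rw [pre_getElem x h2] at h4
    exact Option.some.inj h4
  · intro h m k hk hlt
    simp only [pre_length] at hk hlt
    simp only [pre_take _ hk] at hlt ⊢
    rw [pre_getElem x hlt, h k]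

theorem analytic_tree {A : Set (ℕ → Bool)} (hA : AnalyticSet A) :
    ∃ S : Set (List Bool × List ℕ), ∀ y, y ∈ A ↔ ∃ g : ℕ → ℕ, ∀ m, (pre m y, pre m g) ∈ S := by
  rw [AnalyticSet] at hA
  rcases hA with rfl | ⟨f, hf, rfl⟩
  · refine ⟨∅, fun y => ⟨fun h => absurd h (Set.notMem_empty y), ?_⟩⟩
    rintro ⟨g, hg⟩
    exact absurd (hg 0) (Set.notMem_empty _)
  · refine ⟨{d | ∃ z : ℕ → ℕ, pre d.2.length z = d.2 ∧ pre d.1.length (f z) = d.1},
      fun y => ⟨?_, ?_⟩⟩
    · rintro ⟨g, rfl⟩
      refine ⟨g, fun m => ⟨g, ?_, ?_⟩⟩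
      · simp only [pre_length]
      · simp only [pre_length]
    · rintro ⟨g, hg⟩
      have hg' : ∀ m, ∃ z : ℕ → ℕ, pre m z = pre m g ∧ pre m (f z) = pre m y := by
        intro m
        obtain ⟨z, h1, h2⟩ := hg m
        simp only [pre_length] at h1 h2
        exact ⟨z, h1, h2⟩
      choose z hz1 hz2 using hg'
      have h1 : Filter.Tendsto z Filter.atTop (nhds g) := by
        rw [tendsto_pi_nhds]
        intro n
        refine tendsto_const_nhds.congr' ?_
        filter_upwards [Filter.eventually_gt_atTop n] with m hm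
        exact (pre_eq_iff.1 (hz1 m) n hm).symm
      have h2 : Filter.Tendsto (fun m => f (z m)) Filter.atTop (nhds y) := by
        rw [tendsto_pi_nhds]
        intro n
        refine tendsto_const_nhds.congr' ?_
        filter_upwards [Filter.eventually_gt_atTop n] with m hm
        exact (pre_eq_iff.1 (hz2 m) n hm).symm
      have h3 : Filter.Tendsto (fun m => f (z m)) Filter.atTop (nhds (f g)) :=
        (hf.tendsto g).comp h1
      exact ⟨g, tendsto_nhds_unique h3 h2⟩

theorem rectMeas_universal (h : RectMeas {p : (ℕ → Bool) × (ℕ → Bool) | W0 p.1 p.2})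
    {V : Set (unitInterval × unitInterval)} (hV : AnalyticSet V) : RectMeas V := by
  classical
  have hI : ¬ Countable unitInterval := by
    intro hc
    have h1 : (Set.Icc (0 : ℝ) 1).Countable := Set.countable_coe_iff.1 hc
    have h2 := (Cardinal.le_aleph0_iff_set_countable.2 h1)
    rw [Cardinal.mk_Icc_real zero_lt_one] at h2
    exact absurd h2 (not_le.2 Cardinal.aleph0_lt_continuum)
  let φ : unitInterval ≃ᵐ (ℕ → Bool) := PolishSpace.measurableEquivNatBoolOfNotCountable hI
  have hsec : ∀ x : unitInterval, AnalyticSet (φ '' {y | (x, y) ∈ V}) := by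
    intro x
    have h1 : AnalyticSet {y | (x, y) ∈ V} :=
      hV.preimage (f := fun y => (x, y)) (by fun_prop)
    rw [AnalyticSet] at h1
    rcases h1 with h1 | ⟨k, hk, h1⟩
    · rw [h1, Set.image_empty]
      exact analyticSet_empty
    · rw [← h1, ← Set.range_comp, ← Set.image_univ]
      exact MeasurableSet.univ.analyticSet_image (φ.measurable.comp hk.measurable)
  choose S hS using fun x => analytic_tree (hsec x)
  let c : unitInterval → (ℕ → Bool) := fun x n =>
    decide (∃ d ∈ S x, Encodable.encode d = n)
  have hc : ∀ x d, c x (Encodable.encode d) = true ↔ d ∈ S x := by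
    intro x d
    simp only [c, decide_eq_true_eq]
    constructor
    · rintro ⟨d', hd', he⟩
      rwa [← Encodable.encode_injective he]
    · intro hd
      exact ⟨d, hd, rfl⟩
  have hVE : V = {p : unitInterval × unitInterval |
      (c p.1, φ p.2) ∈ {p : (ℕ → Bool) × (ℕ → Bool) | W0 p.1 p.2}} := by
    ext ⟨x, y⟩
    have h1 : (x, y) ∈ V ↔ φ y ∈ φ '' {y | (x, y) ∈ V} := by
      rw [φ.injective.mem_set_image]
      rfl
    rw [h1, hS x (φ y)]
    refine exists_congr fun g => forall_congr' fun m => ?_
    exact (hc x _).symm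
  rw [hVE]
  exact rectMeas_preimage h c φ

end RVI
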