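import Pool.Agent.RVI.TrD
import Pool.Agent.RVI.GrA

/-! # The universal tree in the model (package GB)

(problem MP_75f27a_lc, project RVI)

* `lb_ne`: if `s ≠ s'` have the same length there is `n` with `s[n]? ≠ s'[n]?`, both `some`; so
  exactly
  one of them is `some true`, and `eq_st_dsc nn_dsc` has the factor `⊥` at `n`. `lf_ne`: for lists
  of
  different lengths or with a different entry there is `(k, v)` such that exactly one of
  `u[k]? = some v`, `u'[k]? = some v` holds (`List.ext_getElem?`). `lf = rt nn nn _` is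
  `st (fun z : ℕ × ℕ => opN (nn z.1) (nn z.2)) _`, and this family is `Dsc` (`eq_opN_val`,
  `nn_dsc`), so
  `eq_st_dsc` applies.
* `mem_TU`: `mem_st`: the supremum over `d'` of `chi (d' ∈ T0 ∧ ..) ⊓ eq (n2 d) (n2 d')`. If
  `d' ≠ d` has equal
  lengths then `eq (n2 d) (n2 d') = ⊥` (`eq_opN_val`; if `d.2.2 ≠ d'.2.2` by `lf_ne`; otherwise
  all lengths
  agree and `lb_ne` applies to one of the other components).
* `tu_val`: `br2_val`; by `mem_TU` for every `d` with equal lengths `rp (mem (n2 d) TU)` is a.e.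
  `univ` or `∅`
  (`cl_rp`, `cl_chi`, `cl_eq`), so for almost all `ω`: for all such `d` (countably many):
  `d ∈ TT2 μ TU ω ↔ d ∈ T0`. So the set in `br2_val` is a.e. equal to
  `{ω | ∃ g, ∀ m, (pre m (X ω), pre m (Y ω), pre m g) ∈ T0} = {ω | W0 (X ω) (Y ω)}` (`t0_iff`);
  `cl_congr`. -/

set_option autoImplicit false

namespace RVI

open MeasureTheory STP STP.BSet CPI

section

variable {P : Type} [PartialOrder P]

/-- the name of the universal tree -/
noncomputable def TU : BSet (RO P) :=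
  st n2 fun d => chi (d ∈ T0 ∧ d.1.length = d.2.1.length ∧ d.2.1.length = d.2.2.length)

private theorem chi_top {q : Prop} (h : q) : (chi q : RO P) = ⊤ := iSup_pos h

private theorem chi_bot {q : Prop} (h : ¬ q) : (chi q : RO P) = ⊥ := iSup_neg h

private theorem st_ne {A : Type} {nm : A → BSet (RO P)} (h : Dsc nm) {p q : A → Prop}
    (h1 : ¬ ∀ a, p a ↔ q a) :
    BSet.eq (st nm fun a => chi (p a)) (st nm fun a => chi (q a)) = ⊥ := by
  push Not at h1
  obtain ⟨a, h2⟩ := h1
  rw [eq_st_dsc h]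
  refine le_bot_iff.1 ((iInf_le _ a).trans ?_)
  rcases h2 with ⟨hp, hq⟩ | ⟨hp, hq⟩
  · rw [chi_top hp, chi_bot hq, top_himp, bot_inf_eq]
  · rw [chi_bot hp, chi_top hq, top_himp, inf_bot_eq]

private theorem pair_dsc :
    Dsc fun z : ℕ × ℕ => opN (nn (P := P) z.1) (nn z.2) := by
  intro a b hab
  rw [eq_opN_val]
  by_cases h1 : a.1 = b.1
  · have h2 : a.2 ≠ b.2 := fun h2 => hab (Prod.ext h1 h2)
    rw [nn_dsc _ _ h2, inf_bot_eq]
  · rw [nn_dsc _ _ h1, bot_inf_eq]

theorem lb_ne {s s' : List Bool} (h : s ≠ s') (hl : s.length = s'.length) :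
    BSet.eq (lb (P := P) s) (lb s') = ⊥ := by
  refine st_ne nn_dsc (p := fun n => s[n]? = some true) (q := fun n => s'[n]? = some true)
    fun h1 => h ?_
  refine List.ext_getElem hl fun n h2 h3 => ?_
  have h4 := h1 n
  rw [List.getElem?_eq_getElem h2, List.getElem?_eq_getElem h3, Option.some_inj,
    Option.some_inj] at h4
  exact Bool.eq_iff_iff.2 h4

theorem lf_ne {u u' : List ℕ} (h : u ≠ u') : BSet.eq (lf (P := P) u) (lf u') = ⊥ := by
  refine st_ne pair_dsc (p := fun z => u[z.1]? = some z.2) (q := fun z => u'[z.1]? = some z.2)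
    fun h1 => h ?_
  exact List.ext_getElem? fun k => Option.ext fun v => h1 (k, v)

theorem mem_TU (d : List Bool × List Bool × List ℕ) (h : d.1.length = d.2.1.length)
    (h' : d.2.1.length = d.2.2.length) : BSet.mem (n2 d) (TU (P := P)) = chi (d ∈ T0) := by
  unfold TU
  rw [mem_st]
  refine le_antisymm (iSup_le fun d' => ?_) (le_iSup_of_le d ?_)
  · by_cases hd : d' ∈ T0 ∧ d'.1.length = d'.2.1.length ∧ d'.2.1.length = d'.2.2.length
    · by_cases he : d = d'
      · subst he
        rw [chi_top hd.1]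
        exact le_top
      · have h1 : BSet.eq (n2 (P := P) d) (n2 d') = ⊥ := by
          unfold n2
          rw [eq_opN_val, eq_opN_val]
          by_cases h3 : d.2.2 = d'.2.2
          · have h4 : d.2.1.length = d'.2.1.length := by
              rw [h', hd.2.2, h3]
            by_cases h5 : d.2.1 = d'.2.1
            · have h6 : d.1 ≠ d'.1 := fun h6 => he (Prod.ext h6 (Prod.ext h5 h3))
              have h7 : d.1.length = d'.1.length := by
                rw [h, hd.2.1, h4]
              rw [lb_ne h6 h7, bot_inf_eq]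
            · rw [lb_ne h5 h4, bot_inf_eq, inf_bot_eq]
          · rw [lf_ne h3, inf_bot_eq, inf_bot_eq]
        rw [h1, inf_bot_eq]
        exact bot_le
    · rw [chi_bot hd, bot_inf_eq]
      exact bot_le
  · rw [BSet.eq_refl, inf_top_eq]
    by_cases hd : d ∈ T0
    · rw [chi_top (⟨hd, h, h'⟩ : d ∈ T0 ∧ d.1.length = d.2.1.length ∧
        d.2.1.length = d.2.2.length)]
      exact le_top
    · rw [chi_bot hd]
      exact bot_le

end

section

variable {Ω : Type} [MeasurableSpace Ω] {μ : Measure Ω} [IsProbabilityMeasure μ]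

theorem tu_val (G : Ult (RO (Ps μ))) (X Y : RB Ω) :
    Br2 (EG G) (NG.mk G oN) (NG.mk G TU) (NG.mk G (nb μ X)) (NG.mk G (nb μ Y)) ↔
      cl μ {ω | W0 (X.1 ω) (Y.1 ω)} ∈ G.s := by
  have h1 : ∀ d : List Bool × List Bool × List ℕ, ∀ᵐ ω ∂μ, d.1.length = d.2.1.length →
      d.2.1.length = d.2.2.length → (d ∈ TT2 μ TU ω ↔ d ∈ T0) := by
    intro d
    by_cases h : d.1.length = d.2.1.length ∧ d.2.1.length = d.2.2.length
    · have h2 : rp (BSet.mem (n2 d) (TU (P := Ps μ))) =ᵐ[μ] {_ω : Ω | d ∈ T0} := by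
        rw [← cl_eq (rp_meas _).nullMeasurableSet (MeasurableSet.const _).nullMeasurableSet,
          cl_rp, cl_chi, mem_TU d h.1 h.2]
      filter_upwards [h2] with ω hω _ _
      exact iff_of_eq hω
    · exact ae_of_all _ fun ω h1 h2 => absurd ⟨h1, h2⟩ h
  have h2 := ae_all_iff.2 h1
  have h3 : cl μ {ω | ∃ g : ℕ → ℕ, ∀ m, (pre m (X.1 ω), pre m (Y.1 ω), pre m g) ∈ TT2 μ TU ω} =
      cl μ {ω | W0 (X.1 ω) (Y.1 ω)} := by
    refine cl_congr ?_
    filter_upwards [h2] with ω hω
    refine propext (exists_congr fun g => ?_)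
    rw [← t0_iff]
    refine forall_congr' fun m => hω _ ?_ ?_
    · simp only [pre_length]
    · simp only [pre_length]
  rw [br2_val, h3]

end

end RVI
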