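import Pool.Agent.RVI.RnA

/-! # The cardinal of the model (definitions)

(problem MP_75f27a_lc, project RVI; no sorry in this file)

`K` is a type; its elements are the ordinals below the initial ordinal of `#K` (`kc`). `kk a` is the
name of the ordinal `a`, `KN K` the name of the ordinal `#K`, `sk ψ` the name of the subset of `K`
with the
truth values `ψ`, `QN K` the name of the power set. `Bl a` is the set of the ordinals below `a`. -/

namespace RVI

open MeasureTheory STP STP.BSet CPI Cardinal

/-- an enumeration of `K` by the ordinals below `#K` -/
noncomputable def ke (K : Type) : K ≃ (#K).ord.ToType :=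
  (Cardinal.eq.1 (Cardinal.mk_ord_toType #K).symm).some

/-- the ordinal of an element -/
noncomputable def kc {K : Type} (a : K) : Ordinal.{0} := (Ordinal.ToType.toOrd (ke K a)).1

/-- the elements with smaller ordinals -/
abbrev Bl {K : Type} (a : K) : Type := {b : K // kc b < kc a}

section

variable {P : Type} [PartialOrder P] {K : Type}

/-- the name of the ordinal `a` -/
noncomputable def kk (a : K) : BSet (RO P) := ck (kc a)

variable (K) in
/-- the name of the cardinal -/
noncomputable def KN : BSet (RO P) := al (kk (P := P) (K := K))

/-- the name of the subset with the truth values `ψ` -/
noncomputable def sk (ψ : K → RO P) : BSet (RO P) := st kk ψ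

variable (K) in
/-- the name of the power set -/
noncomputable def QN : BSet (RO P) := al (sk (P := P) (K := K))

end

end RVI
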