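import Pool.Agent.RVI.KpA

/-! # `#K` is a cardinal of the model and has the size of the continuum (package KB)

(problem MP_75f27a_lc, project RVI)

* `KN_cd`: `IsOrd`: `KN_ck` and `ck_ord`. `¬ Sm KN KN`: `F.top fun p => F.no.2 fun q hq h => ?_`
  for the statement
  `Sm (EG G) (NG.mk G (KN K)) (NG.mk G (KN K))`. By the definition of `Sm` and `F.ex`, `F.and`
  there are names
  `a`, `f` such that `q` forces `a ∈ KN`, `IsFun f a`, `∀ y ∈ KN, ∃ z ∈ a, Val f z y`. From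
  `F.mem`, `mem_st`,
  `RO.mem_iSup` there are `r ≤ q` and `ξ : K` such that `r` forces `a = kk ξ`. For `b : Bl ξ` let
  `S b` be the set
  of the `y : K` such that some `r' ≤ r` forces `Val f (kk b) (kk y)`. `S b` is countable: choose
  such a
  condition `r' y` for `y ∈ S b`; for `y ≠ y'` there is no common extension of `r' y` and `r' y'`
  (it would
  force `kk y = kk y'` as `f` is a function; `kk_eq`, `F.const`), so `y ↦ r' y` is injective and
  its range is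
  countable by `ccc`. So `#(⋃ b, S b) ≤ #(Bl ξ) * ℵ₀ < #K` (`Cardinal.mk_iUnion_le_sum_mk`,
  `card_Bl`,
  `hK`; `mul_lt_of_lt`), and there is `y : K` in no `S b`. `r` forces `kk y ∈ KN`, so
  `∃ z ∈ kk ξ, Val f z (kk y)`; a name `z`, `kk_al` and `elim`: some `r' ≤ r` and `b : Bl ξ` with
  `r'` forces `z = kk b`: contradiction.
* `KN_card`: injection `gr kk (nb μ) r`: `gr_fun`, `gr_to` (the hypothesis on `f` is trivial for
  different
  elements by `kk_dsc`, and `eq_refl` for equal ones). Injectivity: for all `x ∈ KN`, `x' ∈ KN`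
  (`st_all` twice,
  statement `∀ y, Val x y → Val x' y → x = x'`; the domain of the function is `KN`, first clause
  of `IsFun`),
  at `kk a`, `kk b`: `y = nb (r a) = nb (r b)` (`gr_val`), so `cl {r a = r b} ∈ G.s` (`NG.mk_eq`,
  `eq_nb`), so
  `a = b` (`cl_eq_bot`, `G.bot`). Onto: `gr kk (nb μ) e`: for `y ∈ CN`, `y = nb X`
  (`Full.rep full_nb`), take
  `a` with `X = e a` a.e. and `x := kk a`; `NG.mk G (nb X) = NG.mk G (nb (e a))` by `NG.mk_eq`,
  `eq_nb`, and the class is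
  `⊤` (`cl_congr`, `cl_univ`). -/

set_option autoImplicit false

namespace RVI

open MeasureTheory STP STP.BSet CPI Cardinal

section

variable {K : Type} {Ω : Type} [MeasurableSpace Ω] {μ : Measure Ω} [IsProbabilityMeasure μ]

/-- the ordinals which some condition below `r` forces to be the value at `b` are countably many -/
private theorem kb_count (f X : BSet (RO (Ps μ))) (r : Ps μ) (A : BSet (RO (Ps μ)))
    (hf : F r fun G => IsFun (EG G) (NG.mk G f) (NG.mk G A)) :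
    {y : K | ∃ r' ≤ r, F r' fun G =>
      Val (EG G) (NG.mk G f) (NG.mk G X) (NG.mk G (kk y))}.Countable := by
  set S : Set K := {y : K | ∃ r' ≤ r, F r' fun G =>
    Val (EG G) (NG.mk G f) (NG.mk G X) (NG.mk G (kk y))} with hS
  choose g hg1 hg2 using fun y : S => y.2
  have key : ∀ y y' : S, (∃ t, t ≤ g y ∧ t ≤ g y') → y = y' := by
    rintro y y' ⟨t, ht, ht'⟩
    have h1 : F t fun G : Ult (RO (Ps μ)) => (y : K) = (y' : K) := by
      intro G hG
      have h2 := hg2 y G (up_mem ht hG)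
      have h3 := hg2 y' G (up_mem ht' hG)
      have h4 := (hf G (up_mem (ht.trans (hg1 y)) hG)).2.2 _ _ _ h2 h3
      exact (kk_eq G).1 h4
    exact Subtype.ext (F.const.1 h1)
  have hinj : Function.Injective g := fun y y' h => key y y' ⟨g y, le_rfl, h.le⟩
  have hr : (Set.range g).Countable := by
    refine ccc ?_
    rintro _ ⟨y, rfl⟩ _ ⟨y', rfl⟩ hne h
    exact hne (congrArg g (key y y' h))
  have : Countable (Set.range g) := hr.to_subtype
  exact (Function.Injective.countable (f := fun y : S => (⟨g y, y, rfl⟩ : Set.range g))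
    fun y y' h => hinj (congrArg Subtype.val h)).to_set

private theorem kb_not_sm (hK : ℵ₀ < #K) (G : Ult (RO (Ps μ))) :
    ¬ Sm (EG G) (NG.mk G (KN K)) (NG.mk G (KN K)) := by
  refine F.top (S := fun G : Ult (RO (Ps μ)) =>
    ¬ Sm (EG G) (NG.mk G (KN K)) (NG.mk G (KN K))) (fun p => F.no.2 fun q _ h => ?_) G
  unfold Sm at h
  obtain ⟨A, hA⟩ := F.ex.1 h
  obtain ⟨hA1, hA2⟩ := F.and.1 hA
  obtain ⟨f, hf⟩ := F.ex.1 hA2
  obtain ⟨hf1, hf2⟩ := F.and.1 hf
  rw [F.mem] at hA1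
  unfold KN al at hA1
  rw [mem_st, RO.mem_iSup] at hA1
  obtain ⟨r, hr, ξ, h1⟩ := hA1 q le_rfl
  rw [top_inf_eq] at h1
  have h2 : F r fun G => NG.mk G A = NG.mk G (kk ξ) := F.eq.2 h1
  have hfr : F r fun G => IsFun (EG G) (NG.mk G f) (NG.mk G A) := hf1.mono hr
  have hcov : ∀ y : K, ∃ b : Bl ξ, ∃ r' ≤ r, F r' fun G =>
      Val (EG G) (NG.mk G f) (NG.mk G (kk b.1)) (NG.mk G (kk y)) := by
    intro y
    have h3 : F r fun G => ∃ z, EG G z (NG.mk G A) ∧ Val (EG G) (NG.mk G f) z (NG.mk G (kk y)) :=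
      fun G hG => hf2 G (up_mem hr hG) _ (al_mem kk G y)
    obtain ⟨Z, hZ⟩ := F.ex.1 h3
    obtain ⟨hZ1, hZ2⟩ := F.and.1 hZ
    have h4 : F r fun G => EG G (NG.mk G Z) (NG.mk G (al fun b : Bl ξ => kk b.1)) := by
      intro G hG
      have h5 : EG G (NG.mk G Z) (NG.mk G A) := hZ1 G hG
      have h6 : NG.mk G A = NG.mk G (kk ξ) := h2 G hG
      rw [h6, kk_al] at h5
      exact h5
    rw [F.mem] at h4
    unfold al at h4
    rw [mem_st, RO.mem_iSup] at h4
    obtain ⟨r', hr', b, h7⟩ := h4 r le_rfl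
    rw [top_inf_eq] at h7
    refine ⟨b, r', hr', fun G hG => ?_⟩
    have h8 : NG.mk G Z = NG.mk G (kk b.1) := F.eq.2 h7 G hG
    have h9 : Val (EG G) (NG.mk G f) (NG.mk G Z) (NG.mk G (kk y)) := hZ2 G (up_mem hr' hG)
    rwa [h8] at h9
  let S : Bl ξ → Set K := fun b => {y : K | ∃ r' ≤ r, F r' fun G =>
    Val (EG G) (NG.mk G f) (NG.mk G (kk b.1)) (NG.mk G (kk y))}
  have hS : ∀ b, (S b).Countable := fun b => kb_count f (kk b.1) r A hfr
  have huniv : (⋃ b, S b) = Set.univ := by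
    ext y
    simp only [Set.mem_iUnion, Set.mem_univ, iff_true]
    exact hcov y
  have hlt : #(⋃ b, S b) < #K := by
    refine (Cardinal.mk_iUnion_le_sum_mk (f := S)).trans_lt ?_
    have h3 : Cardinal.sum (fun b => #(S b)) ≤ Cardinal.sum (fun _ : Bl ξ => ℵ₀) :=
      Cardinal.sum_le_sum _ _ fun b => (hS b).le_aleph0
    refine h3.trans_lt ?_
    rw [Cardinal.sum_const']
    exact Cardinal.mul_lt_of_lt hK.le (card_Bl ξ) hK
  rw [huniv, Cardinal.mk_univ] at hlt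
  exact lt_irrefl _ hlt

theorem KN_cd (hK : ℵ₀ < #K) (G : Ult (RO (Ps μ))) : IsCd (EG G) (NG.mk G (KN K)) := by
  refine ⟨?_, kb_not_sm hK G⟩
  rw [KN_ck]
  exact ck_ord G _

omit [IsProbabilityMeasure μ] in
private theorem kb_le (r : K → RB Ω) (a a' : K) :
    BSet.eq (kk a) (kk a') ≤ BSet.eq (nb μ (r a)) (nb μ (r a')) := by
  by_cases h : a = a'
  · subst h
    rw [BSet.eq_refl, BSet.eq_refl]
  · rw [kk_dsc a a' h]
    exact bot_le

omit [IsProbabilityMeasure μ] in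
private theorem kb_dom (r : K → RB Ω) (G : Ult (RO (Ps μ))) {x y : NG G}
    (h : Val (EG G) (NG.mk G (gr kk (nb μ) r)) x y) : EG G x (NG.mk G (KN K)) := by
  obtain ⟨p, hp, hop⟩ := h
  obtain ⟨x', y', hx', hop'⟩ := (gr_fun (kb_le r) G).1 p hp
  obtain ⟨rfl, -⟩ := IsOP.inj (NG_zfc G) hop hop'
  exact hx'

private theorem kb_inj (r : K → RB Ω) (hr : ∀ a b, a ≠ b → μ {ω | (r a).1 ω = (r b).1 ω} = 0)
    (G : Ult (RO (Ps μ))) (x : NG G) (hx : EG G x (NG.mk G (KN K))) :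
    ∀ x', EG G x' (NG.mk G (KN K)) → ∀ y, Val (EG G) (NG.mk G (gr kk (nb μ) r)) x y →
      Val (EG G) (NG.mk G (gr kk (nb μ) r)) x' y → x = x' := by
  refine st_all kk (fun _ => ⊤) (fun G x => ∀ x', EG G x' (NG.mk G (KN K)) →
    ∀ y, Val (EG G) (NG.mk G (gr kk (nb μ) r)) x y →
      Val (EG G) (NG.mk G (gr kk (nb μ) r)) x' y → x = x') ?_ G x hx
  intro a G _ x' hx'
  refine st_all kk (fun _ => ⊤) (fun G x' => ∀ y,
    Val (EG G) (NG.mk G (gr kk (nb μ) r)) (NG.mk G (kk a)) y →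
      Val (EG G) (NG.mk G (gr kk (nb μ) r)) x' y → NG.mk G (kk a) = x') ?_ G x' hx'
  intro b G _ y h1 h2
  rw [gr_val (kb_le r)] at h1 h2
  rw [h1, NG.mk_eq, eq_nb] at h2
  by_contra hne
  have hab : a ≠ b := fun h => hne (by rw [h])
  have h3 : cl μ {ω | (r a).1 ω = (r b).1 ω} = ⊥ :=
    (cl_eq_bot (NullMeasurableSet.of_null (hr a b hab))).2 (hr a b hab)
  rw [h3] at h2
  exact G.bot h2

theorem KN_card (hK : ℵ₀ < #K) (r e : K → RB Ω)
    (hr : ∀ a b, a ≠ b → μ {ω | (r a).1 ω = (r b).1 ω} = 0)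
    (he : ∀ X : RB Ω, ∃ a, ∀ᵐ ω ∂μ, X.1 ω = (e a).1 ω) (G : Ult (RO (Ps μ))) :
    IsCard (EG G) (NG.mk G (CN μ)) (NG.mk G (KN K)) := by
  refine ⟨KN_cd hK G, ⟨NG.mk G (gr kk (nb μ) r), gr_fun (kb_le r) G, gr_to _ _ _ G, ?_⟩,
    ⟨NG.mk G (gr kk (nb μ) e), gr_fun (kb_le e) G, gr_to _ _ _ G, ?_⟩⟩
  · intro x x' y h1 h2
    exact kb_inj r hr G x (kb_dom r G h1) x' (kb_dom r G h2) y h1 h2
  · intro y hy
    obtain ⟨X, rfl⟩ := Full.rep full_nb G y hy
    obtain ⟨a, ha⟩ := he X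
    refine ⟨NG.mk G (kk a), (gr_val (kb_le e) G a _).2 ?_⟩
    rw [NG.mk_eq, eq_nb]
    have h1 : cl μ {ω | X.1 ω = (e a).1 ω} = ⊤ := by
      rw [← cl_univ (μ := μ)]
      refine cl_congr ?_
      filter_upwards [ha] with ω hω
      exact propext ⟨fun _ => trivial, fun _ => hω⟩
    rw [h1]
    exact G.top

end

end RVI
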