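import Pool.Agent.STP.Lang

/-! # Real-valued measurable continuum, analytic sets and rectangles inside a structure `(N, E)`

(problem MP_75f27a_lc, project RVI; definitions, no sorry in this file)

Every definition quantifies over the elements of `N` only. `Sub`, `IsOP`, `Val`, `IsFun`, `IsOm`,
`IsCd`,
`Sm`, `IsUn`, `IsInt` are the notions of `STP/Lang.lean`: inclusion, ordered pair, `(x, y) ∈ f`,
function
with domain `a`, the set of natural numbers, cardinal, `|x| < κ` (image of an element of `κ`),
union of a
set, intersection. The Cantor space is the power set `C` of `w = ω`. -/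

universe v

namespace RVI

open STP

section

variable {N : Type v} (E : N → N → Prop)

/-- `C` is the power set of `w` -/
def IsPw (C w : N) : Prop := ∀ x, E x C ↔ Sub E x w

/-- all values of the function `f` belong to `b` -/
def IsTo (f b : N) : Prop := ∀ x y, Val E f x y → E y b

/-- `κ` is the cardinality of the set `C`: `κ` is a cardinal, some function from `κ` to `C` is
injective and some function from `κ` to `C` is onto -/
def IsCard (C κ : N) : Prop :=
  IsCd E κ ∧
  (∃ f, IsFun E f κ ∧ IsTo E f C ∧ ∀ x x' y, Val E f x y → Val E f x' y → x = x') ∧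
  ∃ f, IsFun E f κ ∧ IsTo E f C ∧ ∀ y, E y C → ∃ x, Val E f x y

/-- `((x, y), z) ∈ s` -/
def Ap (s x y z : N) : Prop := ∃ p, IsOP E p x y ∧ Val E s p z

/-- `R` with the strict order `l` (a set of ordered pairs), the addition `s`, the multiplication `t`
(functions of ordered pairs), the zero `o` and the unit `i` is a complete ordered field, that is
(isomorphic to) the field of real numbers -/
structure IsRF (R l s t o i : N) : Prop where
  zero_mem : E o R
  one_mem : E i R
  zero_lt_one : Val E l o i
  lt_irrefl : ∀ x, E x R → ¬ Val E l x x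
  lt_trans : ∀ x y z, E x R → E y R → E z R → Val E l x y → Val E l y z → Val E l x z
  lt_total : ∀ x y, E x R → E y R → Val E l x y ∨ x = y ∨ Val E l y x
  add_fun : ∀ x y, E x R → E y R → ∃ z, E z R ∧ ∀ z', Ap E s x y z' ↔ z' = z
  mul_fun : ∀ x y, E x R → E y R → ∃ z, E z R ∧ ∀ z', Ap E t x y z' ↔ z' = z
  add_comm : ∀ x y z, E x R → E y R → Ap E s x y z → Ap E s y x z
  mul_comm : ∀ x y z, E x R → E y R → Ap E t x y z → Ap E t y x z
  add_assoc : ∀ x y z a b c, E x R → E y R → E z R → Ap E s x y a → Ap E s a z c →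
    Ap E s y z b → Ap E s x b c
  mul_assoc : ∀ x y z a b c, E x R → E y R → E z R → Ap E t x y a → Ap E t a z c →
    Ap E t y z b → Ap E t x b c
  distrib : ∀ x y z a b c d, E x R → E y R → E z R → Ap E s y z a → Ap E t x a d →
    Ap E t x y b → Ap E t x z c → Ap E s b c d
  add_zero : ∀ x, E x R → Ap E s x o x
  mul_one : ∀ x, E x R → Ap E t x i x
  add_neg : ∀ x, E x R → ∃ y, E y R ∧ Ap E s x y o
  mul_inv : ∀ x, E x R → x ≠ o → ∃ y, E y R ∧ Ap E t x y i
  add_lt : ∀ x y z a b, E x R → E y R → E z R → Val E l x y → Ap E s x z a → Ap E s y z b →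
    Val E l a b
  mul_pos : ∀ x y z, E x R → E y R → Val E l o x → Val E l o y → Ap E t x y z → Val E l o z
  complete : ∀ A, Sub E A R → (∃ a, E a A) → (∃ b, E b R ∧ ∀ a, E a A → ¬ Val E l b a) →
    ∃ c, E c R ∧ (∀ a, E a A → ¬ Val E l c a) ∧
      ∀ b, E b R → (∀ a, E a A → ¬ Val E l b a) → ¬ Val E l b c

/-- `m` is a `κ`-additive probability measure on the power set `Q` of `κ` which vanishes at
points; its values are elements of the ordered field `R` with the order `l`, the addition `s`, the
zero `o` and the unit `i`; `w` is the set of natural numbers. Countable additivity is expressed by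
finite additivity (`add`) and continuity along increasing sequences (`cont`), `κ`-additivity by:
the union of fewer than `κ` sets of measure zero has measure zero (`null`). -/
structure IsRM (w κ Q R l s o i m : N) : Prop where
  dom : IsFun E m Q
  val : IsTo E m R
  nonneg : ∀ A x, Val E m A x → ¬ Val E l x o
  total : Val E m κ i
  point : ∀ a A, E a κ → (∀ z, E z A ↔ z = a) → Val E m A o
  add : ∀ A B D x y z, E A Q → E B Q → (∀ u, ¬ (E u A ∧ E u B)) → (∀ u, E u D ↔ E u A ∨ E u B) →
    Val E m A x → Val E m B y → Val E m D z → Ap E s x y z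
  cont : ∀ S D b y, IsFun E S w → IsTo E S Q →
    (∀ n k A B, E n k → Val E S n A → Val E S k B → Sub E A B) →
    (∀ u, E u D ↔ ∃ n A, Val E S n A ∧ E u A) →
    E b R → (∀ n A x, Val E S n A → Val E m A x → ¬ Val E l b x) → Val E m D y → ¬ Val E l b y
  null : ∀ Z D, Sub E Z Q → Sm E Z κ → (∀ A, E A Z → Val E m A o) → IsUn E D Z → Val E m D o

/-- The cardinality `κ` of the continuum is real-valued measurable. -/
def RVMC : Prop :=
  ∃ w C κ Q R l s t o i m, IsOm E w ∧ IsPw E C w ∧ IsCard E C κ ∧ IsPw E Q κ ∧
    IsRF E R l s t o i ∧ IsRM E w κ Q R l s o i m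

/-- `h` is the restriction of the function `g` to `m` -/
def IsRs (h g m : N) : Prop := ∀ z, E z h ↔ E z g ∧ ∃ x y, E x m ∧ IsOP E z x y

/-- `g` is a function from `w` to `w` -/
def IsBa (w g : N) : Prop := IsFun E g w ∧ IsTo E g w

/-- there is a function `g` from `w` to `w` such that `(y ∩ m, g | m) ∈ T` for all `m` in `w` -/
def Br1 (w T y : N) : Prop :=
  ∃ g, IsBa E w g ∧ ∀ m, E m w → ∃ y' g' p, IsInt E y' y m ∧ IsRs E g' g m ∧ IsOP E p y' g' ∧ E p T

/-- there is a function `g` from `w` to `w` such that `(x ∩ m, (y ∩ m, g | m)) ∈ T` for all `m` in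
`w` -/
def Br2 (w T x y : N) : Prop :=
  ∃ g, IsBa E w g ∧ ∀ m, E m w → ∃ x' y' g' q p, IsInt E x' x m ∧ IsInt E y' y m ∧ IsRs E g' g m ∧
    IsOP E q y' g' ∧ IsOP E p x' q ∧ E p T

/-- `A` is an analytic subset of the Cantor space `C`: the projection of a closed subset of
`C × w^w` -/
def IsAn1 (w C A : N) : Prop := Sub E A C ∧ ∃ T, ∀ y, E y C → (E y A ↔ Br1 E w T y)

/-- `U` is a subset of `C × C` -/
def IsRel (C U : N) : Prop := ∀ p, E p U → ∃ x y, E x C ∧ E y C ∧ IsOP E p x y

/-- `U` is an analytic subset of `C × C`: the projection of a closed subset of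
`(C × C) × w^w` -/
def IsAn2 (w C U : N) : Prop :=
  IsRel E C U ∧ ∃ T, ∀ x y, E x C → E y C → (Val E U x y ↔ Br2 E w T x y)

/-- `U` is a universal analytic set: an analytic subset of `C × C` such that every analytic subset
of `C` is a vertical section of `U` -/
def IsUA (w C U : N) : Prop :=
  IsAn2 E w C U ∧ ∀ A, IsAn1 E w C A → ∃ x, E x C ∧ ∀ y, E y C → (E y A ↔ Val E U x y)

/-- The set `F` contains all rectangles `A × B` with sides `A, B ⊆ C`, the complement (in `C × C`)
of every subset of `C × C` which is an element of `F`, and the union of every sequence of subsets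
of `C × C` which are elements of `F`. -/
def IsSg (w C F : N) : Prop :=
  (∀ A B D, Sub E A C → Sub E B C → IsRel E C D → (∀ x y, Val E D x y ↔ E x A ∧ E y B) → E D F) ∧
  (∀ D D', E D F → IsRel E C D → IsRel E C D' →
    (∀ x y, E x C → E y C → (Val E D' x y ↔ ¬ Val E D x y)) → E D' F) ∧
  ∀ S D, IsFun E S w → IsTo E S F → (∀ n D', Val E S n D' → IsRel E C D') → IsRel E C D →
    (∀ x y, Val E D x y ↔ ∃ n D', Val E S n D' ∧ Val E D' x y) → E D F

/-- Every universal analytic subset of `C × C` belongs to the sigma-algebra generated by the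
rectangles (that is, to every `F` as in `IsSg`). -/
def UASigma : Prop :=
  ∀ w C U F, IsOm E w → IsPw E C w → IsUA E w C U → IsSg E w C F → E U F

end

end RVI
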