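import Pool.Agent.RVI.MsA

/-! # `#K`-additivity of the measure of the model (package MC)

(problem MP_75f27a_lc, project RVI)

`Z = NG.mk G z` for a name `z`. Let `ψ ξ` be the truth value (`CPI.tv`) of
`∃ A, A ∈ z ∧ kk ξ ∈ A`, and `c` the
truth value of `Sub z QN ∧ Sm z KN ∧ ∀ A, A ∈ z → Val m A (nr (cR 0))`; `c ∈ G.s`.
(1) `D = sk ψ` in `NG G` (`sk_ext`): `D ⊆ KN` (`pw_QN`), and for all `x ∈ KN`:
`x ∈ sk ψ ↔ ∃ A, A ∈ z ∧ x ∈ A` in all quotients (`st_all` over `kk`, `mem_sk`, `tv_iff`).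
(2) Claim: `c ≤ cl {fm ψ = 0}`. `RO.le_def`, `RO.locally`: let `p ∈ c` and `q ≤ p`; find `r ≤ q`
with
`r ∈ cl {fm ψ = 0}`. `q` forces the three statements (`F.iff_mem`). As in the proof of `KN_cd`
(file `KpB`):
`F.ex`, `F.and`, `F.mem`, `mem_st`, `RO.mem_iSup` give `r ≤ q`, `ξ0 : K` and a name `f` such that
`r` forces
`IsFun f (kk ξ0)` and `∀ y ∈ z, ∃ u ∈ kk ξ0, Val f u y`. For `b : Bl ξ0` let `θ b ξ` be the truth
value of
`∃ A, Val f (kk b) A ∧ A ∈ z ∧ kk ξ ∈ A`.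
(2a) `RO.up r ≤ cl {fm (θ b) = 0}`: `Ult.mem_of_all`: let `RO.up r ∈ G'.s`. If in `NG G'` there is
`A` with
`Val f (kk b) A` and `A ∈ z` then it is unique, `A ∈ QN`, and `A = sk (θ b)` (`sk_ext` as in (1)),
so
`Val m (sk (θ b)) (nr (cR 0))`, and `m_val`, `nr_eq` give `cl {fm (θ b) = 0} ∈ G'.s`. If there is
no such `A` then
`sk (θ b)` has no elements in `NG G'`, so it is equal to `sk ⊥` (`sk_ext`), `m_val` twice and
`nr_eq`:
`cl {fm (θ b) = fm ⊥} ∈ G'.s`, and `cl {fm ⊥ = 0} = ⊤` (`fm_bot_ev`), so `cl {fm (θ b) = 0} ∈ G'.s`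
(`cl_mem_of_ae`).
(2b) `fm_null` with `I := Bl ξ0` (`card_Bl`): `RO.up r ≤ cl {fm (⨆ b, θ b ·) = 0}`.
(2c) `RO.up r ⊓ ψ ξ ≤ ⨆ b, θ b ξ` and `⨆ b, θ b ξ ≤ ψ ξ`: the second is clear. For the first,
`Ult.mem_of_all`: in `NG G'` there is `A ∈ z` with `kk ξ ∈ A`, so there is `u ∈ kk ξ0` with
`Val f u A`: the
statement `∃ u ∈ kk ξ0, ∃ A, Val f u A ∧ A ∈ z ∧ kk ξ ∈ A` is true in `NG G'`; by `kk_al` and
`st_bex` over
`Bl ξ0` it has the truth value `⨆ b, θ b ξ`. `fm_congr` with `c := RO.up r`; so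
`RO.up r ≤ cl {fm ψ = 0}`, and `r ∈ cl {fm ψ = 0}` (`RO.up_le`).
(3) `m_val`, `nr_eq`: `Val m (sk ψ) (nr (cR 0))` as `cl {fm ψ = 0} ∈ G.s`. -/

set_option autoImplicit false

namespace RVI

open MeasureTheory STP STP.BSet CPI Cardinal

variable {K : Type} {U : Ultrafilter K} {Ω : Type} [MeasurableSpace Ω] {μ : Measure Ω}
  [IsProbabilityMeasure μ]

private theorem mn_fz (G : Ult (RO (Ps μ))) (f : RR Ω) :
    cl μ {ω | f.1 ω = 0} ∈ G.s ↔ NG.mk G (nr μ f) = NG.mk G (nr μ (cR 0)) :=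
  (nr_eq G (f := f) (g := cR 0)).symm

private theorem mn_fm (hU : IsMU U) (G : Ult (RO (Ps μ))) (ψ : K → RO (Ps μ)) :
    Val (EG G) (NG.mk G (mN μ hU)) (NG.mk G (sk ψ)) (NG.mk G (nr μ (cR 0))) ↔
      cl μ {ω | (fm hU ψ).1 ω = 0} ∈ G.s := by
  rw [m_val, mn_fz]
  exact eq_comm

omit [IsProbabilityMeasure μ] in
private theorem mn_bot (G : Ult (RO (Ps μ))) (x : NG G)
    (h : EG G x (NG.mk G (sk fun _ : K => (⊥ : RO (Ps μ))))) : False :=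
  st_all kk (fun _ => ⊥) (fun _ _ => False) (fun _ G h => G.bot h) G x h

/-- the truth value of `ξ ∈ f(b)` and `f(b) ∈ z` -/
private noncomputable def mth (z f : BSet (RO (Ps μ))) (b ξ : K) : RO (Ps μ) :=
  tv fun G : Ult (RO (Ps μ)) => ∃ A, Val (EG G) (NG.mk G f) (NG.mk G (kk b)) A ∧
    EG G A (NG.mk G z) ∧ EG G (NG.mk G (kk ξ)) A

/-- the truth value of `ξ` is in the union of `z` -/
private noncomputable def mps (z : BSet (RO (Ps μ))) (ξ : K) : RO (Ps μ) :=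
  tv fun G : Ult (RO (Ps μ)) => ∃ A, EG G A (NG.mk G z) ∧ EG G (NG.mk G (kk ξ)) A

omit [IsProbabilityMeasure μ] in
private theorem mem_mps (z : BSet (RO (Ps μ))) (G : Ult (RO (Ps μ))) (x : NG G) :
    EG G x (NG.mk G (sk (K := K) (mps z))) ↔
      EG G x (NG.mk G (KN K)) ∧ ∃ A, EG G A (NG.mk G z) ∧ EG G x A :=
  st_sep kk (fun G x => ∃ A, EG G A (NG.mk G z) ∧ EG G x A) G x

omit [IsProbabilityMeasure μ] in
private theorem mem_mth (z f : BSet (RO (Ps μ))) (b : K) (G : Ult (RO (Ps μ))) (x : NG G) :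
    EG G x (NG.mk G (sk (K := K) (mth z f b))) ↔ EG G x (NG.mk G (KN K)) ∧
      ∃ A, Val (EG G) (NG.mk G f) (NG.mk G (kk b)) A ∧ EG G A (NG.mk G z) ∧ EG G x A :=
  st_sep kk (fun G x => ∃ A, Val (EG G) (NG.mk G f) (NG.mk G (kk b)) A ∧
    EG G A (NG.mk G z) ∧ EG G x A) G x

private theorem mn_a (hU : IsMU U) (z f : BSet (RO (Ps μ))) (ξ0 b : K) (G : Ult (RO (Ps μ)))
    (h1 : Sub (EG G) (NG.mk G z) (NG.mk G (QN K)))
    (h2 : ∀ A, EG G A (NG.mk G z) →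
      Val (EG G) (NG.mk G (mN μ hU)) A (NG.mk G (nr μ (cR 0))))
    (h3 : IsFun (EG G) (NG.mk G f) (NG.mk G (kk ξ0))) :
    cl μ {ω | (fm hU (mth z f b)).1 ω = 0} ∈ G.s := by
  rw [← mn_fm]
  by_cases hA : ∃ A, Val (EG G) (NG.mk G f) (NG.mk G (kk b)) A ∧ EG G A (NG.mk G z)
  · obtain ⟨A, hA1, hA2⟩ := hA
    have hs : A = NG.mk G (sk (mth z f b)) := by
      refine sk_ext G ((pw_QN G A).1 (h1 A hA2)) fun x hx => ?_
      rw [mem_mth]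
      constructor
      · intro h
        exact ⟨hx, A, hA1, hA2, h⟩
      · rintro ⟨-, B, hB1, -, hB3⟩
        rwa [h3.2.2 _ _ _ hA1 hB1]
    rw [← hs]
    exact h2 A hA2
  · have hs : NG.mk G (sk (mth z f b)) = NG.mk G (sk fun _ : K => (⊥ : RO (Ps μ))) := by
      refine sk_ext G (fun x hx => ((mem_mth z f b G x).1 hx).1) fun x _ => ?_
      constructor
      · intro h
        obtain ⟨-, B, hB1, hB2, -⟩ := (mem_mth z f b G x).1 h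
        exact (hA ⟨B, hB1, hB2⟩).elim
      · intro h
        exact (mn_bot G x h).elim
    rw [hs, mn_fm]
    refine G.up G.top (fm_bot_ev hU _ ⊤ ?_)
    have h4 : {ξ : K | (⊤ : RO (Ps μ)) ⊓ ⊥ = ⊥} = Set.univ := by
      ext ξ
      simp
    rw [h4]
    exact Filter.univ_mem

private theorem mn_main (hU : IsMU U) (z f : BSet (RO (Ps μ))) (ξ0 : K) (r : Ps μ)
    (h1 : F r fun G => Sub (EG G) (NG.mk G z) (NG.mk G (QN K)))
    (h2 : F r fun G => ∀ A, EG G A (NG.mk G z) →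
      Val (EG G) (NG.mk G (mN μ hU)) A (NG.mk G (nr μ (cR 0))))
    (h3 : F r fun G => IsFun (EG G) (NG.mk G f) (NG.mk G (kk ξ0)))
    (h4 : F r fun G => ∀ y, EG G y (NG.mk G z) →
      ∃ u, EG G u (NG.mk G (kk ξ0)) ∧ Val (EG G) (NG.mk G f) u y) :
    RO.up r ≤ cl μ {ω | (fm hU (mps z)).1 ω = 0} := by
  have ha : RO.up r ≤ cl μ {ω | (fm hU fun ξ => ⨆ b : Bl ξ0, mth z f b.1 ξ).1 ω = 0} :=
    fm_null hU (card_Bl ξ0) (fun b : Bl ξ0 => mth z f b.1) (RO.up r) fun b =>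
      Ult.mem_of_all fun G hG => mn_a hU z f ξ0 b.1 G (h1 G hG) (h2 G hG) (h3 G hG)
  have hb : RO.up r ≤ cl μ {ω | (fm hU (mps z)).1 ω =
      (fm hU fun ξ => ⨆ b : Bl ξ0, mth z f b.1 ξ).1 ω} := by
    refine fm_congr hU _ _ _ (fun ξ => ?_) fun ξ => ?_
    · refine Ult.mem_of_all fun G hG => ?_
      obtain ⟨hG1, hG2⟩ := inf_mem.1 hG
      obtain ⟨A, hA1, hA2⟩ := (tv_iff (S := fun G : Ult (RO (Ps μ)) =>
        ∃ A, EG G A (NG.mk G z) ∧ EG G (NG.mk G (kk ξ)) A)).2 hG2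
      obtain ⟨u, hu1, hu2⟩ := h4 G hG1 A hA1
      rw [kk_al] at hu1
      have h5 := (st_bex (fun b : Bl ξ0 => kk b.1) (fun _ => ⊤)
        (fun G u => ∃ A, Val (EG G) (NG.mk G f) u A ∧ EG G A (NG.mk G z) ∧
          EG G (NG.mk G (kk ξ)) A) (fun b => mth z f b.1 ξ)
        (fun b G => tv_iff (S := fun G : Ult (RO (Ps μ)) =>
          ∃ A, Val (EG G) (NG.mk G f) (NG.mk G (kk b.1)) A ∧
            EG G A (NG.mk G z) ∧ EG G (NG.mk G (kk ξ)) A)) G).1 ⟨u, hu1, A, hu2, hA1, hA2⟩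
      refine G.up h5 (iSup_mono fun b => inf_le_right)
    · refine inf_le_right.trans (iSup_le fun b => Ult.mem_of_all fun G hG => ?_)
      obtain ⟨A, -, hA2, hA3⟩ := (tv_iff (S := fun G : Ult (RO (Ps μ)) =>
        ∃ A, Val (EG G) (NG.mk G f) (NG.mk G (kk b.1)) A ∧
          EG G A (NG.mk G z) ∧ EG G (NG.mk G (kk ξ)) A)).2 hG
      exact (tv_iff (S := fun G : Ult (RO (Ps μ)) =>
        ∃ A, EG G A (NG.mk G z) ∧ EG G (NG.mk G (kk ξ)) A)).1 ⟨A, hA2, hA3⟩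
  refine Ult.mem_of_all fun G hG => ?_
  rw [mn_fz]
  have h5 := (mn_fz G _).1 (G.up hG ha)
  have h6 := (nr_eq G).2 (G.up hG hb)
  exact h6.trans h5

private theorem mn_claim (hU : IsMU U) (z : BSet (RO (Ps μ))) (G : Ult (RO (Ps μ)))
    (h1 : Sub (EG G) (NG.mk G z) (NG.mk G (QN K)))
    (h2 : Sm (EG G) (NG.mk G z) (NG.mk G (KN K)))
    (h3 : ∀ A, EG G A (NG.mk G z) →
      Val (EG G) (NG.mk G (mN μ hU)) A (NG.mk G (nr μ (cR 0)))) :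
    cl μ {ω | (fm hU (mps z)).1 ω = 0} ∈ G.s := by
  set b : RO (Ps μ) := cl μ {ω | (fm hU (mps z)).1 ω = 0} with hb
  have : TV fun G : Ult (RO (Ps μ)) => b ∈ G.s := TV.mk' b fun _ => Iff.rfl
  refine F.top (S := fun G : Ult (RO (Ps μ)) =>
    (Sub (EG G) (NG.mk G z) (NG.mk G (QN K)) ∧ Sm (EG G) (NG.mk G z) (NG.mk G (KN K)) ∧
      ∀ A, EG G A (NG.mk G z) → Val (EG G) (NG.mk G (mN μ hU)) A (NG.mk G (nr μ (cR 0)))) →
      b ∈ G.s) (fun p => F.imp.2 fun q _ h => ?_) G ⟨h1, h2, h3⟩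
  obtain ⟨g1, g2⟩ := F.and.1 h
  obtain ⟨g2, g3⟩ := F.and.1 g2
  refine F.loc fun q' hq' => ?_
  unfold Sm at g2
  obtain ⟨A, hA⟩ := F.ex.1 (F.mono hq' g2)
  obtain ⟨hA1, hA2⟩ := F.and.1 hA
  obtain ⟨f, hf⟩ := F.ex.1 hA2
  obtain ⟨hf1, hf2⟩ := F.and.1 hf
  rw [F.mem] at hA1
  unfold KN al at hA1
  rw [mem_st, RO.mem_iSup] at hA1
  obtain ⟨r, hr, ξ, h4⟩ := hA1 q' le_rfl
  rw [top_inf_eq] at h4
  have h5 : F r fun G => NG.mk G A = NG.mk G (kk ξ) := F.eq.2 h4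
  refine ⟨r, hr, ?_⟩
  refine (F.of_val (S := fun G : Ult (RO (Ps μ)) => b ∈ G.s) (b := b) fun _ => Iff.rfl).2
    (RO.up_le.1 (mn_main hU z f ξ r (g1.mono (hr.trans hq')) (g3.mono (hr.trans hq')) ?_ ?_))
  · intro G hG
    have h6 : IsFun (EG G) (NG.mk G f) (NG.mk G A) := hf1 G (up_mem hr hG)
    have h7 : NG.mk G A = NG.mk G (kk ξ) := h5 G hG
    rwa [h7] at h6
  · intro G hG y hy
    have h6 := hf2 G (up_mem hr hG) y hy
    have h7 : NG.mk G A = NG.mk G (kk ξ) := h5 G hG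
    rwa [h7] at h6

theorem m_null (hU : IsMU U) (G : Ult (RO (Ps μ))) (Z D : NG G)
    (hZ : Sub (EG G) Z (NG.mk G (QN K))) (hZ' : Sm (EG G) Z (NG.mk G (KN K)))
    (h : ∀ A, EG G A Z → Val (EG G) (NG.mk G (mN μ hU)) A (NG.mk G (nr μ (cR 0))))
    (hD : IsUn (EG G) D Z) : Val (EG G) (NG.mk G (mN μ hU)) D (NG.mk G (nr μ (cR 0))) := by
  obtain ⟨z, rfl⟩ := NG.exists_rep Z
  have h1 : D = NG.mk G (sk (K := K) (mps z)) := by
    refine sk_ext G ?_ fun x hx => ?_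
    · intro x hx
      obtain ⟨A, hA1, hA2⟩ := (hD x).1 hx
      exact (pw_QN G A).1 (hZ A hA1) x hA2
    · rw [mem_mps, hD x]
      exact ⟨fun h => ⟨hx, h⟩, fun h => h.2⟩
  rw [h1, mn_fm]
  exact mn_claim hU z G hZ hZ' h

end RVI
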