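import Pool.Agent.RVI.MsB
import Pool.Agent.RVI.MsC
import Pool.Agent.RVI.FdD
import Pool.Agent.RVI.KpB

/-! # The continuum is real-valued measurable in the model

(problem MP_75f27a_lc, project RVI; assembly) -/

set_option autoImplicit false

namespace RVI

open MeasureTheory STP STP.BSet CPI Cardinal

variable {K : Type} {U : Ultrafilter K} {Ω : Type} [MeasurableSpace Ω] {μ : Measure Ω}
  [IsProbabilityMeasure μ]

theorem rvmc (hU : IsMU U) (r e : K → RB Ω)
    (hr : ∀ a b, a ≠ b → μ {ω | (r a).1 ω = (r b).1 ω} = 0)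
    (he : ∀ X : RB Ω, ∃ a, ∀ᵐ ω ∂μ, X.1 ω = (e a).1 ω) (G : Ult (RO (Ps μ))) :
    RVMC (EG G) :=
  ⟨NG.mk G oN, NG.mk G (CN μ), NG.mk G (KN K), NG.mk G (QN K), NG.mk G (RN μ), NG.mk G (lN μ),
    NG.mk G (sN μ), NG.mk G (tN μ), NG.mk G (nr μ (cR 0)), NG.mk G (nr μ (cR 1)),
    NG.mk G (mN μ hU), oN_om G, pw_CN G, KN_card hU.unc r e hr he G, pw_QN G, isRF G,
    { dom := m_dom hU G
      val := m_to hU G
      nonneg := m_nonneg hU G
      total := m_total hU G
      point := m_point hU G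
      add := m_add hU G
      cont := m_cont hU G
      null := m_null hU G }⟩

end RVI
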