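import Pool.Agent.RVI.OmA
import Pool.Agent.RVI.MsD
import Pool.Agent.RVI.DaC
import Pool.Agent.RVI.FaC
import Pool.Agent.RVI.Co

/-! # Both halves of the independence theorem (assembly)

(problem MP_75f27a_lc, project RVI) -/

set_option autoImplicit false

namespace RVI

open MeasureTheory STP STP.BSet CPI Cardinal Pool.RVM

variable {K : Type} {U : Ultrafilter K}

theorem exists_ult : Nonempty (Ult (RO (Ps (mu K)))) := by
  obtain ⟨G, -⟩ := Ult.exists_mem (B := RO (Ps (mu K))) (b := ⊤) (by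
    intro h
    have h1 : (⟨Set.univ, MeasurableSet.univ, by simp⟩ : Ps (mu K)) ∈ (⊤ : RO (Ps (mu K))) :=
      RO.mem_top
    rw [h] at h1
    exact RO.not_mem_bot h1)
  exact ⟨G⟩

theorem main_pos (hU : IsMU U) (hCH : continuum = aleph 1) (hKur : CofKurepa K) :
    ∃ (N : Type 1) (E : N → N → Prop), ZFC E ∧ RVMC E ∧ UASigma E ∧
      ∃ w C A, IsOm E w ∧ IsPw E C w ∧ IsUA E w C A := by
  obtain ⟨G⟩ := exists_ult (K := K)
  obtain ⟨e, he⟩ := exists_e hU
  exact ⟨NG G, EG G, NG_zfc G, rvmc hU rr e (fun _ _ h => rr_ne h) he G,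
    uasigma e he (fun T hT => core hCH hU.unc hKur T hT e e) G,
    NG.mk G oN, NG.mk G (CN (mu K)), NG.mk G (UN (mu K)), oN_om G, pw_CN G, ua_UN G⟩

theorem main_neg (hU : IsMU U)
    (hW : ∃ W : Set (unitInterval × unitInterval), UniversalAnalytic W ∧ ¬ RectMeas W) :
    ∃ (N : Type 1) (E : N → N → Prop), ZFC E ∧ RVMC E ∧ ¬ UASigma E := by
  obtain ⟨G⟩ := exists_ult (K := K)
  obtain ⟨e, he⟩ := exists_e hU
  obtain ⟨W, hW1, hW2⟩ := hW
  exact ⟨NG G, EG G, NG_zfc G, rvmc hU rr e (fun _ _ h => rr_ne h) he G,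
    not_uasigma (fun h => hW2 (rectMeas_universal h hW1.1)) G⟩

end RVI
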