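import Pool.Agent.RVI.UmD
import Pool.Agent.RVI.FdA
import Pool.Agent.RVI.KpA

/-! # The measure of the model: domain, values, points, additivity (package MA)

(problem MP_75f27a_lc, project RVI)

* `ext_m`: `eq (sk ψ) (sk ψ') ≤ eq (nr (fm ψ)) (nr (fm ψ'))`: let `c` be the left side;
  `c ⊓ ψ ξ ≤ ψ' ξ`
  (`mem_congr_right`, `mem_st_dsc kk_dsc`: `mem (kk ξ) (sk ψ) = ψ ξ`); `fm_congr` and `eq_nr`. So
  `gr_val`, `gr_fun` apply.
* `m_val`: `gr_val`. `m_dom`: `gr_fun`, `m_to`: `gr_to`.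
* `m_nonneg`: `A` is in the domain `QN`, so `A = sk ψ` (`Full.rep full_sk`), `x = nr (fm ψ)`
  (`m_val`); `nr_lt`: the set
  `{fm ψ < 0}` is empty (`fm_nonneg`), `cl_empty`, `G.bot`.
* `m_total`: `KN K` is `sk fun _ => ⊤` (definitionally: `al kk = st kk fun _ => ⊤`); `m_val`,
  `nr_eq`, `fm_top`
  (`cl_congr`, `cl_univ`).
* `sk_ext`: if `A ⊆ KN` and for all `ξ`, all `G`.. : see below; it is the statement that
  `A = sk ψ` in `NG G` if the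
  statement `∀ z ∈ KN, (z ∈ A ↔ z ∈ sk ψ)` holds: `(NG_zfc G).ext`, elements of `sk ψ` are in `KN`
  (`pw_QN`, `al_mem`).
* `m_point`: `st_all` over `KN = al kk` for the statement
  `S G a := ∀ A, (∀ z, EG G z A ↔ z = a) → Val (EG G) (mN) A (nr (cR 0))`; at `a = kk ξ`:
  `A = sk (fun ζ => chi (ζ = ξ))`
  by `sk_ext` (`st_all` over `kk`: `kk ζ = kk ξ ↔ ζ = ξ`, `kk_eq`, `mem_sk`, `CPI.chi_mem`);
  `m_val`, `nr_eq`,
  `fm_point`.
* `m_add`: `A = sk ψ`, `B = sk ψ'` (`pw_QN`, `Full.rep`). `D = sk (ψ ⊔ ψ')` by `sk_ext`: `D ⊆ KN`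
  clear; for
  all `z ∈ KN`: `z ∈ sk (ψ ⊔ ψ') ↔ z ∈ sk ψ ∨ z ∈ sk ψ'`: `st_all` over `kk`, `mem_sk` and the
  ultrafilter property `a ⊔ b ∈ G.s ↔ a ∈ G.s ∨ b ∈ G.s`. Disjointness: the statement
  `∀ u ∈ KN, ¬ (u ∈ sk ψ ∧ u ∈ sk ψ')` has the truth value `c := ⨅ ξ, (⊤ ⇨ (ψ ξ ⊓ ψ' ξ)ᶜ)`
  (`st_ball`), so
  `c ∈ G.s`; `fm_add` for `c`. `x`, `y`, `z` by `m_val`, `nr_add`, `nr_eq`, `addR`. -/

set_option autoImplicit false

namespace RVI

open MeasureTheory STP STP.BSet CPI Cardinal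

variable {K : Type} {U : Ultrafilter K} {Ω : Type} [MeasurableSpace Ω] {μ : Measure Ω}
  [IsProbabilityMeasure μ]

/-- the name of the measure -/
noncomputable def mN (μ : Measure Ω) [IsProbabilityMeasure μ] (hU : IsMU U) : BSet (RO (Ps μ)) :=
  gr sk (nr μ) (fm hU)

private theorem fdom {N : Type*} {E : N → N → Prop} (hE : ZFC E) {f a x y : N}
    (hf : IsFun E f a) (h : Val E f x y) : E x a := by
  obtain ⟨p, hp, hop⟩ := h
  obtain ⟨x', y', hx', hop'⟩ := hf.1 p hp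
  obtain ⟨h1, -⟩ := IsOP.inj hE hop hop'
  rw [h1]
  exact hx'

theorem ext_m (hU : IsMU U) (ψ ψ' : K → RO (Ps μ)) :
    BSet.eq (sk ψ) (sk ψ') ≤ BSet.eq (nr μ (fm hU ψ)) (nr μ (fm hU ψ')) := by
  rw [eq_nr]
  refine fm_congr hU ψ ψ' _ (fun ξ => ?_) fun ξ => ?_
  · unfold sk
    rw [eq_st_dsc kk_dsc]
    refine (inf_le_inf_right _ ((iInf_le _ ξ).trans inf_le_left)).trans himp_inf_le
  · unfold sk
    rw [eq_st_dsc kk_dsc]
    refine (inf_le_inf_right _ ((iInf_le _ ξ).trans inf_le_right)).trans himp_inf_le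

theorem m_val (hU : IsMU U) (G : Ult (RO (Ps μ))) (ψ : K → RO (Ps μ)) (y : NG G) :
    Val (EG G) (NG.mk G (mN μ hU)) (NG.mk G (sk ψ)) y ↔ y = NG.mk G (nr μ (fm hU ψ)) :=
  gr_val (ext_m hU) G ψ y

theorem m_dom (hU : IsMU U) (G : Ult (RO (Ps μ))) :
    IsFun (EG G) (NG.mk G (mN μ hU)) (NG.mk G (QN K)) :=
  gr_fun (ext_m hU) G

theorem m_to (hU : IsMU U) (G : Ult (RO (Ps μ))) :
    IsTo (EG G) (NG.mk G (mN μ hU)) (NG.mk G (RN μ)) :=
  gr_to _ _ _ G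

theorem m_nonneg (hU : IsMU U) (G : Ult (RO (Ps μ))) (A x : NG G)
    (h : Val (EG G) (NG.mk G (mN μ hU)) A x) :
    ¬ Val (EG G) (NG.mk G (lN μ)) x (NG.mk G (nr μ (cR 0))) := by
  have hA : EG G A (NG.mk G (QN K)) := fdom (NG_zfc G) (m_dom hU G) h
  obtain ⟨ψ, rfl⟩ := Full.rep full_sk G A hA
  rw [m_val] at h
  subst h
  rw [nr_lt]
  intro h
  have h1 : {ω | (fm hU ψ).1 ω < (cR 0).1 ω} = ∅ := by
    ext ω
    simp only [Set.mem_ofPred_eq, Set.mem_empty_iff_false, iff_false, not_lt]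
    exact fm_nonneg hU ψ ω
  rw [h1, cl_empty] at h
  exact G.bot h

theorem m_total (hU : IsMU U) (G : Ult (RO (Ps μ))) :
    Val (EG G) (NG.mk G (mN μ hU)) (NG.mk G (KN K)) (NG.mk G (nr μ (cR 1))) := by
  have h0 : (KN K : BSet (RO (Ps μ))) = sk (fun _ : K => (⊤ : RO (Ps μ))) := rfl
  rw [h0, m_val, nr_eq]
  have h1 : cl μ {ω | (cR 1).1 ω = (fm hU fun _ : K => (⊤ : RO (Ps μ))).1 ω} = ⊤ := by
    refine (cl_congr ?_).trans cl_univ
    rw [Filter.eventuallyEq_univ]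
    filter_upwards [fm_top (μ := μ) hU] with ω hω
    exact hω.symm
  rw [h1]
  exact G.top

theorem sk_ext (G : Ult (RO (Ps μ))) {A : NG G} {ψ : K → RO (Ps μ)}
    (hA : Sub (EG G) A (NG.mk G (KN K)))
    (h : ∀ z, EG G z (NG.mk G (KN K)) → (EG G z A ↔ EG G z (NG.mk G (sk ψ)))) :
    A = NG.mk G (sk ψ) := by
  refine (NG_zfc G).ext _ _ fun z => ⟨fun hz => (h z (hA z hz)).1 hz, fun hz => ?_⟩
  exact (h z ((pw_QN G (NG.mk G (sk ψ))).1 (al_mem sk G ψ) z hz)).2 hz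

theorem m_point (hU : IsMU U) (G : Ult (RO (Ps μ))) (a A : NG G)
    (ha : EG G a (NG.mk G (KN K))) (hA : ∀ z, EG G z A ↔ z = a) :
    Val (EG G) (NG.mk G (mN μ hU)) A (NG.mk G (nr μ (cR 0))) := by
  refine st_all (kk (K := K)) (fun _ => ⊤)
    (fun G a => ∀ A, (∀ z, EG G z A ↔ z = a) →
      Val (EG G) (NG.mk G (mN μ hU)) A (NG.mk G (nr μ (cR 0)))) ?_ G a ha A hA
  intro ξ G _ A hA
  have h1 : A = NG.mk G (sk fun ζ : K => (chi (ζ = ξ) : RO (Ps μ))) := by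
    refine sk_ext G ?_ ?_
    · intro z hz
      rw [(hA z).1 hz]
      exact al_mem kk G ξ
    · intro z hz
      rw [hA z]
      refine st_all (kk (K := K)) (fun _ => ⊤)
        (fun G z => (z = NG.mk G (kk ξ) ↔
          EG G z (NG.mk G (sk fun ζ : K => (chi (ζ = ξ) : RO (Ps μ)))))) ?_ G z hz
      intro ζ G _
      rw [mem_sk, CPI.chi_mem, kk_eq]
  rw [h1, m_val, nr_eq]
  have h2 : cl μ {ω | (cR 0).1 ω = (fm hU fun ζ : K => (chi (ζ = ξ) : RO (Ps μ))).1 ω} = ⊤ := by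
    refine (cl_congr ?_).trans cl_univ
    rw [Filter.eventuallyEq_univ]
    filter_upwards [fm_point (μ := μ) hU ξ] with ω hω
    exact hω.symm
  rw [h2]
  exact G.top

theorem m_add (hU : IsMU U) (G : Ult (RO (Ps μ))) (A B D x y z : NG G)
    (hA : EG G A (NG.mk G (QN K))) (hB : EG G B (NG.mk G (QN K)))
    (hd : ∀ u, ¬ (EG G u A ∧ EG G u B)) (hD : ∀ u, EG G u D ↔ EG G u A ∨ EG G u B)
    (hx : Val (EG G) (NG.mk G (mN μ hU)) A x) (hy : Val (EG G) (NG.mk G (mN μ hU)) B y)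
    (hz : Val (EG G) (NG.mk G (mN μ hU)) D z) : Ap (EG G) (NG.mk G (sN μ)) x y z := by
  have hAK := (pw_QN G A).1 hA
  have hBK := (pw_QN G B).1 hB
  obtain ⟨ψ, rfl⟩ := Full.rep full_sk G A hA
  obtain ⟨ψ', rfl⟩ := Full.rep full_sk G B hB
  have h1 : D = NG.mk G (sk fun ξ => ψ ξ ⊔ ψ' ξ) := by
    refine sk_ext G ?_ ?_
    · intro z hz
      rcases (hD z).1 hz with h | h
      · exact hAK z h
      · exact hBK z h
    · intro z hz
      rw [hD z]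
      refine st_all (kk (K := K)) (fun _ => ⊤)
        (fun G z => ((EG G z (NG.mk G (sk ψ)) ∨ EG G z (NG.mk G (sk ψ'))) ↔
          EG G z (NG.mk G (sk fun ξ => ψ ξ ⊔ ψ' ξ)))) ?_ G z hz
      intro ζ G _
      rw [mem_sk, mem_sk, mem_sk]
      constructor
      · rintro (h | h)
        · exact G.up h le_sup_left
        · exact G.up h le_sup_right
      · intro h
        by_contra hcon
        push Not at hcon
        have h2 := inf_mem.2 ⟨compl_mem.2 hcon.1, compl_mem.2 hcon.2⟩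
        rw [← compl_sup] at h2
        exact compl_mem.1 h2 h
  have h2 := (st_ball (kk (K := K)) (fun _ => ⊤)
    (fun G u => ¬ (EG G u (NG.mk G (sk ψ)) ∧ EG G u (NG.mk G (sk ψ'))))
    (fun ξ => (ψ ξ ⊓ ψ' ξ)ᶜ) (fun ξ G => by
      rw [mem_sk, mem_sk, compl_mem, inf_mem]) G).1 fun u _ => hd u
  rw [m_val] at hx hy
  rw [h1, m_val] at hz
  rw [hx, hy, nr_add, hz, nr_eq]
  refine G.up h2 ?_
  refine fm_add hU ψ ψ' _ fun ξ => ?_
  refine le_bot_iff.1 ?_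
  have h3 : (⨅ a, ((⊤ : RO (Ps μ)) ⇨ (ψ a ⊓ ψ' a)ᶜ)) ≤ (ψ ξ ⊓ ψ' ξ)ᶜ := by
    refine (iInf_le _ ξ).trans ?_
    rw [top_himp]
  refine (inf_le_inf_right _ h3).trans ?_
  rw [compl_inf_self]

end RVI
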