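import Pool.Agent.RVI.MsA

/-! # Continuity of the measure of the model (package MB)

(problem MP_75f27a_lc, project RVI)

`S = NG.mk G s` for a name `s`. For `n : ℕ` let `ψ n ξ` be the truth value (`CPI.tv`) of the
statement
`∃ A, Val S (nn n) A ∧ kk ξ ∈ A`, and let `c0` be the truth value of the conjunction of
`IsFun S oN`,
`IsTo S QN` and the monotonicity of `S`; `c0 ∈ G.s` (`tv_iff`).
(1) In every `NG G'` with `c0 ∈ G'.s`: `Val S (nn n) (sk (ψ n))`: there is a value `A` at `nn n`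
(`al_mem`), `A ∈ QN`, `A = sk θ` (`Full.rep full_sk`), and `A = sk (ψ n)` by `sk_ext`: for all
`z ∈ KN`:
`z ∈ sk (ψ n) ↔ ∃ A, Val S (nn n) A ∧ z ∈ A` (true in all `NG G'`: `st_all` over `kk`, `mem_sk`,
`tv_iff`) and the
value `A` is unique.
(2) Let `ψ' ξ := ⨆ n, ψ n ξ`. In `NG G`: `D = sk ψ'` by `sk_ext`: `D ⊆ KN` as the values are in `QN`
(`pw_QN`); and for all `z ∈ KN`: `z ∈ sk ψ' ↔ ∃ n, n ∈ oN ∧ ∃ A, Val S n A ∧ z ∈ A` (in all
`NG G'`: `st_all` over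
`kk`, then `st_bex` over `nn` with `φ = ⊤`, `b n := ψ n ξ`, `top_inf_eq`); `Val S n A` implies
`n ∈ oN` by the first
clause of `IsFun` and `IsOP.inj`.
(3) `b = nr h` (`mem_RN`). The statement `T n := ∀ A x, Val S n A → Val m A x → ¬ Val l b x` has a
truth value
at every `nn n`, `b n := tv ..`; the hypothesis says (as in (2)) that `∀ n ∈ oN, T n` holds in
`NG G`, so
`⨅ n, (⊤ ⇨ b n) ∈ G.s` (`st_ball`). Let `c := c0 ⊓ ⨅ n, b n ∈ G.s`. For every `G'` with `c ∈ G'.s`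
and every `n`:
`T (nn n)` with `A := sk (ψ n)`, `x := nr (fm (ψ n))` (`m_val`): `cl {h < fm (ψ n)} ∉ G'.s`
(`nr_lt`), so
`cl {fm (ψ n) ≤ h} ∈ G'.s` (`cl_compl`, `compl_mem`). By `Ult.mem_of_all`:
`c ≤ cl {fm (ψ n) ≤ h}`. Similarly
`c ⊓ ψ n ξ ≤ ψ (n + 1) ξ`: in `NG G'`: `kk ξ ∈ sk (ψ n) = S(n) ⊆ S(n + 1) = sk (ψ (n + 1))`
(`nn_mem`).
(4) `fm_cont`: `c ≤ cl {fm ψ' ≤ h}`, so this class is in `G.s`; `y = nr (fm ψ')` (`m_val`) and
`nr_lt`,
`cl_compl`, `compl_mem` give `¬ Val l b y`. -/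

set_option autoImplicit false

namespace RVI

open MeasureTheory STP STP.BSet CPI Cardinal

variable {K : Type} {U : Ultrafilter K} {Ω : Type} [MeasurableSpace Ω] {μ : Measure Ω}
  [IsProbabilityMeasure μ]

/-- truth value of `kk ξ ∈ S(n)` -/
private noncomputable def pv (s : BSet (RO (Ps μ))) (n : ℕ) (ξ : K) : RO (Ps μ) :=
  tv fun G => ∃ A, Val (EG G) (NG.mk G s) (NG.mk G (nn n)) A ∧ EG G (NG.mk G (kk ξ)) A

private theorem pv_iff {G : Ult (RO (Ps μ))} {s : BSet (RO (Ps μ))} {n : ℕ} {ξ : K} :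
    (∃ A, Val (EG G) (NG.mk G s) (NG.mk G (nn n)) A ∧ EG G (NG.mk G (kk ξ)) A) ↔
      pv s n ξ ∈ G.s :=
  tv_iff (S := fun G => ∃ A, Val (EG G) (NG.mk G s) (NG.mk G (nn n)) A ∧
    EG G (NG.mk G (kk ξ)) A)

private theorem pv_mem (s : BSet (RO (Ps μ))) (n : ℕ) (G : Ult (RO (Ps μ))) (z : NG G)
    (hz : EG G z (NG.mk G (KN K))) :
    EG G z (NG.mk G (sk (pv (K := K) s n))) ↔
      ∃ A, Val (EG G) (NG.mk G s) (NG.mk G (nn n)) A ∧ EG G z A :=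
  st_all (kk (K := K)) (fun _ => ⊤) (fun G z => (EG G z (NG.mk G (sk (pv (K := K) s n))) ↔
      ∃ A, Val (EG G) (NG.mk G s) (NG.mk G (nn n)) A ∧ EG G z A))
    (fun _ G _ => (mem_sk G).trans pv_iff.symm) G z hz

private theorem pv_val (s : BSet (RO (Ps μ))) (n : ℕ) (G : Ult (RO (Ps μ)))
    (hS : IsFun (EG G) (NG.mk G s) (NG.mk G oN))
    (hS' : IsTo (EG G) (NG.mk G s) (NG.mk G (QN K))) :
    Val (EG G) (NG.mk G s) (NG.mk G (nn n)) (NG.mk G (sk (pv (K := K) s n))) := by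
  obtain ⟨A, hA⟩ := hS.2.1 _ (al_mem nn G n)
  have hsub : Sub (EG G) A (NG.mk G (KN K)) := (pw_QN G A).1 (hS' _ _ hA)
  have h1 : A = NG.mk G (sk (pv (K := K) s n)) := by
    refine sk_ext G hsub fun z hz => ?_
    rw [pv_mem s n G z hz]
    constructor
    · exact fun h => ⟨A, hA, h⟩
    · rintro ⟨B, hB, h⟩
      rwa [hS.2.2 _ _ _ hA hB]
  rwa [← h1]

private theorem pv_sup (s : BSet (RO (Ps μ))) (G : Ult (RO (Ps μ))) (z : NG G)
    (hz : EG G z (NG.mk G (KN K))) :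
    EG G z (NG.mk G (sk fun ξ : K => ⨆ n, pv (K := K) s n ξ)) ↔
      ∃ n, EG G n (NG.mk G oN) ∧ ∃ A, Val (EG G) (NG.mk G s) n A ∧ EG G z A := by
  refine st_all (kk (K := K)) (fun _ => ⊤)
    (fun G z => (EG G z (NG.mk G (sk fun ξ : K => ⨆ n, pv (K := K) s n ξ)) ↔
      ∃ n, EG G n (NG.mk G oN) ∧ ∃ A, Val (EG G) (NG.mk G s) n A ∧ EG G z A))
    (fun ξ G _ => ?_) G z hz
  have h1 := st_bex (nn (P := Ps μ)) (fun _ => ⊤)
    (fun G n => ∃ A, Val (EG G) (NG.mk G s) n A ∧ EG G (NG.mk G (kk ξ)) A)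
    (fun n => pv s n ξ) (fun n G => pv_iff) G
  simp only [top_inf_eq] at h1
  exact (mem_sk G).trans h1.symm

theorem m_cont (hU : IsMU U) (G : Ult (RO (Ps μ))) (S D b y : NG G)
    (hS : IsFun (EG G) S (NG.mk G oN)) (hS' : IsTo (EG G) S (NG.mk G (QN K)))
    (hmon : ∀ n k A B, EG G n k → Val (EG G) S n A → Val (EG G) S k B → Sub (EG G) A B)
    (hD : ∀ u, EG G u D ↔ ∃ n A, Val (EG G) S n A ∧ EG G u A)
    (hb : EG G b (NG.mk G (RN μ)))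
    (h : ∀ n A x, Val (EG G) S n A → Val (EG G) (NG.mk G (mN μ hU)) A x →
      ¬ Val (EG G) (NG.mk G (lN μ)) b x)
    (hy : Val (EG G) (NG.mk G (mN μ hU)) D y) : ¬ Val (EG G) (NG.mk G (lN μ)) b y := by
  obtain ⟨s, rfl⟩ := NG.exists_rep S
  obtain ⟨g, rfl⟩ := (mem_RN G).1 hb
  -- the truth value of the hypotheses on the sequence
  let T0 : Ult (RO (Ps μ)) → Prop := fun G =>
    IsFun (EG G) (NG.mk G s) (NG.mk G oN) ∧ IsTo (EG G) (NG.mk G s) (NG.mk G (QN K)) ∧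
    ∀ n k A B, EG G n k → Val (EG G) (NG.mk G s) n A → Val (EG G) (NG.mk G s) k B →
      Sub (EG G) A B
  let T1 : (G : Ult (RO (Ps μ))) → NG G → Prop := fun G n => ∀ A x, Val (EG G) (NG.mk G s) n A →
    Val (EG G) (NG.mk G (mN μ hU)) A x → ¬ Val (EG G) (NG.mk G (lN μ)) (NG.mk G (nr μ g)) x
  have i0 : TV T0 := by
    have i1 : ∀ X Y Z W, TV fun G => EG G (NG.mk G X) (NG.mk G Y) →
        Val (EG G) (NG.mk G s) (NG.mk G X) (NG.mk G Z) →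
        Val (EG G) (NG.mk G s) (NG.mk G Y) (NG.mk G W) →
        Sub (EG G) (NG.mk G Z) (NG.mk G W) := fun X Y Z W => inferInstance
    exact inferInstance
  have i1 : ∀ X, TV fun G => T1 G (NG.mk G X) := fun X => inferInstance
  have hT1 : ∀ n, T1 G n := fun n A x hA hx => h n A x hA hx
  have h1 := (st_ball (nn (P := Ps μ)) (fun _ => ⊤) T1
    (fun n => tv fun G => T1 G (NG.mk G (nn n))) (fun n G => tv_iff (S := fun G =>
      T1 G (NG.mk G (nn n)))) G).1 fun x _ => hT1 x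
  simp only [top_himp] at h1
  have hT0 : tv T0 ∈ G.s := tv_iff.1 ⟨hS, hS', hmon⟩
  set c : RO (Ps μ) := tv T0 ⊓ ⨅ n, tv fun G => T1 G (NG.mk G (nn n)) with hc
  have hcG : c ∈ G.s := G.inf hT0 h1
  have hc0 : ∀ G' : Ult (RO (Ps μ)), c ∈ G'.s → T0 G' := fun G' hG' =>
    tv_iff.2 (G'.up hG' inf_le_left)
  have hc1 : ∀ G' : Ult (RO (Ps μ)), c ∈ G'.s → ∀ n : ℕ, T1 G' (NG.mk G' (nn n)) :=
    fun G' hG' n => (tv_iff (S := fun G => T1 G (NG.mk G (nn n)))).2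
      (G'.up hG' (inf_le_right.trans (iInf_le _ n)))
  have key : ∀ (G' : Ult (RO (Ps μ))) (f : RR Ω),
      ¬ Val (EG G') (NG.mk G' (lN μ)) (NG.mk G' (nr μ g)) (NG.mk G' (nr μ f)) ↔
        cl μ {ω | f.1 ω ≤ g.1 ω} ∈ G'.s := by
    intro G' f
    have h2 : {ω | f.1 ω ≤ g.1 ω} = {ω | g.1 ω < f.1 ω}ᶜ := by
      ext ω
      simp
    rw [nr_lt, h2, cl_compl (measurableSet_lt g.2 f.2).nullMeasurableSet, compl_mem]
  have hle := fm_cont hU (pv (K := K) s) c (fun n ξ => by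
    refine Ult.mem_of_all fun G' hG' => ?_
    obtain ⟨hcG', h2⟩ := inf_mem.1 hG'
    obtain ⟨k1, k2, k3⟩ := hc0 G' hcG'
    have h3 := (mem_sk G').2 h2
    exact (mem_sk G').1 (k3 _ _ _ _ ((nn_mem G').2 n.lt_succ_self) (pv_val s n G' k1 k2)
      (pv_val s (n + 1) G' k1 k2) _ h3)) g (fun n => by
    refine Ult.mem_of_all fun G' hcG' => ?_
    obtain ⟨k1, k2, k3⟩ := hc0 G' hcG'
    exact (key G' _).1 (hc1 G' hcG' n _ _ (pv_val s n G' k1 k2) ((m_val hU G' _ _).2 rfl)))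
  have hDe : D = NG.mk G (sk fun ξ : K => ⨆ n, pv (K := K) s n ξ) := by
    have hsub : Sub (EG G) D (NG.mk G (KN K)) := by
      intro z hz
      obtain ⟨n, A, hA, hzA⟩ := (hD z).1 hz
      exact (pw_QN G A).1 (hS' _ _ hA) z hzA
    refine sk_ext G hsub fun z hz => ?_
    rw [pv_sup s G z hz, hD z]
    constructor
    · rintro ⟨n, A, hA, hzA⟩
      refine ⟨n, ?_, A, hA, hzA⟩
      obtain ⟨p, hp, hp'⟩ := hA
      obtain ⟨x, y', hx, hxy⟩ := hS.1 p hp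
      obtain ⟨rfl, -⟩ := IsOP.inj (NG_zfc G) hxy hp'
      exact hx
    · rintro ⟨n, -, A, hA, hzA⟩
      exact ⟨n, A, hA, hzA⟩
  rw [hDe, m_val] at hy
  rw [hy, key]
  exact G.up hcG hle

end RVI
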