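import Pool.Agent.RVI.Tv

/-! # Names of sets, relations and functions given by types of names (definitions)

(problem MP_75f27a_lc, project RVI; no sorry in this file)

A type `A` with a family `nm : A → BSet (RO P)` of names (which may have nontrivial truth values of
equality) is treated as a set of the Boolean valued model.
* `st nm φ`: the set with the elements `nm a` (truth value `φ a`), `al nm`: all truth values are
  `⊤`.
* `rt na nc ρ`: the set of the pairs `(na a, nc c)` (truth value `ρ a c`).
* `gr na nc f`: the function `na a ↦ nc (f a)`; `gr2 na nc nd f`: the function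
  `(na a, nc c) ↦ nd (f a c)`.
* `Ex1 nm φ`: `φ` respects equality; `Dsc nm`: different elements are different with truth value
  `⊤`.
* `Full nm`: every name of an element of `al nm` is some `nm a`. -/

namespace RVI

open STP STP.BSet CPI

section

variable {P : Type} [PartialOrder P] {A C D : Type}

/-- the name of the set of all `nm a`, with the truth values `φ a` -/
def st (nm : A → BSet (RO P)) (φ : A → RO P) : BSet (RO P) := BSet.mk A nm φ

/-- the name of the set of all `nm a` -/
def al (nm : A → BSet (RO P)) : BSet (RO P) := st nm fun _ => ⊤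

/-- the name of the relation with the truth values `ρ a c` -/
def rt (na : A → BSet (RO P)) (nc : C → BSet (RO P)) (ρ : A → C → RO P) : BSet (RO P) :=
  BSet.mk (A × C) (fun z => opN (na z.1) (nc z.2)) fun z => ρ z.1 z.2

/-- the name of the function `na a ↦ nc (f a)` -/
def gr (na : A → BSet (RO P)) (nc : C → BSet (RO P)) (f : A → C) : BSet (RO P) :=
  BSet.mk A (fun a => opN (na a) (nc (f a))) fun _ => ⊤

/-- the name of the function `(na a, nc c) ↦ nd (f a c)` -/
def gr2 (na : A → BSet (RO P)) (nc : C → BSet (RO P)) (nd : D → BSet (RO P)) (f : A → C → D) :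
    BSet (RO P) :=
  BSet.mk (A × C) (fun z => opN (opN (na z.1) (nc z.2)) (nd (f z.1 z.2))) fun _ => ⊤

/-- the truth values `φ` respect equality -/
def Ex1 (nm : A → BSet (RO P)) (φ : A → RO P) : Prop :=
  ∀ a b, φ a ⊓ BSet.eq (nm a) (nm b) ≤ φ b

/-- the truth values `ρ` respect equality -/
def Ex2 (na : A → BSet (RO P)) (nc : C → BSet (RO P)) (ρ : A → C → RO P) : Prop :=
  ∀ a a' c c', ρ a c ⊓ BSet.eq (na a) (na a') ⊓ BSet.eq (nc c) (nc c') ≤ ρ a' c'

/-- different elements have different names -/
def Dsc (nm : A → BSet (RO P)) : Prop := ∀ a b, a ≠ b → BSet.eq (nm a) (nm b) = ⊥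

/-- every name of an element is some `nm a` -/
def Full (nm : A → BSet (RO P)) : Prop :=
  ∀ X : BSet (RO P), ∃ a, BSet.mem X (al nm) ≤ BSet.eq X (nm a)

theorem mem_st (x : BSet (RO P)) (nm : A → BSet (RO P)) (φ : A → RO P) :
    BSet.mem x (st nm φ) = ⨆ a, φ a ⊓ BSet.eq x (nm a) := rfl

theorem mem_rt (x : BSet (RO P)) (na : A → BSet (RO P)) (nc : C → BSet (RO P))
    (ρ : A → C → RO P) : BSet.mem x (rt na nc ρ) =
      ⨆ z : A × C, ρ z.1 z.2 ⊓ BSet.eq x (opN (na z.1) (nc z.2)) := rfl

/-- the numeral `n` -/
noncomputable def nn (n : ℕ) : BSet (RO P) := ck (n : Ordinal.{0})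

/-- the set of natural numbers -/
noncomputable def oN : BSet (RO P) := al (nn (P := P))

/-- names for the rational numbers -/
noncomputable def qn (q : ℚ) : BSet (RO P) := nn (Encodable.encode q)

end

end RVI
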