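import Pool.Agent.RVI.Nm0

/-! # Rules for names of sets, first part (package N1)

(problem MP_75f27a_lc, project RVI)

Compare `Pool/Agent/CPI/BNam.lean`, where the same rules are proved for the names `sn`, `rn`.
`F p S`: `S` is true in all `NG G` with `RO.up p ∈ G.s`; `F.mem`, `F.eq`, `F.of_val`, `F.top`,
`F.all`,
`F.imp`, `F.loc` from `CPI/BTv.lean`.
* `isOP_iff`, `val_iff`, `ap_iff`, `eq_opN`: copy the proofs from `CPI/BNam.lean` (`opN_op`,
  `IsOP.uniq (NG_zfc G)`, `IsOP.inj (NG_zfc G)`); `RVI.Ap` and `CPI.Ap` are the same formula up to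
  the
  names of the variables. `eq_opN_val`: both sides have the same forcing conditions, or
  `le_antisymm`, `Ult.mem_of_all`.
* `elim_st`: `F.mem`, `mem_st`, `RO.mem_iSup` as in `F.elim_sn`.
* `st_all`: `F.top fun p => F.all.2 fun X => F.imp.2 fun q _ h => elim_st h ..`; at `r` with
  `X = nm a`,
  `r ∈ φ a`, use `F.subst` and the hypothesis (`RO.up r ∈ G.s` gives `φ a ∈ G.s` by
  `G.up hG (RO.up_le.2 _)`).
* `st_mem`: `EG G (nm a) (st nm φ) ↔ (⨆ b, φ b ⊓ eq (nm a) (nm b)) ∈ G.s` and this supremum is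
  `φ a`:
  `≤` by `Ex1` (with `eq_symm`), `≥` by `eq_refl`. `al_mem`: `φ = ⊤`. `Ex1.of_dsc`: if `a = b`
  trivial, otherwise `eq = ⊥`.
* `st_ball`: let `c` be the right side. Both sides have truth values (`TV.all`, `TV.imp`); by
  `iff` of
  forcing: `F p (left) ↔ p ∈ c`: if `p ∈ c`, `q ≤ p`, `F q (X ∈ st nm φ)` then `elim_st`: at `r`,
  `r ∈ φ a`, `p ∈ φ a ⇨ b a` so `r ∈ b a` (`RO.mem_iInf`, `himp`: `RO.le_def.1 himp_inf_le`).
  Conversely
  test `X = nm a` at a condition `q ∈ φ a` (`RO.up q ≤ φ a`). Then `F.of_val`-style equality: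
  `tv S = c` by `RO.ext'` as in `CPI.iff_of_F`.
* `st_bex`: from `st_ball` for the negation (`compl_iSup`, `compl_mem`, `himp` with complements), or
  directly as `F.esn`. -/

set_option autoImplicit false

namespace RVI

open STP STP.BSet CPI

section

variable {P : Type} [PartialOrder P] {A C D : Type}

private theorem nma_iff {S : Ult (RO P) → Prop} [TV S] {b : RO P} (h : ∀ p : P, F p S ↔ p ∈ b)
    (G : Ult (RO P)) : S G ↔ b ∈ G.s := by
  have h1 : tv S = b := RO.ext' fun p => (F.iff_mem (S := S)).symm.trans (h p)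
  rw [← h1]
  exact tv_iff

private theorem nma_le (nm : A → BSet (RO P)) (φ : A → RO P) (a : A) :
    φ a ≤ BSet.mem (nm a) (st nm φ) := by
  rw [mem_st]
  refine le_trans ?_ (le_iSup (fun b => φ b ⊓ BSet.eq (nm a) (nm b)) a)
  rw [BSet.eq_refl, inf_top_eq]

theorem isOP_iff {G : Ult (RO P)} {z : NG G} {x y : BSet (RO P)} :
    IsOP (EG G) z (NG.mk G x) (NG.mk G y) ↔ z = NG.mk G (opN x y) := by
  constructor
  · intro h
    exact IsOP.uniq (NG_zfc G) h (opN_op G x y)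
  · rintro rfl
    exact opN_op G x y

theorem eq_opN {G : Ult (RO P)} {x y x' y' : BSet (RO P)} :
    NG.mk G (opN x y) = NG.mk G (opN x' y') ↔ NG.mk G x = NG.mk G x' ∧ NG.mk G y = NG.mk G y' := by
  constructor
  · intro h
    have h1 := opN_op G x y
    rw [h] at h1
    exact IsOP.inj (NG_zfc G) h1 (opN_op G x' y')
  · rintro ⟨h1, h2⟩
    have h3 := opN_op G x y
    rw [h1, h2] at h3
    exact isOP_iff.1 h3

theorem eq_opN_val (x y x' y' : BSet (RO P)) :
    BSet.eq (opN x y) (opN x' y') = BSet.eq x x' ⊓ BSet.eq y y' := by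
  refine le_antisymm (Ult.mem_of_all fun G hG => ?_) (Ult.mem_of_all fun G hG => ?_)
  · obtain ⟨h1, h2⟩ := eq_opN.1 (NG.mk_eq.2 hG)
    exact inf_mem.2 ⟨NG.mk_eq.1 h1, NG.mk_eq.1 h2⟩
  · obtain ⟨h1, h2⟩ := inf_mem.1 hG
    exact NG.mk_eq.1 (eq_opN.2 ⟨NG.mk_eq.2 h1, NG.mk_eq.2 h2⟩)

theorem val_iff {G : Ult (RO P)} {f x y : BSet (RO P)} :
    Val (EG G) (NG.mk G f) (NG.mk G x) (NG.mk G y) ↔
      EG G (NG.mk G (opN x y)) (NG.mk G f) := by
  unfold Val
  simp only [isOP_iff, exists_eq_right]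

theorem ap_iff {G : Ult (RO P)} {f x y z : BSet (RO P)} :
    Ap (EG G) (NG.mk G f) (NG.mk G x) (NG.mk G y) (NG.mk G z) ↔
      EG G (NG.mk G (opN (opN x y) z)) (NG.mk G f) := by
  unfold Ap
  constructor
  · rintro ⟨p, hp, h⟩
    rw [isOP_iff.1 hp] at h
    exact val_iff.1 h
  · intro h
    exact ⟨_, opN_op G x y, val_iff.2 h⟩

/-- to prove a statement one may assume that a given name of an element is some `nm a` -/
theorem elim_st {p : P} {S : Ult (RO P) → Prop} [TV S] {nm : A → BSet (RO P)} {φ : A → RO P}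
    {X : BSet (RO P)} (h : F p fun G => EG G (NG.mk G X) (NG.mk G (st nm φ)))
    (h' : ∀ r ≤ p, ∀ a, r ∈ φ a → (F r fun G => NG.mk G X = NG.mk G (nm a)) → F r S) : F p S := by
  rw [F.mem, mem_st, RO.mem_iSup] at h
  refine F.loc fun q hq => ?_
  obtain ⟨r, hr, a, h1, h2⟩ := h q hq
  exact ⟨r, hr, h' r (hr.trans hq) a h1 (F.eq.2 h2)⟩

/-- to prove a statement for all elements of `st nm φ` it is enough to prove it for all `nm a` -/
theorem st_all (nm : A → BSet (RO P)) (φ : A → RO P) (S : (G : Ult (RO P)) → NG G → Prop)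
    [∀ X, TV fun G => S G (NG.mk G X)]
    (h : ∀ a G, φ a ∈ G.s → S G (NG.mk G (nm a))) (G : Ult (RO P)) (x : NG G)
    (hx : EG G x (NG.mk G (st nm φ))) : S G x := by
  obtain ⟨X, rfl⟩ := NG.exists_rep x
  have key : ∀ G : Ult (RO P), EG G (NG.mk G X) (NG.mk G (st nm φ)) → S G (NG.mk G X) := by
    refine F.top fun p => F.imp.2 fun q _ hq => ?_
    exact elim_st hq fun r _ a h2 h3 =>
      F.subst h3 fun G hG => h a G (G.up hG (RO.up_le.2 h2))
  exact key G hx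

theorem st_mem {nm : A → BSet (RO P)} {φ : A → RO P} (h : Ex1 nm φ) (G : Ult (RO P)) (a : A) :
    EG G (NG.mk G (nm a)) (NG.mk G (st nm φ)) ↔ φ a ∈ G.s := by
  have h1 : BSet.mem (nm a) (st nm φ) = φ a := by
    refine le_antisymm ?_ (nma_le nm φ a)
    rw [mem_st]
    refine iSup_le fun b => ?_
    rw [BSet.eq_symm]
    exact h b a
  rw [EG_mk, h1]

theorem al_mem (nm : A → BSet (RO P)) (G : Ult (RO P)) (a : A) :
    EG G (NG.mk G (nm a)) (NG.mk G (al nm)) :=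
  (st_mem (φ := fun _ => ⊤) (fun _ _ => le_top) G a).2 G.top

theorem Ex1.of_dsc {nm : A → BSet (RO P)} (h : Dsc nm) (φ : A → RO P) : Ex1 nm φ := by
  intro a b
  by_cases hab : a = b
  · subst hab
    exact inf_le_left
  · rw [h a b hab, inf_bot_eq]
    exact bot_le

/-- the truth value of a bounded universal statement -/
theorem st_ball (nm : A → BSet (RO P)) (φ : A → RO P) (S : (G : Ult (RO P)) → NG G → Prop)
    [∀ X, TV fun G => S G (NG.mk G X)] (b : A → RO P)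
    (hb : ∀ a G, S G (NG.mk G (nm a)) ↔ b a ∈ G.s) (G : Ult (RO P)) :
    (∀ x, EG G x (NG.mk G (st nm φ)) → S G x) ↔ (⨅ a, (φ a ⇨ b a)) ∈ G.s := by
  refine nma_iff (S := fun G => ∀ x, EG G x (NG.mk G (st nm φ)) → S G x) (fun p => ?_) G
  constructor
  · intro h
    refine RO.up_le.1 (le_iInf fun a => le_himp_iff.2 (Ult.mem_of_all fun G hG => ?_))
    obtain ⟨h1, h2⟩ := inf_mem.1 hG
    exact (hb a G).1 (h G h1 _ (EG_mk.2 (G.up h2 (nma_le nm φ a))))
  · intro h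
    refine F.all.2 fun X => F.imp.2 fun q hq h1 => ?_
    refine elim_st h1 fun r hr a h2 h3 => F.subst h3 fun G hG => (hb a G).2 ?_
    have h4 : (⨅ a, (φ a ⇨ b a)) ∈ G.s :=
      G.up hG (RO.up_le.2 ((⨅ a, (φ a ⇨ b a)).down (hr.trans hq) h))
    exact himp_mem.1 (G.up h4 (iInf_le _ a)) (G.up hG (RO.up_le.2 h2))

/-- the truth value of a bounded existential statement -/
theorem st_bex (nm : A → BSet (RO P)) (φ : A → RO P) (S : (G : Ult (RO P)) → NG G → Prop)
    [∀ X, TV fun G => S G (NG.mk G X)] (b : A → RO P)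
    (hb : ∀ a G, S G (NG.mk G (nm a)) ↔ b a ∈ G.s) (G : Ult (RO P)) :
    (∃ x, EG G x (NG.mk G (st nm φ)) ∧ S G x) ↔ (⨆ a, (φ a ⊓ b a)) ∈ G.s := by
  refine nma_iff (S := fun G => ∃ x, EG G x (NG.mk G (st nm φ)) ∧ S G x) (fun p => ?_) G
  rw [RO.mem_iSup]
  constructor
  · intro h q hq
    obtain ⟨X, hX⟩ := F.ex.1 h
    obtain ⟨h1, h2⟩ := F.and.1 hX
    rw [F.mem, mem_st, RO.mem_iSup] at h1
    obtain ⟨r, hr, a, h3, h4⟩ := h1 q hq
    refine ⟨r, hr, a, h3, RO.up_le.1 (Ult.mem_of_all fun G hG => (hb a G).1 ?_)⟩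
    have h5 : NG.mk G X = NG.mk G (nm a) := F.eq.2 h4 G hG
    have h6 : S G (NG.mk G X) := h2 G (up_mem (hr.trans hq) hG)
    rwa [h5] at h6
  · intro h
    refine F.loc fun q hq => ?_
    obtain ⟨r, hr, a, h1, h2⟩ := h q hq
    exact ⟨r, hr, fun G hG => ⟨_, EG_mk.2 (G.up (G.up hG (RO.up_le.2 h1)) (nma_le nm φ a)),
      (hb a G).2 (G.up hG (RO.up_le.2 h2))⟩⟩

end

end RVI
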