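import Pool.Agent.RVI.NmA

/-! # Rules for names of relations and functions (package N2)

(problem MP_75f27a_lc, project RVI)

`rt na nc ρ` is (definitionally)
`st (fun z : A × C => opN (na z.1) (nc z.2)) (fun z => ρ z.1 z.2)`, and
`gr na nc f`, `gr2 na nc nd f` are of the form `al _`, so the rules of `NmA.lean` apply.
* `rt_pair`: `st_all` for `S G z := ∃ x y, EG G x (al na) ∧ EG G y (al nc) ∧ IsOP (EG G) z x y`
  (class `TV` by
  instance search), `opN_op`, `al_mem`.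
* `rt_val_mem`: `Val f x y` gives a pair `p ∈ f`; `rt_pair` and `IsOP.inj (NG_zfc G)`.
* `rt_val`: `val_iff`, `EG_mk`, `mem_rt`, `eq_opN_val`: the supremum of
  `ρ z.1 z.2 ⊓ (eq (na a) (na z.1) ⊓
  eq (nc c) (nc z.2))` is `ρ a c` (`Ex2`, `eq_symm`; `eq_refl` for `≥`).
* `gr_val`: `y = NG.mk G Y` (`NG.exists_rep`); `val_iff`, `EG_mk`, `NG.mk_eq`: the supremum over
  `b` of
  `⊤ ⊓ (eq (na a) (na b) ⊓ eq Y (nc (f b)))` is `eq Y (nc (f a))`: `≤` by `hf` and `eq_trans`,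
  `eq_symm`.
* `gr_to`: `Val f x y` gives a pair `p ∈ gr` and by `st_all` `p = (x', y')` with `y' ∈ al nc`.
* `gr_fun`: first clause: `st_all` for `S G p := ∃ x y, EG G x (al na) ∧ IsOP (EG G) p x y`.
  Second clause:
  `st_all` for `S G x := ∃ y, Val .. x y`, at `x = na a` take `nc (f a)` (`gr_val`). Third clause:
  `st_all` for
  `S G x := ∀ y z, Val .. x y → Val .. x z → y = z` (`gr_val`); `x ∈ al na` by the first clause.
* `gr2_ap`: `ap_iff`, `mem`: the supremum over `z` of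
  `eq (opN (opN (na a) (nc c)) T) (opN (opN ..) ..)`,
  `eq_opN_val` twice, as for `gr_val`. -/

set_option autoImplicit false

namespace RVI

open STP STP.BSet CPI

section

variable {P : Type} [PartialOrder P] {A C D : Type}

theorem rt_pair (na : A → BSet (RO P)) (nc : C → BSet (RO P)) (ρ : A → C → RO P) (G : Ult (RO P))
    (z : NG G) (hz : EG G z (NG.mk G (rt na nc ρ))) :
    ∃ x y, EG G x (NG.mk G (al na)) ∧ EG G y (NG.mk G (al nc)) ∧ IsOP (EG G) z x y :=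
  st_all (A := A × C) (fun z => opN (na z.1) (nc z.2)) (fun z => ρ z.1 z.2)
    (fun G z => ∃ x y, EG G x (NG.mk G (al na)) ∧ EG G y (NG.mk G (al nc)) ∧ IsOP (EG G) z x y)
    (fun a G _ => ⟨_, _, al_mem na G a.1, al_mem nc G a.2, opN_op G _ _⟩) G z hz

theorem rt_val_mem {na : A → BSet (RO P)} {nc : C → BSet (RO P)} {ρ : A → C → RO P}
    {G : Ult (RO P)} {x y : NG G} (h : Val (EG G) (NG.mk G (rt na nc ρ)) x y) :
    EG G x (NG.mk G (al na)) ∧ EG G y (NG.mk G (al nc)) := by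
  obtain ⟨p, hp, h1⟩ := h
  obtain ⟨x', y', hx, hy, h2⟩ := rt_pair na nc ρ G p hp
  obtain ⟨h3, h4⟩ := IsOP.inj (NG_zfc G) h1 h2
  rw [h3, h4]
  exact ⟨hx, hy⟩

theorem rt_val {na : A → BSet (RO P)} {nc : C → BSet (RO P)} {ρ : A → C → RO P}
    (h : Ex2 na nc ρ) (G : Ult (RO P)) (a : A) (c : C) :
    Val (EG G) (NG.mk G (rt na nc ρ)) (NG.mk G (na a)) (NG.mk G (nc c)) ↔ ρ a c ∈ G.s := by
  have h1 : BSet.mem (opN (na a) (nc c)) (rt na nc ρ) = ρ a c := by
    rw [mem_rt]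
    apply le_antisymm
    · refine iSup_le fun z => ?_
      rw [eq_opN_val, BSet.eq_symm (na a) (na z.1), BSet.eq_symm (nc c) (nc z.2), ← inf_assoc]
      exact h z.1 a z.2 c
    · refine le_iSup_of_le (a, c) ?_
      rw [BSet.eq_refl, inf_top_eq]
  rw [val_iff, EG_mk, h1]

theorem gr_val {na : A → BSet (RO P)} {nc : C → BSet (RO P)} {f : A → C}
    (hf : ∀ a a', BSet.eq (na a) (na a') ≤ BSet.eq (nc (f a)) (nc (f a'))) (G : Ult (RO P))
    (a : A) (y : NG G) :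
    Val (EG G) (NG.mk G (gr na nc f)) (NG.mk G (na a)) y ↔ y = NG.mk G (nc (f a)) := by
  obtain ⟨Y, rfl⟩ := NG.exists_rep y
  have h1 : BSet.mem (opN (na a) Y) (gr na nc f) = BSet.eq Y (nc (f a)) := by
    have h2 : BSet.mem (opN (na a) Y) (gr na nc f) =
        ⨆ b, ⊤ ⊓ BSet.eq (opN (na a) Y) (opN (na b) (nc (f b))) := rfl
    rw [h2]
    apply le_antisymm
    · refine iSup_le fun b => ?_
      rw [top_inf_eq, eq_opN_val, BSet.eq_symm (na a) (na b), inf_comm]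
      exact (inf_le_inf le_rfl (hf b a)).trans (BSet.eq_trans _ _ _)
    · refine le_iSup_of_le a ?_
      rw [top_inf_eq, eq_opN_val, BSet.eq_refl, top_inf_eq]
  rw [val_iff, EG_mk, NG.mk_eq, h1]

theorem gr_to (na : A → BSet (RO P)) (nc : C → BSet (RO P)) (f : A → C) (G : Ult (RO P)) :
    IsTo (EG G) (NG.mk G (gr na nc f)) (NG.mk G (al nc)) := by
  intro x y h
  obtain ⟨p, hp, h1⟩ := h
  have h2 := st_all (fun a => opN (na a) (nc (f a))) (fun _ => ⊤)
    (fun G p => ∃ x y, EG G y (NG.mk G (al nc)) ∧ IsOP (EG G) p x y)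
    (fun a G _ => ⟨_, _, al_mem nc G (f a), opN_op G _ _⟩) G p hp
  obtain ⟨x', y', hy, h3⟩ := h2
  rw [(IsOP.inj (NG_zfc G) h1 h3).2]
  exact hy

theorem gr_fun {na : A → BSet (RO P)} {nc : C → BSet (RO P)} {f : A → C}
    (hf : ∀ a a', BSet.eq (na a) (na a') ≤ BSet.eq (nc (f a)) (nc (f a'))) (G : Ult (RO P)) :
    IsFun (EG G) (NG.mk G (gr na nc f)) (NG.mk G (al na)) := by
  have h1 : ∀ p, EG G p (NG.mk G (gr na nc f)) →
      ∃ x y, EG G x (NG.mk G (al na)) ∧ IsOP (EG G) p x y := fun p hp =>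
    st_all (fun a => opN (na a) (nc (f a))) (fun _ => ⊤)
      (fun G p => ∃ x y, EG G x (NG.mk G (al na)) ∧ IsOP (EG G) p x y)
      (fun a G _ => ⟨_, _, al_mem na G a, opN_op G _ _⟩) G p hp
  refine ⟨h1, fun x hx => ?_, fun x y z hy hz => ?_⟩
  · exact st_all na (fun _ => ⊤) (fun G x => ∃ y, Val (EG G) (NG.mk G (gr na nc f)) x y)
      (fun a G _ => ⟨_, (gr_val hf G a _).2 rfl⟩) G x hx
  · have hx : EG G x (NG.mk G (al na)) := by
      obtain ⟨p, hp, h2⟩ := hy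
      obtain ⟨x', y', hx', h3⟩ := h1 p hp
      rw [(IsOP.inj (NG_zfc G) h2 h3).1]
      exact hx'
    exact st_all na (fun _ => ⊤) (fun G x => ∀ y z, Val (EG G) (NG.mk G (gr na nc f)) x y →
      Val (EG G) (NG.mk G (gr na nc f)) x z → y = z)
      (fun a G _ y z h4 h5 => ((gr_val hf G a _).1 h4).trans ((gr_val hf G a _).1 h5).symm)
      G x hx y z hy hz

theorem gr2_ap {na : A → BSet (RO P)} {nc : C → BSet (RO P)} {nd : D → BSet (RO P)}
    {f : A → C → D} (hf : ∀ a a' c c', BSet.eq (na a) (na a') ⊓ BSet.eq (nc c) (nc c') ≤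
      BSet.eq (nd (f a c)) (nd (f a' c'))) (G : Ult (RO P)) (a : A) (c : C) (t : NG G) :
    Ap (EG G) (NG.mk G (gr2 na nc nd f)) (NG.mk G (na a)) (NG.mk G (nc c)) t ↔
      t = NG.mk G (nd (f a c)) := by
  obtain ⟨T, rfl⟩ := NG.exists_rep t
  have h1 : BSet.mem (opN (opN (na a) (nc c)) T) (gr2 na nc nd f) = BSet.eq T (nd (f a c)) := by
    have h2 : BSet.mem (opN (opN (na a) (nc c)) T) (gr2 na nc nd f) =
        ⨆ z : A × C, ⊤ ⊓ BSet.eq (opN (opN (na a) (nc c)) T)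
          (opN (opN (na z.1) (nc z.2)) (nd (f z.1 z.2))) := rfl
    rw [h2]
    apply le_antisymm
    · refine iSup_le fun z => ?_
      rw [top_inf_eq, eq_opN_val, eq_opN_val, BSet.eq_symm (na a) (na z.1),
        BSet.eq_symm (nc c) (nc z.2), inf_comm]
      exact (inf_le_inf le_rfl (hf z.1 a z.2 c)).trans (BSet.eq_trans _ _ _)
    · refine le_iSup_of_le (a, c) ?_
      rw [top_inf_eq, eq_opN_val, BSet.eq_refl, top_inf_eq]
  rw [ap_iff, EG_mk, NG.mk_eq, h1]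

end

end RVI
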