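import Pool.Agent.RVI.NmB

/-! # Representation of sets and relations, separation (package N3)

(problem MP_75f27a_lc, project RVI)

* `Full.rep`: `x = NG.mk G X`; `Full` gives `a` with `mem X (al nm) ≤ eq X (nm a)`.
* `ex1_mem`, `ex2_mem`: `mem_congr_left` with `eq_symm`; for pairs `eq_opN_val`.
* `sub_rep`: let `Y := st nm fun a => mem (nm a) X`. Elements of `Y` are in `X`: `st_all` for
  `S G z := z ∈ X`.
  Elements `z` of `X` are in `al nm` by hypothesis; `st_all` over `al nm` for the statement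
  `S G z := (z ∈ X → z ∈ Y)` (at `nm a`: `st_mem (ex1_mem ..)`). Then `(NG_zfc G).ext`.
* `rel_rep`: the same for pairs: let `Y := rt na nc _`. `Y ⊆ X`: `st_all` for the family
  `fun z : A × C => opN (na z.1) (nc z.2)`. `X ⊆ Y`: an element `p` of `X` is the pair of
  `x ∈ al na` and
  `y ∈ al nc`, so it is enough that for all `x ∈ al na`, all `y ∈ al nc`, all `p` with `IsOP p x y`:
  `p ∈ X → p ∈ Y`: `st_all` twice (`isOP_iff`).
* `val_ext`: `ZFC.ext`: `p ∈ D` is a pair `(x, y)` and `Val D x y`, so `Val D' x y`: there is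
  `p' ∈ D'` with
  `IsOP p' x y`, `p' = p` by `IsOP.uniq`.
* `st_sep`: `→`: `st_all` twice (for `x ∈ al nm` and for `S G x`: at `nm a` the value `tv ..` is
  in `G.s`, `tv_iff`).
  `←`: `st_all` over `al nm` for the statement `S G x → x ∈ st nm _`. `st_sep2`: the same with `φ`.
* `rt_sep`: the same with pairs. `→`: `rt_val_mem` for the memberships; for `S G x y`: `Val f x y`
  gives `p ∈ f`
  and `IsOP p x y`; use `st_all` (family of pairs) for the statement
  `T G p := ∀ x y, IsOP (EG G) p x y → S G x y` (at `p = opN (na a) (nc c)`: `IsOP.inj`). `←`: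
  `st_all` over
  `al na`, then over `al nc` for `S G x y → Val .. x y`, with `rt`'s definition (no extensionality
  of the
  values is needed: `ρ a c ≤ mem (opN (na a) (nc c)) (rt na nc ρ)`). -/

set_option autoImplicit false

namespace RVI

open STP STP.BSet CPI

section

variable {P : Type} [PartialOrder P] {A C D : Type}

private theorem nmc_in (nm : A → BSet (RO P)) (φ : A → RO P) (G : Ult (RO P)) (a : A)
    (h : φ a ∈ G.s) : EG G (NG.mk G (nm a)) (NG.mk G (st nm φ)) := by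
  rw [EG_mk, mem_st]
  refine G.up h (le_iSup_of_le a (le_inf le_rfl ?_))
  rw [BSet.eq_refl]
  exact le_top

theorem Full.rep {nm : A → BSet (RO P)} (h : Full nm) (G : Ult (RO P)) (x : NG G)
    (hx : EG G x (NG.mk G (al nm))) : ∃ a, x = NG.mk G (nm a) := by
  obtain ⟨X, rfl⟩ := NG.exists_rep x
  obtain ⟨a, ha⟩ := h X
  exact ⟨a, NG.mk_eq.2 (G.up (EG_mk.1 hx) ha)⟩

theorem ex1_mem (nm : A → BSet (RO P)) (X : BSet (RO P)) :
    Ex1 nm fun a => BSet.mem (nm a) X := by
  intro a b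
  refine Ult.mem_of_all fun G hG => ?_
  obtain ⟨h1, h2⟩ := inf_mem.1 hG
  rw [← NG.mk_eq] at h2
  rw [← EG_mk] at h1 ⊢
  rw [← h2]
  exact h1

theorem ex2_mem (na : A → BSet (RO P)) (nc : C → BSet (RO P)) (X : BSet (RO P)) :
    Ex2 na nc fun a c => BSet.mem (opN (na a) (nc c)) X := by
  intro a a' c c'
  refine Ult.mem_of_all fun G hG => ?_
  obtain ⟨h12, h3⟩ := inf_mem.1 hG
  obtain ⟨h1, h2⟩ := inf_mem.1 h12
  rw [← NG.mk_eq] at h2 h3
  rw [← EG_mk] at h1 ⊢
  rw [← eq_opN.2 ⟨h2, h3⟩]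
  exact h1

theorem sub_rep (nm : A → BSet (RO P)) (X : BSet (RO P)) (G : Ult (RO P))
    (h : Sub (EG G) (NG.mk G X) (NG.mk G (al nm))) :
    NG.mk G X = NG.mk G (st nm fun a => BSet.mem (nm a) X) := by
  refine (NG_zfc G).ext _ _ fun z => ⟨fun hz => ?_, fun hz => ?_⟩
  · exact st_all nm (fun _ => ⊤) (fun G z => EG G z (NG.mk G X) →
      EG G z (NG.mk G (st nm fun a => BSet.mem (nm a) X)))
      (fun a G _ h1 => nmc_in nm (fun a => BSet.mem (nm a) X) G a (EG_mk.1 h1)) G z (h z hz) hz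
  · exact st_all nm (fun a => BSet.mem (nm a) X) (fun G z => EG G z (NG.mk G X))
      (fun a G h1 => EG_mk.2 h1) G z hz

theorem rel_rep (na : A → BSet (RO P)) (nc : C → BSet (RO P)) (X : BSet (RO P)) (G : Ult (RO P))
    (h : ∀ p, EG G p (NG.mk G X) →
      ∃ x y, EG G x (NG.mk G (al na)) ∧ EG G y (NG.mk G (al nc)) ∧ IsOP (EG G) p x y) :
    NG.mk G X = NG.mk G (rt na nc fun a c => BSet.mem (opN (na a) (nc c)) X) := by
  refine (NG_zfc G).ext _ _ fun z => ⟨fun hz => ?_, fun hz => ?_⟩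
  · obtain ⟨x, y, hx, hy, hop⟩ := h z hz
    refine st_all na (fun _ => ⊤) (fun G x => ∀ y, EG G y (NG.mk G (al nc)) →
      ∀ p, IsOP (EG G) p x y → EG G p (NG.mk G X) →
        EG G p (NG.mk G (rt na nc fun a c => BSet.mem (opN (na a) (nc c)) X)))
      (fun a G _ y hy => ?_) G x hx y hy z hop hz
    refine st_all nc (fun _ => ⊤) (fun G y => ∀ p, IsOP (EG G) p (NG.mk G (na a)) y →
      EG G p (NG.mk G X) →
        EG G p (NG.mk G (rt na nc fun a c => BSet.mem (opN (na a) (nc c)) X)))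
      (fun c G _ p hp hpX => ?_) G y hy
    have e := isOP_iff.1 hp
    subst e
    exact nmc_in (fun z : A × C => opN (na z.1) (nc z.2))
      (fun z => BSet.mem (opN (na z.1) (nc z.2)) X) G (a, c) (EG_mk.1 hpX)
  · exact st_all (fun z : A × C => opN (na z.1) (nc z.2))
      (fun z => BSet.mem (opN (na z.1) (nc z.2)) X) (fun G z => EG G z (NG.mk G X))
      (fun a G h1 => EG_mk.2 h1) G z hz

/-- two sets of ordered pairs with the same pairs are equal -/
theorem val_ext {N : Type*} {E : N → N → Prop} (hE : ZFC E) {D D' : N}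
    (hD : ∀ p, E p D → ∃ x y, IsOP E p x y) (hD' : ∀ p, E p D' → ∃ x y, IsOP E p x y)
    (h : ∀ x y, Val E D x y ↔ Val E D' x y) : D = D' := by
  have key : ∀ D D' : N, (∀ p, E p D → ∃ x y, IsOP E p x y) →
      (∀ x y, Val E D x y → Val E D' x y) → ∀ p, E p D → E p D' := by
    intro D D' hD h p hp
    obtain ⟨x, y, hxy⟩ := hD p hp
    obtain ⟨p', hp', hop⟩ := h x y ⟨p, hp, hxy⟩
    have e := IsOP.uniq hE hxy hop
    rwa [e]
  exact hE.ext D D' fun p => ⟨key D D' hD (fun x y => (h x y).1) p,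
    key D' D hD' (fun x y => (h x y).2) p⟩

/-- separation -/
theorem st_sep (nm : A → BSet (RO P)) (S : (G : Ult (RO P)) → NG G → Prop)
    [∀ X, TV fun G => S G (NG.mk G X)] (G : Ult (RO P)) (x : NG G) :
    EG G x (NG.mk G (st nm fun a => tv fun G => S G (NG.mk G (nm a)))) ↔
      EG G x (NG.mk G (al nm)) ∧ S G x := by
  constructor
  · intro hx
    exact st_all nm (fun a => tv fun G => S G (NG.mk G (nm a)))
      (fun G x => EG G x (NG.mk G (al nm)) ∧ S G x)
      (fun a G h => ⟨al_mem nm G a, (tv_iff (S := fun G => S G (NG.mk G (nm a)))).2 h⟩) G x hx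
  · rintro ⟨hx, hS⟩
    exact st_all nm (fun _ => ⊤) (fun G x => S G x →
      EG G x (NG.mk G (st nm fun a => tv fun G => S G (NG.mk G (nm a)))))
      (fun a G _ h => nmc_in nm (fun a => tv fun G => S G (NG.mk G (nm a))) G a
        ((tv_iff (S := fun G => S G (NG.mk G (nm a)))).1 h)) G x hx hS

/-- separation from a set with truth values -/
theorem st_sep2 (nm : A → BSet (RO P)) (φ : A → RO P) (S : (G : Ult (RO P)) → NG G → Prop)
    [∀ X, TV fun G => S G (NG.mk G X)] (G : Ult (RO P)) (x : NG G) :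
    EG G x (NG.mk G (st nm fun a => φ a ⊓ tv fun G => S G (NG.mk G (nm a)))) ↔
      EG G x (NG.mk G (st nm φ)) ∧ S G x := by
  constructor
  · intro hx
    exact st_all nm (fun a => φ a ⊓ tv fun G => S G (NG.mk G (nm a)))
      (fun G x => EG G x (NG.mk G (st nm φ)) ∧ S G x)
      (fun a G h => ⟨nmc_in nm φ G a (inf_mem.1 h).1,
        (tv_iff (S := fun G => S G (NG.mk G (nm a)))).2 (inf_mem.1 h).2⟩) G x hx
  · rintro ⟨hx, hS⟩
    exact st_all nm φ (fun G x => S G x →
      EG G x (NG.mk G (st nm fun a => φ a ⊓ tv fun G => S G (NG.mk G (nm a)))))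
      (fun a G h1 h => nmc_in nm (fun a => φ a ⊓ tv fun G => S G (NG.mk G (nm a))) G a
        (inf_mem.2 ⟨h1, (tv_iff (S := fun G => S G (NG.mk G (nm a)))).1 h⟩)) G x hx hS

/-- separation for relations -/
theorem rt_sep (na : A → BSet (RO P)) (nc : C → BSet (RO P))
    (S : (G : Ult (RO P)) → NG G → NG G → Prop)
    [∀ X Y, TV fun G => S G (NG.mk G X) (NG.mk G Y)] (G : Ult (RO P)) (x y : NG G) :
    Val (EG G) (NG.mk G (rt na nc fun a c => tv fun G => S G (NG.mk G (na a)) (NG.mk G (nc c))))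
      x y ↔ EG G x (NG.mk G (al na)) ∧ EG G y (NG.mk G (al nc)) ∧ S G x y := by
  constructor
  · intro h
    obtain ⟨h1, h2⟩ := rt_val_mem h
    refine ⟨h1, h2, ?_⟩
    obtain ⟨p, hp, hop⟩ := h
    refine st_all (fun z : A × C => opN (na z.1) (nc z.2))
      (fun z => tv fun G => S G (NG.mk G (na z.1)) (NG.mk G (nc z.2)))
      (fun G p => ∀ x y, IsOP (EG G) p x y → S G x y) (fun z G hz x y hxy => ?_) G p hp x y hop
    obtain ⟨e1, e2⟩ := IsOP.inj (NG_zfc G) (opN_op G (na z.1) (nc z.2)) hxy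
    rw [← e1, ← e2]
    exact (tv_iff (S := fun G => S G (NG.mk G (na z.1)) (NG.mk G (nc z.2)))).2 hz
  · rintro ⟨hx, hy, hS⟩
    refine st_all na (fun _ => ⊤) (fun G x => ∀ y, EG G y (NG.mk G (al nc)) → S G x y →
      Val (EG G) (NG.mk G (rt na nc fun a c =>
        tv fun G => S G (NG.mk G (na a)) (NG.mk G (nc c)))) x y)
      (fun a G _ y hy => ?_) G x hx y hy hS
    refine st_all nc (fun _ => ⊤) (fun G y => S G (NG.mk G (na a)) y →
      Val (EG G) (NG.mk G (rt na nc fun a c =>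
        tv fun G => S G (NG.mk G (na a)) (NG.mk G (nc c)))) (NG.mk G (na a)) y)
      (fun c G _ h => ?_) G y hy
    rw [val_iff]
    exact nmc_in (fun z : A × C => opN (na z.1) (nc z.2))
      (fun z => tv fun G => S G (NG.mk G (na z.1)) (NG.mk G (nc z.2))) G (a, c)
      ((tv_iff (S := fun G => S G (NG.mk G (na a)) (NG.mk G (nc c)))).1 h)

end

end RVI
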