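import Pool.Agent.RVI.Rn0

/-! # Random subsets of products generated by random rectangles (definitions)

(problem MP_75f27a_lc, project RVI; no sorry in this file)

`GS X Y Ω` is the sigma-algebra on `X × Y × Ω` generated by the sets
`{(x, y, ω) | ω ∈ A x ∩ B y}` with arbitrary families `A x`, `B y` of measurable sets. `GM μ Φ`: the
function `Φ : X → Y → RO (Ps μ)` is given by the sections of a set in this sigma-algebra. -/

namespace RVI

open MeasureTheory STP

section

variable (X Y : Type) (Ω : Type) [MeasurableSpace Ω]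

/-- the generating random rectangles -/
def GR : Set (Set (X × Y × Ω)) :=
  {R | ∃ (A : X → Set Ω) (B : Y → Set Ω), (∀ x, MeasurableSet (A x)) ∧ (∀ y, MeasurableSet (B y)) ∧
    R = {z | z.2.2 ∈ A z.1 ∧ z.2.2 ∈ B z.2.1}}

/-- the sigma-algebra generated by the random rectangles -/
@[reducible] def GS : MeasurableSpace (X × Y × Ω) := MeasurableSpace.generateFrom (GR X Y Ω)

variable {X Y Ω} (μ : Measure Ω)

/-- the function is given by the sections of a set in the sigma-algebra -/
def GM (Φ : X → Y → RO (Ps μ)) : Prop :=
  ∃ E : Set (X × Y × Ω), MeasurableSet[GS X Y Ω] E ∧ ∀ x y, Φ x y = cl μ {ω | (x, y, ω) ∈ E}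

end

end RVI
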