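import Pool.Agent.RVI.RnA

/-! # Restrictions of random reals and of random functions (package TA)

(problem MP_75f27a_lc, project RVI)

* `nb_mem`: `st_mem` (`Ex1.of_dsc nn_dsc`). `nf_val`: `rt_val` (`Ex2.of_dsc`).
* `int_iff`: `IsInt z x m` is `∀ u, u ∈ z ↔ u ∈ x ∧ u ∈ m`. By `(NG_zfc G).ext` it is enough that
  `cutb μ m X` has this property, in every `NG G`. For `u ∈ al nn` use `st_all` for the statement
  `u ∈ cutb ↔ u ∈ nb X ∧ u ∈ nn m`; at `u = nn n`: `cl {ω | X ω n = true ∧ n < m} ∈ G.s` iff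
  `cl {ω | X ω n = true} ∈ G.s` and `n < m` (cases `n < m`; `cl_empty`, `G.bot`), and `nn_mem`. All
  elements of `cutb` and of `nb X` are in `al nn` (`st_all`, `al_mem`).
* `rs_iff`: the same: `IsRs h g m` is `∀ z, z ∈ h ↔ z ∈ g ∧ ∃ x y, x ∈ m ∧ IsOP z x y`. All
  elements of
  `cutf` and of `nf` are in `al (fun z : ℕ × ℕ => opN (nn z.1) (nn z.2))`; `st_all` over this
  family: at
  `opN (nn k) (nn l)`: membership is `val_iff`, `rt_val`; `∃ x y, ..` holds iff `k < m` (`opN_op`,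
  `IsOP.inj (NG_zfc G)`, `nn_mem`).
* `cutb_lb`: `st_eq_le`: for every `n`: `cl {pre m (X ω) = l} ⊓ cl {X ω n = true ∧ n < m} ≤
  chi (l[n]? = some true)` and conversely: `cl_chi`, `cl_inter`, `cl_le`; pointwise for `pre m (X
  ω) = l`:
  `X ω n = true ∧ n < m ↔ l[n]? = some true` (`List.getElem?_map`, `List.getElem?_range`).
* `cutf_lf`: `rt_eq_le` and the same computation. -/

set_option autoImplicit false

namespace RVI

open MeasureTheory STP STP.BSet CPI

section

variable {Ω : Type} [MeasurableSpace Ω] (μ : Measure Ω)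

/-- the name of `X ∩ m` -/
noncomputable def cutb (m : ℕ) (X : RB Ω) : BSet (RO (Ps μ)) :=
  st nn fun n => cl μ {ω | X.1 ω n = true ∧ n < m}

/-- the name of the restriction of `g` to `m` -/
noncomputable def cutf (m : ℕ) (g : RF Ω) : BSet (RO (Ps μ)) :=
  rt nn nn fun k l => cl μ {ω | g.1 ω k = l ∧ k < m}

variable {μ} [IsProbabilityMeasure μ] (G : Ult (RO (Ps μ)))

omit [IsProbabilityMeasure μ] in
private theorem tra_set {A : Ω → Prop} {c : Prop} (h : c) : {ω | A ω ∧ c} = {ω | A ω} := by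
  ext ω
  exact ⟨fun h1 => h1.1, fun h1 => ⟨h1, h⟩⟩

private theorem tra_not {A : Ω → Prop} {c : Prop} (hG : cl μ {ω | A ω ∧ c} ∈ G.s) : c := by
  by_contra h
  have h1 : {ω | A ω ∧ c} = (∅ : Set Ω) := by
    ext ω
    exact ⟨fun h1 => absurd h1.2 h, fun h1 => absurd h1 (Set.notMem_empty ω)⟩
  rw [h1, cl_empty] at hG
  exact G.bot hG

private theorem cl_sub {A B : Set Ω} (hA : MeasurableSet A) (hB : MeasurableSet B) (h : A ⊆ B) :
    cl μ A ≤ cl μ B :=
  (cl_le hA.nullMeasurableSet hB.nullMeasurableSet).2 (ae_of_all _ fun _ hω => h hω)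

private theorem pre_get {α : Type} {m : ℕ} {x : ℕ → α} {n : ℕ} (hn : n < m) :
    (pre m x)[n]? = some (x n) := by
  unfold pre
  rw [List.getElem?_map, List.getElem?_range hn]
  rfl

private theorem pre_eq_iff {α : Type} {m : ℕ} {x : ℕ → α} {l : List α} (hl : l.length = m) :
    pre m x = l ↔ ∀ n, n < m → l[n]? = some (x n) := by
  constructor
  · rintro rfl n hn
    exact pre_get hn
  · intro h
    refine List.ext_getElem? fun n => ?_
    by_cases hn : n < m
    · rw [pre_get hn, h n hn]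
    · have h1 : (pre m x).length = m := by
        unfold pre
        rw [List.length_map, List.length_range]
      rw [List.getElem?_eq_none (h1.trans_le (not_lt.1 hn)),
        List.getElem?_eq_none (hl.trans_le (not_lt.1 hn))]

private theorem meas_pre {α : Type} [MeasurableSpace α] [DiscreteMeasurableSpace α]
    {X : Ω → ℕ → α} (hX : Measurable X) {m : ℕ} {l : List α} (hl : l.length = m) :
    MeasurableSet {ω | pre m (X ω) = l} := by
  have h1 : {ω | pre m (X ω) = l} = ⋂ n, (fun ω => X ω n) ⁻¹' {a | n < m → l[n]? = some a} := by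
    ext ω
    rw [Set.mem_iInter]
    exact pre_eq_iff hl
  rw [h1]
  exact MeasurableSet.iInter fun n => (measurable_pi_iff.1 hX n) MeasurableSet.of_discrete

theorem nb_mem (X : RB Ω) (n : ℕ) :
    EG G (NG.mk G (nn n)) (NG.mk G (nb μ X)) ↔ cl μ {ω | X.1 ω n = true} ∈ G.s := by
  exact st_mem (Ex1.of_dsc nn_dsc fun n => cl μ {ω | X.1 ω n = true}) G n

theorem nf_val (g : RF Ω) (k l : ℕ) :
    Val (EG G) (NG.mk G (nf μ g)) (NG.mk G (nn k)) (NG.mk G (nn l)) ↔
      cl μ {ω | g.1 ω k = l} ∈ G.s := by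
  exact rt_val (Ex2.of_dsc nn_dsc nn_dsc fun k l => cl μ {ω | g.1 ω k = l}) G k l

private theorem cutb_int (X : RB Ω) (m : ℕ) :
    IsInt (EG G) (NG.mk G (cutb μ m X)) (NG.mk G (nb μ X)) (NG.mk G (nn m)) := by
  intro u
  constructor
  · intro hu
    refine st_all nn (fun n => cl μ {ω | X.1 ω n = true ∧ n < m})
      (fun G u => EG G u (NG.mk G (nb μ X)) ∧ EG G u (NG.mk G (nn m))) ?_ G u hu
    intro n G hG
    have hn : n < m := tra_not G hG
    rw [tra_set hn] at hG
    exact ⟨(nb_mem G X n).2 hG, (nn_mem G).2 hn⟩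
  · rintro ⟨hu, hm⟩
    refine st_all nn (fun n => cl μ {ω | X.1 ω n = true})
      (fun G u => EG G u (NG.mk G (nn m)) → EG G u (NG.mk G (cutb μ m X))) ?_ G u hu hm
    intro n G hG hn
    have hn' : n < m := (nn_mem G).1 hn
    refine (st_mem (Ex1.of_dsc nn_dsc fun n => cl μ {ω | X.1 ω n = true ∧ n < m}) G n).2 ?_
    rw [tra_set hn']
    exact hG

private theorem cutf_rs (g : RF Ω) (m : ℕ) :
    IsRs (EG G) (NG.mk G (cutf μ m g)) (NG.mk G (nf μ g)) (NG.mk G (nn m)) := by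
  intro u
  constructor
  · intro hu
    refine st_all (A := ℕ × ℕ) (fun z => opN (nn z.1) (nn z.2))
      (fun z => cl μ {ω | g.1 ω z.1 = z.2 ∧ z.1 < m})
      (fun G u => EG G u (NG.mk G (nf μ g)) ∧
        ∃ x y, EG G x (NG.mk G (nn m)) ∧ IsOP (EG G) u x y) ?_ G u hu
    rintro ⟨k, l⟩ G hG
    have hk : k < m := tra_not G hG
    simp only at hG
    rw [tra_set hk] at hG
    exact ⟨val_iff.1 ((nf_val G g k l).2 hG), _, _, (nn_mem G).2 hk, opN_op G _ _⟩
  · rintro ⟨hu, hm⟩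
    refine st_all (A := ℕ × ℕ) (fun z => opN (nn z.1) (nn z.2))
      (fun z => cl μ {ω | g.1 ω z.1 = z.2})
      (fun G u => (∃ x y, EG G x (NG.mk G (nn m)) ∧ IsOP (EG G) u x y) →
        EG G u (NG.mk G (cutf μ m g))) ?_ G u hu hm
    rintro ⟨k, l⟩ G hG ⟨x, y, hx, hxy⟩
    obtain ⟨h1, -⟩ := IsOP.inj (NG_zfc G) (opN_op G (nn k) (nn l)) hxy
    rw [← h1] at hx
    have hk : k < m := (nn_mem G).1 hx
    refine val_iff.1 ((rt_val (Ex2.of_dsc nn_dsc nn_dsc
      fun k l => cl μ {ω | g.1 ω k = l ∧ k < m}) G k l).2 ?_)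
    rw [tra_set hk]
    exact hG

theorem int_iff (X : RB Ω) (m : ℕ) (z : NG G) :
    IsInt (EG G) z (NG.mk G (nb μ X)) (NG.mk G (nn m)) ↔ z = NG.mk G (cutb μ m X) := by
  constructor
  · intro h
    exact (NG_zfc G).ext _ _ fun u => (h u).trans (cutb_int G X m u).symm
  · rintro rfl
    exact cutb_int G X m

theorem rs_iff (g : RF Ω) (m : ℕ) (z : NG G) :
    IsRs (EG G) z (NG.mk G (nf μ g)) (NG.mk G (nn m)) ↔ z = NG.mk G (cutf μ m g) := by
  constructor
  · intro h
    exact (NG_zfc G).ext _ _ fun u => (h u).trans (cutf_rs G g m u).symm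
  · rintro rfl
    exact cutf_rs G g m

theorem cutb_lb {m : ℕ} (X : RB Ω) {l : List Bool} (hl : l.length = m) :
    cl μ {ω | pre m (X.1 ω) = l} ≤ BSet.eq (cutb μ m X) (lb l) := by
  have hp := meas_pre X.2 hl
  have hm : ∀ n, MeasurableSet {ω | X.1 ω n = true ∧ n < m} := fun n =>
    (measurable_pi_iff.1 X.2 n) (MeasurableSet.of_discrete (s := {a | a = true ∧ n < m}))
  refine st_eq_le (fun n => ?_) fun n => ?_
  · rw [← cl_inter hp.nullMeasurableSet (hm n).nullMeasurableSet, ← cl_chi (μ := μ)]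
    refine cl_sub (hp.inter (hm n)) (MeasurableSet.const _) ?_
    rintro ω ⟨h1, h2, h3⟩
    have h4 := (pre_eq_iff hl).1 h1 n h3
    rw [h2] at h4
    exact h4
  · rw [← cl_chi (μ := μ),
      ← cl_inter hp.nullMeasurableSet (MeasurableSet.const _).nullMeasurableSet]
    refine cl_sub (hp.inter (MeasurableSet.const _)) (hm n) ?_
    rintro ω ⟨h1, h2⟩
    have h3 : n < m := by
      rw [← hl]
      exact (List.getElem?_eq_some_iff.1 h2).1
    have h4 := (pre_eq_iff hl).1 h1 n h3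
    exact ⟨Option.some_inj.1 (h4.symm.trans h2), h3⟩

theorem cutf_lf {m : ℕ} (g : RF Ω) {l : List ℕ} (hl : l.length = m) :
    cl μ {ω | pre m (g.1 ω) = l} ≤ BSet.eq (cutf μ m g) (lf l) := by
  have hp := meas_pre g.2 hl
  have hm : ∀ k v, MeasurableSet {ω | g.1 ω k = v ∧ k < m} := fun k v =>
    (measurable_pi_iff.1 g.2 k) (MeasurableSet.of_discrete (s := {a | a = v ∧ k < m}))
  refine rt_eq_le (fun k v => ?_) fun k v => ?_
  · rw [← cl_inter hp.nullMeasurableSet (hm k v).nullMeasurableSet, ← cl_chi (μ := μ)]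
    refine cl_sub (hp.inter (hm k v)) (MeasurableSet.const _) ?_
    rintro ω ⟨h1, h2, h3⟩
    have h4 := (pre_eq_iff hl).1 h1 k h3
    rw [h2] at h4
    exact h4
  · rw [← cl_chi (μ := μ),
      ← cl_inter hp.nullMeasurableSet (MeasurableSet.const _).nullMeasurableSet]
    refine cl_sub (hp.inter (MeasurableSet.const _)) (hm k v) ?_
    rintro ω ⟨h1, h2⟩
    have h3 : k < m := by
      rw [← hl]
      exact (List.getElem?_eq_some_iff.1 h2).1
    have h4 := (pre_eq_iff hl).1 h1 k h3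
    exact ⟨Option.some_inj.1 (h4.symm.trans h2), h3⟩

end

end RVI
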