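import Pool.Agent.RVI.TrA

/-! # Functions from `ω` to `ω` (package TB)

(problem MP_75f27a_lc, project RVI)

* `ba_nf`: `IsFun`: the elements of `nf μ g` are pairs `(x, y)` with `x, y ∈ oN` (`rt_pair`).
  Second clause:
  `st_all` over `al nn` for the statement `∃ y, Val .. x y`: it is enough to show the stronger
  statement
  `∃ y, y ∈ oN ∧ Val .. x y`; at `nn k` it has by `st_bex` the truth value
  `⨆ l, ⊤ ⊓ cl {g ω k = l} = ⊤` (`cl_iUnion`, `cl_univ`). Third clause: `x ∈ oN`, `y, z ∈ oN`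
  (`rt_val_mem`); `st_all` three times for the statement
  `Val .. x y → Val .. x z → y = z`; at `nn k`, `nn l`, `nn l'`: if `l ≠ l'` then the classes of the
  disjoint sets `{g ω k = l}`, `{g ω k = l'}` are not both in `G.s`. `IsTo`: `rt_val_mem`.
* `exists_nf`: `g = NG.mk G X`. Let `ρ k l := mem (opN (nn k) (nn l)) X` and `c` the truth value
  (`CPI.tv`)
  of `IsBa oN X`; `c ∈ G.s`. Let `γ ω k` be the least `l` with `ω ∈ rp (ρ k l)` (`0` if there is
  none); it is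
  measurable (`measurable_pi_iff`, `measurable_to_countable'`: `{ω | γ ω k = l}` is a Boolean
  combination of the sets `rp (ρ k l')`). Claims: `c ⊓ ρ k l ≤ cl {γ ω k = l}` and conversely.
  In every `NG G'` with `c ∈ G'.s`: `X` is a function from `oN` to `oN`; so `c ≤ ⨆ l, ρ k l`
  (there is
  `y ∈ oN` with `Val X (nn k) y`; `st_bex` over `nn`, the truth value of `Val X (nn k) (nn l)` is
  `ρ k l`:
  `val_iff`, `EG_mk`) and `c ⊓ ρ k l ⊓ ρ k l' = ⊥` for `l ≠ l'` (`nn_eq`). So for almost all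
  `ω ∈ rp c` exactly one `l` has `ω ∈ rp (ρ k l)`. Then `c ≤ eq (rt nn nn ρ) (nf μ γ)`
  (`rt_eq_le`), and in
  `NG G`: `X = rt nn nn ρ` (`rel_rep`: every element of `X` is a pair `(x, y)` with `x ∈ oN`
  (first clause of
  `IsFun`) and `y ∈ oN` (`IsTo`)). -/

set_option autoImplicit false

namespace RVI

open MeasureTheory STP STP.BSet CPI

section

variable {Ω : Type} [MeasurableSpace Ω] {μ : Measure Ω} [IsProbabilityMeasure μ]
  (G : Ult (RO (Ps μ)))

private theorem trb_ms (g : RF Ω) (k l : ℕ) : MeasurableSet {ω | g.1 ω k = l} :=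
  (measurable_pi_iff.1 g.2 k) (MeasurableSet.of_discrete (s := {l}))

theorem ba_nf (g : RF Ω) : IsBa (EG G) (NG.mk G oN) (NG.mk G (nf μ g)) := by
  refine ⟨⟨?_, ?_, ?_⟩, ?_⟩
  · intro p hp
    obtain ⟨x, y, hx, -, h⟩ := rt_pair nn nn _ G p hp
    exact ⟨x, y, hx, h⟩
  · intro x hx
    refine st_all nn (fun _ => ⊤) (fun G x => ∃ y, Val (EG G) (NG.mk G (nf μ g)) x y)
      (fun k G _ => ?_) G x hx
    have h1 := (st_bex nn (fun _ => ⊤)
      (fun G y => Val (EG G) (NG.mk G (nf μ g)) (NG.mk G (nn k)) y)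
      (fun l => cl μ {ω | g.1 ω k = l}) (fun l G => nf_val G g k l) G).2 ?_
    · obtain ⟨y, -, hy⟩ := h1
      exact ⟨y, hy⟩
    · have h2 : (⨆ l, (⊤ ⊓ cl μ {ω | g.1 ω k = l})) = ⊤ := by
        simp only [top_inf_eq]
        rw [← cl_iUnion fun l => (trb_ms g k l).nullMeasurableSet, ← cl_univ]
        congr 1
        ext ω
        simp
      rw [h2]
      exact G.top
  · intro x y z hy hz
    obtain ⟨hx, hyo⟩ := rt_val_mem hy
    obtain ⟨-, hzo⟩ := rt_val_mem hz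
    refine st_all nn (fun _ => ⊤) (fun G x => ∀ y, EG G y (NG.mk G oN) → ∀ z,
      EG G z (NG.mk G oN) → Val (EG G) (NG.mk G (nf μ g)) x y →
      Val (EG G) (NG.mk G (nf μ g)) x z → y = z) (fun k G _ y hy => ?_) G x hx y hyo z hzo hy hz
    refine st_all nn (fun _ => ⊤) (fun G y => ∀ z,
      EG G z (NG.mk G oN) → Val (EG G) (NG.mk G (nf μ g)) (NG.mk G (nn k)) y →
      Val (EG G) (NG.mk G (nf μ g)) (NG.mk G (nn k)) z → y = z) (fun l G _ z hz => ?_) G y hy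
    refine st_all nn (fun _ => ⊤) (fun G z =>
      Val (EG G) (NG.mk G (nf μ g)) (NG.mk G (nn k)) (NG.mk G (nn l)) →
      Val (EG G) (NG.mk G (nf μ g)) (NG.mk G (nn k)) z → NG.mk G (nn l) = z)
      (fun l' G _ h1 h2 => ?_) G z hz
    rw [nf_val] at h1 h2
    rw [nn_eq]
    by_contra hne
    have h3 := G.inf h1 h2
    rw [← cl_inter (trb_ms g k l).nullMeasurableSet (trb_ms g k l').nullMeasurableSet] at h3
    have h4 : {ω | g.1 ω k = l} ∩ {ω | g.1 ω k = l'} = ∅ := by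
      ext ω
      simp only [Set.mem_inter_iff, Set.mem_ofPred_eq, Set.mem_empty_iff_false, iff_false]
      rintro ⟨h5, h6⟩
      exact hne (h5.symm.trans h6)
    rw [h4, cl_empty] at h3
    exact G.bot h3
  · intro x y h
    exact (rt_val_mem h).2

private theorem trb_fun (c : RO (Ps μ)) (ρ : ℕ → ℕ → RO (Ps μ)) (h1 : ∀ k, c ≤ ⨆ l, ρ k l)
    (h2 : ∀ k l l', l ≠ l' → c ⊓ ρ k l ⊓ ρ k l' ≤ ⊥) :
    ∃ γ : RF Ω, ∀ k l, c ⊓ ρ k l ≤ cl μ {ω | γ.1 ω k = l} ∧
      c ⊓ cl μ {ω | γ.1 ω k = l} ≤ ρ k l := by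
  classical
  let p : ℕ → Ω → ℕ → Prop := fun k ω l => ω ∈ rp (ρ k l) ∨ ∀ l', ω ∉ rp (ρ k l')
  have hp : ∀ k ω, ∃ l, p k ω l := by
    intro k ω
    by_cases h : ∃ l, ω ∈ rp (ρ k l)
    · obtain ⟨l, hl⟩ := h
      exact ⟨l, Or.inl hl⟩
    · push Not at h
      exact ⟨0, Or.inr h⟩
  have hpm : ∀ k l, MeasurableSet {ω | p k ω l} := by
    intro k l
    have h3 : {ω | p k ω l} = rp (ρ k l) ∪ ⋂ l', (rp (ρ k l'))ᶜ := by
      ext ω
      simp only [Set.mem_ofPred_eq, Set.mem_union, Set.mem_iInter, Set.mem_compl_iff, p]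
    rw [h3]
    exact (rp_meas _).union (MeasurableSet.iInter fun l' => (rp_meas _).compl)
  have hm : Measurable fun ω k => Nat.find (hp k ω) := by
    rw [measurable_pi_iff]
    exact fun k => measurable_find (hp k) (hpm k)
  refine ⟨⟨fun ω k => Nat.find (hp k ω), hm⟩, fun k l => ?_⟩
  have hml : MeasurableSet {ω | Nat.find (hp k ω) = l} :=
    (measurable_pi_iff.1 hm k) (MeasurableSet.of_discrete (s := {l}))
  have e1 : ∀ᵐ ω ∂μ, ω ∈ rp c → ω ∈ ⋃ l, rp (ρ k l) := by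
    refine (cl_le (rp_meas _).nullMeasurableSet
      (MeasurableSet.iUnion fun l => rp_meas _).nullMeasurableSet).1 ?_
    rw [cl_iUnion fun l => (rp_meas _).nullMeasurableSet]
    simp only [cl_rp]
    exact h1 k
  have e2 : ∀ᵐ ω ∂μ, ∀ l l', l ≠ l' → ω ∉ rp c ∩ rp (ρ k l) ∩ rp (ρ k l') := by
    rw [ae_all_iff]
    intro l
    rw [ae_all_iff]
    intro l'
    by_cases hl : l = l'
    · exact ae_of_all _ fun ω h => absurd hl h
    · have h3 : μ (rp c ∩ rp (ρ k l) ∩ rp (ρ k l')) = 0 := by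
        rw [← cl_eq_bot (((rp_meas _).inter (rp_meas _)).inter (rp_meas _)).nullMeasurableSet,
          cl_inter ((rp_meas _).inter (rp_meas _)).nullMeasurableSet
            (rp_meas _).nullMeasurableSet,
          cl_inter (rp_meas _).nullMeasurableSet (rp_meas _).nullMeasurableSet, cl_rp, cl_rp,
          cl_rp]
        exact le_bot_iff.1 (h2 k l l' hl)
      filter_upwards [measure_eq_zero_iff_ae_notMem.1 h3] with ω hω _
      exact hω
  have ec : c = cl μ (rp c) := (cl_rp c).symm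
  have er : ρ k l = cl μ (rp (ρ k l)) := (cl_rp _).symm
  constructor
  · rw [ec, er, ← cl_inter (rp_meas _).nullMeasurableSet (rp_meas _).nullMeasurableSet,
      cl_le ((rp_meas _).inter (rp_meas _)).nullMeasurableSet hml.nullMeasurableSet]
    filter_upwards [e2] with ω hω
    intro h
    have h : ω ∈ rp c ∩ rp (ρ k l) := h
    change Nat.find (hp k ω) = l
    rcases Nat.find_spec (hp k ω) with h3 | h3
    · by_contra hne
      exact hω l _ (Ne.symm hne) ⟨h, h3⟩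
    · exact absurd h.2 (h3 l)
  · rw [ec, er, ← cl_inter (rp_meas _).nullMeasurableSet hml.nullMeasurableSet,
      cl_le ((rp_meas _).inter hml).nullMeasurableSet (rp_meas _).nullMeasurableSet]
    filter_upwards [e1] with ω hω
    intro h
    have h : ω ∈ rp c ∧ Nat.find (hp k ω) = l := h
    change ω ∈ rp (ρ k l)
    obtain ⟨l', hl'⟩ := Set.mem_iUnion.1 (hω h.1)
    rcases Nat.find_spec (hp k ω) with h3 | h3
    · rwa [h.2] at h3
    · exact absurd hl' (h3 l')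

theorem exists_nf {g : NG G} (h : IsBa (EG G) (NG.mk G oN) g) :
    ∃ γ : RF Ω, g = NG.mk G (nf μ γ) := by
  obtain ⟨X, rfl⟩ := NG.exists_rep g
  have hc : ∀ G : Ult (RO (Ps μ)), IsBa (EG G) (NG.mk G oN) (NG.mk G X) ↔
      tv (fun G => IsBa (EG G) (NG.mk G oN) (NG.mk G X)) ∈ G.s :=
    fun G => tv_iff (S := fun G => IsBa (EG G) (NG.mk G oN) (NG.mk G X))
  set c : RO (Ps μ) := tv fun G => IsBa (EG G) (NG.mk G oN) (NG.mk G X) with hcdef
  set ρ : ℕ → ℕ → RO (Ps μ) := fun k l => BSet.mem (opN (nn k) (nn l)) X with hρ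
  have h1 : ∀ k, c ≤ ⨆ l, ρ k l := by
    intro k
    refine Ult.mem_of_all fun G hG => ?_
    have hb := (hc G).2 hG
    obtain ⟨y, hy⟩ := hb.1.2.1 (NG.mk G (nn k)) (al_mem nn G k)
    have h2 := (st_bex nn (fun _ => ⊤)
      (fun G y => Val (EG G) (NG.mk G X) (NG.mk G (nn k)) y) (ρ k)
      (fun l G => by rw [val_iff, EG_mk]) G).1 ⟨y, hb.2 _ _ hy, hy⟩
    simp only [top_inf_eq] at h2
    exact h2
  have h2 : ∀ k l l', l ≠ l' → c ⊓ ρ k l ⊓ ρ k l' ≤ ⊥ := by
    intro k l l' hl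
    refine Ult.mem_of_all fun G hG => ?_
    obtain ⟨hG1, hG2⟩ := inf_mem.1 hG
    obtain ⟨hG3, hG4⟩ := inf_mem.1 hG1
    have hb := (hc G).2 hG3
    rw [hρ] at hG4 hG2
    beta_reduce at hG4 hG2
    rw [← EG_mk, ← val_iff] at hG4 hG2
    exact absurd ((nn_eq G).1 (hb.1.2.2 _ _ _ hG4 hG2)) hl
  obtain ⟨γ, hγ⟩ := trb_fun c ρ h1 h2
  refine ⟨γ, ?_⟩
  have h3 : c ≤ BSet.eq (rt nn nn ρ) (nf μ γ) :=
    rt_eq_le (fun k l => (hγ k l).1) fun k l => (hγ k l).2
  have h4 : NG.mk G X = NG.mk G (rt nn nn ρ) := by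
    refine rel_rep nn nn X G fun p hp => ?_
    obtain ⟨x, y, hx, hop⟩ := h.1.1 p hp
    exact ⟨x, y, hx, h.2 x y ⟨p, hp, hop⟩, hop⟩
  rw [h4]
  exact NG.mk_eq.2 (G.up ((hc G).1 h) h3)

end

end RVI
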