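import Pool.Agent.CPI.BTv
import Pool.Agent.RVI.Lang

/-! # Truth values of the notions of `Lang.lean`

(problem MP_75f27a_lc, project RVI; no sorry in this file)

`CPI.TV S`: the statement `S` about the quotients `NG G` has a truth value (a class). -/

universe u

namespace RVI

open STP STP.BSet CPI

variable {P : Type u} [PartialOrder P] (a b c d e f g x y z : BSet (RO P))

instance : TV fun G => IsPw (EG G) (NG.mk G x) (NG.mk G y) := by
  unfold IsPw
  infer_instance

instance : TV fun G => IsTo (EG G) (NG.mk G x) (NG.mk G y) := by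
  unfold IsTo
  infer_instance

instance : TV fun G => Ap (EG G) (NG.mk G a) (NG.mk G b) (NG.mk G c) (NG.mk G d) := by
  unfold Ap
  infer_instance

instance : TV fun G => IsRs (EG G) (NG.mk G x) (NG.mk G y) (NG.mk G z) := by
  unfold IsRs
  infer_instance

instance : TV fun G => IsBa (EG G) (NG.mk G x) (NG.mk G y) := by
  unfold IsBa
  infer_instance

instance : TV fun G => Br1 (EG G) (NG.mk G x) (NG.mk G y) (NG.mk G z) := by
  unfold Br1
  infer_instance

instance : TV fun G => Br2 (EG G) (NG.mk G x) (NG.mk G y) (NG.mk G z) (NG.mk G a) := by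
  unfold Br2
  infer_instance

instance : TV fun G => IsAn1 (EG G) (NG.mk G x) (NG.mk G y) (NG.mk G z) := by
  unfold IsAn1
  infer_instance

instance : TV fun G => IsRel (EG G) (NG.mk G x) (NG.mk G y) := by
  unfold IsRel
  infer_instance

instance : TV fun G => IsAn2 (EG G) (NG.mk G x) (NG.mk G y) (NG.mk G z) := by
  unfold IsAn2
  infer_instance

instance : TV fun G => IsUA (EG G) (NG.mk G x) (NG.mk G y) (NG.mk G z) := by
  unfold IsUA
  infer_instance

instance : TV fun G => IsSg (EG G) (NG.mk G x) (NG.mk G y) (NG.mk G z) := by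
  unfold IsSg
  infer_instance

instance : TV fun G : Ult (RO P) => UASigma (EG G) := by
  unfold UASigma
  infer_instance

end RVI
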