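import Pool.Agent.RVI.UmA
import Pool.Agent.RVI.RnA

/-! # The limit measure and its density (package UB)

(problem MP_75f27a_lc, project RVI)

`hU.exists_const` for `T := ℝ≥0∞` (`#ℝ≥0∞ ≤ 𝔠 = 2 ^ ℵ₀ < #K` by `hU.pow_lt hU.unc`) gives, for
every measurable
`b`, a number `v b` with `{ξ | μ (b ∩ rp (ψ ξ)) = v b} ∈ U`. Let
`φ := Measure.ofMeasurable (fun b _ => v b) _ _`:
`v ∅ = 0` (a set in `U` is not empty); for disjoint measurable `b n` the intersection of the sets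
in `U`
for all `b n` and for `⋃ b n` is in `U` (`inter_nat`), take a `ξ` in it: additivity of `μ` gives
`v (⋃ b n) = ∑' v (b n)`. `φ b ≤ μ b`, so `φ` is finite and `φ ≪ μ`. Let
`f ω := (φ.rnDeriv μ ω).toReal`:
`∫⁻ ω in b, φ.rnDeriv μ ω ∂μ = φ b` (`Measure.setLIntegral_rnDeriv`), and `φ.rnDeriv μ < ∞` a.e.
(`Measure.rnDeriv_lt_top`), so `ENNReal.ofReal (f ω) = φ.rnDeriv μ ω` a.e. -/

set_option autoImplicit false

namespace RVI

open MeasureTheory STP Cardinal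

variable {K : Type} {U : Ultrafilter K} {Ω : Type} [MeasurableSpace Ω] {μ : Measure Ω}
  [IsProbabilityMeasure μ]

private theorem mk_ennreal_lt (hU : IsMU U) : #ENNReal < #K := by
  refine lt_of_le_of_lt ?_ (hU.pow_lt hU.unc)
  have h0 : #ENNReal = #NNReal + 1 := Cardinal.mk_option
  have h1 : #NNReal ≤ 𝔠 := by
    rw [← Cardinal.mk_real]
    exact Cardinal.mk_le_of_injective NNReal.coe_injective
  rw [h0, Cardinal.two_power_aleph0]
  exact Cardinal.add_le_of_le Cardinal.aleph0_le_continuum h1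
    (Cardinal.one_le_aleph0.trans Cardinal.aleph0_le_continuum)

theorem exists_fm (hU : IsMU U) (ψ : K → RO (Ps μ)) : ∃ f : RR Ω, (∀ ω, 0 ≤ f.1 ω) ∧
    ∀ b, MeasurableSet b →
      {ξ | μ (b ∩ rp (ψ ξ)) = ∫⁻ ω in b, ENNReal.ofReal (f.1 ω) ∂μ} ∈ U := by
  have h1 : ∀ b : Set Ω, ∃ v : ENNReal, {ξ | μ (b ∩ rp (ψ ξ)) = v} ∈ U := fun b =>
    hU.exists_const (mk_ennreal_lt hU) (fun ξ => μ (b ∩ rp (ψ ξ)))
  choose v hv using h1
  have h0 : v ∅ = 0 := by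
    obtain ⟨ξ, hξ⟩ := Ultrafilter.nonempty_of_mem (hv ∅)
    have h2 : μ (∅ ∩ rp (ψ ξ)) = v ∅ := hξ
    rw [← h2, Set.empty_inter, measure_empty]
  have hUn : ∀ f : ℕ → Set Ω, ∀ _ : ∀ i, MeasurableSet (f i),
      Pairwise (Function.onFun Disjoint f) → v (⋃ i, f i) = ∑' i, v (f i) := by
    intro f hf hd
    have h2 := hU.inter_nat _ fun n => hv (f n)
    obtain ⟨ξ, h3, h4⟩ := Ultrafilter.nonempty_of_mem (Filter.inter_mem h2 (hv (⋃ i, f i)))
    have h5 : μ ((⋃ i, f i) ∩ rp (ψ ξ)) = v (⋃ i, f i) := h4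
    have h6 : ∀ n, μ (f n ∩ rp (ψ ξ)) = v (f n) := fun n => Set.mem_iInter.1 h3 n
    rw [← h5, Set.iUnion_inter, measure_iUnion]
    · exact tsum_congr h6
    · intro i j hij
      exact (hd hij).mono Set.inter_subset_left Set.inter_subset_left
    · exact fun i => (hf i).inter (rp_meas _)
  obtain ⟨φ, hφ⟩ : ∃ φ : Measure Ω, ∀ b, MeasurableSet b → φ b = v b :=
    ⟨Measure.ofMeasurable (fun b _ => v b) h0 hUn, fun b hb => Measure.ofMeasurable_apply b hb⟩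
  have hle : φ ≤ μ := by
    rw [Measure.le_iff]
    intro s hs
    obtain ⟨ξ, hξ⟩ := Ultrafilter.nonempty_of_mem (hv s)
    have h2 : μ (s ∩ rp (ψ ξ)) = v s := hξ
    rw [hφ s hs, ← h2]
    exact measure_mono Set.inter_subset_left
  have hfin : IsFiniteMeasure φ := isFiniteMeasure_of_le μ hle
  have hac : φ ≪ μ := Measure.absolutelyContinuous_of_le hle
  refine ⟨⟨fun ω => (φ.rnDeriv μ ω).toReal, (Measure.measurable_rnDeriv φ μ).ennreal_toReal⟩,
    fun ω => ENNReal.toReal_nonneg, fun b hb => ?_⟩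
  have h2 : ∫⁻ ω in b, ENNReal.ofReal ((φ.rnDeriv μ ω).toReal) ∂μ = v b := by
    rw [← hφ b hb, ← Measure.setLIntegral_rnDeriv hac b]
    refine lintegral_congr_ae (ae_restrict_of_ae ?_)
    filter_upwards [Measure.rnDeriv_lt_top φ μ] with ω hω
    exact ENNReal.ofReal_toReal hω.ne
  have h3 : {ξ | μ (b ∩ rp (ψ ξ)) = ∫⁻ ω in b, ENNReal.ofReal ((φ.rnDeriv μ ω).toReal) ∂μ} ∈ U := by
    rw [h2]
    exact hv b
  exact h3

/-- the density of the limit measure -/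
noncomputable def fm (hU : IsMU U) (ψ : K → RO (Ps μ)) : RR Ω := (exists_fm hU ψ).choose

theorem fm_nonneg (hU : IsMU U) (ψ : K → RO (Ps μ)) (ω : Ω) : 0 ≤ (fm hU ψ).1 ω :=
  (exists_fm hU ψ).choose_spec.1 ω

theorem fm_spec (hU : IsMU U) (ψ : K → RO (Ps μ)) {b : Set Ω} (hb : MeasurableSet b) :
    {ξ | μ (b ∩ rp (ψ ξ)) = ∫⁻ ω in b, ENNReal.ofReal ((fm hU ψ).1 ω) ∂μ} ∈ U :=
  (exists_fm hU ψ).choose_spec.2 b hb

end RVI
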