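import Pool.Agent.RVI.UmB

/-! # Properties of the density (package UC)

(problem MP_75f27a_lc, project RVI)

* `fm_eq_on`: for measurable `b ⊆ C` the hypothesis and `fm_spec` give (a set in `U` is not empty,
  and
  intersections of two sets in `U` are in `U`)
  `∫⁻ ω in b, ofReal (fm ψ ω) ∂μ = ∫⁻ ω in b, ofReal (g ω) ∂μ`. Apply
  `ae_eq_of_forall_setLIntegral_eq_of_sigmaFinite` to `μ.restrict C` (for measurable `s`:
  `(μ.restrict C).restrict s = μ.restrict (s ∩ C)`); `ofReal` is injective on nonnegative numbers.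
* `fm_le_on`: the same with `≤` (`ae_le_of_forall_setLIntegral_le_of_sigmaFinite`).
* `rp_inf`: `b ∩ rp x` and `b ∩ rp y` are a.e. equal if `b ⊆ rp c` and `c ⊓ x ≤ y`, `c ⊓ y ≤ x`
  (`cl_rp`, `cl_inter`, `cl_le`).
* `fm_congr`: `fm_eq_on` for `C := rp c`, `g := fm ψ'` (`rp_inf`, `measure_congr`, `fm_spec`), and
  then
  `c = cl (rp c) ≤ cl {..}` by `cl_le`.
* `fm_top`: `C := univ`, `g := 1`: `rp ⊤` is a.e. `univ` (`cl_eq`, `cl_univ`),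
  `∫⁻ ω in b, ofReal 1 = μ b`.
* `fm_bot_ev`: if `{ξ | c ⊓ ψ ξ = ⊥} ∈ U` then `c ≤ cl {fm ψ = 0}`: `C := rp c`, `g := 0`: for
  such `ξ` and
  `b ⊆ C` `μ (b ∩ rp (ψ ξ)) = 0`. `fm_point`: `{a}ᶜ ∈ U` and there `chi (ξ = a) = ⊥`; `c := ⊤`.
* `fm_add`: `C := rp c`, `g := fm ψ + fm ψ'`: for measurable `b ⊆ C` and `ξ` in the intersection
  of the
  two sets of `fm_spec`: `b ∩ rp (ψ ξ ⊔ ψ' ξ)` is a.e. the union of the a.e. disjoint sets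
  `b ∩ rp (ψ ξ)` and
  `b ∩ rp (ψ' ξ)` (`cl_union`, `c ⊓ ψ ξ ⊓ ψ' ξ = ⊥`), `measure_union₀`, `lintegral_add_left`,
  `ENNReal.ofReal_add`. -/

set_option autoImplicit false

namespace RVI

open MeasureTheory STP Cardinal

variable {K : Type} {U : Ultrafilter K} {Ω : Type} [MeasurableSpace Ω] {μ : Measure Ω}
  [IsProbabilityMeasure μ]

private theorem exU {P Q : K → Prop} (h : {ξ | P ξ} ∈ U) (h' : {ξ | Q ξ} ∈ U) :
    ∃ ξ, P ξ ∧ Q ξ := by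
  obtain ⟨ξ, h1, h2⟩ := U.nonempty_of_mem (Filter.inter_mem h h')
  exact ⟨ξ, h1, h2⟩

theorem fm_eq_on (hU : IsMU U) (ψ : K → RO (Ps μ)) {C : Set Ω} (hC : MeasurableSet C)
    (g : RR Ω) (hg : ∀ ω, 0 ≤ g.1 ω) (h : ∀ b, MeasurableSet b → b ⊆ C →
      {ξ | μ (b ∩ rp (ψ ξ)) = ∫⁻ ω in b, ENNReal.ofReal (g.1 ω) ∂μ} ∈ U) :
    ∀ᵐ ω ∂μ, ω ∈ C → (fm hU ψ).1 ω = g.1 ω := by
  have key : (fun ω => ENNReal.ofReal ((fm hU ψ).1 ω)) =ᵐ[μ.restrict C]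
      (fun ω => ENNReal.ofReal (g.1 ω)) := by
    refine ae_eq_of_forall_setLIntegral_eq_of_sigmaFinite
      (fm hU ψ).2.ennreal_ofReal g.2.ennreal_ofReal ?_
    intro s hs _
    rw [Measure.restrict_restrict hs]
    obtain ⟨ξ, h1, h2⟩ := exU (fm_spec hU ψ (hs.inter hC))
      (h (s ∩ C) (hs.inter hC) Set.inter_subset_right)
    rw [← h1, ← h2]
  have key2 := (ae_restrict_iff' hC).1 key
  filter_upwards [key2] with ω hω hωC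
  exact (ENNReal.ofReal_eq_ofReal_iff (fm_nonneg hU ψ ω) (hg ω)).1 (hω hωC)

theorem fm_le_on (hU : IsMU U) (ψ : K → RO (Ps μ)) {C : Set Ω} (hC : MeasurableSet C)
    (g : RR Ω) (h : ∀ b, MeasurableSet b → b ⊆ C →
      {ξ | μ (b ∩ rp (ψ ξ)) ≤ ∫⁻ ω in b, ENNReal.ofReal (g.1 ω) ∂μ} ∈ U) :
    ∀ᵐ ω ∂μ, ω ∈ C → ENNReal.ofReal ((fm hU ψ).1 ω) ≤ ENNReal.ofReal (g.1 ω) := by
  have key : (fun ω => ENNReal.ofReal ((fm hU ψ).1 ω)) ≤ᵐ[μ.restrict C]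
      (fun ω => ENNReal.ofReal (g.1 ω)) := by
    refine ae_le_of_forall_setLIntegral_le_of_sigmaFinite
      (fm hU ψ).2.ennreal_ofReal ?_
    intro s hs _
    rw [Measure.restrict_restrict hs]
    obtain ⟨ξ, h1, h2⟩ := exU (fm_spec hU ψ (hs.inter hC))
      (h (s ∩ C) (hs.inter hC) Set.inter_subset_right)
    rw [← h1]
    exact h2
  exact (ae_restrict_iff' hC).1 key

private theorem nm (b : RO (Ps μ)) : NullMeasurableSet (rp b) μ := (rp_meas b).nullMeasurableSet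

private theorem le_ae {c x y : RO (Ps μ)} (h : c ⊓ x ≤ y) :
    ∀ᵐ ω ∂μ, ω ∈ rp c → ω ∈ rp x → ω ∈ rp y := by
  have h1 : cl μ (rp c ∩ rp x) ≤ cl μ (rp y) := by
    rw [cl_inter (nm c) (nm x), cl_rp, cl_rp, cl_rp]
    exact h
  have h2 := (cl_le ((nm c).inter (nm x)) (nm y)).1 h1
  filter_upwards [h2] with ω hω h3 h4
  exact hω ⟨h3, h4⟩

theorem rp_inf {c x y : RO (Ps μ)} (h : c ⊓ x ≤ y) (h' : c ⊓ y ≤ x) {b : Set Ω}
    (hb : b ⊆ rp c) : (b ∩ rp x : Set Ω) =ᵐ[μ] (b ∩ rp y : Set Ω) := by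
  filter_upwards [le_ae h, le_ae h'] with ω h1 h2
  refine propext ⟨fun h3 => ?_, fun h3 => ?_⟩
  · exact ⟨h3.1, h1 (hb h3.1) h3.2⟩
  · exact ⟨h3.1, h2 (hb h3.1) h3.2⟩

private theorem le_cl {c : RO (Ps μ)} {A : Set Ω} (hA : MeasurableSet A)
    (h : ∀ᵐ ω ∂μ, ω ∈ rp c → ω ∈ A) : c ≤ cl μ A := by
  have h1 : cl μ (rp c) ≤ cl μ A := (cl_le (nm c) hA.nullMeasurableSet).2 h
  rwa [cl_rp] at h1

theorem fm_congr (hU : IsMU U) (ψ ψ' : K → RO (Ps μ)) (c : RO (Ps μ))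
    (h : ∀ ξ, c ⊓ ψ ξ ≤ ψ' ξ) (h' : ∀ ξ, c ⊓ ψ' ξ ≤ ψ ξ) :
    c ≤ cl μ {ω | (fm hU ψ).1 ω = (fm hU ψ').1 ω} := by
  refine le_cl (measurableSet_eq_fun (fm hU ψ).2 (fm hU ψ').2) ?_
  refine fm_eq_on hU ψ (rp_meas c) (fm hU ψ') (fm_nonneg hU ψ') ?_
  intro b hb hbc
  filter_upwards [fm_spec hU ψ' hb] with ξ hξ
  rw [← hξ]
  exact measure_congr (rp_inf (h ξ) (h' ξ) hbc)

theorem fm_top (hU : IsMU U) : ∀ᵐ ω ∂μ, (fm hU fun _ : K => (⊤ : RO (Ps μ))).1 ω = 1 := by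
  have htop : (rp (⊤ : RO (Ps μ)) : Set Ω) =ᵐ[μ] (Set.univ : Set Ω) := by
    rw [← cl_eq (nm _) MeasurableSet.univ.nullMeasurableSet, cl_rp, cl_univ]
  have key := fm_eq_on hU (fun _ : K => (⊤ : RO (Ps μ))) MeasurableSet.univ
    (⟨fun _ => 1, measurable_const⟩ : RR Ω) (fun _ => zero_le_one) (by
      intro b hb _
      refine Filter.Eventually.of_forall fun ξ => ?_
      have e1 : (b ∩ rp (⊤ : RO (Ps μ)) : Set Ω) =ᵐ[μ] (b ∩ Set.univ : Set Ω) :=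
        (Filter.EventuallyEq.refl _ _).inter htop
      show μ (b ∩ rp (⊤ : RO (Ps μ))) = ∫⁻ _ω in b, ENNReal.ofReal 1 ∂μ
      rw [measure_congr e1, Set.inter_univ]
      simp)
  filter_upwards [key] with ω hω
  exact hω (Set.mem_univ ω)

theorem fm_bot_ev (hU : IsMU U) (ψ : K → RO (Ps μ)) (c : RO (Ps μ))
    (h : {ξ | c ⊓ ψ ξ = ⊥} ∈ U) : c ≤ cl μ {ω | (fm hU ψ).1 ω = 0} := by
  refine le_cl (measurableSet_eq_fun (fm hU ψ).2 measurable_const) ?_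
  refine fm_eq_on hU ψ (rp_meas c) (⟨fun _ => 0, measurable_const⟩ : RR Ω)
    (fun _ => le_refl _) ?_
  intro b hb hbc
  filter_upwards [h] with ξ hξ
  have h1 : μ (rp c ∩ rp (ψ ξ)) = 0 := by
    rw [← cl_eq_bot ((nm c).inter (nm _)), cl_inter (nm c) (nm _), cl_rp, cl_rp, hξ]
  have h2 : μ (b ∩ rp (ψ ξ)) = 0 :=
    measure_mono_null (Set.inter_subset_inter_left _ hbc) h1
  rw [h2]
  simp

theorem fm_point (hU : IsMU U) (a : K) :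
    ∀ᵐ ω ∂μ, (fm hU fun ξ : K => (chi (ξ = a) : RO (Ps μ))).1 ω = 0 := by
  have h1 : {ξ : K | (⊤ : RO (Ps μ)) ⊓ chi (ξ = a) = ⊥} ∈ U := by
    have h2 : {a}ᶜ ∈ U := Ultrafilter.compl_mem_iff_notMem.2 (hU.np a)
    filter_upwards [h2] with ξ hξ
    have h3 : ¬ ξ = a := hξ
    rw [top_inf_eq, chi]
    simp [h3]
  have h4 := fm_bot_ev hU (fun ξ : K => (chi (ξ = a) : RO (Ps μ))) ⊤ h1
  rw [← cl_univ, cl_le MeasurableSet.univ.nullMeasurableSet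
    (measurableSet_eq_fun (fm hU _).2 measurable_const).nullMeasurableSet] at h4
  filter_upwards [h4] with ω hω
  exact hω (Set.mem_univ ω)

theorem fm_add (hU : IsMU U) (ψ ψ' : K → RO (Ps μ)) (c : RO (Ps μ))
    (h : ∀ ξ, c ⊓ (ψ ξ ⊓ ψ' ξ) = ⊥) :
    c ≤ cl μ {ω | (fm hU fun ξ => ψ ξ ⊔ ψ' ξ).1 ω = (fm hU ψ).1 ω + (fm hU ψ').1 ω} := by
  have hm : Measurable fun ω => (fm hU ψ).1 ω + (fm hU ψ').1 ω :=
    (fm hU ψ).2.add (fm hU ψ').2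
  refine le_cl (measurableSet_eq_fun (fm hU _).2 hm) ?_
  refine fm_eq_on hU (fun ξ => ψ ξ ⊔ ψ' ξ) (rp_meas c) (⟨_, hm⟩ : RR Ω)
    (fun ω => add_nonneg (fm_nonneg hU ψ ω) (fm_nonneg hU ψ' ω)) ?_
  intro b hb hbc
  filter_upwards [fm_spec hU ψ hb, fm_spec hU ψ' hb] with ξ hξ hξ'
  have e1 : (rp (ψ ξ ⊔ ψ' ξ) : Set Ω) =ᵐ[μ] (rp (ψ ξ) ∪ rp (ψ' ξ) : Set Ω) := by
    rw [← cl_eq (nm _) ((nm _).union (nm _)), cl_union (nm _) (nm _), cl_rp, cl_rp, cl_rp]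
  have e2 : (b ∩ rp (ψ ξ ⊔ ψ' ξ) : Set Ω) =ᵐ[μ] (b ∩ (rp (ψ ξ) ∪ rp (ψ' ξ)) : Set Ω) :=
    (Filter.EventuallyEq.refl _ _).inter e1
  have e3 : μ (rp c ∩ (rp (ψ ξ) ∩ rp (ψ' ξ))) = 0 := by
    rw [← cl_eq_bot ((nm c).inter ((nm _).inter (nm _))), cl_inter (nm c) ((nm _).inter (nm _)),
      cl_inter (nm _) (nm _), cl_rp, cl_rp, cl_rp, h ξ]
  have e4 : AEDisjoint μ (b ∩ rp (ψ ξ)) (b ∩ rp (ψ' ξ)) := by
    refine measure_mono_null ?_ e3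
    rintro ω ⟨⟨h1, h2⟩, ⟨_, h3⟩⟩
    exact ⟨hbc h1, h2, h3⟩
  rw [measure_congr e2, Set.inter_union_distrib_left,
    measure_union₀ (hb.inter (rp_meas _)).nullMeasurableSet e4, hξ, hξ',
    ← lintegral_add_left (fm hU ψ).2.ennreal_ofReal]
  refine lintegral_congr fun ω => ?_
  exact (ENNReal.ofReal_add (fm_nonneg hU ψ ω) (fm_nonneg hU ψ' ω)).symm

end RVI
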