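import Pool.Agent.RVI.UmC

/-! # Continuity and `#K`-additivity of the density (package UD)

(problem MP_75f27a_lc, project RVI)

* `fm_null`: `C := rp c` is measurable. For each `i` `c ≤ cl {fm (ψ i) = 0}` gives
  `∫⁻ ω in C, ofReal (fm (ψ i) ω) ∂μ = 0` (`cl_le`), so `{ξ | μ (C ∩ rp (ψ i ξ)) = 0} ∈ U`
  (`fm_spec`). By `hU.comp`
  the set of the `ξ` such that `μ (C ∩ rp (ψ i ξ)) = 0` for all `i` is in `U`; for such `ξ`:
  `c ⊓ ψ i ξ = ⊥` for all `i` (`cl_inter`, `cl_eq_bot`), so `c ⊓ ⨆ i, ψ i ξ = ⊥` (`inf_iSup_eq`).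
  Use `fm_bot_ev`.
* `fm_cont`: `C := rp c`. Let `b ⊆ C` be measurable. For `ξ` in the intersection of the sets of
  `fm_spec` for
  `b` and all `ψ n`: the sets `b ∩ rp (ψ n ξ)` are a.e. increasing (`c ⊓ ψ n ξ ≤ ψ (n + 1) ξ`), and
  `b ∩ rp (⨆ n, ψ n ξ)` is a.e. their union (`cl_iUnion`), so its measure is
  `⨆ n, μ (b ∩ rp (ψ n ξ))` (replace the
  sets by `Accumulate`; `measure_iUnion_eq_iSup_accumulate`), and every
  `μ (b ∩ rp (ψ n ξ)) = ∫⁻ ω in b, ofReal (fm (ψ n) ω) ≤ ∫⁻ ω in b, ofReal (h ω)` as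
  `fm (ψ n) ≤ h` a.e. on `b`
  (`setLIntegral_mono_ae`). So `fm_le_on` gives `ofReal (fm (⨆ ψ n)) ≤ ofReal h` a.e. on `C`, and
  `h ≥ fm (ψ 0) ≥ 0` a.e. on
  `C`, so `fm (⨆ ψ n) ≤ h` (`ENNReal.ofReal_le_ofReal_iff`). -/

set_option autoImplicit false

namespace RVI

open MeasureTheory STP Cardinal

variable {K : Type} {U : Ultrafilter K} {Ω : Type} [MeasurableSpace Ω] {μ : Measure Ω}
  [IsProbabilityMeasure μ]

private theorem ud_le {c : RO (Ps μ)} {A : Set Ω} (hA : MeasurableSet A)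
    (h : c ≤ cl μ A) : ∀ᵐ ω ∂μ, ω ∈ rp c → ω ∈ A := by
  have h1 : cl μ (rp c) ≤ cl μ A := by
    rw [cl_rp]
    exact h
  exact (cl_le (rp_meas c).nullMeasurableSet hA.nullMeasurableSet).1 h1

theorem fm_null (hU : IsMU U) {I : Type} (hI : #I < #K) (ψ : I → K → RO (Ps μ))
    (c : RO (Ps μ)) (h : ∀ i, c ≤ cl μ {ω | (fm hU (ψ i)).1 ω = 0}) :
    c ≤ cl μ {ω | (fm hU fun ξ => ⨆ i, ψ i ξ).1 ω = 0} := by
  have h1 : ∀ i, {ξ | μ (rp c ∩ rp (ψ i ξ)) = 0} ∈ U := by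
    intro i
    have hm : MeasurableSet {ω | (fm hU (ψ i)).1 ω = 0} :=
      (fm hU (ψ i)).2 (measurableSet_singleton 0)
    have h2 := ud_le (c := c) hm (h i)
    have h3 : ∫⁻ ω in rp c, ENNReal.ofReal ((fm hU (ψ i)).1 ω) ∂μ = 0 := by
      rw [setLIntegral_congr_fun_ae (g := fun _ => 0) (rp_meas c), lintegral_zero]
      filter_upwards [h2] with ω hω hωc
      have h4 : (fm hU (ψ i)).1 ω = 0 := hω hωc
      rw [h4, ENNReal.ofReal_zero]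
    have h4 := fm_spec hU (ψ i) (rp_meas c)
    rw [h3] at h4
    exact h4
  refine fm_bot_ev hU _ c (Filter.mem_of_superset (hU.comp I _ hI h1) fun ξ hξ => ?_)
  have h2 : ∀ i, c ⊓ ψ i ξ = ⊥ := by
    intro i
    have h3 : μ (rp c ∩ rp (ψ i ξ)) = 0 := Set.mem_iInter.1 hξ i
    have h4 := (cl_eq_bot ((rp_meas c).inter (rp_meas (ψ i ξ))).nullMeasurableSet).2 h3
    rw [cl_inter (rp_meas c).nullMeasurableSet (rp_meas (ψ i ξ)).nullMeasurableSet, cl_rp,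
      cl_rp] at h4
    exact h4
  change c ⊓ ⨆ i, ψ i ξ = ⊥
  rw [inf_iSup_eq]
  simp only [h2, iSup_bot]

omit [IsProbabilityMeasure μ] in
private theorem ud_acc {s : ℕ → Set Ω} (h : ∀ n, s n ≤ᵐ[μ] s (n + 1)) (n : ℕ) :
    (Set.accumulate s n : Set Ω) ≤ᵐ[μ] s n := by
  induction n with
  | zero =>
    rw [Set.accumulate_zero_nat]
  | succ n ih =>
    have h1 : Set.accumulate s (n + 1) = Set.accumulate s n ∪ s (n + 1) :=
      Set.accumulate_succ s n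
    rw [h1]
    filter_upwards [ih, h n] with ω h2 h3 h4
    rcases h4 with h5 | h5
    · exact h3 (h2 h5)
    · exact h5

theorem fm_cont (hU : IsMU U) (ψ : ℕ → K → RO (Ps μ)) (c : RO (Ps μ))
    (hm : ∀ n ξ, c ⊓ ψ n ξ ≤ ψ (n + 1) ξ) (g : RR Ω)
    (h : ∀ n, c ≤ cl μ {ω | (fm hU (ψ n)).1 ω ≤ g.1 ω}) :
    c ≤ cl μ {ω | (fm hU fun ξ => ⨆ n, ψ n ξ).1 ω ≤ g.1 ω} := by
  have h1 : ∀ n, ∀ᵐ ω ∂μ, ω ∈ rp c → (fm hU (ψ n)).1 ω ≤ g.1 ω := fun n =>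
    ud_le (c := c) (measurableSet_le (fm hU (ψ n)).2 g.2) (h n)
  have h2 : ∀ᵐ ω ∂μ, ω ∈ rp c →
      ENNReal.ofReal ((fm hU fun ξ => ⨆ n, ψ n ξ).1 ω) ≤ ENNReal.ofReal (g.1 ω) := by
    refine fm_le_on hU _ (rp_meas c) g fun b hb hbc => ?_
    refine Filter.mem_of_superset
      (hU.inter_nat _ fun n => fm_spec hU (ψ n) hb) fun ξ hξ => ?_
    change μ (b ∩ rp (⨆ n, ψ n ξ)) ≤ ∫⁻ ω in b, ENNReal.ofReal (g.1 ω) ∂μ
    have hs : ∀ n, (b ∩ rp (ψ n ξ) : Set Ω) ≤ᵐ[μ] (b ∩ rp (ψ (n + 1) ξ) : Set Ω) := by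
      intro n
      have h3 : cl μ (rp c ∩ rp (ψ n ξ)) ≤ cl μ (rp (ψ (n + 1) ξ)) := by
        rw [cl_inter (rp_meas c).nullMeasurableSet (rp_meas _).nullMeasurableSet, cl_rp, cl_rp,
          cl_rp]
        exact hm n ξ
      have h4 := (cl_le ((rp_meas c).inter (rp_meas _)).nullMeasurableSet
        (rp_meas _).nullMeasurableSet).1 h3
      filter_upwards [h4] with ω hω hω'
      exact ⟨hω'.1, hω ⟨hbc hω'.1, hω'.2⟩⟩
    have hu : (b ∩ rp (⨆ n, ψ n ξ) : Set Ω) ≤ᵐ[μ] (⋃ n, b ∩ rp (ψ n ξ) : Set Ω) := by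
      have h3 : cl μ (rp (⨆ n, ψ n ξ)) ≤ cl μ (⋃ n, rp (ψ n ξ)) := by
        rw [cl_iUnion fun n => (rp_meas _).nullMeasurableSet, cl_rp]
        simp only [cl_rp, le_refl]
      have h4 := (cl_le (rp_meas _).nullMeasurableSet
        (MeasurableSet.iUnion fun n => rp_meas (ψ n ξ)).nullMeasurableSet).1 h3
      filter_upwards [h4] with ω hω hω'
      obtain ⟨n, hn⟩ := Set.mem_iUnion.1 (hω hω'.2)
      exact Set.mem_iUnion.2 ⟨n, hω'.1, hn⟩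
    refine (measure_mono_ae hu).trans ?_
    rw [measure_iUnion_eq_iSup_accumulate]
    refine iSup_le fun n => (measure_mono_ae (ud_acc hs n)).trans ?_
    have h3 : μ (b ∩ rp (ψ n ξ)) = ∫⁻ ω in b, ENNReal.ofReal ((fm hU (ψ n)).1 ω) ∂μ :=
      Set.mem_iInter.1 hξ n
    rw [h3]
    refine setLIntegral_mono_ae' hb ?_
    filter_upwards [h1 n] with ω hω hωb
    exact ENNReal.ofReal_le_ofReal (hω (hbc hωb))
  have h3 : cl μ (rp c) ≤ cl μ {ω | (fm hU fun ξ => ⨆ n, ψ n ξ).1 ω ≤ g.1 ω} := by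
    refine (cl_le (rp_meas c).nullMeasurableSet
      (measurableSet_le (fm hU _).2 g.2).nullMeasurableSet).2 ?_
    filter_upwards [h1 0, h2] with ω h4 h5 h6
    have h7 : 0 ≤ g.1 ω := (fm_nonneg hU (ψ 0) ω).trans (h4 h6)
    exact (ENNReal.ofReal_le_ofReal_iff h7).1 (h5 h6)
  rw [cl_rp] at h3
  exact h3

end RVI
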